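import Mathlib

/-!
Twisted Mertens functions: the mean square of `∑_{n ≤ u} μ(n) z_n` is at most the mean square over all `u`
of the sum over smooth numbers; recurrences.
-/

set_option autoImplicit false

namespace Pool.Agent.E8helper84.RM

open Finset MeasureTheory intervalIntegral
open scoped ComplexConjugate

/-- `μ(n) ∏_{p ∣ n} z p` -/
noncomputable def tw (z : ℕ → ℂ) (n : ℕ) : ℂ :=
  ((ArithmeticFunction.moebius n : ℤ) : ℂ) * ∏ p ∈ n.primeFactors, z p

/-- `∑_{n ≤ u} μ(n) ∏_{p ∣ n} z p` -/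
noncomputable def M (z : ℕ → ℂ) (u : ℝ) : ℂ := ∑ n ∈ Icc 1 ⌊u⌋₊, tw z n

/-- `∫_1^x |M(u)|² / u² du` -/
noncomputable def I (z : ℕ → ℂ) (x : ℝ) : ℝ := ∫ u in (1 : ℝ)..x, ‖M z u‖ ^ 2 / u ^ 2

/-- squarefree numbers with all prime factors at most `N` -/
noncomputable def D (N : ℕ) : Finset ℕ := (primorial N).divisors

noncomputable def A (N : ℕ) (z : ℕ → ℂ) (u : ℝ) : ℂ := ∑ n ∈ D N, if (n : ℝ) ≤ u then tw z n else 0

noncomputable def Q (N : ℕ) (z : ℕ → ℂ) : ℝ :=
  ∑ m ∈ D N, ∑ n ∈ D N, (tw z m * conj (tw z n)).re / ((max m n : ℕ) : ℝ)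

noncomputable def H (N : ℕ) (z : ℕ → ℂ) (p : ℕ) : ℂ :=
  ∑ m ∈ D N, ∑ n ∈ D N, (tw z m * conj (tw z n)) / ((max (p * m) n : ℕ) : ℂ)

lemma tw_one (z : ℕ → ℂ) : tw z 1 = 1 := by simp [tw]

lemma tw_mul {z : ℕ → ℂ} {p m : ℕ} (hp : p.Prime) (h : ¬ p ∣ m) :
    tw z (p * m) = - (z p * tw z m) := by
  have hc : Nat.Coprime p m := (Nat.Prime.coprime_iff_not_dvd hp).2 h
  unfold tw
  rw [ArithmeticFunction.isMultiplicative_moebius.map_mul_of_coprime hc,
    ArithmeticFunction.moebius_apply_prime hp, hc.primeFactors_mul, hp.primeFactors,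
    Finset.prod_union, Finset.prod_singleton]
  · push_cast; ring
  · rw [Finset.disjoint_singleton_left]
    intro hh
    exact h (Nat.dvd_of_mem_primeFactors hh)

lemma D_zero : D 0 = {1} := by
  unfold D
  have : primorial 0 = 1 := by decide
  rw [this, Nat.divisors_one]

lemma primorial_pos' (N : ℕ) : 0 < primorial N := primorial_pos N

lemma mem_D {N n : ℕ} : n ∈ D N ↔ n ∣ primorial N := by
  unfold D
  rw [Nat.mem_divisors]
  exact ⟨fun h => h.1, fun h => ⟨h, (primorial_pos N).ne'⟩⟩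

lemma D_pos {N n : ℕ} (h : n ∈ D N) : 0 < n :=
  Nat.pos_of_dvd_of_pos (mem_D.1 h) (primorial_pos N)

lemma primorial_succ_prime {N : ℕ} (h : (N + 1).Prime) : primorial (N + 1) = (N + 1) * primorial N := by
  unfold primorial
  rw [Finset.range_add_one (n := N + 1), Finset.filter_insert, if_pos h, Finset.prod_insert]
  simp

lemma primorial_succ_notprime {N : ℕ} (h : ¬ (N + 1).Prime) : primorial (N + 1) = primorial N := by
  unfold primorial
  rw [Finset.range_add_one (n := N + 1), Finset.filter_insert, if_neg h]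

lemma not_dvd_D {N m : ℕ} (hm : m ∈ D N) (h : (N + 1).Prime) : ¬ (N + 1) ∣ m := by
  intro hd
  have h1 : (N + 1) ∣ primorial N := hd.trans (mem_D.1 hm)
  unfold primorial at h1
  rw [Prime.dvd_finsetProd_iff h.prime] at h1
  obtain ⟨q, hq, hd⟩ := h1
  rw [Finset.mem_filter, Finset.mem_range] at hq
  have := (Nat.prime_dvd_prime_iff_eq h hq.2).1 hd
  omega

lemma D_succ_notprime {N : ℕ} (h : ¬ (N + 1).Prime) : D (N + 1) = D N := by
  unfold D; rw [primorial_succ_notprime h]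

lemma D_succ_prime {N : ℕ} (h : (N + 1).Prime) :
    D (N + 1) = D N ∪ (D N).image (fun m => (N + 1) * m) := by
  ext n
  rw [Finset.mem_union, Finset.mem_image, mem_D, mem_D, primorial_succ_prime h]
  constructor
  · intro hd
    by_cases hn : (N + 1) ∣ n
    · right
      obtain ⟨m, rfl⟩ := hn
      refine ⟨m, mem_D.2 ?_, rfl⟩
      exact Nat.dvd_of_mul_dvd_mul_left h.pos hd
    · left
      have hc : Nat.Coprime n (N + 1) := ((Nat.Prime.coprime_iff_not_dvd h).2 hn).symm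
      exact hc.dvd_of_dvd_mul_left hd
  · rintro (hd | ⟨m, hm, rfl⟩)
    · exact hd.mul_left _
    · exact Nat.mul_dvd_mul_left _ (mem_D.1 hm)

lemma D_disj {N : ℕ} (h : (N + 1).Prime) : Disjoint (D N) ((D N).image (fun m => (N + 1) * m)) := by
  rw [Finset.disjoint_left]
  intro n hn hn'
  obtain ⟨m, _, rfl⟩ := Finset.mem_image.1 hn'
  exact not_dvd_D hn h (dvd_mul_right _ _)

lemma sum_D_succ {N : ℕ} (h : (N + 1).Prime) {E : Type*} [AddCommMonoid E] (f : ℕ → E) :
    ∑ n ∈ D (N + 1), f n = ∑ n ∈ D N, f n + ∑ n ∈ D N, f ((N + 1) * n) := by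
  rw [D_succ_prime h, Finset.sum_union (D_disj h), Finset.sum_image]
  intro a _ b _ hab
  exact Nat.eq_of_mul_eq_mul_left h.pos hab

theorem Q_succ_prime {N : ℕ} (h : (N + 1).Prime) (z : ℕ → ℂ) :
    Q (N + 1) z = Q N z * (1 + ‖z (N + 1)‖ ^ 2 / ((N + 1 : ℕ) : ℝ)) -
      2 * (z (N + 1) * H N z (N + 1)).re := by
  obtain ⟨p, hp⟩ : ∃ p, p = N + 1 := ⟨_, rfl⟩
  have hpp : p.Prime := by rw [hp]; exact h
  have htw : ∀ m ∈ D N, tw z (p * m) = -(z p * tw z m) := fun m hm =>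
    tw_mul hpp (by rw [hp]; exact not_dvd_D hm h)
  have e1 : Q (N + 1) z = Q N z +
      ∑ m ∈ D N, ∑ n ∈ D N, (tw z m * conj (tw z (p * n))).re / ((max m (p * n) : ℕ) : ℝ) +
      (∑ m ∈ D N, ∑ n ∈ D N, (tw z (p * m) * conj (tw z n)).re / ((max (p * m) n : ℕ) : ℝ) +
      ∑ m ∈ D N, ∑ n ∈ D N, (tw z (p * m) * conj (tw z (p * n))).re /
        ((max (p * m) (p * n) : ℕ) : ℝ)) := by
    unfold Q
    rw [sum_D_succ h]
    simp_rw [sum_D_succ h]
    rw [Finset.sum_add_distrib, Finset.sum_add_distrib, ← hp]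
  have e2 : ∑ m ∈ D N, ∑ n ∈ D N, (tw z (p * m) * conj (tw z (p * n))).re /
        ((max (p * m) (p * n) : ℕ) : ℝ) = Q N z * (‖z p‖ ^ 2 / (p : ℝ)) := by
    unfold Q
    rw [Finset.sum_mul]
    refine Finset.sum_congr rfl fun m hm => ?_
    rw [Finset.sum_mul]
    refine Finset.sum_congr rfl fun n hn => ?_
    rw [htw m hm, htw n hn, ← mul_max]
    have e : -(z p * tw z m) * conj (-(z p * tw z n)) =
        ((‖z p‖ ^ 2 : ℝ) : ℂ) * (tw z m * conj (tw z n)) := by
      rw [← Complex.normSq_eq_norm_sq, Complex.normSq_eq_conj_mul_self]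
      simp only [map_neg, map_mul]
      ring
    rw [e, Complex.re_ofReal_mul]
    have hp0 : (p : ℝ) ≠ 0 := by exact_mod_cast hpp.pos.ne'
    have hm0 : ((max m n : ℕ) : ℝ) ≠ 0 := by
      have := D_pos hm
      have : 0 < max m n := lt_of_lt_of_le this (le_max_left _ _)
      exact_mod_cast this.ne'
    push_cast
    push_cast at hm0
    field_simp
  have e3 : ∑ m ∈ D N, ∑ n ∈ D N, (tw z (p * m) * conj (tw z n)).re / ((max (p * m) n : ℕ) : ℝ) =
      -(z p * H N z p).re := by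
    unfold H
    rw [Finset.mul_sum, Complex.re_sum, ← Finset.sum_neg_distrib]
    refine Finset.sum_congr rfl fun m hm => ?_
    rw [Finset.mul_sum, Complex.re_sum, ← Finset.sum_neg_distrib]
    refine Finset.sum_congr rfl fun n hn => ?_
    rw [htw m hm]
    have e : z p * (tw z m * conj (tw z n) / ((max (p * m) n : ℕ) : ℂ)) =
        (z p * tw z m * conj (tw z n)) / (((max (p * m) n : ℕ) : ℝ) : ℂ) := by
      rw [Complex.ofReal_natCast]; ring
    rw [e, Complex.div_ofReal_re]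
    have e' : -(z p * tw z m) * conj (tw z n) = -(z p * tw z m * conj (tw z n)) := by ring
    rw [e', Complex.neg_re, neg_div]
  have e4 : ∑ m ∈ D N, ∑ n ∈ D N, (tw z m * conj (tw z (p * n))).re / ((max m (p * n) : ℕ) : ℝ) =
      ∑ m ∈ D N, ∑ n ∈ D N, (tw z (p * m) * conj (tw z n)).re / ((max (p * m) n : ℕ) : ℝ) := by
    rw [Finset.sum_comm]
    refine Finset.sum_congr rfl fun m _ => Finset.sum_congr rfl fun n _ => ?_
    rw [max_comm]
    congr 1
    rw [← Complex.conj_re]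
    congr 1
    rw [map_mul, Complex.conj_conj, mul_comm]
  rw [e1, e2, e4, e3, hp]
  ring

theorem Q_succ_notprime {N : ℕ} (h : ¬ (N + 1).Prime) (z : ℕ → ℂ) : Q (N + 1) z = Q N z := by
  unfold Q; rw [D_succ_notprime h]

theorem Q_zero (z : ℕ → ℂ) : Q 0 z = 1 := by
  unfold Q; rw [D_zero]; simp [tw_one]

end Pool.Agent.E8helper84.RM
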