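import Pool.Agent.E8helper84.RM.RM1

/-!
The mean square of the twisted Mertens function on `[1, x]` is at most `Q ⌊x⌋`.
-/

set_option autoImplicit false

namespace Pool.Agent.E8helper84.RM

open Finset MeasureTheory intervalIntegral
open scoped ComplexConjugate

noncomputable def ker (a : ℕ) (u : ℝ) : ℝ := if (a : ℝ) ≤ u then 1 / u ^ 2 else 0

lemma ker_meas (a : ℕ) : Measurable (ker a) := by
  unfold ker
  exact Measurable.ite measurableSet_Ici (by fun_prop) measurable_const

lemma ker_bound (a : ℕ) {u : ℝ} (hu : 1 ≤ u) : |ker a u| ≤ 1 := by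
  unfold ker
  split_ifs
  · rw [abs_of_nonneg (by positivity), div_le_one (by positivity)]
    nlinarith
  · simp

lemma ker_int (a : ℕ) {x y : ℝ} (hx : 1 ≤ x) (hy : 1 ≤ y) : IntervalIntegrable (ker a) volume x y := by
  rw [intervalIntegrable_iff]
  refine Measure.integrableOn_of_bounded (M := 1) ?_ (ker_meas a).aestronglyMeasurable ?_
  · exact measure_Ioc_lt_top.ne
  · rw [ae_restrict_iff' measurableSet_uIoc]
    refine Filter.Eventually.of_forall fun u hu => ?_
    rw [Set.mem_uIoc] at hu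
    rw [Real.norm_eq_abs]
    refine ker_bound a ?_
    rcases hu with hu | hu
    · linarith [hu.1]
    · linarith [hu.1]

lemma ker_integral {a : ℕ} {X : ℝ} (ha : 1 ≤ a) (hX : (a : ℝ) ≤ X) :
    ∫ u in (1 : ℝ)..X, ker a u = 1 / (a : ℝ) - 1 / X := by
  have ha' : (1 : ℝ) ≤ a := by exact_mod_cast ha
  have hX1 : 1 ≤ X := ha'.trans hX
  rw [← integral_add_adjacent_intervals (ker_int a le_rfl ha') (ker_int a ha' hX1)]
  have e1 : ∫ u in (1 : ℝ)..a, ker a u = 0 := by
    have : ∫ u in (1 : ℝ)..a, ker a u = ∫ u in (1 : ℝ)..a, (0 : ℝ) := by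
      refine intervalIntegral.integral_congr_ae ?_
      have h0 : ∀ᵐ u : ℝ, u ≠ (a : ℝ) := by
        rw [ae_iff]; simp
      filter_upwards [h0] with u hu hm
      rw [Set.uIoc_of_le ha'] at hm
      unfold ker
      rw [if_neg]
      intro hh
      exact hu (le_antisymm hm.2 hh)
    rw [this]; simp
  have e2 : ∫ u in (a : ℝ)..X, ker a u = 1 / (a : ℝ) - 1 / X := by
    have h1 : ∫ u in (a : ℝ)..X, ker a u = ∫ u in (a : ℝ)..X, u ^ (-2 : ℤ) := by
      refine intervalIntegral.integral_congr fun u hu => ?_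
      rw [Set.uIcc_of_le hX] at hu
      unfold ker
      rw [if_pos hu.1, zpow_neg, one_div]
      norm_cast
    rw [h1, integral_zpow]
    · norm_num
      ring
    · right
      refine ⟨by norm_num, ?_⟩
      rw [Set.uIcc_of_le hX]
      intro h
      linarith [h.1]
  rw [e1, e2, zero_add]

lemma normSq_A (N : ℕ) (z : ℕ → ℂ) {u : ℝ} :
    ‖A N z u‖ ^ 2 / u ^ 2 = ∑ m ∈ D N, ∑ n ∈ D N, (tw z m * conj (tw z n)).re * ker (max m n) u := by
  have e1 : ((‖A N z u‖ ^ 2 : ℝ) : ℂ) = A N z u * conj (A N z u) := by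
    rw [← Complex.normSq_eq_norm_sq, Complex.mul_conj]
  have e2 : ‖A N z u‖ ^ 2 = (A N z u * conj (A N z u)).re := by
    rw [← e1, Complex.ofReal_re]
  rw [e2]
  unfold A
  rw [map_sum, Finset.sum_mul_sum, Complex.re_sum, Finset.sum_div]
  refine Finset.sum_congr rfl fun m _ => ?_
  rw [Complex.re_sum, Finset.sum_div]
  refine Finset.sum_congr rfl fun n _ => ?_
  unfold ker
  by_cases hm : (m : ℝ) ≤ u
  · by_cases hn : (n : ℝ) ≤ u
    · have : ((max m n : ℕ) : ℝ) ≤ u := by push_cast; exact max_le hm hn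
      rw [if_pos hm, if_pos hn, if_pos this]
      ring
    · have : ¬ ((max m n : ℕ) : ℝ) ≤ u := by
        push_cast; intro h; exact hn ((le_max_right _ _).trans h)
      rw [if_neg hn, if_neg this]
      simp
  · have : ¬ ((max m n : ℕ) : ℝ) ≤ u := by
      push_cast; intro h; exact hm ((le_max_left _ _).trans h)
    rw [if_neg hm, if_neg this]
    simp

lemma A_int (N : ℕ) (z : ℕ → ℂ) {x y : ℝ} (hx : 1 ≤ x) (hy : 1 ≤ y) :
    IntervalIntegrable (fun u => ‖A N z u‖ ^ 2 / u ^ 2) volume x y := by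
  have : (fun u => ‖A N z u‖ ^ 2 / u ^ 2) = fun u =>
      ∑ m ∈ D N, ∑ n ∈ D N, (tw z m * conj (tw z n)).re * ker (max m n) u := by
    funext u; exact normSq_A N z
  rw [this]
  have h : ∀ m ∈ D N, IntervalIntegrable (fun u => ∑ n ∈ D N, (tw z m * conj (tw z n)).re *
      ker (max m n) u) volume x y := by
    intro m _
    have h2 : ∀ n ∈ D N, IntervalIntegrable (fun u => (tw z m * conj (tw z n)).re *
      ker (max m n) u) volume x y := fun n _ => (ker_int _ hx hy).const_mul _
    exact (IntervalIntegrable.sum (D N) h2).congr (by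
      intro u _
      simp)
  exact (IntervalIntegrable.sum (D N) h).congr (by
      intro u _
      simp)

lemma A_integral (N : ℕ) (z : ℕ → ℂ) {X : ℝ} (hX : ((primorial N : ℕ) : ℝ) ≤ X) :
    ∫ u in (1 : ℝ)..X, ‖A N z u‖ ^ 2 / u ^ 2 = Q N z - ‖∑ n ∈ D N, tw z n‖ ^ 2 / X := by
  have h1X : (1 : ℝ) ≤ X := le_trans (by exact_mod_cast primorial_pos N) hX
  have : (fun u => ‖A N z u‖ ^ 2 / u ^ 2) = fun u =>
      ∑ m ∈ D N, ∑ n ∈ D N, (tw z m * conj (tw z n)).re * ker (max m n) u := by
    funext u; exact normSq_A N z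
  rw [this, intervalIntegral.integral_finsetSum]
  · have e : ∀ m ∈ D N, ∫ u in (1 : ℝ)..X, ∑ n ∈ D N, (tw z m * conj (tw z n)).re *
        ker (max m n) u = ∑ n ∈ D N, ((tw z m * conj (tw z n)).re / ((max m n : ℕ) : ℝ) -
          (tw z m * conj (tw z n)).re / X) := by
      intro m hm
      rw [intervalIntegral.integral_finsetSum]
      · refine Finset.sum_congr rfl fun n hn => ?_
        rw [intervalIntegral.integral_const_mul, ker_integral]
        · ring
        · exact le_trans (D_pos hm) (le_max_left _ _)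
        · refine le_trans ?_ hX
          have h1 : m ≤ primorial N := Nat.le_of_dvd (primorial_pos N) (mem_D.1 hm)
          have h2 : n ≤ primorial N := Nat.le_of_dvd (primorial_pos N) (mem_D.1 hn)
          exact_mod_cast max_le h1 h2
      · intro n _
        exact (ker_int _ le_rfl h1X).const_mul _
    rw [Finset.sum_congr rfl e]
    simp_rw [Finset.sum_sub_distrib]
    unfold Q
    congr 1
    have e1 : ((‖∑ n ∈ D N, tw z n‖ ^ 2 : ℝ) : ℂ) = (∑ n ∈ D N, tw z n) * conj (∑ n ∈ D N, tw z n) := by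
      rw [← Complex.normSq_eq_norm_sq, Complex.mul_conj]
    have e2 : ‖∑ n ∈ D N, tw z n‖ ^ 2 = ((∑ n ∈ D N, tw z n) * conj (∑ n ∈ D N, tw z n)).re := by
      rw [← e1, Complex.ofReal_re]
    rw [e2, map_sum, Finset.sum_mul_sum, Complex.re_sum, Finset.sum_div]
    refine Finset.sum_congr rfl fun m _ => ?_
    rw [Complex.re_sum, Finset.sum_div]
  · intro m _
    have h2 : ∀ n ∈ D N, IntervalIntegrable (fun u => (tw z m * conj (tw z n)).re *
      ker (max m n) u) volume 1 X := fun n _ => (ker_int _ le_rfl h1X).const_mul _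
    exact (IntervalIntegrable.sum (D N) h2).congr (by
      intro u _
      simp)

/-- below `N + 1` the sum over all integers is the sum over smooth integers -/
lemma M_eq_A {N : ℕ} (z : ℕ → ℂ) {u : ℝ} (hu : u < N + 1) : M z u = A N z u := by
  unfold M A
  rw [← Finset.sum_filter]
  have hfl : ⌊u⌋₊ ≤ N := by
    rcases lt_or_ge u 0 with h | h
    · rw [Nat.floor_of_nonpos h.le]; exact Nat.zero_le _
    · have := (Nat.floor_lt h (n := N + 1)).2 (by exact_mod_cast hu)
      omega
  symm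
  refine Finset.sum_subset_zero_on_sdiff ?_ ?_ (fun _ _ => rfl)
  · intro n hn
    rw [Finset.mem_filter] at hn
    rw [Finset.mem_Icc]
    refine ⟨D_pos hn.1, Nat.le_floor hn.2⟩
  · intro n hn
    rw [Finset.mem_sdiff, Finset.mem_Icc, Finset.mem_filter] at hn
    obtain ⟨⟨h1, h2⟩, h3⟩ := hn
    unfold tw
    have hsq : ¬ Squarefree n := by
      intro hs
      apply h3
      refine ⟨mem_D.2 ?_, ?_⟩
      · rw [← Nat.prod_primeFactors_of_squarefree hs]
        unfold primorial
        refine Finset.prod_dvd_prod_of_subset _ _ _ ?_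
        intro p hp
        rw [Finset.mem_filter, Finset.mem_range]
        have := Nat.le_of_mem_primeFactors hp
        exact ⟨by omega, Nat.prime_of_mem_primeFactors hp⟩
      · exact (Nat.le_floor_iff' (by omega)).1 h2
    rw [ArithmeticFunction.moebius_eq_zero_of_not_squarefree hsq]
    simp

theorem I_le_Q (z : ℕ → ℂ) {x : ℝ} (hx : 1 ≤ x) {N : ℕ} (hN : x < N + 1) : I z x ≤ Q N z := by
  unfold I
  have e : ∫ u in (1 : ℝ)..x, ‖M z u‖ ^ 2 / u ^ 2 = ∫ u in (1 : ℝ)..x, ‖A N z u‖ ^ 2 / u ^ 2 := by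
    refine intervalIntegral.integral_congr fun u hu => ?_
    rw [Set.uIcc_of_le hx] at hu
    rw [M_eq_A z (lt_of_le_of_lt hu.2 hN)]
  obtain ⟨X, hX⟩ : ∃ X : ℝ, X = max x ((primorial N : ℕ) : ℝ) := ⟨_, rfl⟩
  have hX1 : x ≤ X := by rw [hX]; exact le_max_left _ _
  have hX2 : ((primorial N : ℕ) : ℝ) ≤ X := by rw [hX]; exact le_max_right _ _
  have h1 : ∫ u in (1 : ℝ)..x, ‖A N z u‖ ^ 2 / u ^ 2 ≤ ∫ u in (1 : ℝ)..X, ‖A N z u‖ ^ 2 / u ^ 2 := by
    refine intervalIntegral.integral_mono_interval le_rfl hx hX1 ?_ (A_int N z le_rfl (hx.trans hX1))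
    exact Filter.Eventually.of_forall fun u => by simp only [Pi.zero_apply]; positivity
  rw [e]
  refine h1.trans ?_
  rw [A_integral N z hX2]
  have : 0 ≤ ‖∑ n ∈ D N, tw z n‖ ^ 2 / X := by
    have : 0 ≤ X := le_trans (by linarith) hX1
    positivity
  linarith

theorem Q_nonneg (N : ℕ) (z : ℕ → ℂ) : 0 ≤ Q N z := by
  have h := I_le_Q (N := N) z (x := 1) le_rfl
  rcases Nat.eq_zero_or_pos N with h0 | h0
  · rw [h0, Q_zero]; norm_num
  · have h1 := h (by have : (1 : ℝ) ≤ N := by exact_mod_cast h0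
                     linarith)
    unfold I at h1
    simpa using h1

end Pool.Agent.E8helper84.RM
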