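import Pool.Agent.E8helper84.RM.RM2

/-!
For independent mean zero `z p`, `p` prime, of absolute value at most `1`, the normalised mean squares
`Q N / V N` form a martingale; maximal inequality.
-/

set_option autoImplicit false

namespace Pool.Agent.E8helper84.RM

open Finset MeasureTheory ProbabilityTheory
open scoped ComplexConjugate

variable {Ω : Type*} [mΩ : MeasurableSpace Ω]

/-- the assumptions on the random values at the primes -/
structure Rnd (P : Measure Ω) (z : ℕ → Ω → ℂ) : Prop where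
  meas : ∀ p : ℕ, p.Prime → Measurable (z p)
  bound : ∀ p : ℕ, p.Prime → ∀ ω, ‖z p ω‖ ≤ 1
  mean : ∀ p : ℕ, p.Prime → ∫ ω, z p ω ∂P = 0
  indep : iIndepFun (fun p : Nat.Primes => z p) P

/-- information of the primes up to `N` -/
noncomputable def Fl (z : ℕ → Ω → ℂ) (N : ℕ) : MeasurableSpace Ω :=
  ⨆ p ∈ {p : Nat.Primes | (p : ℕ) ≤ N}, MeasurableSpace.comap (z p) inferInstance

/-- `E |z p|²` -/
noncomputable def s2 (P : Measure Ω) (z : ℕ → Ω → ℂ) (p : ℕ) : ℝ := ∫ ω, ‖z p ω‖ ^ 2 ∂P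

noncomputable def V (P : Measure Ω) (z : ℕ → Ω → ℂ) (N : ℕ) : ℝ :=
  ∏ p ∈ (Icc 1 N).filter Nat.Prime, (1 + s2 P z p / p)

noncomputable def Zm (P : Measure Ω) (z : ℕ → Ω → ℂ) (N : ℕ) (ω : Ω) : ℝ :=
  Q N (fun n => z n ω) / V P z N

lemma s2_nonneg (P : Measure Ω) (z : ℕ → Ω → ℂ) (p : ℕ) : 0 ≤ s2 P z p :=
  integral_nonneg fun _ => by positivity

lemma V_pos (P : Measure Ω) (z : ℕ → Ω → ℂ) (N : ℕ) : 0 < V P z N := by
  unfold V
  refine Finset.prod_pos fun p _ => ?_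
  have := s2_nonneg P z p
  positivity

lemma V_succ_prime (P : Measure Ω) (z : ℕ → Ω → ℂ) {N : ℕ} (h : (N + 1).Prime) :
    V P z (N + 1) = V P z N * (1 + s2 P z (N + 1) / ((N + 1 : ℕ) : ℝ)) := by
  unfold V
  have e : (Icc 1 (N + 1)).filter Nat.Prime = insert (N + 1) ((Icc 1 N).filter Nat.Prime) := by
    ext q
    simp only [Finset.mem_filter, Finset.mem_Icc, Finset.mem_insert]
    constructor
    · rintro ⟨⟨h1, h2⟩, h3⟩
      rcases Nat.lt_or_ge N q with h4 | h4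
      · left; omega
      · right; exact ⟨⟨h1, h4⟩, h3⟩
    · rintro (rfl | ⟨⟨h1, h2⟩, h3⟩)
      · exact ⟨⟨by omega, le_rfl⟩, h⟩
      · exact ⟨⟨h1, by omega⟩, h3⟩
  rw [e, Finset.prod_insert, mul_comm]
  simp

lemma V_succ_notprime (P : Measure Ω) (z : ℕ → Ω → ℂ) {N : ℕ} (h : ¬ (N + 1).Prime) :
    V P z (N + 1) = V P z N := by
  unfold V
  have e : (Icc 1 (N + 1)).filter Nat.Prime = (Icc 1 N).filter Nat.Prime := by
    ext q
    simp only [Finset.mem_filter, Finset.mem_Icc]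
    constructor
    · rintro ⟨⟨h1, h2⟩, h3⟩
      rcases Nat.lt_or_ge N q with h4 | h4
      · have : q = N + 1 := by omega
        rw [this] at h3; exact absurd h3 h
      · exact ⟨⟨h1, h4⟩, h3⟩
    · rintro ⟨⟨h1, h2⟩, h3⟩
      exact ⟨⟨h1, by omega⟩, h3⟩
  rw [e]

variable {P : Measure Ω} {z : ℕ → Ω → ℂ}

lemma Fl_le (hz : Rnd P z) (N : ℕ) : Fl z N ≤ mΩ := by
  unfold Fl
  refine iSup₂_le fun p _ => ?_
  exact (hz.meas p p.2).comap_le

lemma Fl_mono (z : ℕ → Ω → ℂ) {N K : ℕ} (h : N ≤ K) : Fl z N ≤ Fl z K := by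
  unfold Fl
  refine iSup₂_le fun p hp => ?_
  exact le_iSup₂_of_le (f := fun (p : Nat.Primes) (_ : p ∈ {p : Nat.Primes | (p : ℕ) ≤ K}) =>
    MeasurableSpace.comap (z p) inferInstance) p (le_trans hp h) le_rfl

lemma meas_z {N p : ℕ} (hp : p.Prime) (h : p ≤ N) : Measurable[Fl z N] (z p) := by
  have h1 : MeasurableSpace.comap (z p) inferInstance ≤ Fl z N := by
    unfold Fl
    exact le_iSup₂_of_le (f := fun (p : Nat.Primes) (_ : p ∈ {p : Nat.Primes | (p : ℕ) ≤ N}) =>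
      MeasurableSpace.comap (z p) inferInstance) ⟨p, hp⟩ h le_rfl
  exact (comap_measurable (z p)).mono h1 le_rfl

lemma prime_le_of_D {N n p : ℕ} (hn : n ∈ D N) (hp : p ∈ n.primeFactors) : p ≤ N := by
  have hpp := Nat.prime_of_mem_primeFactors hp
  have h1 : p ∣ primorial N := (Nat.dvd_of_mem_primeFactors hp).trans (mem_D.1 hn)
  unfold primorial at h1
  rw [Prime.dvd_finsetProd_iff hpp.prime] at h1
  obtain ⟨q, hq, hd⟩ := h1
  rw [Finset.mem_filter, Finset.mem_range] at hq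
  have := (Nat.prime_dvd_prime_iff_eq hpp hq.2).1 hd
  omega

lemma meas_tw {N n : ℕ} (hn : n ∈ D N) : Measurable[Fl z N] (fun ω => tw (fun k => z k ω) n) := by
  unfold tw
  refine Measurable.const_mul ?_ _
  refine Finset.measurable_fun_prod _ fun p hp => ?_
  exact meas_z (Nat.prime_of_mem_primeFactors hp) (prime_le_of_D hn hp)

lemma norm_tw_le (hz : Rnd P z) (n : ℕ) (ω : Ω) : ‖tw (fun k => z k ω) n‖ ≤ 1 := by
  unfold tw
  rw [norm_mul, norm_prod]
  have h1 : ‖((ArithmeticFunction.moebius n : ℤ) : ℂ)‖ ≤ 1 := by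
    rw [Complex.norm_intCast]
    exact_mod_cast ArithmeticFunction.abs_moebius_le_one
  have h2 : ∏ p ∈ n.primeFactors, ‖z p ω‖ ≤ 1 :=
    Finset.prod_le_one (fun _ _ => norm_nonneg _) fun p hp =>
      hz.bound p (Nat.prime_of_mem_primeFactors hp) ω
  calc _ ≤ (1 : ℝ) * 1 := mul_le_mul h1 h2 (Finset.prod_nonneg fun _ _ => norm_nonneg _) zero_le_one
    _ = 1 := one_mul 1

lemma meas_Q (N : ℕ) : Measurable[Fl z N] (fun ω => Q N (fun k => z k ω)) := by
  unfold Q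
  refine Finset.measurable_fun_sum _ fun m hm => Finset.measurable_fun_sum _ fun n hn => ?_
  refine Measurable.div_const ?_ _
  exact Complex.measurable_re.comp ((meas_tw hm).mul
    (Complex.continuous_conj.measurable.comp (meas_tw hn)))

lemma meas_H (N p : ℕ) : Measurable[Fl z N] (fun ω => H N (fun k => z k ω) p) := by
  unfold H
  refine Finset.measurable_fun_sum _ fun m hm => Finset.measurable_fun_sum _ fun n hn => ?_
  refine Measurable.div_const ?_ _
  exact ((meas_tw hm).mul (Complex.continuous_conj.measurable.comp (meas_tw hn)))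

lemma prod_norm_le (hz : Rnd P z) (m n : ℕ) (ω : Ω) :
    ‖tw (fun k => z k ω) m * conj (tw (fun k => z k ω) n)‖ ≤ 1 := by
  rw [norm_mul, RCLike.norm_conj]
  calc _ ≤ (1 : ℝ) * 1 := mul_le_mul (norm_tw_le hz m ω) (norm_tw_le hz n ω) (norm_nonneg _)
        zero_le_one
    _ = 1 := one_mul 1

lemma Q_le (hz : Rnd P z) (N : ℕ) (ω : Ω) : ‖Q N (fun k => z k ω)‖ ≤ ((D N).card : ℝ) * (D N).card := by
  unfold Q
  refine (norm_sum_le_of_le _ fun m hm => (norm_sum_le_of_le (f := fun n =>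
    (tw (fun k => z k ω) m * conj (tw (fun k => z k ω) n)).re / ((max m n : ℕ) : ℝ)) (D N)
      (n := fun _ => (1 : ℝ)) fun n _ => ?_)).trans ?_
  · rw [norm_div]
    have h1 : (1 : ℝ) ≤ ‖((max m n : ℕ) : ℝ)‖ := by
      rw [Real.norm_natCast]
      exact_mod_cast le_trans (D_pos hm) (le_max_left _ _)
    have h2 : ‖(tw (fun k => z k ω) m * conj (tw (fun k => z k ω) n)).re‖ ≤ 1 :=
      (Complex.abs_re_le_norm _).trans (prod_norm_le hz m n ω)
    exact div_le_one_of_le₀ (h2.trans h1) (norm_nonneg _)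
  · simp

lemma H_le (hz : Rnd P z) (N : ℕ) {p : ℕ} (hp : 0 < p) (ω : Ω) :
    ‖H N (fun k => z k ω) p‖ ≤ ((D N).card : ℝ) * (D N).card := by
  unfold H
  refine (norm_sum_le_of_le _ fun m hm => (norm_sum_le_of_le (f := fun n =>
    (tw (fun k => z k ω) m * conj (tw (fun k => z k ω) n)) / ((max (p * m) n : ℕ) : ℂ)) (D N)
      (n := fun _ => (1 : ℝ)) fun n hn => ?_)).trans ?_
  · rw [norm_div]
    have h1 : (1 : ℝ) ≤ ‖((max (p * m) n : ℕ) : ℂ)‖ := by
      rw [Complex.norm_natCast]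
      exact_mod_cast le_trans (D_pos hn) (le_max_right _ _)
    exact div_le_one_of_le₀ ((prod_norm_le hz m n ω).trans h1) (norm_nonneg _)
  · simp

variable [IsProbabilityMeasure P]

/-- the filtration -/
noncomputable def Flt (hz : Rnd P z) : Filtration ℕ mΩ where
  seq := Fl z
  mono' := fun _ _ h => Fl_mono z h
  le' := Fl_le hz

lemma indep_succ (hz : Rnd P z) {N : ℕ} (h : (N + 1).Prime) :
    Indep (MeasurableSpace.comap (z (N + 1)) inferInstance) (Fl z N) P := by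
  obtain ⟨q, hq⟩ : ∃ q : Nat.Primes, (q : ℕ) = N + 1 := ⟨⟨N + 1, h⟩, rfl⟩
  have h1 := indep_iSup_of_disjoint (m := fun p : Nat.Primes => MeasurableSpace.comap (z p) inferInstance)
    (fun p => (hz.meas p p.2).comap_le) hz.indep (S := {q})
    (T := {p : Nat.Primes | (p : ℕ) ≤ N}) (Set.disjoint_left.2 (by
      intro p hp hh
      rw [Set.mem_singleton_iff] at hp
      rw [hp] at hh
      have : (q : ℕ) ≤ N := hh
      omega))
  have e : (⨆ i ∈ ({q} : Set Nat.Primes), MeasurableSpace.comap (z i) inferInstance) =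
      MeasurableSpace.comap (z (N + 1)) inferInstance := by
    rw [_root_.iSup_singleton, hq]
  rw [e] at h1
  exact h1

lemma cond_prod (hz : Rnd P z) {N : ℕ} (h : (N + 1).Prime) {f : Ω → ℝ} {g : ℂ → ℝ} {C : ℝ}
    (hf : Measurable[Fl z N] f) (hfb : ∀ ω, ‖f ω‖ ≤ C) (hg : Measurable g)
    (hgi : ∀ ω, ‖g (z (N + 1) ω)‖ ≤ 1) :
    P[(fun ω => f ω * g (z (N + 1) ω))|Fl z N] =ᵐ[P] fun ω => f ω * ∫ ω', g (z (N + 1) ω') ∂P := by
  have hgm : Measurable (fun ω => g (z (N + 1) ω)) := hg.comp (hz.meas _ h)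
  have hfm : Measurable f := hf.mono (Fl_le hz N) le_rfl
  have hgI : Integrable (fun ω => g (z (N + 1) ω)) P :=
    Integrable.of_bound hgm.aestronglyMeasurable 1 (Filter.Eventually.of_forall hgi)
  have hfg : Integrable (f * fun ω => g (z (N + 1) ω)) P := by
    refine Integrable.of_bound (hfm.mul hgm).aestronglyMeasurable C (Filter.Eventually.of_forall fun ω => ?_)
    rw [Pi.mul_apply, norm_mul]
    calc ‖f ω‖ * ‖g (z (N + 1) ω)‖ ≤ C * 1 :=
          mul_le_mul (hfb ω) (hgi ω) (norm_nonneg _) ((norm_nonneg _).trans (hfb ω))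
      _ = C := mul_one C
  have h1 := condExp_mul_of_stronglyMeasurable_left (m := Fl z N) (μ := P)
    (hf.stronglyMeasurable) hfg hgI
  have h2 : P[(fun ω => g (z (N + 1) ω))|Fl z N] =ᵐ[P] fun _ => ∫ ω', g (z (N + 1) ω') ∂P :=
    condExp_indep_eq (hz.meas _ h).comap_le (Fl_le hz N)
      ((hg.comp (comap_measurable (z (N + 1)))).stronglyMeasurable) (indep_succ hz h)
  filter_upwards [h1, h2] with ω e1 e2
  have e3 : (P[(fun ω => f ω * g (z (N + 1) ω))|Fl z N]) ω =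
    (P[f * (fun ω => g (z (N + 1) ω))|Fl z N]) ω := rfl
  rw [e3, e1, Pi.mul_apply, e2]

lemma int_Q (hz : Rnd P z) (N : ℕ) : Integrable (fun ω => Q N (fun k => z k ω)) P :=
  Integrable.of_bound (((meas_Q N).mono (Fl_le hz N) le_rfl).aestronglyMeasurable) _
    (Filter.Eventually.of_forall (Q_le hz N))

lemma cond_Q (hz : Rnd P z) {N : ℕ} (h : (N + 1).Prime) :
    P[(fun ω => Q (N + 1) (fun k => z k ω))|Fl z N] =ᵐ[P]
      fun ω => Q N (fun k => z k ω) * (1 + s2 P z (N + 1) / ((N + 1 : ℕ) : ℝ)) := by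
  obtain ⟨q, hq⟩ : ∃ q : ℝ, q = ((N + 1 : ℕ) : ℝ) := ⟨_, rfl⟩
  have hq1 : 1 ≤ q := by rw [hq]; exact_mod_cast h.one_lt.le
  have hzI : Integrable (z (N + 1)) P :=
    Integrable.of_bound (hz.meas _ h).aestronglyMeasurable 1 (Filter.Eventually.of_forall (hz.bound _ h))
  have hre : ∫ ω, (z (N + 1) ω).re ∂P = 0 := by
    have := integral_re hzI
    rw [hz.mean _ h] at this
    simpa using this
  have him : ∫ ω, (z (N + 1) ω).im ∂P = 0 := by
    have := integral_im hzI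
    rw [hz.mean _ h] at this
    simpa using this
  -- the four terms
  obtain ⟨f1, hf1⟩ : ∃ f1 : Ω → ℝ, f1 = fun ω => Q N (fun k => z k ω) := ⟨_, rfl⟩
  obtain ⟨f2, hf2⟩ : ∃ f2 : Ω → ℝ, f2 = fun ω => (H N (fun k => z k ω) (N + 1)).re := ⟨_, rfl⟩
  obtain ⟨f3, hf3⟩ : ∃ f3 : Ω → ℝ, f3 = fun ω => (H N (fun k => z k ω) (N + 1)).im := ⟨_, rfl⟩
  have m1 : Measurable[Fl z N] f1 := by rw [hf1]; exact meas_Q N
  have m2 : Measurable[Fl z N] f2 := by rw [hf2]; exact Complex.measurable_re.comp (meas_H N _)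
  have m3 : Measurable[Fl z N] f3 := by rw [hf3]; exact Complex.measurable_im.comp (meas_H N _)
  obtain ⟨C, hC⟩ : ∃ C : ℝ, C = ((D N).card : ℝ) * (D N).card := ⟨_, rfl⟩
  have b1 : ∀ ω, ‖f1 ω‖ ≤ C := by rw [hf1, hC]; exact Q_le hz N
  have b2 : ∀ ω, ‖f2 ω‖ ≤ C := fun ω => by
    rw [hf2, hC]; exact (Complex.abs_re_le_norm _).trans (H_le hz N h.pos ω)
  have b3 : ∀ ω, ‖f3 ω‖ ≤ C := fun ω => by
    rw [hf3, hC]; exact (Complex.abs_im_le_norm _).trans (H_le hz N h.pos ω)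
  have c1 := cond_prod hz h (g := fun w => ‖w‖ ^ 2) m1 b1 (by fun_prop) (fun ω => by
    rw [norm_pow, norm_norm]
    exact pow_le_one₀ (norm_nonneg _) (hz.bound _ h ω))
  have c2 := cond_prod hz h (g := fun w => w.re) m2 b2 Complex.measurable_re (fun ω =>
    (Complex.abs_re_le_norm _).trans (hz.bound _ h ω))
  have c3 := cond_prod hz h (g := fun w => w.im) m3 b3 Complex.measurable_im (fun ω =>
    (Complex.abs_im_le_norm _).trans (hz.bound _ h ω))
  have bd : ∀ (f : Ω → ℝ) (g : ℂ → ℝ), Measurable[Fl z N] f → (∀ ω, ‖f ω‖ ≤ C) → Measurable g →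
      (∀ ω, ‖g (z (N + 1) ω)‖ ≤ 1) → Integrable (fun ω => f ω * g (z (N + 1) ω)) P := by
    intro f g hf hfb hg hgb
    refine Integrable.of_bound (((hf.mono (Fl_le hz N) le_rfl).mul
      (hg.comp (hz.meas _ h))).aestronglyMeasurable) C (Filter.Eventually.of_forall fun ω => ?_)
    rw [norm_mul]
    calc ‖f ω‖ * ‖g (z (N + 1) ω)‖ ≤ C * 1 :=
          mul_le_mul (hfb ω) (hgb ω) (norm_nonneg _) ((norm_nonneg _).trans (hfb ω))
      _ = C := mul_one C
  have i1 : Integrable (fun ω => f1 ω * ‖z (N + 1) ω‖ ^ 2) P := bd f1 (fun w => ‖w‖ ^ 2) m1 b1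
    (by fun_prop) (fun ω => by
      rw [norm_pow, norm_norm]
      exact pow_le_one₀ (norm_nonneg _) (hz.bound _ h ω))
  have i2 : Integrable (fun ω => f2 ω * (z (N + 1) ω).re) P := bd f2 (fun w => w.re) m2 b2
    Complex.measurable_re (fun ω => (Complex.abs_re_le_norm _).trans (hz.bound _ h ω))
  have i3 : Integrable (fun ω => f3 ω * (z (N + 1) ω).im) P := bd f3 (fun w => w.im) m3 b3
    Complex.measurable_im (fun ω => (Complex.abs_im_le_norm _).trans (hz.bound _ h ω))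
  have i0 : Integrable f1 P := by rw [hf1]; exact int_Q hz N
  have e : (fun ω => Q (N + 1) (fun k => z k ω)) =
      (f1 + (1 / q) • (fun ω => f1 ω * ‖z (N + 1) ω‖ ^ 2)) +
        ((-2 : ℝ) • (fun ω => f2 ω * (z (N + 1) ω).re) +
        (2 : ℝ) • (fun ω => f3 ω * (z (N + 1) ω).im)) := by
    funext ω
    simp only [Pi.add_apply, Pi.smul_apply, smul_eq_mul]
    rw [Q_succ_prime h, hf1, hf2, hf3, Complex.mul_re, hq]
    ring
  rw [e]
  have a1 := condExp_add (m := Fl z N) (μ := P) (i0.add (i1.smul (1 / q)))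
    ((i2.smul (-2 : ℝ)).add (i3.smul (2 : ℝ)))
  have a2 := condExp_add (m := Fl z N) (μ := P) i0 (i1.smul (1 / q))
  have a3 := condExp_add (m := Fl z N) (μ := P) (i2.smul (-2 : ℝ)) (i3.smul (2 : ℝ))
  have a4 := condExp_smul (m := Fl z N) (μ := P) (1 / q) (fun ω => f1 ω * ‖z (N + 1) ω‖ ^ 2)
  have a5 := condExp_smul (m := Fl z N) (μ := P) (-2 : ℝ) (fun ω => f2 ω * (z (N + 1) ω).re)
  have a6 := condExp_smul (m := Fl z N) (μ := P) (2 : ℝ) (fun ω => f3 ω * (z (N + 1) ω).im)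
  have a7 : P[f1|Fl z N] = f1 := condExp_of_stronglyMeasurable (Fl_le hz N) m1.stronglyMeasurable i0
  filter_upwards [a1, a2, a3, a4, a5, a6, c1, c2, c3] with ω h1 h2 h3 h4 h5 h6 h7 h8 h9
  rw [h1, Pi.add_apply, h2, Pi.add_apply, h3, Pi.add_apply, h4, h5, h6, a7]
  simp only [Pi.smul_apply, smul_eq_mul]
  rw [h7, h8, h9, hre, him, ← hq]
  have : f1 ω = Q N (fun k => z k ω) := by rw [hf1]
  rw [← this]
  unfold s2
  ring

theorem mart (hz : Rnd P z) : Martingale (Zm P z) (Flt hz) P := by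
  refine martingale_nat ?_ ?_ ?_
  · intro N
    exact ((meas_Q (z := z) N).div_const _).stronglyMeasurable
  · intro N
    exact (int_Q hz N).div_const _
  · intro N
    have hV := V_pos P z N
    by_cases h : (N + 1).Prime
    · have h1 := cond_Q hz h
      have h2 := condExp_smul (m := Fl z N) (μ := P) (1 / V P z (N + 1)) (fun ω => Q (N + 1) (fun k => z k ω))
      have e : Zm P z (N + 1) = (1 / V P z (N + 1)) • (fun ω => Q (N + 1) (fun k => z k ω)) := by
        funext ω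
        simp only [Pi.smul_apply, smul_eq_mul]
        unfold Zm
        ring
      have e2 : ((Flt hz) N : MeasurableSpace Ω) = Fl z N := rfl
      rw [e, e2]
      filter_upwards [h1, h2] with ω k1 k2
      rw [k2, Pi.smul_apply, k1, smul_eq_mul, V_succ_prime P z h]
      unfold Zm
      have hs : 0 < 1 + s2 P z (N + 1) / ((N + 1 : ℕ) : ℝ) := by
        have := s2_nonneg P z (N + 1)
        positivity
      have hs2 : V P z N * (1 + s2 P z (N + 1) / ((N + 1 : ℕ) : ℝ)) ≠ 0 := (mul_pos hV hs).ne'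
      rw [eq_comm, one_div, ← div_eq_inv_mul, mul_div_mul_right _ _ hs.ne']
    · have e : Zm P z (N + 1) = Zm P z N := by
        funext ω
        unfold Zm
        rw [Q_succ_notprime h, V_succ_notprime P z h]
      rw [e]
      have : P[Zm P z N|(Flt hz) N] = Zm P z N :=
        condExp_of_stronglyMeasurable ((Flt hz).le N)
          (((meas_Q (z := z) N).div_const _).stronglyMeasurable) ((int_Q hz N).div_const _)
      rw [this]

theorem Zm_nonneg (P : Measure Ω) (z : ℕ → Ω → ℂ) (N : ℕ) (ω : Ω) : 0 ≤ Zm P z N ω :=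
  div_nonneg (Q_nonneg _ _) (V_pos P z N).le

theorem int_Zm (hz : Rnd P z) (N : ℕ) : ∫ ω, Zm P z N ω ∂P = 1 := by
  have h := (mart hz).setIntegral_eq (i := 0) (j := N) (Nat.zero_le N) (s := Set.univ) MeasurableSet.univ
  rw [setIntegral_univ, setIntegral_univ] at h
  rw [← h]
  have e : ∀ ω, Zm P z 0 ω = 1 := by
    intro ω
    unfold Zm V
    rw [Q_zero]
    simp
  simp_rw [e]
  simp

/-- maximal inequality -/
theorem maximal (hz : Rnd P z) {l : ℝ} (hl : 0 < l) (n : ℕ) :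
    P {ω | ∃ k, k ≤ n ∧ l ≤ Zm P z k ω} ≤ ENNReal.ofReal (1 / l) := by
  obtain ⟨ε, hε⟩ : ∃ ε : NNReal, (ε : ℝ) = l := ⟨⟨l, hl.le⟩, rfl⟩
  have h1 := maximal_ineq (μ := P) (𝒢 := Flt hz) (f := Zm P z) (mart hz).submartingale
    (fun N ω => Zm_nonneg P z N ω) (ε := ε) n
  have hset : {ω | ∃ k, k ≤ n ∧ l ≤ Zm P z k ω} = {ω | (ε : ℝ) ≤
      (range (n + 1)).sup' nonempty_range_add_one fun k => Zm P z k ω} := by
    ext ω
    rw [Set.mem_ofPred_eq, Set.mem_ofPred_eq, Finset.le_sup'_iff, hε]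
    constructor
    · rintro ⟨k, hk, h⟩; exact ⟨k, by rw [Finset.mem_range]; omega, h⟩
    · rintro ⟨k, hk, h⟩; rw [Finset.mem_range] at hk; exact ⟨k, by omega, h⟩
  rw [← hset] at h1
  have h2 : ∫ ω in {ω | ∃ k, k ≤ n ∧ l ≤ Zm P z k ω}, Zm P z n ω ∂P ≤ 1 := by
    rw [← int_Zm hz n]
    exact setIntegral_le_integral ((int_Q hz n).div_const _)
      (Filter.Eventually.of_forall fun ω => Zm_nonneg P z n ω)
  have h3 : ENNReal.ofReal (∫ ω in {ω | ∃ k, k ≤ n ∧ l ≤ Zm P z k ω}, Zm P z n ω ∂P) ≤ 1 := by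
    rw [← ENNReal.ofReal_one]
    exact ENNReal.ofReal_le_ofReal h2
  have h4 := h1.trans h3
  have h5 : (ε : ENNReal) = ENNReal.ofReal l := by
    rw [← hε, ENNReal.ofReal_coe_nnreal]
  rw [h5] at h4
  rw [ENNReal.ofReal_div_of_pos hl, ENNReal.ofReal_one]
  rw [ENNReal.le_div_iff_mul_le (Or.inl (by simpa using hl)) (Or.inl ENNReal.ofReal_ne_top), mul_comm]
  exact h4

end Pool.Agent.E8helper84.RM
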