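import Pool.Agent.E8helper84.RM.RM3
import Pool.Agent.Erdos456.Mertens

/-!
Maximal inequality for the twisted Mertens functions.
-/

set_option autoImplicit false

namespace Pool.Agent.E8helper84.RM

open Finset MeasureTheory ProbabilityTheory
open scoped ComplexConjugate

/-- `∏_{p ≤ N} (1 + 1/p) ≤ C log N` -/
theorem prod_bound : ∃ C : ℝ, 0 < C ∧ ∀ N : ℕ, 2 ≤ N →
    ∏ p ∈ (Icc 1 N).filter Nat.Prime, (1 + 1 / (p : ℝ)) ≤ C * Real.log N := by
  obtain ⟨C, hC⟩ := Pool.Agent.Erdos456.Mert.mertens_inv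
  have hl2 : (0 : ℝ) < Real.log 2 := Real.log_pos (by norm_num)
  refine ⟨max (Real.exp C) (3 / 2 / Real.log 2), lt_max_of_lt_left (Real.exp_pos _), fun N hN => ?_⟩
  rcases Nat.lt_or_ge N 3 with h | h
  · have : N = 2 := by omega
    rw [this]
    have e : (Icc 1 2).filter Nat.Prime = {2} := by decide
    rw [e, Finset.prod_singleton]
    push_cast
    calc (1 : ℝ) + 1 / 2 = 3 / 2 / Real.log 2 * Real.log 2 := by field_simp; norm_num
      _ ≤ _ := mul_le_mul_of_nonneg_right (le_max_right _ _) hl2.le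
  · have h1 := (abs_le.1 (hC N h)).2
    have hN3 : (3 : ℝ) ≤ N := by exact_mod_cast h
    have hlog : 0 < Real.log N := Real.log_pos (by linarith)
    calc ∏ p ∈ (Icc 1 N).filter Nat.Prime, (1 + 1 / (p : ℝ))
        ≤ ∏ p ∈ (Icc 1 N).filter Nat.Prime, Real.exp (1 / (p : ℝ)) := by
          refine Finset.prod_le_prod (fun p _ => by positivity) fun p _ => ?_
          have := Real.add_one_le_exp (1 / (p : ℝ))
          linarith
      _ = Real.exp (∑ p ∈ (Icc 1 N).filter Nat.Prime, 1 / (p : ℝ)) := (Real.exp_sum _ _).symm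
      _ ≤ Real.exp (C + Real.log (Real.log N)) := Real.exp_le_exp.2 (by linarith)
      _ = Real.exp C * Real.log N := by rw [Real.exp_add, Real.exp_log hlog]
      _ ≤ _ := mul_le_mul_of_nonneg_right (le_max_left _ _) hlog.le

variable {Ω : Type*} [mΩ : MeasurableSpace Ω] {P : Measure Ω} {z : ℕ → Ω → ℂ}
variable [IsProbabilityMeasure P]

lemma s2_le (hz : Rnd P z) {p : ℕ} (hp : p.Prime) : s2 P z p ≤ 1 := by
  unfold s2
  calc ∫ ω, ‖z p ω‖ ^ 2 ∂P ≤ ∫ ω, (1 : ℝ) ∂P := by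
        refine integral_mono_of_nonneg (Filter.Eventually.of_forall fun _ => by positivity)
          (integrable_const _) (Filter.Eventually.of_forall fun ω => ?_)
        exact pow_le_one₀ (norm_nonneg _) (hz.bound p hp ω)
    _ = 1 := by simp

lemma V_le (hz : Rnd P z) (N : ℕ) :
    V P z N ≤ ∏ p ∈ (Icc 1 N).filter Nat.Prime, (1 + 1 / (p : ℝ)) := by
  unfold V
  refine Finset.prod_le_prod (fun p _ => ?_) fun p hp => ?_
  · have := s2_nonneg P z p
    positivity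
  · have := s2_le hz (Finset.mem_filter.1 hp).2
    gcongr

/-- deterministic comparison -/
lemma I_le_Zm (hz : Rnd P z) {C : ℝ} (hC : 0 < C) (hp : ∀ N : ℕ, 2 ≤ N →
    ∏ p ∈ (Icc 1 N).filter Nat.Prime, (1 + 1 / (p : ℝ)) ≤ C * Real.log N) {x : ℝ} (hx : 2 ≤ x) (ω : Ω) :
    I (fun n => z n ω) x ≤ Zm P z ⌊x⌋₊ ω * (C * Real.log x) := by
  have hfl : 2 ≤ ⌊x⌋₊ := Nat.le_floor (by exact_mod_cast hx)
  have h1 : I (fun n => z n ω) x ≤ Q ⌊x⌋₊ (fun n => z n ω) :=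
    I_le_Q _ (by linarith) (Nat.lt_floor_add_one x)
  have h2 : Q ⌊x⌋₊ (fun n => z n ω) = Zm P z ⌊x⌋₊ ω * V P z ⌊x⌋₊ := by
    unfold Zm
    rw [div_mul_cancel₀ _ (V_pos P z _).ne']
  rw [h2] at h1
  refine h1.trans (mul_le_mul_of_nonneg_left ?_ (Zm_nonneg P z _ ω))
  refine (V_le hz _).trans ((hp _ hfl).trans ?_)
  refine mul_le_mul_of_nonneg_left ?_ hC.le
  refine Real.log_le_log ?_ (Nat.floor_le (by linarith))
  have : (2 : ℝ) ≤ ((⌊x⌋₊ : ℕ) : ℝ) := by exact_mod_cast hfl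
  linarith

theorem all_x (hz : Rnd P z) {C : ℝ} (hC : 0 < C) (hp : ∀ N : ℕ, 2 ≤ N →
    ∏ p ∈ (Icc 1 N).filter Nat.Prime, (1 + 1 / (p : ℝ)) ≤ C * Real.log N) {l : ℝ} (hl : 0 < l) :
    P {ω | ∃ x : ℝ, 2 ≤ x ∧ l * C * Real.log x < I (fun n => z n ω) x} ≤ ENNReal.ofReal (1 / l) := by
  have hsub : {ω | ∃ x : ℝ, 2 ≤ x ∧ l * C * Real.log x < I (fun n => z n ω) x} ⊆
      ⋃ n : ℕ, {ω | ∃ k, k ≤ n ∧ l ≤ Zm P z k ω} := by
    rintro ω ⟨x, hx, h⟩
    rw [Set.mem_iUnion]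
    refine ⟨⌊x⌋₊, ⌊x⌋₊, le_rfl, ?_⟩
    have h1 := I_le_Zm hz hC hp hx ω
    by_contra hcon
    rw [not_le] at hcon
    have hlog : 0 < Real.log x := Real.log_pos (by linarith)
    have : Zm P z ⌊x⌋₊ ω * (C * Real.log x) ≤ l * (C * Real.log x) :=
      mul_le_mul_of_nonneg_right hcon.le (by positivity)
    linarith [mul_assoc l C (Real.log x)]
  refine (measure_mono hsub).trans ?_
  rw [Directed.measure_iUnion]
  · exact iSup_le fun n => maximal hz hl n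
  · refine directed_of_isDirected_le ?_
    intro a b hab ω hω
    obtain ⟨k, hk, h⟩ := hω
    exact ⟨k, hk.trans hab, h⟩

theorem almost_surely (hz : Rnd P z) :
    ∀ᵐ ω ∂P, ∃ K : ℝ, ∀ x : ℝ, 2 ≤ x → I (fun n => z n ω) x ≤ K * Real.log x := by
  obtain ⟨C, hC, hp⟩ := prod_bound
  rw [ae_iff]
  refine le_antisymm ?_ bot_le
  refine ge_of_tendsto (f := fun n : ℕ => ENNReal.ofReal (1 / ((n : ℝ) + 1))) (x := Filter.atTop) ?_
    (Filter.Eventually.of_forall fun n => ?_)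
  · have h1 : Filter.Tendsto (fun n : ℕ => 1 / ((n : ℝ) + 1)) Filter.atTop (nhds 0) :=
      tendsto_one_div_add_atTop_nhds_zero_nat
    have := ENNReal.tendsto_ofReal h1
    simpa using this
  · refine le_trans (measure_mono ?_) (all_x hz hC hp (l := (n : ℝ) + 1) (by positivity))
    intro ω hω
    have hω' : ¬ ∃ K : ℝ, ∀ x : ℝ, 2 ≤ x → I (fun n => z n ω) x ≤ K * Real.log x := hω
    push Not at hω'
    exact hω' (((n : ℝ) + 1) * C)

end Pool.Agent.E8helper84.RM
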