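import Pool.Agent.E8helper84.RM.RM4

/-!
The maximal inequality on a finite-dimensional torus, and transfer to equidistributed averages.
-/

set_option autoImplicit false

namespace Pool.Agent.E8helper84.RM

open Finset MeasureTheory ProbabilityTheory Filter Topology
open scoped ComplexConjugate

/-- the values at the primes given by a point of the torus -/
noncomputable def zf (S : Finset ℕ) (θ : S → UnitAddCircle) (n : ℕ) : ℂ :=
  if h : n ∈ S then ((AddCircle.toCircle (θ ⟨n, h⟩) : Circle) : ℂ) else 0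

noncomputable def haar : Measure UnitAddCircle := AddCircle.haarAddCircle

instance : IsProbabilityMeasure haar := inferInstanceAs (IsProbabilityMeasure AddCircle.haarAddCircle)

noncomputable def P0 : Measure (ℕ → UnitAddCircle) := Measure.infinitePi (fun _ => haar)

instance : IsProbabilityMeasure P0 := inferInstanceAs (IsProbabilityMeasure (Measure.infinitePi _))

noncomputable def tor (S : Finset ℕ) : Measure (S → UnitAddCircle) := Measure.pi (fun _ => haar)

instance (S : Finset ℕ) : IsProbabilityMeasure (tor S) :=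
  inferInstanceAs (IsProbabilityMeasure (Measure.pi _))

lemma int_fourier {n : ℤ} (hn : n ≠ 0) : ∫ x, fourier n x ∂haar = 0 := by
  have := integral_eq_zero_of_add_right_eq_neg (μ := (AddCircle.haarAddCircle : Measure UnitAddCircle)) (f := fun x => fourier n x)
    (g := ((1 / 2 / n : ℝ) : UnitAddCircle)) (fun x => fourier_add_half_inv_index hn one_pos x)
  exact this

/-- the random values on the infinite torus -/
noncomputable def z0 (S : Finset ℕ) (n : ℕ) (ω : ℕ → UnitAddCircle) : ℂ := zf S (S.restrict ω) n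

lemma z0_eq (S : Finset ℕ) (n : ℕ) : z0 S n = fun ω =>
    (fun t : UnitAddCircle => if n ∈ S then ((AddCircle.toCircle t : Circle) : ℂ) else 0) (ω n) := by
  funext ω
  unfold z0 zf
  by_cases h : n ∈ S
  · simp [h, Finset.restrict]
  · simp [h]

lemma cont_circ : Continuous (fun t : UnitAddCircle => ((AddCircle.toCircle t : Circle) : ℂ)) :=
  continuous_subtype_val.comp AddCircle.continuous_toCircle

lemma rnd0 (S : Finset ℕ) : Rnd P0 (z0 S) := by
  have hX : ∀ n : ℕ, Measurable (fun t : UnitAddCircle =>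
      if n ∈ S then ((AddCircle.toCircle t : Circle) : ℂ) else 0) := by
    intro n
    by_cases h : n ∈ S
    · simp only [h, if_true]; exact cont_circ.measurable
    · simp only [h, if_false]; exact measurable_const
  refine ⟨fun p _ => ?_, fun p _ ω => ?_, fun p _ => ?_, ?_⟩
  · rw [z0_eq]; exact (hX p).comp (measurable_pi_apply p)
  · rw [z0_eq]
    by_cases h : p ∈ S
    · simp only [h, if_true]
      exact (Circle.norm_coe _).le
    · simp [h]
  · rw [z0_eq]
    have h1 : ∫ ω, (fun t : UnitAddCircle => if p ∈ S then ((AddCircle.toCircle t : Circle) : ℂ) else 0)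
        (ω p) ∂P0 = ∫ t, (if p ∈ S then ((AddCircle.toCircle t : Circle) : ℂ) else 0) ∂haar := by
      have h2 : MeasurePreserving (Function.eval p) P0 haar :=
        measurePreserving_eval_infinitePi (fun _ => haar) p
      rw [← h2.map_eq, integral_map h2.measurable.aemeasurable (hX p).aestronglyMeasurable]
    rw [h1]
    by_cases h : p ∈ S
    · simp only [h, if_true]
      have := int_fourier (n := 1) one_ne_zero
      simpa using this
    · simp [h]
  · have h1 : iIndepFun (fun (i : ℕ) (ω : ℕ → UnitAddCircle) =>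
      (fun t : UnitAddCircle => if i ∈ S then ((AddCircle.toCircle t : Circle) : ℂ) else 0) (ω i)) P0 :=
      iIndepFun_infinitePi (P := fun _ => haar) hX
    have h2 := h1.precomp (g := fun p : Nat.Primes => (p : ℕ)) Subtype.coe_injective
    have h3 : (fun p : Nat.Primes => z0 S p) = fun (p : Nat.Primes) (ω : ℕ → UnitAddCircle) =>
      (fun t : UnitAddCircle => if (p : ℕ) ∈ S then ((AddCircle.toCircle t : Circle) : ℂ) else 0)
        (ω p) := by
      funext p; rw [z0_eq]
    rw [h3]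
    exact h2

lemma cont_zf (S : Finset ℕ) (n : ℕ) : Continuous (fun θ : S → UnitAddCircle => zf S θ n) := by
  unfold zf
  by_cases h : n ∈ S
  · simp only [h, dif_pos]
    exact cont_circ.comp (continuous_apply _)
  · simp only [h, dif_neg, not_false_eq_true]
    exact continuous_const

lemma cont_Q (S : Finset ℕ) (N : ℕ) : Continuous (fun θ : S → UnitAddCircle => Q N (zf S θ)) := by
  unfold Q tw
  refine continuous_finsetSum _ fun m _ => continuous_finsetSum _ fun n _ => ?_
  refine Continuous.div_const ?_ _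
  refine Complex.continuous_re.comp ?_
  refine Continuous.mul ?_ (Complex.continuous_conj.comp ?_)
  · exact continuous_const.mul (continuous_finsetProd _ fun p _ => cont_zf S p)
  · exact continuous_const.mul (continuous_finsetProd _ fun p _ => cont_zf S p)

/-- maximum of the normalised mean squares up to `N` -/
noncomputable def Psi (S : Finset ℕ) (N : ℕ) (θ : S → UnitAddCircle) : ℝ :=
  (range (N + 1)).sup' nonempty_range_add_one fun k => Q k (zf S θ) / V P0 (z0 S) k

lemma cont_Psi (S : Finset ℕ) (N : ℕ) : Continuous (Psi S N) := by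
  unfold Psi
  refine Continuous.finset_sup'_apply _ fun k _ => ?_
  exact (cont_Q S k).div_const _

lemma tor_Psi (S : Finset ℕ) (N : ℕ) {l : ℝ} (hl : 0 < l) :
    tor S {θ | l ≤ Psi S N θ} ≤ ENNReal.ofReal (1 / l) := by
  have h1 : P0.map S.restrict = tor S := Measure.infinitePi_map_restrict (μ := fun _ : ℕ => haar)
  rw [← h1, Measure.map_apply (Finset.measurable_restrict S)
    ((isClosed_le continuous_const (cont_Psi S N)).measurableSet)]
  refine (measure_mono ?_).trans (maximal (rnd0 S) hl N)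
  intro ω hω
  have h2 : l ≤ Psi S N (S.restrict ω) := hω
  unfold Psi at h2
  rw [Finset.le_sup'_iff] at h2
  obtain ⟨k, hk, h⟩ := h2
  rw [Finset.mem_range] at hk
  exact ⟨k, by omega, h⟩

/-- the cut-off -/
noncomputable def cut (S : Finset ℕ) (N : ℕ) (l : ℝ) : C(S → UnitAddCircle, ℂ) where
  toFun θ := ((max 0 (min 1 (Psi S N θ / l - 1)) : ℝ) : ℂ)
  continuous_toFun := by
    have := cont_Psi S N
    fun_prop

lemma cut_nonneg (S : Finset ℕ) (N : ℕ) (l : ℝ) (θ : S → UnitAddCircle) : 0 ≤ (cut S N l θ).re := by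
  change 0 ≤ (((max 0 (min 1 (Psi S N θ / l - 1)) : ℝ) : ℂ)).re
  rw [Complex.ofReal_re]
  exact le_max_left _ _

lemma cut_ge {S : Finset ℕ} {N : ℕ} {l : ℝ} (hl : 0 < l) {θ : S → UnitAddCircle}
    (h : 2 * l ≤ Psi S N θ) : 1 ≤ (cut S N l θ).re := by
  change 1 ≤ (((max 0 (min 1 (Psi S N θ / l - 1)) : ℝ) : ℂ)).re
  rw [Complex.ofReal_re]
  refine le_max_of_le_right (le_min le_rfl ?_)
  have : 2 ≤ Psi S N θ / l := by rw [le_div_iff₀ hl]; exact h
  linarith

lemma int_cut (S : Finset ℕ) (N : ℕ) {l : ℝ} (hl : 0 < l) :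
    (∫ θ, cut S N l θ ∂(tor S)).re ≤ 1 / l := by
  have e : ∫ θ, cut S N l θ ∂(tor S) =
      ((∫ θ, max 0 (min 1 (Psi S N θ / l - 1)) ∂(tor S) : ℝ) : ℂ) := by
    rw [← integral_complex_ofReal]
    rfl
  rw [e, Complex.ofReal_re]
  have hm : MeasurableSet {θ | l ≤ Psi S N θ} :=
    (isClosed_le continuous_const (cont_Psi S N)).measurableSet
  calc ∫ θ, max 0 (min 1 (Psi S N θ / l - 1)) ∂(tor S)
      ≤ ∫ θ, Set.indicator {θ | l ≤ Psi S N θ} (fun _ => (1 : ℝ)) θ ∂(tor S) := by
        refine integral_mono_of_nonneg (Filter.Eventually.of_forall fun θ => le_max_left _ _) ?_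
          (Filter.Eventually.of_forall fun θ => ?_)
        · exact (integrable_const (1 : ℝ)).indicator hm
        · by_cases h : l ≤ Psi S N θ
          · simp only [Set.indicator_of_mem (show θ ∈ {θ | l ≤ Psi S N θ} from h)]
            exact max_le zero_le_one (min_le_left _ _)
          · simp only [Set.indicator_of_notMem (show θ ∉ {θ | l ≤ Psi S N θ} from h)]
            refine max_le le_rfl ((min_le_right _ _).trans ?_)
            have : Psi S N θ / l ≤ 1 := by rw [div_le_one hl]; exact (not_le.1 h).le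
            linarith
    _ = (tor S).real {θ | l ≤ Psi S N θ} := by
        rw [integral_indicator hm]; simp
    _ ≤ 1 / l := by
        have := ENNReal.toReal_mono ENNReal.ofReal_ne_top (tor_Psi S N hl)
        rw [ENNReal.toReal_ofReal (by positivity)] at this
        exact this

/-- an equidistributed family of averages -/
theorem weyl {J : Type*} {f : Filter J} (S : Finset ℕ)
    (L : J → (C(S → UnitAddCircle, ℂ) →ₗ[ℂ] ℂ)) (hb : ∀ j Φ, ‖L j Φ‖ ≤ ‖Φ‖) (h1 : ∀ᶠ j in f, L j 1 = 1)
    (hm : ∀ n : S → ℤ, n ≠ 0 →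
      Tendsto (fun j => L j (UnitAddTorus.mFourier (d := S) n)) f (𝓝 0))
    (Φ : C(S → UnitAddCircle, ℂ)) : Tendsto (fun j => L j Φ) f (𝓝 (∫ θ, Φ θ ∂(tor S))) := by
  have hint : ∀ Φ : C(S → UnitAddCircle, ℂ), Integrable (fun θ => Φ θ) (tor S) := fun Φ =>
    Integrable.of_bound Φ.continuous.aestronglyMeasurable ‖Φ‖
      (Filter.Eventually.of_forall fun θ => Φ.norm_coe_le_norm θ)
  -- monomials
  have key : ∀ n : S → ℤ, Tendsto (fun j => L j (UnitAddTorus.mFourier (d := S) n)) f
      (𝓝 (∫ θ, UnitAddTorus.mFourier (d := S) n θ ∂(tor S))) := by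
    intro n
    by_cases hn : n = 0
    · rw [hn, UnitAddTorus.mFourier_zero]
      have e : ∫ θ, (1 : C(S → UnitAddCircle, ℂ)) θ ∂(tor S) = 1 := by simp
      have e' : ∫ θ, (1 : C(UnitAddTorus S, ℂ)) θ ∂(tor S) = 1 := e
      rw [e']
      refine tendsto_const_nhds.congr' ?_
      filter_upwards [h1] with j hj
      exact hj.symm
    · have e : ∫ θ, UnitAddTorus.mFourier (d := S) n θ ∂(tor S) = 0 := by
        have h2 : ∫ θ, UnitAddTorus.mFourier (d := S) n θ ∂(tor S) =
            ∫ θ : S → UnitAddCircle, ∏ i : S, fourier (n i) (θ i) ∂(Measure.pi (fun _ => haar)) := rfl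
        rw [h2, integral_fintype_prod_eq_prod (𝕜 := ℂ) (fun i : S => fun t : UnitAddCircle => fourier (n i) t)]
        obtain ⟨i, hi⟩ : ∃ i, n i ≠ 0 := by
          by_contra hcon
          push Not at hcon
          exact hn (funext hcon)
        exact Finset.prod_eq_zero (Finset.mem_univ i) (int_fourier hi)
      rw [e]
      exact hm n hn
  have hspan : ∀ Ψ ∈ Submodule.span ℂ (Set.range (UnitAddTorus.mFourier (d := S))),
      Tendsto (fun j => L j Ψ) f (𝓝 (∫ θ, Ψ θ ∂(tor S))) := by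
    intro Ψ hΨ
    induction hΨ using Submodule.span_induction with
    | mem x hx => obtain ⟨n, rfl⟩ := hx; exact key n
    | zero =>
      simp only [map_zero, ContinuousMap.zero_apply, integral_zero]
      exact tendsto_const_nhds
    | add x y _ _ hx hy =>
      have h3 := hx.add hy
      rw [← integral_add (hint x) (hint y)] at h3
      refine h3.congr fun j => ?_
      rw [← map_add]
    | smul a x _ hx =>
      have h3 := hx.const_mul a
      rw [← integral_const_mul] at h3
      refine h3.congr fun j => ?_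
      rw [map_smul, smul_eq_mul]
  have hdense : Φ ∈ (Submodule.span ℂ (Set.range (UnitAddTorus.mFourier (d := S)))).topologicalClosure := by
    rw [UnitAddTorus.span_mFourier_closure_eq_top]; trivial
  rw [Metric.tendsto_nhds]
  intro ε hε
  obtain ⟨Ψ, hΨ, hd⟩ := Metric.mem_closure_iff.1 hdense (ε / 3) (by positivity)
  have h2 := (Metric.tendsto_nhds.1 (hspan Ψ hΨ)) (ε / 3) (by positivity)
  filter_upwards [h2] with j hj
  rw [dist_eq_norm] at hj hd ⊢
  have e1 : L j Φ - ∫ θ, Φ θ ∂(tor S) = L j (Φ - Ψ) + (L j Ψ - ∫ θ, Ψ θ ∂(tor S)) +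
      (∫ θ, (Ψ θ - Φ θ) ∂(tor S)) := by
    rw [map_sub, integral_sub (hint Ψ) (hint Φ)]
    ring
  have h4 : ‖L j (Φ - Ψ)‖ < ε / 3 := (hb j _).trans_lt hd
  have h5 : ‖∫ θ, (Ψ θ - Φ θ) ∂(tor S)‖ ≤ ‖Φ - Ψ‖ := by
    have := norm_integral_le_of_norm_le_const (μ := tor S) (f := fun θ => Ψ θ - Φ θ) (C := ‖Φ - Ψ‖)
      (Filter.Eventually.of_forall fun θ => by
        have := (Ψ - Φ).norm_coe_le_norm θ
        rw [norm_sub_rev Ψ Φ] at this
        exact this)
    simpa using this
  rw [e1]
  calc _ ≤ ‖L j (Φ - Ψ)‖ + ‖L j Ψ - ∫ θ, Ψ θ ∂(tor S)‖ + ‖∫ θ, (Ψ θ - Φ θ) ∂(tor S)‖ :=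
        norm_add₃_le
    _ < ε / 3 + ε / 3 + ε / 3 := by linarith
    _ = ε := by ring

/-- The bound for `x ≤ N + 1` in terms of `Psi`. -/
lemma I_le_Psi {C : ℝ} (hC : 0 < C) (hp : ∀ N : ℕ, 2 ≤ N →
    ∏ p ∈ (Icc 1 N).filter Nat.Prime, (1 + 1 / (p : ℝ)) ≤ C * Real.log N) (S : Finset ℕ) {N : ℕ} {x : ℝ}
    (hx : 2 ≤ x) (hN : ⌊x⌋₊ ≤ N) (θ : S → UnitAddCircle) :
    I (zf S θ) x ≤ Psi S N θ * (C * Real.log x) := by
  have hfl : 2 ≤ ⌊x⌋₊ := Nat.le_floor (by exact_mod_cast hx)
  have h1 : I (zf S θ) x ≤ Q ⌊x⌋₊ (zf S θ) := I_le_Q _ (by linarith) (Nat.lt_floor_add_one x)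
  have h2 : Q ⌊x⌋₊ (zf S θ) = Q ⌊x⌋₊ (zf S θ) / V P0 (z0 S) ⌊x⌋₊ * V P0 (z0 S) ⌊x⌋₊ := by
    rw [div_mul_cancel₀ _ (V_pos P0 (z0 S) _).ne']
  have h3 : Q ⌊x⌋₊ (zf S θ) / V P0 (z0 S) ⌊x⌋₊ ≤ Psi S N θ := by
    unfold Psi
    exact Finset.le_sup' (fun k => Q k (zf S θ) / V P0 (z0 S) k) (Finset.mem_range.2 (by omega))
  have h4 : V P0 (z0 S) ⌊x⌋₊ ≤ C * Real.log x := by
    refine (V_le (rnd0 S) _).trans ((hp _ hfl).trans ?_)
    refine mul_le_mul_of_nonneg_left ?_ hC.le
    refine Real.log_le_log ?_ (Nat.floor_le (by linarith))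
    have : (2 : ℝ) ≤ ((⌊x⌋₊ : ℕ) : ℝ) := by exact_mod_cast hfl
    linarith
  have h5 : 0 ≤ Psi S N θ := (div_nonneg (Q_nonneg _ _) (V_pos P0 (z0 S) _).le).trans h3
  rw [h2] at h1
  refine h1.trans (mul_le_mul h3 h4 (V_pos P0 (z0 S) _).le h5)

end Pool.Agent.E8helper84.RM
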