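import Pool.Agent.E8helper84.RM.RM5

/-!
Dirichlet characters.
-/

set_option autoImplicit false

namespace Pool.Agent.E8helper84.RM

open Finset MeasureTheory ProbabilityTheory Filter Topology
open scoped ComplexConjugate

/-- a complex number of absolute value one, as a point of the circle -/
noncomputable def cmk (w : ℂ) (h : ‖w‖ = 1) : Circle := ⟨w, by simpa [Submonoid.unitSphere] using h⟩

lemma cmk_coe (w : ℂ) (h : ‖w‖ = 1) : ((cmk w h : Circle) : ℂ) = w := rfl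

/-- the angle of a complex number of absolute value one -/
noncomputable def ang (w : ℂ) : UnitAddCircle :=
  if h : ‖w‖ = 1 then (AddCircle.homeomorphCircle (T := (1 : ℝ)) one_ne_zero).symm (cmk w h) else 0

lemma circ_ang {w : ℂ} (h : ‖w‖ = 1) : ((AddCircle.toCircle (ang w) : Circle) : ℂ) = w := by
  have e : AddCircle.toCircle (ang w) = cmk w h := by
    unfold ang
    rw [dif_pos h]
    have h1 := (AddCircle.homeomorphCircle (T := (1 : ℝ)) one_ne_zero).apply_symm_apply (cmk w h)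
    rw [AddCircle.homeomorphCircle_apply] at h1
    exact h1
  rw [e, cmk_coe]

/-- uniform averages over a finite set -/
noncomputable def avgL {X : Type*} [Fintype X] {S : Finset ℕ} (θ : X → (S → UnitAddCircle)) :
    C(S → UnitAddCircle, ℂ) →ₗ[ℂ] ℂ where
  toFun Φ := (1 / (Fintype.card X : ℂ)) * ∑ x, Φ (θ x)
  map_add' Φ Ψ := by
    simp only [ContinuousMap.add_apply, Finset.sum_add_distrib]
    ring
  map_smul' a Φ := by
    simp only [ContinuousMap.smul_apply, smul_eq_mul, RingHom.id_apply, ← Finset.mul_sum]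
    ring

lemma avgL_apply {X : Type*} [Fintype X] {S : Finset ℕ} (θ : X → (S → UnitAddCircle))
    (Φ : C(S → UnitAddCircle, ℂ)) : avgL θ Φ = (1 / (Fintype.card X : ℂ)) * ∑ x, Φ (θ x) := rfl

lemma avgL_norm {X : Type*} [Fintype X] {S : Finset ℕ} (θ : X → (S → UnitAddCircle))
    (Φ : C(S → UnitAddCircle, ℂ)) : ‖avgL θ Φ‖ ≤ ‖Φ‖ := by
  rw [avgL_apply, norm_mul, norm_div, norm_one, Complex.norm_natCast]
  rcases Nat.eq_zero_or_pos (Fintype.card X) with h | h
  · rw [h]; simp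
  · have h1 : ‖∑ x, Φ (θ x)‖ ≤ (Fintype.card X : ℝ) * ‖Φ‖ := by
      refine (norm_sum_le _ _).trans ?_
      refine (Finset.sum_le_sum fun x _ => Φ.norm_coe_le_norm (θ x)).trans ?_
      simp
    have h2 : (0 : ℝ) < Fintype.card X := by exact_mod_cast h
    calc 1 / (Fintype.card X : ℝ) * ‖∑ x, Φ (θ x)‖ ≤ 1 / (Fintype.card X : ℝ) * ((Fintype.card X : ℝ) * ‖Φ‖) :=
          mul_le_mul_of_nonneg_left h1 (by positivity)
      _ = ‖Φ‖ := by field_simp

open scoped Classical in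
lemma avgL_cut {X : Type*} [Fintype X] {S : Finset ℕ} (θ : X → (S → UnitAddCircle)) (N : ℕ) {l : ℝ}
    (hl : 0 < l) : (((Finset.univ.filter fun x => 2 * l ≤ Psi S N (θ x)).card : ℕ) : ℝ) ≤
      (Fintype.card X : ℝ) * (avgL θ (cut S N l)).re := by
  rcases Nat.eq_zero_or_pos (Fintype.card X) with h | h
  · have h3 := Finset.card_le_univ (Finset.univ.filter fun x => 2 * l ≤ Psi S N (θ x))
    rw [h] at h3
    rw [Nat.le_zero.1 h3, h]; simp
  · have h2 : (0 : ℝ) < Fintype.card X := by exact_mod_cast h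
    have e : (avgL θ (cut S N l)).re = (1 / (Fintype.card X : ℝ)) * ∑ x, (cut S N l (θ x)).re := by
      rw [avgL_apply]
      have e1 : (1 / (Fintype.card X : ℂ)) = ((1 / (Fintype.card X : ℝ) : ℝ) : ℂ) := by push_cast; rfl
      rw [e1, Complex.re_ofReal_mul, Complex.re_sum]
    rw [e, ← mul_assoc, mul_one_div_cancel h2.ne', one_mul]
    calc (((Finset.univ.filter fun x => 2 * l ≤ Psi S N (θ x)).card : ℕ) : ℝ)
        = ∑ x ∈ Finset.univ.filter (fun x => 2 * l ≤ Psi S N (θ x)), (1 : ℝ) := by simp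
      _ ≤ ∑ x ∈ Finset.univ.filter (fun x => 2 * l ≤ Psi S N (θ x)), (cut S N l (θ x)).re :=
          Finset.sum_le_sum fun x hx => cut_ge hl (Finset.mem_filter.1 hx).2
      _ ≤ ∑ x, (cut S N l (θ x)).re :=
          Finset.sum_le_sum_of_subset_of_nonneg (Finset.filter_subset _ _)
            fun x _ _ => cut_nonneg _ _ _ _

/-- the point of the torus of a character -/
noncomputable def thc (S : Finset ℕ) {q : ℕ} (χ : DirichletCharacter ℂ q) : S → UnitAddCircle :=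
  fun p => ang (χ ((p : ℕ) : ZMod q))

lemma norm_chi {q p : ℕ} (hp : p.Prime) (h : ¬ p ∣ q) (χ : DirichletCharacter ℂ q) :
    ‖χ ((p : ℕ) : ZMod q)‖ = 1 := by
  have hu : IsUnit ((p : ℕ) : ZMod q) := by
    rw [ZMod.isUnit_iff_coprime]
    exact (Nat.Prime.coprime_iff_not_dvd hp).2 h
  obtain ⟨u, hu⟩ := hu
  rw [← hu]
  exact DirichletCharacter.unit_norm_eq_one χ u

lemma mono_eq {S : Finset ℕ} (hS : ∀ p ∈ S, p.Prime) {q : ℕ} (hq : ∀ p ∈ S, ¬ p ∣ q) (n : S → ℤ)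
    (χ : DirichletCharacter ℂ q) :
    UnitAddTorus.mFourier (d := S) n (thc S χ) =
      χ (((∏ p : S, (p : ℕ) ^ (-(n p)).toNat : ℕ) : ZMod q)⁻¹) *
        χ ((∏ p : S, (p : ℕ) ^ (n p).toNat : ℕ) : ZMod q) := by
  have hne : ∀ p : S, χ ((p : ℕ) : ZMod q) ≠ 0 := fun p => by
    rw [← norm_ne_zero_iff, norm_chi (hS p p.2) (hq p p.2)]; exact one_ne_zero
  have e1 : UnitAddTorus.mFourier (d := S) n (thc S χ) = ∏ p : S, χ ((p : ℕ) : ZMod q) ^ (n p) := by
    have h0 : UnitAddTorus.mFourier (d := S) n (thc S χ) = ∏ p : S, fourier (n p) (thc S χ p) := rfl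
    rw [h0]
    refine Finset.prod_congr rfl fun p _ => ?_
    rw [fourier_apply, AddCircle.toCircle_zsmul]
    rw [Circle.coe_zpow]
    congr 1
    exact circ_ang (norm_chi (hS p p.2) (hq p p.2) χ)
  have e2 : χ ((∏ p : S, (p : ℕ) ^ (n p).toNat : ℕ) : ZMod q) =
      ∏ p : S, χ ((p : ℕ) : ZMod q) ^ (n p).toNat := by
    push_cast
    rw [map_prod]
    simp_rw [map_pow]
  have e3 : χ ((∏ p : S, (p : ℕ) ^ (-(n p)).toNat : ℕ) : ZMod q) =
      ∏ p : S, χ ((p : ℕ) : ZMod q) ^ (-(n p)).toNat := by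
    push_cast
    rw [map_prod]
    simp_rw [map_pow]
  have hu : IsUnit (((∏ p : S, (p : ℕ) ^ (-(n p)).toNat : ℕ) : ZMod q)) := by
    rw [ZMod.isUnit_iff_coprime]
    refine Nat.Coprime.prod_left fun p _ => Nat.Coprime.pow_left _ ?_
    exact (Nat.Prime.coprime_iff_not_dvd (hS p p.2)).2 (hq p p.2)
  have e4 : χ (((∏ p : S, (p : ℕ) ^ (-(n p)).toNat : ℕ) : ZMod q)⁻¹) =
      (χ ((∏ p : S, (p : ℕ) ^ (-(n p)).toNat : ℕ) : ZMod q))⁻¹ := by
    refine eq_inv_of_mul_eq_one_left ?_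
    rw [← map_mul, ZMod.inv_mul_of_unit _ hu, map_one]
  rw [e1, e4, e3, e2, ← Finset.prod_inv_distrib, ← Finset.prod_mul_distrib]
  refine Finset.prod_congr rfl fun p _ => ?_
  obtain ⟨m, hm | hm⟩ := Int.eq_nat_or_neg (n p)
  · rw [hm]; simp
  · rw [hm]; simp

lemma prod_fact {S : Finset ℕ} (hS : ∀ p ∈ S, p.Prime) (e : S → ℕ) (r : S) :
    (∏ p : S, (p : ℕ) ^ e p).factorization r = e r := by
  rw [Nat.factorization_prod]
  · rw [Finset.sum_apply']
    rw [Finset.sum_eq_single r]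
    · rw [(hS r r.2).factorization_pow]; simp
    · intro p _ hp
      rw [(hS p p.2).factorization_pow]
      rw [Finsupp.single_apply, if_neg]
      intro h
      exact hp (Subtype.ext h)
    · intro h; exact absurd (Finset.mem_univ r) h
  · intro p _
    exact pow_ne_zero _ (hS p p.2).ne_zero

lemma ab_ne {S : Finset ℕ} (hS : ∀ p ∈ S, p.Prime) {n : S → ℤ} (hn : n ≠ 0) :
    (∏ p : S, (p : ℕ) ^ (-(n p)).toNat) ≠ ∏ p : S, (p : ℕ) ^ (n p).toNat := by
  intro h
  apply hn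
  funext r
  have h1 := prod_fact hS (fun p => (-(n p)).toNat) r
  have h2 := prod_fact hS (fun p => (n p).toNat) r
  rw [h] at h1
  rw [h1] at h2
  simp only [Pi.zero_apply]
  omega

lemma chars_weyl {S : Finset ℕ} (hS : ∀ p ∈ S, p.Prime) (Φ : C(S → UnitAddCircle, ℂ)) :
    Tendsto (fun q : ℕ => avgL (fun χ : DirichletCharacter ℂ q => thc S χ) Φ)
      (atTop ⊓ 𝓟 {q | ∀ p ∈ S, ¬ p ∣ q}) (𝓝 (∫ θ, Φ θ ∂(tor S))) := by
  refine weyl S (fun q : ℕ => avgL (fun χ : DirichletCharacter ℂ q => thc S χ))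
    (fun q Φ => avgL_norm _ _) (Eventually.of_forall fun q => ?_) (fun n hn => ?_) Φ
  · rw [avgL_apply]
    simp
  · refine tendsto_const_nhds.congr' ?_
    have h1 : ∀ᶠ q : ℕ in atTop ⊓ 𝓟 {q | ∀ p ∈ S, ¬ p ∣ q}, ∀ p ∈ S, ¬ p ∣ q :=
      mem_inf_of_right (mem_principal_self _)
    have h2 : ∀ᶠ q : ℕ in atTop ⊓ 𝓟 {q | ∀ p ∈ S, ¬ p ∣ q},
        max (∏ p : S, (p : ℕ) ^ (-(n p)).toNat) (∏ p : S, (p : ℕ) ^ (n p).toNat) < q :=
      mem_inf_of_left (eventually_gt_atTop _)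
    filter_upwards [h1, h2] with q hq hlt
    have : NeZero q := ⟨by omega⟩
    rw [avgL_apply]
    symm
    have e : ∑ χ : DirichletCharacter ℂ q, UnitAddTorus.mFourier (d := S) n (thc S χ) = 0 := by
      rw [Finset.sum_congr rfl fun χ _ => mono_eq hS hq n χ]
      have hu : IsUnit (((∏ p : S, (p : ℕ) ^ (-(n p)).toNat : ℕ) : ZMod q)) := by
        rw [ZMod.isUnit_iff_coprime]
        refine Nat.Coprime.prod_left fun p _ => Nat.Coprime.pow_left _ ?_
        exact (Nat.Prime.coprime_iff_not_dvd (hS p p.2)).2 (hq p p.2)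
      rw [DirichletCharacter.sum_char_inv_mul_char_eq ℂ hu, if_neg]
      intro h
      rw [ZMod.natCast_eq_natCast_iff] at h
      apply ab_ne hS hn
      exact Nat.ModEq.eq_of_lt_of_lt h (lt_of_le_of_lt (le_max_left _ _) hlt)
        (lt_of_le_of_lt (le_max_right _ _) hlt)
    rw [e, mul_zero]

end Pool.Agent.E8helper84.RM
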