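import Pool.Agent.E8helper84.RM.RM6

/-!
Final forms: Dirichlet characters and vertical shifts.
-/

set_option autoImplicit false

namespace Pool.Agent.E8helper84.RM

open Finset MeasureTheory ProbabilityTheory Filter Topology
open scoped ComplexConjugate

/-- `∑_{n ≤ u} μ(n) f(n)` -/
noncomputable def Mf (f : ℕ → ℂ) (u : ℝ) : ℂ :=
  ∑ n ∈ Icc 1 ⌊u⌋₊, ((ArithmeticFunction.moebius n : ℤ) : ℂ) * f n

/-- `∫_1^x |∑_{n ≤ u} μ(n) f(n)|² / u² du` -/
noncomputable def If (f : ℕ → ℂ) (x : ℝ) : ℝ := ∫ u in (1 : ℝ)..x, ‖Mf f u‖ ^ 2 / u ^ 2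

lemma If_eq {z f : ℕ → ℂ} {N : ℕ} (h : ∀ n ≤ N, Squarefree n → f n = ∏ p ∈ n.primeFactors, z p)
    {x : ℝ} (hx1 : 1 ≤ x) (hx : ⌊x⌋₊ ≤ N) : If f x = I z x := by
  unfold If I
  refine intervalIntegral.integral_congr fun u hu => ?_
  rw [Set.uIcc_of_le hx1] at hu
  have e : Mf f u = M z u := by
    unfold Mf M
    refine Finset.sum_congr rfl fun n hn => ?_
    rw [Finset.mem_Icc] at hn
    have h1 : ⌊u⌋₊ ≤ ⌊x⌋₊ := Nat.floor_le_floor hu.2
    unfold tw
    by_cases hs : Squarefree n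
    · rw [h n (by omega) hs]
    · rw [ArithmeticFunction.moebius_eq_zero_of_not_squarefree hs]
      simp
  simp only [e]

/-- the primes up to `N` that do not divide `q` -/
def Sq (N q : ℕ) : Finset ℕ := ((Icc 1 N).filter Nat.Prime).filter (fun p => ¬ p ∣ q)

lemma mem_Sq {N q p : ℕ} : p ∈ Sq N q ↔ (1 ≤ p ∧ p ≤ N) ∧ p.Prime ∧ ¬ p ∣ q := by
  unfold Sq
  rw [Finset.mem_filter, Finset.mem_filter, Finset.mem_Icc]
  tauto

lemma zf_chi {N q p : ℕ} (hp : p.Prime) (hpN : p ≤ N) (χ : DirichletCharacter ℂ q) :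
    χ ((p : ℕ) : ZMod q) = zf (Sq N q) (thc (Sq N q) χ) p := by
  unfold zf
  by_cases h : p ∣ q
  · rw [dif_neg (fun hh => (mem_Sq.1 hh).2.2 h)]
    refine MulChar.map_nonunit χ ?_
    rw [ZMod.isUnit_iff_coprime, Nat.Prime.coprime_iff_not_dvd hp]
    exact fun hh => hh h
  · have hm : p ∈ Sq N q := mem_Sq.2 ⟨⟨hp.one_lt.le, hpN⟩, hp, h⟩
    rw [dif_pos hm]
    unfold thc
    rw [circ_ang (norm_chi hp h χ)]

lemma chi_prod {N q n : ℕ} (hn : n ≤ N) (hs : Squarefree n) (χ : DirichletCharacter ℂ q) :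
    χ ((n : ℕ) : ZMod q) = ∏ p ∈ n.primeFactors, zf (Sq N q) (thc (Sq N q) χ) p := by
  have h0 : n ≠ 0 := hs.ne_zero
  have e : ((n : ℕ) : ZMod q) = ∏ p ∈ n.primeFactors, ((p : ℕ) : ZMod q) := by
    conv_lhs => rw [← Nat.prod_primeFactors_of_squarefree hs]
    push_cast
    rfl
  rw [e, map_prod]
  refine Finset.prod_congr rfl fun p hp => ?_
  exact zf_chi (Nat.prime_of_mem_primeFactors hp) ((Nat.le_of_mem_primeFactors hp).trans hn) χ

open scoped Classical in
theorem chars {C : ℝ} (hC : 0 < C) (hp : ∀ N : ℕ, 2 ≤ N →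
    ∏ p ∈ (Icc 1 N).filter Nat.Prime, (1 + 1 / (p : ℝ)) ≤ C * Real.log N) (X : ℝ) {l : ℝ} (hl : 0 < l) :
    ∀ᶠ q : ℕ in atTop, (((Finset.univ.filter fun χ : DirichletCharacter ℂ q =>
      ∃ x : ℝ, 2 ≤ x ∧ x ≤ X ∧ l * (4 * C) * Real.log x < If (fun n => χ n) x).card : ℕ) : ℝ) ≤
        (q.totient : ℝ) / l := by
  obtain ⟨N, hN⟩ : ∃ N : ℕ, N = ⌊X⌋₊ := ⟨_, rfl⟩
  have h1 : ∀ S ∈ ((Icc 1 N).filter Nat.Prime).powerset, ∀ᶠ q : ℕ in atTop, (∀ p ∈ S, ¬ p ∣ q) →
      (avgL (fun χ : DirichletCharacter ℂ q => thc S χ) (cut S N (2 * l))).re ≤ 1 / l := by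
    intro S hS
    rw [Finset.mem_powerset] at hS
    have hSp : ∀ p ∈ S, p.Prime := fun p hp => (Finset.mem_filter.1 (hS hp)).2
    have h2 := chars_weyl hSp (cut S N (2 * l))
    have h3 : Tendsto (fun q : ℕ => (avgL (fun χ : DirichletCharacter ℂ q => thc S χ)
        (cut S N (2 * l))).re) (atTop ⊓ 𝓟 {q | ∀ p ∈ S, ¬ p ∣ q})
        (𝓝 (∫ θ, cut S N (2 * l) θ ∂(tor S)).re) := (Complex.continuous_re.tendsto _).comp h2
    have h4 : (∫ θ, cut S N (2 * l) θ ∂(tor S)).re < 1 / l := by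
      refine (int_cut S N (by positivity)).trans_lt ?_
      rw [div_lt_div_iff₀ (by positivity) hl]
      linarith
    have h5 := h3.eventually (gt_mem_nhds h4)
    rw [eventually_inf_principal] at h5
    filter_upwards [h5] with q hq hh
    exact (hq hh).le
  have h2 := (Filter.eventually_all_finset _).2 h1
  filter_upwards [h2, eventually_gt_atTop 0] with q hq hq0
  have : NeZero q := ⟨by omega⟩
  obtain ⟨S, hS⟩ : ∃ S, S = Sq N q := ⟨_, rfl⟩
  have h3 := hq S (by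
    rw [Finset.mem_powerset, hS]; exact Finset.filter_subset _ _) (fun p hp => by
      rw [hS] at hp; exact (mem_Sq.1 hp).2.2)
  have h4 := avgL_cut (fun χ : DirichletCharacter ℂ q => thc S χ) N (l := 2 * l) (by positivity)
  have hcard : (Fintype.card (DirichletCharacter ℂ q) : ℝ) = q.totient := by
    rw [← Nat.card_eq_fintype_card, DirichletCharacter.card_eq_totient_of_hasEnoughRootsOfUnity ℂ q]
  have h5 : (Finset.univ.filter fun χ : DirichletCharacter ℂ q =>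
      ∃ x : ℝ, 2 ≤ x ∧ x ≤ X ∧ l * (4 * C) * Real.log x < If (fun n => χ n) x) ⊆
      Finset.univ.filter fun χ : DirichletCharacter ℂ q => 2 * (2 * l) ≤ Psi S N (thc S χ) := by
    intro χ hχ
    rw [Finset.mem_filter] at hχ ⊢
    refine ⟨Finset.mem_univ _, ?_⟩
    obtain ⟨-, x, hx2, hxX, hx⟩ := hχ
    have hfl : ⌊x⌋₊ ≤ N := by rw [hN]; exact Nat.floor_le_floor hxX
    have e1 : If (fun n => χ n) x = I (zf S (thc S χ)) x :=
      If_eq (fun n hn hs => by rw [hS]; exact chi_prod hn hs χ) (by linarith) hfl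
    have e2 := I_le_Psi hC hp S hx2 hfl (thc S χ)
    have hlog : 0 < Real.log x := Real.log_pos (by linarith)
    by_contra hcon
    rw [not_le] at hcon
    have e3 : Psi S N (thc S χ) * (C * Real.log x) ≤ 2 * (2 * l) * (C * Real.log x) :=
      mul_le_mul_of_nonneg_right hcon.le (by positivity)
    rw [e1] at hx
    linarith
  calc _ ≤ (((Finset.univ.filter fun χ : DirichletCharacter ℂ q =>
        2 * (2 * l) ≤ Psi S N (thc S χ)).card : ℕ) : ℝ) := by exact_mod_cast Finset.card_le_card h5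
    _ ≤ _ := h4
    _ ≤ (q.totient : ℝ) * (1 / l) := by
        rw [hcard]; exact mul_le_mul_of_nonneg_left h3 (Nat.cast_nonneg _)
    _ = _ := by ring

/-! ### vertical shifts -/

/-- the point of the torus of the shift by `t` -/
noncomputable def tht (S : Finset ℕ) (t : ℝ) : S → UnitAddCircle :=
  fun p => ((-(t * Real.log (p : ℕ)) / (2 * Real.pi) : ℝ) : UnitAddCircle)

lemma cont_tht (S : Finset ℕ) : Continuous (tht S) := by
  refine continuous_pi fun p => ?_
  exact (AddCircle.continuous_mk' 1).comp (by fun_prop)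

lemma circ_tht (S : Finset ℕ) (t : ℝ) (p : S) (k : ℤ) :
    fourier k (tht S t p) = Complex.exp (((k : ℝ) * -(t * Real.log (p : ℕ)) : ℝ) * Complex.I) := by
  unfold tht
  rw [fourier_coe_apply]
  congr 1
  push_cast
  have : (Real.pi : ℂ) ≠ 0 := by exact_mod_cast Real.pi_ne_zero
  field_simp

noncomputable def Lt (S : Finset ℕ) (T : ℝ) : C(S → UnitAddCircle, ℂ) →ₗ[ℂ] ℂ where
  toFun Φ := (1 / (T : ℂ)) * ∫ t in (0 : ℝ)..T, Φ (tht S t)
  map_add' Φ Ψ := by
    simp only [ContinuousMap.add_apply]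
    rw [intervalIntegral.integral_add, mul_add]
    · exact (Φ.continuous.comp (cont_tht S)).intervalIntegrable _ _
    · exact (Ψ.continuous.comp (cont_tht S)).intervalIntegrable _ _
  map_smul' a Φ := by
    simp only [ContinuousMap.smul_apply, smul_eq_mul, RingHom.id_apply]
    rw [intervalIntegral.integral_const_mul]
    ring

lemma Lt_apply (S : Finset ℕ) (T : ℝ) (Φ : C(S → UnitAddCircle, ℂ)) :
    Lt S T Φ = (1 / (T : ℂ)) * ∫ t in (0 : ℝ)..T, Φ (tht S t) := rfl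

lemma Lt_norm (S : Finset ℕ) (T : ℝ) (Φ : C(S → UnitAddCircle, ℂ)) : ‖Lt S T Φ‖ ≤ ‖Φ‖ := by
  rw [Lt_apply, norm_mul, norm_div, norm_one, Complex.norm_real]
  have h1 : ‖∫ t in (0 : ℝ)..T, Φ (tht S t)‖ ≤ ‖Φ‖ * |T - 0| :=
    intervalIntegral.norm_integral_le_of_norm_le_const fun t _ => Φ.norm_coe_le_norm _
  rw [sub_zero] at h1
  rcases eq_or_ne T 0 with h | h
  · rw [h]; simp
  · have h2 : 0 < |T| := abs_pos.2 h
    rw [Real.norm_eq_abs]
    calc 1 / |T| * ‖∫ t in (0 : ℝ)..T, Φ (tht S t)‖ ≤ 1 / |T| * (‖Φ‖ * |T|) :=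
          mul_le_mul_of_nonneg_left h1 (by positivity)
      _ = ‖Φ‖ := by field_simp

lemma log_ne {S : Finset ℕ} (hS : ∀ p ∈ S, p.Prime) {n : S → ℤ} (hn : n ≠ 0) :
    ∑ p : S, (n p : ℝ) * Real.log (p : ℕ) ≠ 0 := by
  intro h
  apply ab_ne hS hn
  have e : ∀ g : S → ℕ, Real.log ((∏ p : S, (p : ℕ) ^ g p : ℕ) : ℝ) =
      ∑ p : S, (g p : ℝ) * Real.log (p : ℕ) := by
    intro g
    push_cast
    rw [Real.log_prod]
    · refine Finset.sum_congr rfl fun p _ => ?_
      rw [Real.log_pow]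
    · intro p _
      have := (hS p p.2).pos
      positivity
  have h1 : Real.log ((∏ p : S, (p : ℕ) ^ (-(n p)).toNat : ℕ) : ℝ) =
      Real.log ((∏ p : S, (p : ℕ) ^ (n p).toNat : ℕ) : ℝ) := by
    rw [e, e, ← sub_eq_zero, ← Finset.sum_sub_distrib, ← neg_eq_zero, ← Finset.sum_neg_distrib, ← h]
    refine Finset.sum_congr rfl fun p _ => ?_
    obtain ⟨m, hm | hm⟩ := Int.eq_nat_or_neg (n p)
    · rw [hm]; simp
    · rw [hm]; simp
  have hpos : ∀ g : S → ℕ, (0 : ℝ) < ((∏ p : S, (p : ℕ) ^ g p : ℕ) : ℝ) := by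
    intro g
    have : 0 < ∏ p : S, (p : ℕ) ^ g p := Finset.prod_pos fun p _ => pow_pos (hS p p.2).pos _
    exact_mod_cast this
  have := Real.log_injOn_pos (hpos _) (hpos _) h1
  exact_mod_cast this

lemma shifts_weyl {S : Finset ℕ} (hS : ∀ p ∈ S, p.Prime) (Φ : C(S → UnitAddCircle, ℂ)) :
    Tendsto (fun T : ℝ => Lt S T Φ) atTop (𝓝 (∫ θ, Φ θ ∂(tor S))) := by
  refine weyl S (Lt S) (Lt_norm S) ?_ (fun n hn => ?_) Φ
  · filter_upwards [eventually_gt_atTop 0] with T hT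
    rw [Lt_apply]
    simp only [ContinuousMap.one_apply]
    rw [intervalIntegral.integral_const, sub_zero]
    have : (T : ℂ) ≠ 0 := by exact_mod_cast hT.ne'
    rw [Complex.real_smul, mul_one]
    field_simp
  · obtain ⟨c, hc⟩ : ∃ c : ℝ, c = ∑ p : S, (n p : ℝ) * Real.log (p : ℕ) := ⟨_, rfl⟩
    have hc0 : c ≠ 0 := by rw [hc]; exact log_ne hS hn
    have e1 : ∀ t : ℝ, UnitAddTorus.mFourier (d := S) n (tht S t) =
        Complex.exp ((-(c : ℂ) * Complex.I) * t) := by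
      intro t
      have h0 : UnitAddTorus.mFourier (d := S) n (tht S t) = ∏ p : S, fourier (n p) (tht S t p) := rfl
      rw [h0, Finset.prod_congr rfl fun p _ => circ_tht S t p (n p), ← Complex.exp_sum]
      congr 1
      rw [hc]
      push_cast
      rw [← Finset.sum_mul, ← Finset.sum_neg_distrib, Finset.sum_mul, Finset.sum_mul, Finset.sum_mul]
      refine Finset.sum_congr rfl fun p _ => ?_
      ring
    have hci : (-(c : ℂ) * Complex.I) ≠ 0 := by
      refine mul_ne_zero (neg_ne_zero.2 ?_) Complex.I_ne_zero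
      exact_mod_cast hc0
    have e2 : ∀ T : ℝ, ‖Lt S T (UnitAddTorus.mFourier (d := S) n)‖ ≤ 2 / |c| * |T|⁻¹ := by
      intro T
      rw [Lt_apply]
      simp_rw [e1]
      rw [integral_exp_mul_complex hci, norm_mul, norm_div, norm_one, Complex.norm_real, norm_div,
        norm_mul, norm_neg, Complex.norm_I, mul_one, Complex.norm_real]
      have h3 : ‖Complex.exp (-(c : ℂ) * Complex.I * (T : ℂ)) -
          Complex.exp (-(c : ℂ) * Complex.I * ((0 : ℝ) : ℂ))‖ ≤ 2 := by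
        refine (norm_sub_le _ _).trans ?_
        have h4 : ∀ s : ℝ, ‖Complex.exp (-(c : ℂ) * Complex.I * (s : ℂ))‖ = 1 := by
          intro s
          have : -(c : ℂ) * Complex.I * (s : ℂ) = ((-(c * s) : ℝ) : ℂ) * Complex.I := by
            push_cast; ring
          rw [this, Complex.norm_exp_ofReal_mul_I]
        rw [h4, h4]; norm_num
      rw [Real.norm_eq_abs, Real.norm_eq_abs]
      calc 1 / |T| * (‖_‖ / |c|) ≤ 1 / |T| * (2 / |c|) := by gcongr
        _ = 2 / |c| * |T|⁻¹ := by rw [one_div]; ring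
    refine squeeze_zero_norm e2 ?_
    have h5 : Tendsto (fun T : ℝ => |T|⁻¹) atTop (𝓝 0) :=
      tendsto_inv_atTop_zero.comp tendsto_abs_atTop_atTop
    have := h5.const_mul (2 / |c|)
    rwa [mul_zero] at this

/-- all primes up to `N` -/
def Sp (N : ℕ) : Finset ℕ := (Icc 1 N).filter Nat.Prime

/-- `n^(-it)` -/
noncomputable def sh (t : ℝ) (n : ℕ) : ℂ := Complex.exp (((-(t * Real.log n) : ℝ) : ℂ) * Complex.I)

lemma sh_prod {N n : ℕ} (hn : n ≤ N) (hs : Squarefree n) (t : ℝ) :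
    sh t n = ∏ p ∈ n.primeFactors, zf (Sp N) (tht (Sp N) t) p := by
  have e1 : ∀ p ∈ n.primeFactors, zf (Sp N) (tht (Sp N) t) p = sh t p := by
    intro p hp
    have hm : p ∈ Sp N := by
      unfold Sp
      rw [Finset.mem_filter, Finset.mem_Icc]
      have hpp := Nat.prime_of_mem_primeFactors hp
      exact ⟨⟨hpp.one_lt.le, (Nat.le_of_mem_primeFactors hp).trans hn⟩, hpp⟩
    unfold zf
    rw [dif_pos hm]
    have h1 := circ_tht (Sp N) t ⟨p, hm⟩ 1
    rw [fourier_one] at h1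
    rw [h1]
    unfold sh
    simp
  rw [Finset.prod_congr rfl e1]
  unfold sh
  rw [← Complex.exp_sum, ← Finset.sum_mul]
  congr 2
  rw [← Complex.ofReal_sum, Finset.sum_neg_distrib, ← Finset.mul_sum]
  congr 3
  conv_lhs => rw [← Nat.prod_primeFactors_of_squarefree hs]
  push_cast
  rw [Real.log_prod]
  intro p hp
  have := (Nat.prime_of_mem_primeFactors hp).pos
  positivity

theorem shifts {C : ℝ} (hC : 0 < C) (hp : ∀ N : ℕ, 2 ≤ N →
    ∏ p ∈ (Icc 1 N).filter Nat.Prime, (1 + 1 / (p : ℝ)) ≤ C * Real.log N) (X : ℝ) {l : ℝ} (hl : 0 < l) :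
    ∀ᶠ T : ℝ in atTop, volume {t : ℝ | 0 ≤ t ∧ t ≤ T ∧
      ∃ x : ℝ, 2 ≤ x ∧ x ≤ X ∧ l * (4 * C) * Real.log x < If (sh t) x} ≤ ENNReal.ofReal (T / l) := by
  obtain ⟨N, hN⟩ : ∃ N : ℕ, N = ⌊X⌋₊ := ⟨_, rfl⟩
  have hSp : ∀ p ∈ Sp N, p.Prime := fun p hp => (Finset.mem_filter.1 hp).2
  have h2 := shifts_weyl hSp (cut (Sp N) N (2 * l))
  have h3 : Tendsto (fun T : ℝ => (Lt (Sp N) T (cut (Sp N) N (2 * l))).re) atTop
      (𝓝 (∫ θ, cut (Sp N) N (2 * l) θ ∂(tor (Sp N))).re) := (Complex.continuous_re.tendsto _).comp h2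
  have h4 : (∫ θ, cut (Sp N) N (2 * l) θ ∂(tor (Sp N))).re < 1 / l := by
    refine (int_cut (Sp N) N (by positivity)).trans_lt ?_
    rw [div_lt_div_iff₀ (by positivity) hl]
    linarith
  filter_upwards [h3.eventually (gt_mem_nhds h4), eventually_gt_atTop 0] with T hT hT0
  obtain ⟨B, hB⟩ : ∃ B : Set ℝ, B = {t | 2 * (2 * l) ≤ Psi (Sp N) N (tht (Sp N) t)} := ⟨_, rfl⟩
  have hBm : MeasurableSet B := by
    rw [hB]
    exact (isClosed_le continuous_const ((cont_Psi _ _).comp (cont_tht _))).measurableSet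
  have hsub : {t : ℝ | 0 ≤ t ∧ t ≤ T ∧
      ∃ x : ℝ, 2 ≤ x ∧ x ≤ X ∧ l * (4 * C) * Real.log x < If (sh t) x} ⊆ B ∩ Set.Icc 0 T := by
    rintro t ⟨ht0, htT, x, hx2, hxX, hx⟩
    refine ⟨?_, ht0, htT⟩
    rw [hB]
    have hfl : ⌊x⌋₊ ≤ N := by rw [hN]; exact Nat.floor_le_floor hxX
    have e1 : If (sh t) x = I (zf (Sp N) (tht (Sp N) t)) x :=
      If_eq (fun n hn hs => sh_prod hn hs t) (by linarith) hfl
    have e2 := I_le_Psi hC hp (Sp N) hx2 hfl (tht (Sp N) t)
    have hlog : 0 < Real.log x := Real.log_pos (by linarith)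
    by_contra hcon
    have hcon' : Psi (Sp N) N (tht (Sp N) t) < 2 * (2 * l) := not_le.1 hcon
    have e3 : Psi (Sp N) N (tht (Sp N) t) * (C * Real.log x) ≤ 2 * (2 * l) * (C * Real.log x) :=
      mul_le_mul_of_nonneg_right hcon'.le (by positivity)
    rw [e1] at hx
    linarith
  refine (measure_mono hsub).trans ?_
  have h5 : (volume (B ∩ Set.Icc 0 T)).toReal ≤ ∫ t in (0 : ℝ)..T, (cut (Sp N) N (2 * l) (tht (Sp N) t)).re := by
    have hci : Continuous fun t => (cut (Sp N) N (2 * l) (tht (Sp N) t)).re :=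
      Complex.continuous_re.comp ((ContinuousMap.continuous _).comp (cont_tht _))
    rw [intervalIntegral.integral_of_le hT0.le, ← integral_Icc_eq_integral_Ioc]
    calc (volume (B ∩ Set.Icc 0 T)).toReal = ∫ t in Set.Icc 0 T, B.indicator (fun _ => (1 : ℝ)) t := by
          rw [integral_indicator hBm]
          simp [Measure.real, Measure.restrict_apply hBm, Measure.restrict_restrict hBm]
      _ ≤ _ := by
          refine setIntegral_mono_on ?_ ?_ measurableSet_Icc fun t _ => ?_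
          · exact (integrable_const (1 : ℝ)).indicator hBm
          · exact hci.continuousOn.integrableOn_Icc
          · by_cases ht : t ∈ B
            · rw [Set.indicator_of_mem ht]
              rw [hB] at ht
              exact cut_ge (by positivity) ht
            · rw [Set.indicator_of_notMem ht]
              exact cut_nonneg _ _ _ _
  have h6 : ∫ t in (0 : ℝ)..T, (cut (Sp N) N (2 * l) (tht (Sp N) t)).re =
      T * (Lt (Sp N) T (cut (Sp N) N (2 * l))).re := by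
    rw [Lt_apply]
    have e1 : (1 / (T : ℂ)) = ((1 / T : ℝ) : ℂ) := by push_cast; rfl
    have e2 : (∫ t in (0 : ℝ)..T, (cut (Sp N) N (2 * l)) (tht (Sp N) t)) =
        ((∫ t in (0 : ℝ)..T, (cut (Sp N) N (2 * l) (tht (Sp N) t)).re : ℝ) : ℂ) := by
      rw [← intervalIntegral.integral_ofReal]
      refine intervalIntegral.integral_congr fun t _ => ?_
      change ((max 0 (min 1 (Psi (Sp N) N (tht (Sp N) t) / (2 * l) - 1)) : ℝ) : ℂ) =
        ((((max 0 (min 1 (Psi (Sp N) N (tht (Sp N) t) / (2 * l) - 1)) : ℝ) : ℂ)).re : ℂ)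
      rw [Complex.ofReal_re]
    rw [e1, e2, Complex.re_ofReal_mul, Complex.ofReal_re]
    field_simp
  have h7 : (volume (B ∩ Set.Icc 0 T)).toReal ≤ T / l := by
    refine h5.trans ?_
    rw [h6]
    calc T * (Lt (Sp N) T (cut (Sp N) N (2 * l))).re ≤ T * (1 / l) :=
          mul_le_mul_of_nonneg_left hT.le hT0.le
      _ = T / l := by ring
  refine (ENNReal.le_ofReal_iff_toReal_le ?_ (by positivity)).2 h7
  exact ((measure_mono Set.inter_subset_right).trans_lt (by simp)).ne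

end Pool.Agent.E8helper84.RM
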