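import Pool.Agent.E8helper84.RM.RM7

/-!
Dirichlet characters modulo `q` in the full range `x ≤ q`.
-/

set_option autoImplicit false

namespace Pool.Agent.E8helper84.RM

open Finset MeasureTheory ProbabilityTheory Filter Topology
open scoped ComplexConjugate

lemma conj_chi {q : ℕ} [NeZero q] (χ : DirichletCharacter ℂ q) {n : ℕ} (h : Nat.Coprime n q) :
    conj (χ ((n : ℕ) : ZMod q)) = χ (((n : ℕ) : ZMod q)⁻¹) := by
  have hu : IsUnit ((n : ℕ) : ZMod q) := by rw [ZMod.isUnit_iff_coprime]; exact h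
  have h1 : conj (χ ((n : ℕ) : ZMod q)) = χ⁻¹ ((n : ℕ) : ZMod q) := MulChar.star_apply' χ _
  rw [h1, MulChar.inv_apply_eq_inv']
  refine (eq_inv_of_mul_eq_one_left ?_).symm
  rw [← map_mul, ZMod.inv_mul_of_unit _ hu, map_one]

lemma chi_zero {q : ℕ} (χ : DirichletCharacter ℂ q) {n : ℕ} (h : ¬ Nat.Coprime n q) :
    χ ((n : ℕ) : ZMod q) = 0 := by
  refine MulChar.map_nonunit χ ?_
  rw [ZMod.isUnit_iff_coprime]
  exact h

/-- orthogonality -/
lemma sum_sq {q : ℕ} (hq : 0 < q) {u : ℝ} (hu0 : 0 ≤ u) (hu : ⌊u⌋₊ ≤ q) :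
    ∑ χ : DirichletCharacter ℂ q, ‖Mf (fun n => χ n) u‖ ^ 2 ≤ (q.totient : ℝ) * u := by
  have : NeZero q := ⟨hq.ne'⟩
  have e1 : ((∑ χ : DirichletCharacter ℂ q, ‖Mf (fun n => χ n) u‖ ^ 2 : ℝ) : ℂ) =
      ∑ m ∈ Icc 1 ⌊u⌋₊, ∑ n ∈ Icc 1 ⌊u⌋₊, ((ArithmeticFunction.moebius m : ℤ) : ℂ) *
        ((ArithmeticFunction.moebius n : ℤ) : ℂ) *
          ∑ χ : DirichletCharacter ℂ q, conj (χ ((n : ℕ) : ZMod q)) * χ ((m : ℕ) : ZMod q) := by
    have e2 : ∀ χ : DirichletCharacter ℂ q, ((‖Mf (fun n => χ n) u‖ ^ 2 : ℝ) : ℂ) =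
        ∑ m ∈ Icc 1 ⌊u⌋₊, ∑ n ∈ Icc 1 ⌊u⌋₊, ((ArithmeticFunction.moebius m : ℤ) : ℂ) *
        ((ArithmeticFunction.moebius n : ℤ) : ℂ) *
          (conj (χ ((n : ℕ) : ZMod q)) * χ ((m : ℕ) : ZMod q)) := by
      intro χ
      rw [← Complex.normSq_eq_norm_sq, ← Complex.mul_conj]
      unfold Mf
      rw [map_sum, Finset.sum_mul_sum]
      refine Finset.sum_congr rfl fun m _ => Finset.sum_congr rfl fun n _ => ?_
      rw [map_mul]
      have : conj (((ArithmeticFunction.moebius n : ℤ) : ℂ)) = ((ArithmeticFunction.moebius n : ℤ) : ℂ) :=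
        map_intCast (starRingEnd ℂ) _
      rw [this]
      ring
    push_cast
    push_cast at e2
    rw [Finset.sum_congr rfl fun χ _ => e2 χ, Finset.sum_comm]
    refine Finset.sum_congr rfl fun m _ => ?_
    rw [Finset.sum_comm]
    refine Finset.sum_congr rfl fun n _ => ?_
    rw [Finset.mul_sum]
  have e3 : ∀ m ∈ Icc 1 ⌊u⌋₊, ∀ n ∈ Icc 1 ⌊u⌋₊,
      (∑ χ : DirichletCharacter ℂ q, conj (χ ((n : ℕ) : ZMod q)) * χ ((m : ℕ) : ZMod q)) =
        if n = m ∧ Nat.Coprime n q then (q.totient : ℂ) else 0 := by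
    intro m hm n hn
    rw [Finset.mem_Icc] at hm hn
    by_cases h : Nat.Coprime n q
    · have hun : IsUnit ((n : ℕ) : ZMod q) := by rw [ZMod.isUnit_iff_coprime]; exact h
      rw [Finset.sum_congr rfl fun χ _ => by rw [conj_chi χ h],
        DirichletCharacter.sum_char_inv_mul_char_eq ℂ hun]
      by_cases hmn : n = m
      · rw [hmn, if_pos rfl, if_pos ⟨rfl, by rw [← hmn]; exact h⟩]
      · rw [if_neg, if_neg (fun hh => hmn hh.1)]
        intro hh
        rw [ZMod.natCast_eq_natCast_iff] at hh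
        apply hmn
        -- both lie in [1, q]
        have h1 : n % q = m % q := hh
        rcases Nat.lt_or_ge n q with h2 | h2
        · rcases Nat.lt_or_ge m q with h3 | h3
          · rw [Nat.mod_eq_of_lt h2, Nat.mod_eq_of_lt h3] at h1; exact h1
          · have h4 : m = q := by omega
            rw [h4, Nat.mod_self, Nat.mod_eq_of_lt h2] at h1
            omega
        · have h4 : n = q := by omega
          rcases Nat.lt_or_ge m q with h3 | h3
          · rw [h4, Nat.mod_self, Nat.mod_eq_of_lt h3] at h1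
            omega
          · omega
    · rw [if_neg (fun hh => h hh.2)]
      refine Finset.sum_eq_zero fun χ _ => ?_
      rw [chi_zero χ h]; simp
  have e4 : ((∑ χ : DirichletCharacter ℂ q, ‖Mf (fun n => χ n) u‖ ^ 2 : ℝ) : ℂ) =
      ((∑ m ∈ Icc 1 ⌊u⌋₊, (if Nat.Coprime m q then
        (((ArithmeticFunction.moebius m : ℤ) : ℝ)) ^ 2 * (q.totient : ℝ) else 0) : ℝ) : ℂ) := by
    rw [e1]
    push_cast
    refine Finset.sum_congr rfl fun m hm => ?_
    rw [Finset.sum_eq_single m]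
    · rw [e3 m hm m hm]
      by_cases h : Nat.Coprime m q
      · rw [if_pos ⟨rfl, h⟩, if_pos h]; push_cast; ring
      · rw [if_neg (fun hh => h hh.2), if_neg h, mul_zero]; simp
    · intro n hn hnm
      rw [e3 m hm n hn, if_neg (fun hh => hnm hh.1), mul_zero]
    · intro h; exact absurd hm h
  have e5 := Complex.ofReal_injective e4
  rw [e5]
  calc _ ≤ ∑ m ∈ Icc 1 ⌊u⌋₊, (q.totient : ℝ) := by
        refine Finset.sum_le_sum fun m _ => ?_
        split_ifs with h
        · have h1 : (((ArithmeticFunction.moebius m : ℤ) : ℝ)) ^ 2 ≤ 1 := by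
            have h2 : |ArithmeticFunction.moebius m| ≤ 1 := ArithmeticFunction.abs_moebius_le_one
            have h3 : |((ArithmeticFunction.moebius m : ℤ) : ℝ)| ≤ 1 := by exact_mod_cast h2
            rw [← sq_abs]
            exact pow_le_one₀ (abs_nonneg _) h3
          calc _ ≤ (1 : ℝ) * (q.totient : ℝ) := mul_le_mul_of_nonneg_right h1 (Nat.cast_nonneg _)
            _ = _ := one_mul _
        · exact Nat.cast_nonneg _
    _ = (⌊u⌋₊ : ℝ) * (q.totient : ℝ) := by simp
    _ ≤ u * (q.totient : ℝ) := mul_le_mul_of_nonneg_right (Nat.floor_le hu0) (Nat.cast_nonneg _)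
    _ = _ := mul_comm _ _

lemma If_int {q : ℕ} (χ : DirichletCharacter ℂ q) {x y : ℝ} (hx : 1 ≤ x) (hxy : x ≤ y) :
    IntervalIntegrable (fun u => ‖Mf (fun n => χ n) u‖ ^ 2 / u ^ 2) volume x y := by
  have h := A_int ⌊y⌋₊ (zf (Sq ⌊y⌋₊ q) (thc (Sq ⌊y⌋₊ q) χ)) hx (hx.trans hxy)
  refine h.congr ?_
  intro u hu
  rw [Set.uIoc_of_le hxy] at hu
  have h1 : M (zf (Sq ⌊y⌋₊ q) (thc (Sq ⌊y⌋₊ q) χ)) u = Mf (fun n => χ n) u := by
    unfold M Mf
    refine Finset.sum_congr rfl fun n hn => ?_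
    rw [Finset.mem_Icc] at hn
    have h1 : ⌊u⌋₊ ≤ ⌊y⌋₊ := Nat.floor_le_floor hu.2
    unfold tw
    change _ = _ * χ ((n : ℕ) : ZMod q)
    by_cases hs : Squarefree n
    · rw [chi_prod (N := ⌊y⌋₊) (by omega) hs χ]
    · rw [ArithmeticFunction.moebius_eq_zero_of_not_squarefree hs]
      simp
  simp only
  rw [← M_eq_A _ (lt_of_le_of_lt hu.2 (Nat.lt_floor_add_one y)), h1]

lemma sum_If {q : ℕ} (hq : 0 < q) {x : ℝ} (hx : 1 ≤ x) (hxq : x ≤ q) :
    ∑ χ : DirichletCharacter ℂ q, If (fun n => χ n) x ≤ (q.totient : ℝ) * Real.log x := by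
  unfold If
  rw [← intervalIntegral.integral_finsetSum (fun χ _ => If_int χ le_rfl hx)]
  have e : ∫ u in (1 : ℝ)..x, (q.totient : ℝ) * (1 / u) = (q.totient : ℝ) * Real.log x := by
    rw [intervalIntegral.integral_const_mul, integral_one_div]
    · simp
    · rw [Set.uIcc_of_le hx]; intro h; linarith [h.1]
  rw [← e]
  refine intervalIntegral.integral_mono_on hx ?_ ?_ fun u hu => ?_
  · refine (IntervalIntegrable.sum Finset.univ (fun (χ : DirichletCharacter ℂ q) _ =>
      If_int χ le_rfl hx)).congr ?_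
    intro u _
    simp only [Finset.sum_apply]
  · refine (IntervalIntegrable.const_mul ?_ _)
    refine ContinuousOn.intervalIntegrable ?_
    rw [Set.uIcc_of_le hx]
    refine continuousOn_const.div continuousOn_id fun u hu => ?_
    have : (0 : ℝ) < u := by linarith [hu.1]
    exact this.ne'
  · have hu0 : 0 < u := by linarith [hu.1]
    rw [← Finset.sum_div]
    have hfl : ⌊u⌋₊ ≤ q := by
      have := Nat.floor_le_floor (hu.2.trans hxq)
      rwa [Nat.floor_natCast] at this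
    have h1 := sum_sq hq hu0.le hfl
    calc _ ≤ (q.totient : ℝ) * u / u ^ 2 := by gcongr
      _ = _ := by field_simp

lemma If_mono {q : ℕ} (χ : DirichletCharacter ℂ q) {x y : ℝ} (hx : 1 ≤ x) (hxy : x ≤ y) :
    If (fun n => χ n) x ≤ If (fun n => χ n) y := by
  unfold If
  refine intervalIntegral.integral_mono_interval le_rfl hx hxy ?_ (If_int χ le_rfl (hx.trans hxy))
  exact Filter.Eventually.of_forall fun u => by simp only [Pi.zero_apply]; positivity

lemma If_nonneg {q : ℕ} (χ : DirichletCharacter ℂ q) {x : ℝ} (hx : 1 ≤ x) :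
    0 ≤ If (fun n => χ n) x := by
  have := If_mono χ le_rfl hx
  unfold If at this ⊢
  simpa using this

open scoped Classical in
/-- Markov's inequality -/
lemma markov {q : ℕ} (hq : 0 < q) {x : ℝ} (hx : 1 ≤ x) (hxq : x ≤ q) {a : ℝ} (ha : 0 < a) :
    (((Finset.univ.filter fun χ : DirichletCharacter ℂ q => a < If (fun n => χ n) x).card : ℕ) : ℝ) ≤
      (q.totient : ℝ) * Real.log x / a := by
  rw [le_div_iff₀ ha]
  refine le_trans ?_ (sum_If hq hx hxq)
  calc (((Finset.univ.filter fun χ : DirichletCharacter ℂ q => a < If (fun n => χ n) x).card : ℕ) : ℝ) * a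
      = ∑ χ ∈ Finset.univ.filter (fun χ : DirichletCharacter ℂ q => a < If (fun n => χ n) x), a := by simp
    _ ≤ ∑ χ ∈ Finset.univ.filter (fun χ : DirichletCharacter ℂ q => a < If (fun n => χ n) x),
          If (fun n => χ n) x := Finset.sum_le_sum fun χ hχ => (Finset.mem_filter.1 hχ).2.le
    _ ≤ ∑ χ : DirichletCharacter ℂ q, If (fun n => χ n) x :=
        Finset.sum_le_sum_of_subset_of_nonneg (Finset.filter_subset _ _)
          fun χ _ _ => If_nonneg χ hx

open scoped Classical in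
theorem chars_full {e : ℝ} (he : 0 < e) : ∃ C : ℝ, 0 < C ∧ ∀ q : ℕ, 3 ≤ q → ∀ l : ℝ, 0 < l →
    (((Finset.univ.filter fun χ : DirichletCharacter ℂ q => ∃ x : ℝ, 3 ≤ x ∧ x ≤ q ∧
      l * C * Real.log x * (1 + Real.log (Real.log x)) ^ (1 + e) < If (fun n => χ n) x).card : ℕ) : ℝ) ≤
        (q.totient : ℝ) / l := by
  have hs : Summable (fun k : ℕ => 1 / ((k : ℝ) + 1) ^ (1 + e)) := by
    have h1 : Summable (fun k : ℕ => 1 / (k : ℝ) ^ (1 + e)) :=
      Real.summable_one_div_nat_rpow.2 (by linarith)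
    have h2 := (summable_nat_add_iff 1).2 h1
    refine h2.congr fun k => ?_
    push_cast; rfl
  obtain ⟨Z, hZ⟩ : ∃ Z : ℝ, Z = ∑' k : ℕ, 1 / ((k : ℝ) + 1) ^ (1 + e) := ⟨_, rfl⟩
  have hZ1 : 0 < Z := by
    rw [hZ]
    refine hs.tsum_pos (fun k => by positivity) 0 (by positivity)
  refine ⟨2 * (4 : ℝ) ^ (1 + e) * Z, by positivity, fun q hq l hl => ?_⟩
  have hq0 : 0 < q := by omega
  have hqR : (3 : ℝ) ≤ q := by exact_mod_cast hq
  obtain ⟨K, hK⟩ : ∃ K : ℕ, Real.log q ≤ 2 ^ K := by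
    obtain ⟨K, hK⟩ := pow_unbounded_of_one_lt (Real.log q) (one_lt_two)
    exact ⟨K, hK.le⟩
  -- the points
  obtain ⟨xk, hxk⟩ : ∃ xk : ℕ → ℝ, xk = fun k => min (Real.exp (2 ^ k)) q := ⟨_, rfl⟩
  have hx1 : ∀ k, 1 ≤ xk k := fun k => by
    rw [hxk]; exact le_min (Real.one_le_exp (by positivity)) (by linarith)
  have hxq : ∀ k, xk k ≤ q := fun k => by rw [hxk]; exact min_le_right _ _
  have hlogx : ∀ k, Real.log (xk k) ≤ 2 ^ k := fun k => by
    have h1 : xk k ≤ Real.exp (2 ^ k) := by rw [hxk]; exact min_le_left _ _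
    calc Real.log (xk k) ≤ Real.log (Real.exp (2 ^ k)) := Real.log_le_log (by linarith [hx1 k]) h1
      _ = 2 ^ k := Real.log_exp _
  obtain ⟨ak, hak⟩ : ∃ ak : ℕ → ℝ, ak = fun k : ℕ => l * Z * 2 ^ k * ((k : ℝ) + 1) ^ (1 + e) := ⟨_, rfl⟩
  have hak0 : ∀ k, 0 < ak k := fun k => by rw [hak]; positivity
  have hsub : (Finset.univ.filter fun χ : DirichletCharacter ℂ q => ∃ x : ℝ, 3 ≤ x ∧ x ≤ q ∧
      l * (2 * (4 : ℝ) ^ (1 + e) * Z) * Real.log x * (1 + Real.log (Real.log x)) ^ (1 + e) <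
        If (fun n => χ n) x) ⊆
      (range (K + 1)).biUnion fun k => Finset.univ.filter fun χ : DirichletCharacter ℂ q =>
        ak k < If (fun n => χ n) (xk k) := by
    intro χ hχ
    obtain ⟨-, x, hx3, hxq', hx⟩ := Finset.mem_filter.1 hχ
    have hlog3 : 1 ≤ Real.log x := by
      rw [Real.le_log_iff_exp_le (by linarith)]
      have := Real.exp_one_lt_d9
      linarith
    have hex : ∃ k : ℕ, Real.log x ≤ 2 ^ k := ⟨K, (Real.log_le_log (by linarith) hxq').trans hK⟩
    obtain ⟨k, hk1, hk2⟩ : ∃ k : ℕ, Real.log x ≤ 2 ^ k ∧ ∀ j < k, ¬ Real.log x ≤ 2 ^ j :=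
      ⟨Nat.find hex, Nat.find_spec hex, fun j hj => Nat.find_min hex hj⟩
    have hkK : k ≤ K := by
      by_contra hcon
      exact hk2 K (by omega) ((Real.log_le_log (by linarith) hxq').trans hK)
    have h2k : (2 : ℝ) ^ k ≤ 2 * Real.log x := by
      rcases Nat.eq_zero_or_pos k with h0 | h0
      · rw [h0]; linarith
      · have := not_le.1 (hk2 (k - 1) (by omega))
        have e1 : (2 : ℝ) ^ k = 2 * 2 ^ (k - 1) := by
          rw [← pow_succ']; congr 1; omega
        rw [e1]; linarith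
    have hll : 0 ≤ Real.log (Real.log x) := Real.log_nonneg hlog3
    have hk3 : (k : ℝ) + 1 ≤ 4 * (1 + Real.log (Real.log x)) := by
      have h1 : Real.log ((2 : ℝ) ^ k) ≤ Real.log (2 * Real.log x) := Real.log_le_log (by positivity) h2k
      rw [Real.log_pow, Real.log_mul (by norm_num) (by linarith)] at h1
      have h2 := Real.log_two_gt_d9
      have h3 := Real.log_two_lt_d9
      nlinarith
    rw [Finset.mem_biUnion]
    refine ⟨k, Finset.mem_range.2 (by omega), ?_⟩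
    rw [Finset.mem_filter]
    refine ⟨Finset.mem_univ _, ?_⟩
    have hxx : x ≤ xk k := by
      rw [hxk]
      refine le_min ?_ hxq'
      rw [← Real.log_le_iff_le_exp (by linarith)]
      exact hk1
    refine lt_of_le_of_lt ?_ (hx.trans_le (If_mono χ (by linarith) hxx))
    rw [hak]
    have h4 : ((k : ℝ) + 1) ^ (1 + e) ≤ (4 : ℝ) ^ (1 + e) * (1 + Real.log (Real.log x)) ^ (1 + e) := by
      rw [← Real.mul_rpow (by norm_num) (by linarith)]
      exact Real.rpow_le_rpow (by positivity) hk3 (by linarith)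
    calc l * Z * 2 ^ k * ((k : ℝ) + 1) ^ (1 + e)
        ≤ l * Z * (2 * Real.log x) * ((4 : ℝ) ^ (1 + e) * (1 + Real.log (Real.log x)) ^ (1 + e)) := by
          gcongr
      _ = _ := by ring
  calc _ ≤ ((((range (K + 1)).biUnion fun k => Finset.univ.filter fun χ : DirichletCharacter ℂ q =>
        ak k < If (fun n => χ n) (xk k)).card : ℕ) : ℝ) := by exact_mod_cast Finset.card_le_card hsub
    _ ≤ ((∑ k ∈ range (K + 1), (Finset.univ.filter fun χ : DirichletCharacter ℂ q =>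
        ak k < If (fun n => χ n) (xk k)).card : ℕ) : ℝ) := by exact_mod_cast Finset.card_biUnion_le
    _ = ∑ k ∈ range (K + 1), (((Finset.univ.filter fun χ : DirichletCharacter ℂ q =>
        ak k < If (fun n => χ n) (xk k)).card : ℕ) : ℝ) := by push_cast; rfl
    _ ≤ ∑ k ∈ range (K + 1), (q.totient : ℝ) / (l * Z) * (1 / ((k : ℝ) + 1) ^ (1 + e)) := by
        refine Finset.sum_le_sum fun k _ => ?_
        refine (markov hq0 (hx1 k) (hxq k) (hak0 k)).trans ?_
        rw [div_le_iff₀ (hak0 k)]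
        calc (q.totient : ℝ) * Real.log (xk k) ≤ (q.totient : ℝ) * 2 ^ k :=
              mul_le_mul_of_nonneg_left (hlogx k) (Nat.cast_nonneg _)
          _ = _ := by
              rw [hak]
              have : ((k : ℝ) + 1) ^ (1 + e) ≠ 0 := by positivity
              field_simp
    _ = (q.totient : ℝ) / (l * Z) * ∑ k ∈ range (K + 1), (1 / ((k : ℝ) + 1) ^ (1 + e)) := by
        rw [Finset.mul_sum]
    _ ≤ (q.totient : ℝ) / (l * Z) * Z := by
        refine mul_le_mul_of_nonneg_left ?_ (by positivity)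
        rw [hZ]
        exact hs.sum_le_tsum _ fun k _ => by positivity
    _ = (q.totient : ℝ) / l := by field_simp

end Pool.Agent.E8helper84.RM
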