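import Pool.Agent.E8helper84.RM.RM8

/-!
Real characters `n ↦ (d/n)`.
-/

set_option autoImplicit false

namespace Pool.Agent.E8helper84.RM

open Finset MeasureTheory ProbabilityTheory Filter Topology
open scoped ComplexConjugate

/-- value at the prime `p` as a function of the residue class modulo `p` -/
noncomputable def gp (p : Nat.Primes) (a : ZMod (p : ℕ)) : ℂ :=
  if (p : ℕ) = 2 then 0 else ((jacobiSym ((ZMod.val a : ℕ) : ℤ) (p : ℕ) : ℤ) : ℂ)

instance nzp (p : Nat.Primes) : NeZero (p : ℕ) := ⟨p.2.ne_zero⟩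

/-- uniform distribution modulo `p` -/
noncomputable def unif (p : Nat.Primes) : Measure (ZMod (p : ℕ)) :=
  ((p : ℕ) : ENNReal)⁻¹ • Measure.count

lemma p_ne_zero (p : Nat.Primes) : ((p : ℕ) : ENNReal) ≠ 0 := by exact_mod_cast p.2.ne_zero

lemma unif_single (p : Nat.Primes) (a : ZMod (p : ℕ)) : unif p {a} = ((p : ℕ) : ENNReal)⁻¹ := by
  unfold unif
  rw [Measure.smul_apply, Measure.count_singleton, smul_eq_mul, mul_one]

instance (p : Nat.Primes) : IsProbabilityMeasure (unif p) := by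
  constructor
  unfold unif
  rw [Measure.smul_apply, Measure.count_apply MeasurableSet.univ, smul_eq_mul]
  rw [Set.encard_univ, ENat.card_eq_coe_fintype_card, ZMod.card]
  exact ENNReal.inv_mul_cancel (p_ne_zero p) (ENNReal.natCast_ne_top _)

noncomputable def P1 : Measure ((p : Nat.Primes) → ZMod (p : ℕ)) := Measure.infinitePi unif

instance : IsProbabilityMeasure P1 := inferInstanceAs (IsProbabilityMeasure (Measure.infinitePi _))

def mkP (n : ℕ) (h : n.Prime) : Nat.Primes := ⟨n, h⟩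

lemma mkP_coe {n : ℕ} (h : n.Prime) : ((mkP n h : Nat.Primes) : ℕ) = n := rfl

lemma mkP_self (p : Nat.Primes) : mkP (p : ℕ) p.2 = p := rfl

noncomputable def z1 (n : ℕ) (ω : (p : Nat.Primes) → ZMod (p : ℕ)) : ℂ :=
  if h : n.Prime then gp (mkP n h) (ω (mkP n h)) else 0

lemma z1_prime {n : ℕ} (h : n.Prime) (ω : (p : Nat.Primes) → ZMod (p : ℕ)) :
    z1 n ω = gp (mkP n h) (ω (mkP n h)) := by
  unfold z1
  rw [dif_pos h]

lemma norm_gp (p : Nat.Primes) (a : ZMod (p : ℕ)) : ‖gp p a‖ ≤ 1 := by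
  unfold gp
  split_ifs
  · simp
  · rcases jacobiSym.trichotomy ((ZMod.val a : ℕ) : ℤ) (p : ℕ) with h | h | h
    · rw [h]; simp
    · rw [h]; simp
    · rw [h]; simp

lemma sum_gp (p : Nat.Primes) : ∑ a : ZMod (p : ℕ), gp p a = 0 := by
  by_cases h2 : (p : ℕ) = 2
  · unfold gp
    simp [h2]
  · haveI : Fact (p : ℕ).Prime := ⟨p.2⟩
    have e : ∀ a : ZMod (p : ℕ), gp p a = ((quadraticChar (ZMod (p : ℕ)) a : ℤ) : ℂ) := by
      intro a
      unfold gp
      rw [if_neg h2, ← jacobiSym.legendreSym.to_jacobiSym]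
      unfold legendreSym
      congr 2
      simp
    rw [Finset.sum_congr rfl fun a _ => e a, ← Int.cast_sum, quadraticChar_sum_zero]
    · simp
    · rw [ZMod.ringChar_zmod_n]; exact h2

lemma int_gp (p : Nat.Primes) : ∫ a, gp p a ∂(unif p) = 0 := by
  unfold unif
  rw [integral_smul_measure, integral_count, sum_gp, smul_zero]

lemma rnd1 : Rnd P1 z1 := by
  have hX : ∀ p : Nat.Primes, Measurable (gp p) := fun p => measurable_of_countable _
  refine ⟨fun p hp => ?_, fun p hp ω => ?_, fun p hp => ?_, ?_⟩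
  · obtain ⟨r, hr⟩ : ∃ r : Nat.Primes, r = mkP p hp := ⟨_, rfl⟩
    have : z1 p = fun ω => gp r (ω r) := by
      funext ω; rw [z1_prime hp, hr]
    rw [this]
    exact (hX r).comp (measurable_pi_apply _)
  · rw [z1_prime hp]
    exact norm_gp _ _
  · obtain ⟨r, hr⟩ : ∃ r : Nat.Primes, r = mkP p hp := ⟨_, rfl⟩
    have : z1 p = fun ω => gp r (ω r) := by
      funext ω; rw [z1_prime hp, hr]
    rw [this]
    have h2 : MeasurePreserving (Function.eval r) P1 (unif r) :=
      measurePreserving_eval_infinitePi unif r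
    have h3 : ∫ ω, gp r (ω r) ∂P1 = ∫ a, gp r a ∂(unif r) := by
      rw [← h2.map_eq, integral_map h2.measurable.aemeasurable (hX _).aestronglyMeasurable]
    rw [h3, int_gp]
  · have h1 : iIndepFun (fun (i : Nat.Primes) (ω : (p : Nat.Primes) → ZMod (p : ℕ)) => gp i (ω i)) P1 :=
      iIndepFun_infinitePi (P := unif) hX
    have h3 : (fun p : Nat.Primes => z1 p) =
        fun (i : Nat.Primes) (ω : (p : Nat.Primes) → ZMod (p : ℕ)) => gp i (ω i) := by
      funext p ω
      rw [z1_prime p.2, mkP_self]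
    rw [h3]
    exact h1

/-- residues of `d` -/
def om (d : ℕ) : (p : Nat.Primes) → ZMod (p : ℕ) := fun _ => (d : ZMod _)

/-- the event -/
def Ev (N : ℕ) (l : ℝ) : Set ((p : Nat.Primes) → ZMod (p : ℕ)) := {ω | ∃ k, k ≤ N ∧ l ≤ Zm P1 z1 k ω}

lemma tw_congr {N n : ℕ} (hn : n ∈ D N) {ω ω' : (p : Nat.Primes) → ZMod (p : ℕ)}
    (h : ∀ p : Nat.Primes, (p : ℕ) ≤ N → ω p = ω' p) :
    tw (fun k => z1 k ω) n = tw (fun k => z1 k ω') n := by
  unfold tw
  congr 1
  refine Finset.prod_congr rfl fun p hp => ?_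
  have h1 := prime_le_of_D hn hp
  have hpp : p.Prime := Nat.prime_of_mem_primeFactors hp
  change z1 p ω = z1 p ω'
  rw [z1_prime hpp, z1_prime hpp, h (mkP p hpp) h1]

lemma Ev_congr {N : ℕ} {l : ℝ} {ω ω' : (p : Nat.Primes) → ZMod (p : ℕ)}
    (h : ∀ p : Nat.Primes, (p : ℕ) ≤ N → ω p = ω' p) (hω : ω ∈ Ev N l) : ω' ∈ Ev N l := by
  obtain ⟨k, hk, hl⟩ := hω
  refine ⟨k, hk, ?_⟩
  have e : Zm P1 z1 k ω' = Zm P1 z1 k ω := by
    unfold Zm Q
    congr 1
    refine Finset.sum_congr rfl fun m hm => Finset.sum_congr rfl fun n hn => ?_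
    rw [tw_congr hm (fun p hp => h p (hp.trans hk)), tw_congr hn (fun p hp => h p (hp.trans hk))]
  rw [e]; exact hl

open scoped Classical in
/-- the primes up to `N` -/
noncomputable def Pf (N : ℕ) : Finset Nat.Primes :=
  ((Icc 1 N).filter Nat.Prime).attach.image (fun p => mkP p.1 (Finset.mem_filter.1 p.2).2)

lemma mem_Pf {N : ℕ} {p : Nat.Primes} : p ∈ Pf N ↔ (p : ℕ) ≤ N := by
  unfold Pf
  rw [Finset.mem_image]
  constructor
  · rintro ⟨q, _, rfl⟩
    rw [mkP_coe]
    have := (Finset.mem_filter.1 q.2).1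
    rw [Finset.mem_Icc] at this
    exact this.2
  · intro h
    have hm : (p : ℕ) ∈ (Icc 1 N).filter Nat.Prime := by
      rw [Finset.mem_filter, Finset.mem_Icc]
      exact ⟨⟨p.2.one_lt.le, h⟩, p.2⟩
    exact ⟨⟨p, hm⟩, Finset.mem_attach _ _, rfl⟩

noncomputable def md (N : ℕ) : ℕ := ∏ p ∈ Pf N, (p : ℕ)

lemma md_pos (N : ℕ) : 0 < md N := Finset.prod_pos fun p _ => p.2.pos

/-- cylinder of `d` -/
def Cy (N d : ℕ) : Set ((p : Nat.Primes) → ZMod (p : ℕ)) :=
  Set.pi (Pf N) (fun p => {((d : ℕ) : ZMod (p : ℕ))})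

lemma P1_Cy (N d : ℕ) : P1 (Cy N d) = ((md N : ℕ) : ENNReal)⁻¹ := by
  unfold P1 Cy
  rw [Measure.infinitePi_pi]
  · rw [Finset.prod_congr rfl fun p _ => unif_single p _]
    unfold md
    push_cast
    rw [ENNReal.prod_inv_distrib]
    intro p _ q _ _
    exact Or.inl (p_ne_zero p)
  · intro p _; exact MeasurableSet.of_discrete

lemma meas_Cy (N d : ℕ) : MeasurableSet (Cy N d) :=
  MeasurableSet.pi (Finset.countable_toSet _) fun _ _ => MeasurableSet.of_discrete

lemma Cy_disj {N d d' : ℕ} (hd : d < md N) (hd' : d' < md N) (hne : d ≠ d') :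
    Disjoint (Cy N d) (Cy N d') := by
  rw [Set.disjoint_left]
  intro ω h1 h2
  apply hne
  have h3 : ∀ p ∈ Pf N, ((d : ℕ) : ZMod (p : ℕ)) = ((d' : ℕ) : ZMod (p : ℕ)) := by
    intro p hp
    have e1 : ω p = ((d : ℕ) : ZMod (p : ℕ)) := h1 p hp
    have e2 : ω p = ((d' : ℕ) : ZMod (p : ℕ)) := h2 p hp
    rw [← e1, e2]
  have h4 : ∀ p ∈ Pf N, ((p : ℕ) : ℤ) ∣ (d' : ℤ) - d := by
    intro p hp
    have := (ZMod.natCast_eq_natCast_iff _ _ _).1 (h3 p hp)
    exact Nat.modEq_iff_dvd.1 this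
  have h5 : ((md N : ℕ) : ℤ) ∣ (d' : ℤ) - d := by
    unfold md
    push_cast
    refine Finset.prod_dvd_of_coprime ?_ h4
    intro p _ q _ hpq
    have : Nat.Coprime (p : ℕ) (q : ℕ) := (Nat.coprime_primes p.2 q.2).2 (fun h => hpq (Subtype.ext h))
    exact Nat.isCoprime_iff_coprime.2 this
  have h6 : d ≡ d' [MOD md N] := Nat.modEq_iff_dvd.2 h5
  exact Nat.ModEq.eq_of_lt_of_lt h6 hd hd'

open scoped Classical in
lemma count_block (N : ℕ) {l : ℝ} (hl : 0 < l) :
    ((((range (md N)).filter fun d => om d ∈ Ev N l).card : ℕ) : ℝ) ≤ (md N : ℝ) / l := by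
  have h1 : ((((range (md N)).filter fun d => om d ∈ Ev N l).card : ℕ) : ENNReal) *
      ((md N : ℕ) : ENNReal)⁻¹ ≤ ENNReal.ofReal (1 / l) := by
    refine le_trans ?_ (maximal rnd1 hl N)
    calc _ = ∑ d ∈ (range (md N)).filter (fun d => om d ∈ Ev N l), P1 (Cy N d) := by
          rw [Finset.sum_congr rfl fun d _ => P1_Cy N d]; simp
      _ = P1 (⋃ d ∈ (range (md N)).filter (fun d => om d ∈ Ev N l), Cy N d) := by
          rw [measure_biUnion_finset]
          · intro d hd d' hd' hne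
            have hd1 := Finset.mem_filter.1 (Finset.mem_coe.1 hd)
            have hd2 := Finset.mem_filter.1 (Finset.mem_coe.1 hd')
            exact Cy_disj (Finset.mem_range.1 hd1.1) (Finset.mem_range.1 hd2.1) hne
          · intro d _; exact meas_Cy N d
      _ ≤ _ := by
          refine measure_mono (Set.iUnion₂_subset fun d hd => ?_)
          intro ω hω
          refine Ev_congr (ω := om d) (fun p hp => ?_) (Finset.mem_filter.1 hd).2
          exact (hω p (mem_Pf.2 hp)).symm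
  have h2 := ENNReal.toReal_mono ENNReal.ofReal_ne_top h1
  rw [ENNReal.toReal_mul, ENNReal.toReal_natCast, ENNReal.toReal_inv, ENNReal.toReal_natCast,
    ENNReal.toReal_ofReal (by positivity)] at h2
  have hm : (0 : ℝ) < md N := by exact_mod_cast md_pos N
  rw [← div_eq_mul_inv, div_le_iff₀ hm] at h2
  calc _ ≤ 1 / l * (md N : ℝ) := h2
    _ = _ := by ring

lemma Ev_period {N d : ℕ} {l : ℝ} (h : om d ∈ Ev N l) : om (d % md N) ∈ Ev N l := by
  refine Ev_congr (fun p hp => ?_) h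
  unfold om
  rw [ZMod.natCast_eq_natCast_iff]
  have h1 : d % md N ≡ d [MOD md N] := Nat.mod_modEq _ _
  exact (h1.of_dvd (Finset.dvd_prod_of_mem _ (mem_Pf.2 hp))).symm

open scoped Classical in
lemma count_all (N : ℕ) {l : ℝ} (hl : 0 < l) {Y : ℕ} (hY : md N ≤ Y) :
    ((((Icc 1 Y).filter fun d => om d ∈ Ev N l).card : ℕ) : ℝ) ≤ 2 * (Y : ℝ) / l := by
  have hm : 0 < md N := md_pos N
  have h1 : ((Icc 1 Y).filter fun d => om d ∈ Ev N l).card ≤
      ((range (Y / md N + 1)) ×ˢ ((range (md N)).filter fun d => om d ∈ Ev N l)).card := by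
    refine Finset.card_le_card_of_injOn (fun d => (d / md N, d % md N)) ?_ ?_
    · intro d hd
      have hd1 := Finset.mem_filter.1 (Finset.mem_coe.1 hd)
      rw [Finset.mem_Icc] at hd1
      rw [Finset.mem_coe, Finset.mem_product, Finset.mem_range, Finset.mem_filter, Finset.mem_range]
      refine ⟨?_, Nat.mod_lt _ hm, Ev_period hd1.2⟩
      have := Nat.div_le_div_right (c := md N) hd1.1.2
      simp only
      omega
    · intro d _ d' _ h
      simp only [Prod.mk.injEq] at h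
      rw [← Nat.div_add_mod d (md N), ← Nat.div_add_mod d' (md N), h.1, h.2]
  rw [Finset.card_product, Finset.card_range] at h1
  have h2 := count_block N hl
  have hmR : (0 : ℝ) < md N := by exact_mod_cast hm
  calc _ ≤ (((Y / md N + 1) * ((range (md N)).filter fun d => om d ∈ Ev N l).card : ℕ) : ℝ) := by
        exact_mod_cast h1
    _ = ((Y / md N : ℕ) + 1 : ℝ) * ((((range (md N)).filter fun d => om d ∈ Ev N l).card : ℕ) : ℝ) := by
        push_cast; rfl
    _ ≤ ((Y : ℝ) / md N + 1) * ((md N : ℝ) / l) := by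
        have h3 : ((Y / md N : ℕ) : ℝ) ≤ (Y : ℝ) / md N := Nat.cast_div_le
        gcongr
    _ = ((Y : ℝ) + md N) / l := by field_simp
    _ ≤ 2 * (Y : ℝ) / l := by
        have : (md N : ℝ) ≤ Y := by exact_mod_cast hY
        gcongr
        linarith

/-- `(d/n)` for odd `n`, and `0` for even `n` -/
noncomputable def rc (d n : ℕ) : ℂ := if n % 2 = 1 then ((jacobiSym (d : ℤ) n : ℤ) : ℂ) else 0

lemma rc_one (d : ℕ) : rc d 1 = 1 := by simp [rc]

lemma rc_mul (d m n : ℕ) : rc d (m * n) = rc d m * rc d n := by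
  unfold rc
  by_cases hm : m % 2 = 1
  · by_cases hn : n % 2 = 1
    · have : (m * n) % 2 = 1 := by rw [Nat.mul_mod, hm, hn]
      rw [if_pos hm, if_pos hn, if_pos this, jacobiSym.mul_right' _ (by omega) (by omega)]
      push_cast; rfl
    · have : ¬ (m * n) % 2 = 1 := by
        have : n % 2 = 0 := by omega
        rw [Nat.mul_mod, this]; simp
      rw [if_neg hn, if_neg this, mul_zero]
  · have : ¬ (m * n) % 2 = 1 := by
      have : m % 2 = 0 := by omega
      rw [Nat.mul_mod, this]; simp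
    rw [if_neg hm, if_neg this, zero_mul]

lemma rc_prime (d : ℕ) {p : ℕ} (hp : p.Prime) : rc d p = z1 p (om d) := by
  rw [z1_prime hp]
  unfold gp rc om
  rw [mkP_coe hp]
  rcases hp.eq_two_or_odd with h | h
  · rw [if_neg (by omega), if_pos h]
  · rw [if_pos h, if_neg (by omega)]
    congr 1
    rw [ZMod.val_natCast]
    push_cast
    rw [← jacobiSym.mod_left]

/-- multiplicative functions on squarefree numbers -/
lemma mult_prod {f : ℕ → ℂ} (h1 : f 1 = 1) (h : ∀ m n : ℕ, Nat.Coprime m n → f (m * n) = f m * f n)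
    {n : ℕ} (hs : Squarefree n) : f n = ∏ p ∈ n.primeFactors, f p := by
  have key : ∀ S : Finset ℕ, (∀ p ∈ S, p.Prime) → f (∏ p ∈ S, p) = ∏ p ∈ S, f p := by
    intro S
    induction S using Finset.induction_on with
    | empty => intro _; simpa using h1
    | insert p S hp ih =>
      intro hS
      rw [Finset.prod_insert hp, Finset.prod_insert hp, h, ih fun q hq => hS q (Finset.mem_insert_of_mem hq)]
      refine Nat.Coprime.prod_right fun q hq => ?_
      exact (Nat.coprime_primes (hS p (Finset.mem_insert_self _ _))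
        (hS q (Finset.mem_insert_of_mem hq))).2 (fun h => hp (h ▸ hq))
  have := key n.primeFactors fun p hp => Nat.prime_of_mem_primeFactors hp
  rwa [Nat.prod_primeFactors_of_squarefree hs] at this

open scoped Classical in
theorem reals {C : ℝ} (hC : 0 < C) (hp : ∀ N : ℕ, 2 ≤ N →
    ∏ p ∈ (Icc 1 N).filter Nat.Prime, (1 + 1 / (p : ℝ)) ≤ C * Real.log N) (X : ℝ) {l : ℝ} (hl : 0 < l) :
    ∀ᶠ Y : ℕ in atTop, ((((Icc 1 Y).filter fun d : ℕ =>
      ∃ x : ℝ, 2 ≤ x ∧ x ≤ X ∧ l * (4 * C) * Real.log x < If (rc d) x).card : ℕ) : ℝ) ≤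
        (Y : ℝ) / l := by
  obtain ⟨N, hN⟩ : ∃ N : ℕ, N = ⌊X⌋₊ := ⟨_, rfl⟩
  filter_upwards [eventually_ge_atTop (md N)] with Y hY
  have hsub : ((Icc 1 Y).filter fun d : ℕ =>
      ∃ x : ℝ, 2 ≤ x ∧ x ≤ X ∧ l * (4 * C) * Real.log x < If (rc d) x) ⊆
      (Icc 1 Y).filter fun d => om d ∈ Ev N (4 * l) := by
    intro d hd
    obtain ⟨hd1, x, hx2, hxX, hx⟩ := Finset.mem_filter.1 hd
    rw [Finset.mem_filter]
    refine ⟨hd1, ?_⟩
    have hfl : ⌊x⌋₊ ≤ N := by rw [hN]; exact Nat.floor_le_floor hxX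
    refine ⟨⌊x⌋₊, hfl, ?_⟩
    have e1 : If (rc d) x = I (fun k => z1 k (om d)) x :=
      If_eq (N := ⌊x⌋₊) (fun n hn hs => by
        rw [mult_prod (rc_one d) (fun m n _ => rc_mul d m n) hs]
        refine Finset.prod_congr rfl fun p hp => rc_prime d (Nat.prime_of_mem_primeFactors hp))
        (by linarith) le_rfl
    have e2 := I_le_Zm rnd1 hC hp hx2 (om d)
    have hlog : 0 < Real.log x := Real.log_pos (by linarith)
    by_contra hcon
    rw [not_le] at hcon
    have e3 : Zm P1 z1 ⌊x⌋₊ (om d) * (C * Real.log x) ≤ 4 * l * (C * Real.log x) :=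
      mul_le_mul_of_nonneg_right hcon.le (by positivity)
    rw [e1] at hx
    linarith
  calc _ ≤ ((((Icc 1 Y).filter fun d => om d ∈ Ev N (4 * l)).card : ℕ) : ℝ) := by
        exact_mod_cast Finset.card_le_card hsub
    _ ≤ 2 * (Y : ℝ) / (4 * l) := count_all N (by positivity) hY
    _ ≤ (Y : ℝ) / l := by
        rw [div_le_div_iff₀ (by positivity) hl]
        have : (0 : ℝ) ≤ Y := Nat.cast_nonneg _
        nlinarith [mul_nonneg this hl.le]

end Pool.Agent.E8helper84.RM
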