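import Pool.Agent.E8helper84.RM.RM9

/-!
Plancherel for the sums over smooth numbers, and the comparison with the Euler product right of the line.
-/

set_option autoImplicit false

namespace Pool.Agent.E8helper84.RM

open MeasureTheory Filter Topology
open scoped ComplexConjugate FourierTransform

noncomputable def kap (ξ : ℝ) : ℝ := 1 / (1 / 4 + 4 * Real.pi ^ 2 * ξ ^ 2)

lemma kap_pos (ξ : ℝ) : 0 < kap ξ := by unfold kap; positivity

lemma kap_cont : Continuous kap := by
  unfold kap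
  refine continuous_const.div (by fun_prop) fun ξ => ?_
  positivity

lemma kap_int : Integrable kap := by
  have h : Integrable fun x : ℝ => 4 * (1 + x ^ 2)⁻¹ := integrable_inv_one_add_sq.const_mul 4
  refine h.mono' kap_cont.aestronglyMeasurable (Eventually.of_forall fun ξ => ?_)
  rw [Real.norm_eq_abs, abs_of_pos (kap_pos ξ)]
  unfold kap
  rw [one_div, ← div_eq_mul_inv, inv_eq_one_div, div_le_div_iff₀ (by positivity) (by positivity)]
  have : 9 ≤ Real.pi ^ 2 := by nlinarith [Real.pi_gt_three]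
  nlinarith [sq_nonneg ξ]

noncomputable def fex (x : ℝ) : ℂ := ((Real.exp (-(|x| / 2)) : ℝ) : ℂ)

lemma fex_cont : Continuous fex := by unfold fex; fun_prop

lemma fex_pos {x : ℝ} (hx : 0 ≤ x) (w : ℝ) :
    Complex.exp (((-2 * Real.pi * x * w : ℝ) : ℂ) * Complex.I) * fex x =
      Complex.exp ((-(1 / 2 : ℂ) - 2 * Real.pi * w * Complex.I) * x) := by
  unfold fex
  rw [abs_of_nonneg hx, Complex.ofReal_exp, ← Complex.exp_add]
  congr 1
  push_cast; ring

lemma fex_neg {x : ℝ} (hx : x ≤ 0) (w : ℝ) :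
    Complex.exp (((-2 * Real.pi * x * w : ℝ) : ℂ) * Complex.I) * fex x =
      Complex.exp (((1 / 2 : ℂ) - 2 * Real.pi * w * Complex.I) * x) := by
  unfold fex
  rw [abs_of_nonpos hx, Complex.ofReal_exp, ← Complex.exp_add]
  congr 1
  push_cast; ring

lemma re1 (w : ℝ) : (-(1 / 2 : ℂ) - 2 * Real.pi * w * Complex.I).re = -(1 / 2) := by
  simp

lemma re2 (w : ℝ) : ((1 / 2 : ℂ) - 2 * Real.pi * w * Complex.I).re = 1 / 2 := by
  simp

lemma int_pos (w : ℝ) : IntegrableOn (fun x : ℝ =>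
    Complex.exp (((-2 * Real.pi * x * w : ℝ) : ℂ) * Complex.I) * fex x) (Set.Ioi 0) := by
  refine (integrableOn_exp_mul_complex_Ioi (a := -(1 / 2 : ℂ) - 2 * Real.pi * w * Complex.I)
    (by rw [re1]; norm_num) 0).congr_fun (fun x hx => ?_) measurableSet_Ioi
  exact (fex_pos (le_of_lt hx) w).symm

lemma int_neg (w : ℝ) : IntegrableOn (fun x : ℝ =>
    Complex.exp (((-2 * Real.pi * x * w : ℝ) : ℂ) * Complex.I) * fex x) (Set.Iic 0) := by
  refine (integrableOn_exp_mul_complex_Iic (a := (1 / 2 : ℂ) - 2 * Real.pi * w * Complex.I)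
    (by rw [re2]; norm_num) 0).congr_fun (fun x hx => ?_) measurableSet_Iic
  exact (fex_neg hx w).symm

lemma int_all (w : ℝ) : Integrable (fun x : ℝ =>
    Complex.exp (((-2 * Real.pi * x * w : ℝ) : ℂ) * Complex.I) * fex x) := by
  rw [← integrableOn_univ, ← Set.Iic_union_Ioi (a := (0 : ℝ))]
  exact (int_neg w).union (int_pos w)

lemma fex_int : Integrable fex := by
  have := int_all 0
  simpa using this

lemma fourier_fex (w : ℝ) : 𝓕 fex w = (kap w : ℂ) := by
  rw [Real.fourier_real_eq_integral_exp_smul]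
  simp_rw [smul_eq_mul]
  rw [← intervalIntegral.integral_Iic_add_Ioi (int_neg w) (int_pos w)]
  have e1 : ∫ x in Set.Iic (0 : ℝ), Complex.exp (((-2 * Real.pi * x * w : ℝ) : ℂ) * Complex.I) * fex x =
      ∫ x in Set.Iic (0 : ℝ), Complex.exp (((1 / 2 : ℂ) - 2 * Real.pi * w * Complex.I) * x) :=
    setIntegral_congr_fun measurableSet_Iic fun x hx => fex_neg hx w
  have e2 : ∫ x in Set.Ioi (0 : ℝ), Complex.exp (((-2 * Real.pi * x * w : ℝ) : ℂ) * Complex.I) * fex x =
      ∫ x in Set.Ioi (0 : ℝ), Complex.exp ((-(1 / 2 : ℂ) - 2 * Real.pi * w * Complex.I) * x) :=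
    setIntegral_congr_fun measurableSet_Ioi fun x hx => fex_pos (le_of_lt hx) w
  rw [e1, e2, integral_exp_mul_complex_Iic (by rw [re2]; norm_num),
    integral_exp_mul_complex_Ioi (by rw [re1]; norm_num)]
  have h1 : ((1 / 2 : ℂ) - 2 * Real.pi * w * Complex.I) ≠ 0 := by
    intro h; have := congrArg Complex.re h; rw [re2] at this; norm_num at this
  have h2 : (-(1 / 2 : ℂ) - 2 * Real.pi * w * Complex.I) ≠ 0 := by
    intro h; have := congrArg Complex.re h; rw [re1] at this; norm_num at this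
  have h3 : ((1 / 4 + 4 * Real.pi ^ 2 * w ^ 2 : ℝ) : ℂ) ≠ 0 := by
    have : (0 : ℝ) < 1 / 4 + 4 * Real.pi ^ 2 * w ^ 2 := by positivity
    exact_mod_cast this.ne'
  have hAB : ((1 / 2 : ℂ) - 2 * Real.pi * w * Complex.I) * (-(1 / 2 : ℂ) - 2 * Real.pi * w * Complex.I) =
      -((1 / 4 + 4 * Real.pi ^ 2 * w ^ 2 : ℝ) : ℂ) := by
    push_cast
    linear_combination (4 * (Real.pi : ℂ) ^ 2 * (w : ℂ) ^ 2) * Complex.I_sq
  rw [Complex.ofReal_zero, mul_zero, mul_zero, Complex.exp_zero, div_add_div _ _ h1 h2, hAB]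
  unfold kap
  rw [one_mul, Complex.ofReal_div, Complex.ofReal_one]
  have e5 : (-(1 / 2 : ℂ) - 2 * Real.pi * w * Complex.I) +
      ((1 / 2 : ℂ) - 2 * Real.pi * w * Complex.I) * -1 = -1 := by ring
  rw [e5, neg_div_neg_eq]

lemma ker_fourier (v : ℝ) :
    ∫ ξ : ℝ, Complex.exp (((2 * Real.pi * (ξ * v) : ℝ) : ℂ) * Complex.I) * (kap ξ : ℂ) = fex v := by
  have hF : 𝓕 fex = fun w => (kap w : ℂ) := funext fourier_fex
  have h1 := (fex_int).fourierInv_fourier_eq (by rw [hF]; exact kap_int.ofReal)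
    (fex_cont.continuousAt (x := v))
  rw [hF, Real.fourierInv_eq'] at h1
  rw [← h1]
  refine integral_congr_ae (Eventually.of_forall fun ξ => ?_)
  simp only [smul_eq_mul]
  congr 4
  simp [mul_comm]

/-- `n^(-1/2 - 2πiξ)` -/
noncomputable def En (n : ℕ) (ξ : ℝ) : ℂ :=
  Complex.exp (-((1 / 2 : ℝ) + (2 * Real.pi * ξ : ℝ) * Complex.I) * (Real.log n : ℝ))

lemma En_cont (n : ℕ) : Continuous (En n) := by unfold En; fun_prop

lemma norm_En {n : ℕ} (hn : 1 ≤ n) (ξ : ℝ) : ‖En n ξ‖ = 1 / Real.sqrt n := by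
  unfold En
  rw [Complex.norm_exp]
  have e : (-(((1 / 2 : ℝ) : ℂ) + ((2 * Real.pi * ξ : ℝ) : ℂ) * Complex.I) * ((Real.log n : ℝ) : ℂ)).re =
      -(Real.log n / 2) := by
    generalize Real.log n = y
    rw [Complex.re_mul_ofReal]
    simp
    ring
  have hn' : (0 : ℝ) < n := by exact_mod_cast hn
  rw [e, Real.exp_neg, ← Real.log_sqrt hn'.le, Real.exp_log (Real.sqrt_pos.2 hn'), one_div]

lemma norm_En_le {n : ℕ} (hn : 1 ≤ n) (ξ : ℝ) : ‖En n ξ‖ ≤ 1 := by
  rw [norm_En hn]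
  have : (1 : ℝ) ≤ Real.sqrt n := Real.one_le_sqrt.2 (by exact_mod_cast hn)
  exact (div_le_one (by linarith)).2 this

lemma pair_eq (m n : ℕ) (ξ : ℝ) : En m ξ * conj (En n ξ) =
    ((Real.exp (-((Real.log m + Real.log n) / 2)) : ℝ) : ℂ) *
      Complex.exp (((2 * Real.pi * (ξ * (Real.log n - Real.log m)) : ℝ) : ℂ) * Complex.I) := by
  unfold En
  rw [← Complex.exp_conj, ← Complex.exp_add, Complex.ofReal_exp, ← Complex.exp_add]
  congr 1
  simp only [map_mul, map_neg, map_add, Complex.conj_ofReal, Complex.conj_I]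
  push_cast
  ring

lemma pair_int {m n : ℕ} (hm : 1 ≤ m) (hn : 1 ≤ n) :
    ∫ ξ : ℝ, (kap ξ : ℂ) * (En m ξ * conj (En n ξ)) = 1 / ((max m n : ℕ) : ℂ) := by
  have e1 : ∀ ξ : ℝ, (kap ξ : ℂ) * (En m ξ * conj (En n ξ)) =
      ((Real.exp (-((Real.log m + Real.log n) / 2)) : ℝ) : ℂ) *
        (Complex.exp (((2 * Real.pi * (ξ * (Real.log n - Real.log m)) : ℝ) : ℂ) * Complex.I) *
          (kap ξ : ℂ)) := by
    intro ξ; rw [pair_eq]; ring
  simp_rw [e1]
  rw [integral_const_mul, ker_fourier]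
  unfold fex
  rw [← Complex.ofReal_mul, ← Real.exp_add]
  have hm' : (0 : ℝ) < m := by exact_mod_cast hm
  have hn' : (0 : ℝ) < n := by exact_mod_cast hn
  have e2 : -((Real.log m + Real.log n) / 2) + -(|Real.log n - Real.log m| / 2) =
      -Real.log ((max m n : ℕ) : ℝ) := by
    rcases le_total m n with h | h
    · have h1 : Real.log m ≤ Real.log n := Real.log_le_log hm' (by exact_mod_cast h)
      rw [max_eq_right h, abs_of_nonneg (by linarith)]
      ring
    · have h1 : Real.log n ≤ Real.log m := Real.log_le_log hn' (by exact_mod_cast h)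
      rw [max_eq_left h, abs_of_nonpos (by linarith)]
      ring
  have hmax : (0 : ℝ) < ((max m n : ℕ) : ℝ) := by
    have : 0 < max m n := lt_of_lt_of_le hm (le_max_left _ _)
    exact_mod_cast this
  rw [e2, Real.exp_neg, Real.exp_log hmax, one_div, Complex.ofReal_inv, Complex.ofReal_natCast]

lemma pair_integrable {m n : ℕ} (hm : 1 ≤ m) (hn : 1 ≤ n) :
    Integrable fun ξ : ℝ => (kap ξ : ℂ) * (En m ξ * conj (En n ξ)) := by
  refine kap_int.mono' ?_ (Eventually.of_forall fun ξ => ?_)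
  · have h1 := En_cont m
    have h2 := En_cont n
    have h3 := kap_cont
    exact ((Complex.continuous_ofReal.comp h3).mul (h1.mul
      (Complex.continuous_conj.comp h2))).aestronglyMeasurable
  · rw [norm_mul, norm_mul, RCLike.norm_conj, Complex.norm_real, Real.norm_eq_abs,
      abs_of_pos (kap_pos ξ)]
    have h1 := norm_En_le hm ξ
    have h2 := norm_En_le hn ξ
    calc kap ξ * (‖En m ξ‖ * ‖En n ξ‖) ≤ kap ξ * (1 * 1) := by
          refine mul_le_mul_of_nonneg_left ?_ (kap_pos ξ).le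
          exact mul_le_mul h1 h2 (norm_nonneg _) zero_le_one
      _ = kap ξ := by ring

end Pool.Agent.E8helper84.RM
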