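import Pool.Agent.E8helper84.RM.RN1

/-!
Euler products of the sums over smooth numbers.
-/

set_option autoImplicit false

namespace Pool.Agent.E8helper84.RM

open MeasureTheory Filter Topology Finset
open scoped ComplexConjugate

/-- `n^(-s)` -/
noncomputable def pw (n : ℕ) (s : ℂ) : ℂ := Complex.exp (-s * (Real.log n : ℝ))

lemma pw_mul {m n : ℕ} (hm : m ≠ 0) (hn : n ≠ 0) (s : ℂ) : pw (m * n) s = pw m s * pw n s := by
  unfold pw
  rw [← Complex.exp_add]
  congr 1
  push_cast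
  have h1 : (m : ℝ) ≠ 0 := by exact_mod_cast hm
  have h2 : (n : ℝ) ≠ 0 := by exact_mod_cast hn
  rw [show Real.log ((m : ℝ) * (n : ℝ)) = Real.log m + Real.log n from Real.log_mul h1 h2]
  push_cast
  ring

lemma pw_one (s : ℂ) : pw 1 s = 1 := by unfold pw; simp

lemma norm_pw {n : ℕ} (hn : 1 ≤ n) (s : ℂ) : ‖pw n s‖ = (n : ℝ) ^ (-s.re) := by
  unfold pw
  have hn' : (0 : ℝ) < n := by exact_mod_cast hn
  rw [Complex.norm_exp, Complex.re_mul_ofReal, Complex.neg_re, Real.rpow_def_of_pos hn', mul_comm]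

/-- the Euler product -/
noncomputable def Fs (z : ℕ → ℂ) (N : ℕ) (s : ℂ) : ℂ :=
  ∏ p ∈ (Icc 1 N).filter Nat.Prime, (1 - z p * pw p s)

lemma filter_succ_prime {N : ℕ} (h : (N + 1).Prime) :
    (Icc 1 (N + 1)).filter Nat.Prime = insert (N + 1) ((Icc 1 N).filter Nat.Prime) := by
  ext q
  simp only [Finset.mem_filter, Finset.mem_Icc, Finset.mem_insert]
  constructor
  · rintro ⟨⟨h1, h2⟩, h3⟩
    rcases Nat.lt_or_ge N q with h4 | h4
    · left; omega
    · right; exact ⟨⟨h1, h4⟩, h3⟩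
  · rintro (rfl | ⟨⟨h1, h2⟩, h3⟩)
    · exact ⟨⟨by omega, le_rfl⟩, h⟩
    · exact ⟨⟨h1, by omega⟩, h3⟩

lemma filter_succ_notprime {N : ℕ} (h : ¬ (N + 1).Prime) :
    (Icc 1 (N + 1)).filter Nat.Prime = (Icc 1 N).filter Nat.Prime := by
  ext q
  simp only [Finset.mem_filter, Finset.mem_Icc]
  constructor
  · rintro ⟨⟨h1, h2⟩, h3⟩
    rcases Nat.lt_or_ge N q with h4 | h4
    · have : q = N + 1 := by omega
      rw [this] at h3; exact absurd h3 h
    · exact ⟨⟨h1, h4⟩, h3⟩
  · rintro ⟨⟨h1, h2⟩, h3⟩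
    exact ⟨⟨h1, by omega⟩, h3⟩

theorem Fs_sum (z : ℕ → ℂ) (N : ℕ) (s : ℂ) : Fs z N s = ∑ n ∈ D N, tw z n * pw n s := by
  induction N with
  | zero =>
    unfold Fs
    rw [D_zero]
    simp [tw_one, pw_one]
  | succ N ih =>
    by_cases h : (N + 1).Prime
    · unfold Fs at ih ⊢
      rw [filter_succ_prime h, Finset.prod_insert (by simp), ih, sum_D_succ h, sub_mul, one_mul,
        sub_eq_add_neg]
      congr 1
      rw [← neg_mul, Finset.mul_sum]
      refine Finset.sum_congr rfl fun m hm => ?_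
      rw [tw_mul h (not_dvd_D hm h), pw_mul (by omega) (D_pos hm).ne']
      ring
    · unfold Fs at ih ⊢
      rw [filter_succ_notprime h, D_succ_notprime h, ih]

lemma En_eq (n : ℕ) (ξ : ℝ) : En n ξ = pw n ((1 / 2 : ℝ) + (2 * Real.pi * ξ : ℝ) * Complex.I) := rfl

/-- the square of the Euler product on the line -/
lemma Fs_sq (z : ℕ → ℂ) (N : ℕ) (ξ : ℝ) :
    ((‖Fs z N ((1 / 2 : ℝ) + (2 * Real.pi * ξ : ℝ) * Complex.I)‖ ^ 2 : ℝ) : ℂ) =
      ∑ m ∈ D N, ∑ n ∈ D N, (tw z m * conj (tw z n)) * (En m ξ * conj (En n ξ)) := by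
  rw [← Complex.normSq_eq_norm_sq, ← Complex.mul_conj, Fs_sum, map_sum, Finset.sum_mul_sum]
  refine Finset.sum_congr rfl fun m _ => Finset.sum_congr rfl fun n _ => ?_
  rw [map_mul, En_eq, En_eq]
  ring

/-! ### comparison -/

noncomputable def kc (a : ℕ) (s : ℂ) (u : ℝ) : ℂ := if (a : ℝ) ≤ u then (u : ℂ) ^ (-s - 1) else 0

lemma kc_meas (a : ℕ) (s : ℂ) : Measurable (kc a s) := by
  unfold kc
  exact Measurable.ite measurableSet_Ici ((Complex.measurable_ofReal).pow_const _) measurable_const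

lemma norm_cp {u : ℝ} (hu : 0 < u) (s : ℂ) : ‖(u : ℂ) ^ (-s - 1)‖ = u ^ (-s.re - 1) := by
  rw [Complex.norm_cpow_eq_rpow_re_of_pos hu]
  simp

lemma kc_bound (a : ℕ) {s : ℂ} (hs : 0 ≤ s.re) {u : ℝ} (hu : 1 ≤ u) : ‖kc a s u‖ ≤ 1 := by
  unfold kc
  split_ifs
  · rw [norm_cp (by linarith)]
    exact Real.rpow_le_one_of_one_le_of_nonpos hu (by linarith)
  · simp

lemma kc_int (a : ℕ) {s : ℂ} (hs : 0 ≤ s.re) {x y : ℝ} (hx : 1 ≤ x) (hy : 1 ≤ y) :
    IntervalIntegrable (kc a s) volume x y := by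
  rw [intervalIntegrable_iff]
  refine Measure.integrableOn_of_bounded (M := 1) ?_ (kc_meas a s).aestronglyMeasurable ?_
  · exact measure_Ioc_lt_top.ne
  · rw [ae_restrict_iff' measurableSet_uIoc]
    refine Filter.Eventually.of_forall fun u hu => ?_
    rw [Set.mem_uIoc] at hu
    refine kc_bound a hs ?_
    rcases hu with hu | hu
    · linarith [hu.1]
    · linarith [hu.1]

lemma kc_integral {a : ℕ} {s : ℂ} (hs : 0 < s.re) {X : ℝ} (ha : 1 ≤ a) (hX : (a : ℝ) ≤ X) :
    ∫ u in (1 : ℝ)..X, kc a s u = (pw a s - (X : ℂ) ^ (-s)) / s := by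
  have ha' : (1 : ℝ) ≤ a := by exact_mod_cast ha
  have hX1 : 1 ≤ X := ha'.trans hX
  have hs0 : s ≠ 0 := by intro h; rw [h] at hs; simp at hs
  rw [← intervalIntegral.integral_add_adjacent_intervals (kc_int a hs.le le_rfl ha')
    (kc_int a hs.le ha' hX1)]
  have e1 : ∫ u in (1 : ℝ)..a, kc a s u = 0 := by
    have : ∫ u in (1 : ℝ)..a, kc a s u = ∫ u in (1 : ℝ)..a, (0 : ℂ) := by
      refine intervalIntegral.integral_congr_ae ?_
      have h0 : ∀ᵐ u : ℝ, u ≠ (a : ℝ) := by
        rw [ae_iff]; simp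
      filter_upwards [h0] with u hu hm
      rw [Set.uIoc_of_le ha'] at hm
      unfold kc
      rw [if_neg]
      intro hh
      exact hu (le_antisymm hm.2 hh)
    rw [this]; simp
  have e2 : ∫ u in (a : ℝ)..X, kc a s u = (pw a s - (X : ℂ) ^ (-s)) / s := by
    have h1 : ∫ u in (a : ℝ)..X, kc a s u = ∫ u in (a : ℝ)..X, (u : ℂ) ^ (-s - 1) := by
      refine intervalIntegral.integral_congr fun u hu => ?_
      rw [Set.uIcc_of_le hX] at hu
      unfold kc
      rw [if_pos hu.1]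
    rw [h1, integral_cpow]
    · have h2 : ((a : ℝ) : ℂ) ^ (-s) = pw a s := by
        unfold pw
        have : ((a : ℝ) : ℂ) ≠ 0 := by
          have : (a : ℝ) ≠ 0 := by linarith
          exact_mod_cast this
        rw [Complex.cpow_def_of_ne_zero this, Complex.ofReal_log (by linarith)]
        ring_nf
      rw [show -s - 1 + 1 = -s by ring, h2]
      field_simp
      ring
    · right
      refine ⟨?_, ?_⟩
      · intro h
        apply hs0
        linear_combination -h
      · rw [Set.uIcc_of_le hX]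
        intro h
        linarith [h.1]
  rw [e1, e2, zero_add]

theorem pairing_aux (z : ℕ → ℂ) (N : ℕ) {s : ℂ} {σ : ℝ} (hσ : 0 < σ) (hs : s.re = 1 / 2 + σ) {a : ℝ}
    (ha : 0 < a) : ‖Fs z N s / s‖ ≤ a / 2 * Q N z + 1 / (4 * a * σ) := by
  have hsr : 0 < s.re := by rw [hs]; linarith
  have hs0 : s ≠ 0 := by intro h; rw [h] at hsr; simp at hsr
  -- the approximations
  have happ : ∀ X : ℝ, ((primorial N : ℕ) : ℝ) ≤ X →
      ‖∑ n ∈ D N, tw z n * ((pw n s - (X : ℂ) ^ (-s)) / s)‖ ≤ a / 2 * Q N z + 1 / (4 * a * σ) := by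
    intro X hX
    have h1X : (1 : ℝ) ≤ X := le_trans (by exact_mod_cast primorial_pos N) hX
    have e1 : ∑ n ∈ D N, tw z n * ((pw n s - (X : ℂ) ^ (-s)) / s) =
        ∫ u in (1 : ℝ)..X, A N z u * (u : ℂ) ^ (-s - 1) := by
      have h2 : ∀ u : ℝ, A N z u * (u : ℂ) ^ (-s - 1) = ∑ n ∈ D N, tw z n * kc n s u := by
        intro u
        unfold A kc
        rw [Finset.sum_mul]
        refine Finset.sum_congr rfl fun n _ => ?_
        split_ifs <;> simp
      simp_rw [h2]
      rw [intervalIntegral.integral_finsetSum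
        (fun n _ => (kc_int n hsr.le le_rfl h1X).const_mul _)]
      refine Finset.sum_congr rfl fun n hn => ?_
      rw [intervalIntegral.integral_const_mul, kc_integral hsr (D_pos hn)]
      refine le_trans ?_ hX
      exact_mod_cast Nat.le_of_dvd (primorial_pos N) (mem_D.1 hn)
    rw [e1]
    have hint2 : IntervalIntegrable (fun u : ℝ => 1 / (2 * a) * u ^ (-1 - 2 * σ)) volume 1 X := by
      refine IntervalIntegrable.const_mul ?_ _
      refine intervalIntegral.intervalIntegrable_rpow ?_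
      right
      rw [Set.uIcc_of_le h1X]
      intro h; linarith [h.1]
    have hint1 : IntervalIntegrable (fun u : ℝ => a / 2 * (‖A N z u‖ ^ 2 / u ^ 2)) volume 1 X :=
      (A_int N z le_rfl h1X).const_mul _
    calc ‖∫ u in (1 : ℝ)..X, A N z u * (u : ℂ) ^ (-s - 1)‖
        ≤ ∫ u in (1 : ℝ)..X, (a / 2 * (‖A N z u‖ ^ 2 / u ^ 2) + 1 / (2 * a) * u ^ (-1 - 2 * σ)) := by
          refine intervalIntegral.norm_integral_le_of_norm_le h1X ?_ (hint1.add hint2)
          refine (Filter.Eventually.of_forall fun u hu => ?_)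
          have hu0 : 0 < u := by linarith [hu.1]
          rw [norm_mul, norm_cp hu0, hs]
          have e3 : u ^ (-(1 / 2 + σ) - 1) = u⁻¹ * u ^ (-(1 / 2) - σ) := by
            rw [← Real.rpow_neg_one, ← Real.rpow_add hu0]
            congr 1; ring
          have e4 : u ^ (-1 - 2 * σ) = (u ^ (-(1 / 2) - σ)) ^ 2 := by
            rw [← Real.rpow_natCast, ← Real.rpow_mul hu0.le]
            congr 1; push_cast; ring
          rw [e3, e4]
          obtain ⟨y, hy⟩ : ∃ y : ℝ, y = u ^ (-(1 / 2) - σ) := ⟨_, rfl⟩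
          obtain ⟨x, hx⟩ : ∃ x : ℝ, x = ‖A N z u‖ / u := ⟨_, rfl⟩
          have e5 : ‖A N z u‖ * (u⁻¹ * u ^ (-(1 / 2) - σ)) = x * y := by rw [hx, hy]; field_simp
          have e6 : ‖A N z u‖ ^ 2 / u ^ 2 = x ^ 2 := by rw [hx, div_pow]
          rw [e5, e6, ← hy]
          have h7 : 0 ≤ (a * x - y) ^ 2 / (2 * a) := by positivity
          have h8 : (a * x - y) ^ 2 / (2 * a) = a / 2 * x ^ 2 + 1 / (2 * a) * y ^ 2 - x * y := by
            field_simp; ring
          linarith
      _ = a / 2 * (∫ u in (1 : ℝ)..X, ‖A N z u‖ ^ 2 / u ^ 2) +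
          1 / (2 * a) * ∫ u in (1 : ℝ)..X, u ^ (-1 - 2 * σ) := by
          rw [intervalIntegral.integral_add hint1 hint2, intervalIntegral.integral_const_mul,
            intervalIntegral.integral_const_mul]
      _ ≤ a / 2 * Q N z + 1 / (2 * a) * (1 / (2 * σ)) := by
          refine add_le_add ?_ ?_
          · refine mul_le_mul_of_nonneg_left ?_ (by positivity)
            rw [A_integral N z hX]
            have : 0 ≤ ‖∑ n ∈ D N, tw z n‖ ^ 2 / X := by positivity
            linarith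
          · refine mul_le_mul_of_nonneg_left ?_ (by positivity)
            rw [integral_rpow]
            · rw [show -1 - 2 * σ + 1 = -(2 * σ) by ring, Real.one_rpow]
              have : 0 ≤ X ^ (-(2 * σ)) := by positivity
              rw [div_neg, ← neg_div, div_le_div_iff₀ (by positivity) (by positivity)]
              nlinarith
            · right
              refine ⟨by intro h; linarith, ?_⟩
              rw [Set.uIcc_of_le h1X]
              intro h; linarith [h.1]
      _ = _ := by field_simp; ring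
  -- limit
  have hlim : Tendsto (fun X : ℝ => ‖∑ n ∈ D N, tw z n * ((pw n s - (X : ℂ) ^ (-s)) / s)‖) atTop
      (𝓝 ‖Fs z N s / s‖) := by
    have h1 : Tendsto (fun X : ℝ => (X : ℂ) ^ (-s)) atTop (𝓝 0) := by
      rw [tendsto_zero_iff_norm_tendsto_zero]
      have h2 : Tendsto (fun X : ℝ => X ^ (-s.re)) atTop (𝓝 0) := tendsto_rpow_neg_atTop hsr
      refine h2.congr' ?_
      filter_upwards [eventually_gt_atTop 0] with X hX
      rw [Complex.norm_cpow_eq_rpow_re_of_pos hX, Complex.neg_re]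
    have h3 : Tendsto (fun X : ℝ => ∑ n ∈ D N, tw z n * ((pw n s - (X : ℂ) ^ (-s)) / s)) atTop
        (𝓝 (∑ n ∈ D N, tw z n * ((pw n s - 0) / s))) := by
      refine tendsto_finset_sum _ fun n _ => ?_
      exact ((tendsto_const_nhds.sub h1).div_const s).const_mul _
    have e : ∑ n ∈ D N, tw z n * ((pw n s - 0) / s) = Fs z N s / s := by
      rw [Fs_sum, Finset.sum_div]
      refine Finset.sum_congr rfl fun n _ => ?_
      rw [sub_zero, mul_div_assoc]
    rw [e] at h3
    exact h3.norm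
  refine le_of_tendsto hlim ?_
  filter_upwards [eventually_ge_atTop ((primorial N : ℕ) : ℝ)] with X hX
  exact happ X hX

theorem pairing (z : ℕ → ℂ) (N : ℕ) {s : ℂ} {σ : ℝ} (hσ : 0 < σ) (hs : s.re = 1 / 2 + σ) :
    ‖Fs z N s‖ ^ 2 ≤ ‖s‖ ^ 2 * (Q N z / (2 * σ)) := by
  have hsr : 0 < s.re := by rw [hs]; linarith
  have hs0 : s ≠ 0 := by intro h; rw [h] at hsr; simp at hsr
  have hsn : 0 < ‖s‖ := norm_pos_iff.2 hs0
  obtain ⟨B, hB⟩ : ∃ B : ℝ, B = ‖Fs z N s / s‖ := ⟨_, rfl⟩
  have hB0 : 0 ≤ B := by rw [hB]; exact norm_nonneg _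
  have key : B ^ 2 ≤ Q N z / (2 * σ) := by
    by_contra hcon
    rw [not_le, div_lt_iff₀ (by positivity)] at hcon
    have hBp : 0 < B := by
      rcases hB0.lt_or_eq with h | h
      · exact h
      · rw [← h] at hcon
        have := Q_nonneg N z
        nlinarith
    have h1 := pairing_aux z N hσ hs (a := 1 / (2 * σ * B)) (by positivity)
    rw [← hB] at h1
    have e1 : 1 / (2 * σ * B) / 2 * Q N z = Q N z / (4 * σ * B) := by field_simp; ring
    have e2 : 1 / (4 * (1 / (2 * σ * B)) * σ) = B / 2 := by field_simp; ring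
    rw [e1, e2] at h1
    have h2 : Q N z / (4 * σ * B) < B / 2 := by
      rw [div_lt_div_iff₀ (by positivity) (by norm_num)]
      nlinarith
    linarith
  have e : ‖Fs z N s‖ = ‖s‖ * B := by rw [hB, norm_div]; field_simp
  rw [e, mul_pow]
  exact mul_le_mul_of_nonneg_left key (by positivity)

end Pool.Agent.E8helper84.RM
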