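import Pool.Agent.E8helper84.RM.RN2

/-!
One prime: logarithm of an Euler factor under the tilted law.
-/

set_option autoImplicit false

namespace Pool.Agent.E8helper84.RM

open MeasureTheory Filter Topology Finset
open scoped ComplexConjugate

/-- the value of the character -/
noncomputable def ec (t : UnitAddCircle) : ℂ := ((AddCircle.toCircle t : Circle) : ℂ)

lemma ec_cont : Continuous ec := cont_circ

lemma ec_norm (t : UnitAddCircle) : ‖ec t‖ = 1 := Circle.norm_coe _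

noncomputable def xc (t : UnitAddCircle) : ℝ := (ec t).re

lemma xc_cont : Continuous xc := Complex.continuous_re.comp ec_cont

lemma xc_abs (t : UnitAddCircle) : |xc t| ≤ 1 := by
  have := Complex.abs_re_le_norm (ec t)
  rwa [ec_norm] at this

lemma ec_sq (t : UnitAddCircle) : (ec t).re ^ 2 + (ec t).im ^ 2 = 1 := by
  have h := ec_norm t
  have h2 : Complex.normSq (ec t) = 1 := by rw [Complex.normSq_eq_norm_sq, h]; norm_num
  rw [Complex.normSq_apply] at h2
  nlinarith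

lemma int_pow {n : ℕ} (hn : n ≠ 0) : ∫ t, (ec t) ^ n ∂haar = 0 := by
  have h := int_fourier (n := (n : ℤ)) (by exact_mod_cast hn)
  rw [← h]
  refine integral_congr_ae (Eventually.of_forall fun t => ?_)
  simp only
  rw [fourier_apply, AddCircle.toCircle_zsmul, Circle.coe_zpow, zpow_natCast]
  rfl

lemma integrable_of_cont {f : UnitAddCircle → ℂ} (hf : Continuous f) : Integrable f haar := by
  obtain ⟨C, hC⟩ := (isCompact_univ.image hf).isBounded.exists_norm_le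
  exact Integrable.of_bound hf.aestronglyMeasurable C (Eventually.of_forall fun t => hC _ ⟨t, trivial, rfl⟩)

lemma integrable_of_contR {f : UnitAddCircle → ℝ} (hf : Continuous f) : Integrable f haar := by
  obtain ⟨C, hC⟩ := (isCompact_univ.image hf).isBounded.exists_norm_le
  exact Integrable.of_bound hf.aestronglyMeasurable C (Eventually.of_forall fun t => hC _ ⟨t, trivial, rfl⟩)

lemma int_re_pow {n : ℕ} (hn : n ≠ 0) : ∫ t, ((ec t) ^ n).re ∂haar = 0 := by
  have hi : Integrable (fun t => (ec t) ^ n) haar := by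
    refine integrable_of_cont ?_
    have := ec_cont
    fun_prop
  have h := integral_re hi
  rw [int_pow hn] at h
  simpa using h

lemma ix2 : Integrable (fun t => xc t ^ 2) haar := by
  refine integrable_of_contR ?_
  have := xc_cont
  fun_prop

lemma ix3 : Integrable (fun t => xc t ^ 3) haar := by
  refine integrable_of_contR ?_
  have := xc_cont
  fun_prop

lemma int_x : ∫ t, xc t ∂haar = 0 := by
  have := int_re_pow (n := 1) one_ne_zero
  simpa [xc] using this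

lemma int_x2 : ∫ t, xc t ^ 2 ∂haar = 1 / 2 := by
  have h := int_re_pow (n := 2) two_ne_zero
  have e : ∀ t, ((ec t) ^ 2).re = 2 * xc t ^ 2 - 1 := by
    intro t
    rw [pow_two, Complex.mul_re]
    have := ec_sq t
    unfold xc
    nlinarith
  simp_rw [e] at h
  rw [integral_sub (ix2.const_mul 2) (integrable_const _),
    integral_const_mul] at h
  simp at h
  linarith

lemma int_x3 : ∫ t, xc t ^ 3 ∂haar = 0 := by
  have h := int_re_pow (n := 3) three_ne_zero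
  have e : ∀ t, ((ec t) ^ 3).re = 4 * xc t ^ 3 - 3 * xc t := by
    intro t
    rw [pow_succ, pow_two, Complex.mul_re, Complex.mul_re, Complex.mul_im]
    have := ec_sq t
    unfold xc
    have h2 : (ec t).im ^ 2 = 1 - (ec t).re ^ 2 := by linarith
    linear_combination (-3 * (ec t).re) * h2
  simp_rw [e] at h
  rw [integral_sub (ix3.const_mul 4)
    ((integrable_of_contR xc_cont).const_mul 3),
    integral_const_mul, integral_const_mul, int_x] at h
  linarith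

/-- logarithm of the Euler factor -/
noncomputable def Xl (r : ℝ) (t : UnitAddCircle) : ℝ := Real.log (‖1 - ec t * (r : ℂ)‖ ^ 2)

/-- the tilt -/
noncomputable def dl (r : ℝ) (t : UnitAddCircle) : ℝ := ‖1 - ec t * (r : ℂ)‖ ^ 2 / (1 + r ^ 2)

lemma nsq (r : ℝ) (t : UnitAddCircle) : ‖1 - ec t * (r : ℂ)‖ ^ 2 = 1 + r ^ 2 - 2 * r * xc t := by
  rw [← Complex.normSq_eq_norm_sq, Complex.normSq_apply]
  have := ec_sq t
  unfold xc
  simp only [Complex.sub_re, Complex.one_re, Complex.mul_re, Complex.ofReal_re, Complex.ofReal_im,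
    mul_zero, sub_zero, Complex.sub_im, Complex.one_im, Complex.mul_im, zero_sub, add_zero, zero_add]
  nlinarith

lemma dl_eq (r : ℝ) (t : UnitAddCircle) : dl r t = 1 - 2 * r / (1 + r ^ 2) * xc t := by
  unfold dl
  rw [nsq]
  have : 1 + r ^ 2 ≠ 0 := by positivity
  field_simp

lemma dl_nonneg (r : ℝ) (t : UnitAddCircle) : 0 ≤ dl r t := by unfold dl; positivity

lemma dl_cont (r : ℝ) : Continuous (dl r) := by
  have : dl r = fun t => 1 - 2 * r / (1 + r ^ 2) * xc t := funext (dl_eq r)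
  rw [this]
  have := xc_cont
  fun_prop

lemma nsq_pos {r : ℝ} (h0 : 0 ≤ r) (h1 : r < 1) (t : UnitAddCircle) : 0 < ‖1 - ec t * (r : ℂ)‖ ^ 2 := by
  rw [nsq]
  have h := (abs_le.1 (xc_abs t)).2
  nlinarith [mul_nonneg h0 (sub_nonneg.2 h), mul_self_pos.2 (sub_ne_zero.2 h1.ne')]

lemma Xl_cont {r : ℝ} (h0 : 0 ≤ r) (h1 : r < 1) : Continuous (Xl r) := by
  unfold Xl
  refine Continuous.log ?_ fun t => (nsq_pos h0 h1 t).ne'
  exact ((continuous_const.sub (ec_cont.mul continuous_const)).norm.pow 2)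

lemma int_dl (r : ℝ) : ∫ t, dl r t ∂haar = 1 := by
  simp_rw [dl_eq]
  rw [integral_sub (integrable_const _) ((integrable_of_contR xc_cont).const_mul _),
    integral_const_mul, int_x]
  simp

lemma int_x2d (r : ℝ) : ∫ t, xc t ^ 2 * dl r t ∂haar = 1 / 2 := by
  simp_rw [dl_eq]
  have e : ∀ t, xc t ^ 2 * (1 - 2 * r / (1 + r ^ 2) * xc t) =
      xc t ^ 2 - 2 * r / (1 + r ^ 2) * xc t ^ 3 := fun t => by ring
  simp_rw [e]
  rw [integral_sub ix2 (ix3.const_mul _), integral_const_mul, int_x2, int_x3]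
  ring

/-- Taylor expansion -/
lemma Xl_taylor {r : ℝ} (h0 : 0 ≤ r) (h1 : r ≤ 1 / 2) (t : UnitAddCircle) :
    |Xl r t + 2 * r * xc t + r ^ 2 * (2 * xc t ^ 2 - 1)| ≤ 2 * r ^ 3 := by
  obtain ⟨w, hw⟩ : ∃ w : ℂ, w = -(ec t * (r : ℂ)) := ⟨_, rfl⟩
  have hwn : ‖w‖ = r := by
    rw [hw, norm_neg, norm_mul, ec_norm, Complex.norm_real, Real.norm_eq_abs, abs_of_nonneg h0, one_mul]
  have h := Complex.norm_log_sub_logTaylor_le 2 (z := w) (by rw [hwn]; linarith)
  have hT : Complex.logTaylor (2 + 1) w = w - w ^ 2 / 2 := by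
    rw [Complex.logTaylor_succ, Complex.logTaylor_succ, Complex.logTaylor_succ, Complex.logTaylor_zero]
    norm_num
    ring
  rw [hT, hwn] at h
  have h2 : ((2 : ℕ) + 1 : ℝ) = 3 := by norm_num
  have h3 : r ^ (2 + 1) * (1 - r)⁻¹ / ((2 : ℕ) + 1) ≤ r ^ 3 := by
    rw [h2]
    have h4 : (1 - r)⁻¹ ≤ 2 := by
      rw [inv_le_comm₀ (by linarith) (by norm_num)]; linarith
    have h5 : 0 ≤ r ^ 3 := by positivity
    have h6 : 0 ≤ (1 - r)⁻¹ := inv_nonneg.2 (by linarith)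
    rw [div_le_iff₀ (by norm_num)]
    have e : r ^ (2 + 1) = r ^ 3 := rfl
    rw [e]
    nlinarith
  have h7 : |(Complex.log (1 + w) - (w - w ^ 2 / 2)).re| ≤ r ^ 3 :=
    (Complex.abs_re_le_norm _).trans (h.trans h3)
  have e1 : (Complex.log (1 + w)).re = Real.log ‖1 + w‖ := Complex.log_re _
  have e2 : Xl r t = 2 * Real.log ‖1 + w‖ := by
    unfold Xl
    rw [Real.log_pow, hw, ← sub_eq_add_neg]
    norm_num
  have e3 : (w - w ^ 2 / 2).re = -(r * xc t) - r ^ 2 * (2 * xc t ^ 2 - 1) / 2 := by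
    have hs := ec_sq t
    have h8 : (ec t).im ^ 2 = 1 - (ec t).re ^ 2 := by linarith
    rw [hw]
    have e4 : (-(ec t * (r : ℂ)) - (-(ec t * (r : ℂ))) ^ 2 / 2) =
        -(ec t * (r : ℂ)) - (((r ^ 2 / 2 : ℝ) : ℂ) * (ec t * ec t)) := by
      push_cast; ring
    rw [e4, Complex.sub_re, Complex.neg_re, Complex.re_mul_ofReal, Complex.re_ofReal_mul,
      Complex.mul_re]
    unfold xc
    linear_combination (r ^ 2 / 2) * h8
  rw [Complex.sub_re, e1, e3] at h7
  rw [e2, abs_le]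
  rw [abs_le] at h7
  constructor <;> linarith [h7.1, h7.2]

lemma Xl_close {r : ℝ} (h0 : 0 ≤ r) (h1 : r ≤ 1 / 2) (t : UnitAddCircle) :
    |Xl r t + 2 * r * xc t| ≤ 2 * r ^ 2 := by
  have h := abs_le.1 (Xl_taylor h0 h1 t)
  have hx := abs_le.1 (xc_abs t)
  have hx2 : xc t ^ 2 ≤ 1 := by nlinarith
  have hx0 : 0 ≤ xc t ^ 2 := sq_nonneg _
  have h3 : 2 * r ^ 3 ≤ r ^ 2 := by nlinarith [sq_nonneg r]
  rw [abs_le]
  constructor
  · nlinarith [h.1, mul_nonneg (sq_nonneg r) hx0, mul_nonneg (sq_nonneg r) (sub_nonneg.2 hx2)]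
  · nlinarith [h.2, mul_nonneg (sq_nonneg r) hx0, mul_nonneg (sq_nonneg r) (sub_nonneg.2 hx2)]

lemma Xl_abs {r : ℝ} (h0 : 0 ≤ r) (h1 : r ≤ 1 / 2) (t : UnitAddCircle) : |Xl r t| ≤ 3 * r := by
  have h := abs_le.1 (Xl_close h0 h1 t)
  have hx := abs_le.1 (xc_abs t)
  rw [abs_le]
  constructor
  · nlinarith [h.1, mul_nonneg h0 (sub_nonneg.2 hx.2)]
  · nlinarith [h.2, mul_nonneg h0 (by linarith [hx.1] : (0 : ℝ) ≤ 1 + xc t)]

/-- mean under the tilt -/
noncomputable def mu1 (r r' : ℝ) : ℝ := ∫ t, Xl r' t * dl r t ∂haar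

lemma int_weighted_le {r : ℝ} {f : UnitAddCircle → ℝ} (hf : Continuous f) {C : ℝ}
    (h : ∀ t, |f t| ≤ C) : |∫ t, f t * dl r t ∂haar| ≤ C := by
  have h1 : ‖∫ t, f t * dl r t ∂haar‖ ≤ ∫ t, C * dl r t ∂haar := by
    refine norm_integral_le_of_norm_le ((integrable_of_contR (dl_cont r)).const_mul C)
      (Eventually.of_forall fun t => ?_)
    rw [norm_mul, Real.norm_eq_abs, Real.norm_eq_abs, abs_of_nonneg (dl_nonneg r t)]
    exact mul_le_mul_of_nonneg_right (h t) (dl_nonneg r t)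
  rw [integral_const_mul, int_dl, mul_one] at h1
  exact h1

lemma mu1_eq {r r' : ℝ} (h0 : 0 ≤ r') (h1 : r' ≤ 1 / 2) :
    |mu1 r r' - r' * (2 * r / (1 + r ^ 2))| ≤ 2 * r' ^ 3 := by
  obtain ⟨a, ha⟩ : ∃ a : ℝ, a = 2 * r / (1 + r ^ 2) := ⟨_, rfl⟩
  have hXc := Xl_cont h0 (by linarith : r' < 1)
  have hxc := xc_cont
  have hdc := dl_cont r
  have e1 : mu1 r r' = ∫ t, (Xl r' t + 2 * r' * xc t + r' ^ 2 * (2 * xc t ^ 2 - 1)) * dl r t ∂haar -
      ∫ t, (2 * r' * xc t + r' ^ 2 * (2 * xc t ^ 2 - 1)) * dl r t ∂haar := by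
    rw [← integral_sub (integrable_of_contR (by fun_prop)) (integrable_of_contR (by fun_prop))]
    unfold mu1
    refine integral_congr_ae (Eventually.of_forall fun t => ?_)
    simp only
    ring
  have e2 : ∫ t, (2 * r' * xc t + r' ^ 2 * (2 * xc t ^ 2 - 1)) * dl r t ∂haar = -(r' * a) := by
    have e3 : ∀ t, (2 * r' * xc t + r' ^ 2 * (2 * xc t ^ 2 - 1)) * dl r t =
        (2 * r' + r' ^ 2 * a) * xc t + (2 * r' ^ 2 - 2 * r' * a) * xc t ^ 2 -
          (2 * r' ^ 2 * a) * xc t ^ 3 - r' ^ 2 := by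
      intro t
      rw [dl_eq, ← ha]
      ring
    simp_rw [e3]
    rw [integral_sub (integrable_of_contR (by fun_prop)) (integrable_const _),
      integral_sub (integrable_of_contR (by fun_prop)) (integrable_of_contR (by fun_prop)),
      integral_add (integrable_of_contR (by fun_prop)) (integrable_of_contR (by fun_prop)),
      integral_const_mul, integral_const_mul, integral_const_mul, int_x, int_x2, int_x3]
    simp
    ring
  rw [e1, e2, ← ha]
  have e4 : (∫ t, (Xl r' t + 2 * r' * xc t + r' ^ 2 * (2 * xc t ^ 2 - 1)) * dl r t ∂haar) - -(r' * a) - r' * a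
      = ∫ t, (Xl r' t + 2 * r' * xc t + r' ^ 2 * (2 * xc t ^ 2 - 1)) * dl r t ∂haar := by ring
  rw [e4]
  exact int_weighted_le (by fun_prop) (Xl_taylor h0 h1)

lemma mu1_abs {r r' : ℝ} (h0 : 0 ≤ r') (h1 : r' ≤ 1 / 2) : |mu1 r r'| ≤ 3 * r' :=
  int_weighted_le (Xl_cont h0 (by linarith)) (Xl_abs h0 h1)

/-- variance -/
lemma var1 {r r' : ℝ} (h0 : 0 ≤ r') (hrr : r' ≤ r) (hr : r ≤ 1 / 20) (hlow : r ^ 2 / 8 ≤ r' ^ 2) :
    r ^ 2 / 16 ≤ ∫ t, (Xl r' t - mu1 r r') ^ 2 * dl r t ∂haar := by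
  have hXc := Xl_cont h0 (by linarith : r' < 1)
  have hxc := xc_cont
  have hdc := dl_cont r
  have hr0 : 0 ≤ r := h0.trans hrr
  have hmu : |mu1 r r'| ≤ 3 * r ^ 2 := by
    have h1 := abs_le.1 (mu1_eq (r := r) h0 (by linarith : r' ≤ 1 / 2))
    have h2 : 0 ≤ r' * (2 * r / (1 + r ^ 2)) := by positivity
    have h3 : r' * (2 * r / (1 + r ^ 2)) ≤ 2 * r ^ 2 := by
      have h4 : 2 * r / (1 + r ^ 2) ≤ 2 * r := div_le_self (by positivity) (by nlinarith)
      calc r' * (2 * r / (1 + r ^ 2)) ≤ r * (2 * r) := mul_le_mul hrr h4 (by positivity) hr0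
        _ = 2 * r ^ 2 := by ring
    have h5 : 2 * r' ^ 3 ≤ r ^ 2 := by
      have h6 : r' ^ 3 ≤ r ^ 3 := by gcongr
      nlinarith [sq_nonneg r]
    rw [abs_le]
    constructor <;> linarith [h1.1, h1.2]
  have key : ∀ t, 2 * r' ^ 2 * (xc t ^ 2 * dl r t) - 25 * r ^ 4 * dl r t ≤
      (Xl r' t - mu1 r r') ^ 2 * dl r t := by
    intro t
    have h1 := Xl_close h0 (by linarith : r' ≤ 1 / 2) t
    have h2 : |Xl r' t + 2 * r' * xc t - mu1 r r'| ≤ 5 * r ^ 2 := by
      calc _ ≤ |Xl r' t + 2 * r' * xc t| + |mu1 r r'| := abs_sub _ _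
        _ ≤ 2 * r' ^ 2 + 3 * r ^ 2 := add_le_add h1 hmu
        _ ≤ 5 * r ^ 2 := by nlinarith [mul_self_le_mul_self h0 hrr]
    obtain ⟨E, hE⟩ : ∃ E : ℝ, E = Xl r' t + 2 * r' * xc t - mu1 r r' := ⟨_, rfl⟩
    rw [← hE] at h2
    have h3 : E ^ 2 ≤ 25 * r ^ 4 := by
      have := pow_le_pow_left₀ (abs_nonneg E) h2 2
      rw [sq_abs] at this
      calc E ^ 2 ≤ (5 * r ^ 2) ^ 2 := this
        _ = 25 * r ^ 4 := by ring
    have h4 : Xl r' t - mu1 r r' = E - 2 * r' * xc t := by rw [hE]; ring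
    rw [h4]
    have h5 : 2 * r' ^ 2 * xc t ^ 2 - 25 * r ^ 4 ≤ (E - 2 * r' * xc t) ^ 2 := by
      nlinarith [sq_nonneg (E - r' * xc t), sq_nonneg E, sq_nonneg (2 * E - 2 * r' * xc t)]
    have h6 := mul_le_mul_of_nonneg_right h5 (dl_nonneg r t)
    calc _ = (2 * r' ^ 2 * xc t ^ 2 - 25 * r ^ 4) * dl r t := by ring
      _ ≤ _ := h6
  have h7 : ∫ t, (2 * r' ^ 2 * (xc t ^ 2 * dl r t) - 25 * r ^ 4 * dl r t) ∂haar ≤
      ∫ t, (Xl r' t - mu1 r r') ^ 2 * dl r t ∂haar :=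
    integral_mono (integrable_of_contR (by fun_prop)) (integrable_of_contR (by fun_prop)) key
  rw [integral_sub (integrable_of_contR (by fun_prop)) (integrable_of_contR (by fun_prop)),
    integral_const_mul, integral_const_mul, int_x2d, int_dl] at h7
  have h8 : 25 * r ^ 4 ≤ r ^ 2 / 16 := by
    have : r ^ 2 ≤ 1 / 400 := by nlinarith
    nlinarith [sq_nonneg r]
  nlinarith

/-- fourth moment -/
lemma four1 {r r' : ℝ} (h0 : 0 ≤ r') (hrr : r' ≤ r) (hr : r ≤ 1 / 20) :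
    ∫ t, (Xl r' t - mu1 r r') ^ 4 * dl r t ∂haar ≤ 1296 * r ^ 4 := by
  have hXc := Xl_cont h0 (by linarith : r' < 1)
  refine (le_abs_self _).trans (int_weighted_le (by fun_prop) fun t => ?_)
  have h1 : |Xl r' t - mu1 r r'| ≤ 6 * r := by
    calc _ ≤ |Xl r' t| + |mu1 r r'| := abs_sub _ _
      _ ≤ 3 * r' + 3 * r' := add_le_add (Xl_abs h0 (by linarith) t) (mu1_abs h0 (by linarith))
      _ ≤ 6 * r := by linarith
  rw [abs_pow]
  calc |Xl r' t - mu1 r r'| ^ 4 ≤ (6 * r) ^ 4 := pow_le_pow_left₀ (abs_nonneg _) h1 4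
    _ = 1296 * r ^ 4 := by ring

end Pool.Agent.E8helper84.RM
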