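import Pool.Agent.E8helper84.RM.RN3

/-!
Blocks of coordinates: moments under the tilt and anti-concentration.
-/

set_option autoImplicit false

namespace Pool.Agent.E8helper84.RM

open MeasureTheory Filter Topology Finset ProbabilityTheory
open scoped ComplexConjugate

abbrev Tor : Type := ℕ → UnitAddCircle

/-- information of the coordinates in `S` -/
noncomputable def cS (S : Set ℕ) : MeasurableSpace Tor :=
  ⨆ n ∈ S, MeasurableSpace.comap (fun ω : Tor => ω n) inferInstance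

lemma cS_le (S : Set ℕ) : cS S ≤ (inferInstance : MeasurableSpace Tor) := by
  unfold cS
  exact iSup₂_le fun n _ => (measurable_pi_apply n).comap_le

lemma cS_mono {S T : Set ℕ} (h : S ⊆ T) : cS S ≤ cS T := by
  unfold cS
  exact iSup₂_le fun n hn => le_iSup₂_of_le (f := fun (n : ℕ) (_ : n ∈ T) =>
    MeasurableSpace.comap (fun ω : Tor => ω n) inferInstance) n (h hn) le_rfl

lemma cS_coord {S : Set ℕ} {n : ℕ} (hn : n ∈ S) : Measurable[cS S] (fun ω : Tor => ω n) := by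
  have h1 : MeasurableSpace.comap (fun ω : Tor => ω n) inferInstance ≤ cS S := by
    unfold cS
    exact le_iSup₂_of_le (f := fun (n : ℕ) (_ : n ∈ S) =>
      MeasurableSpace.comap (fun ω : Tor => ω n) inferInstance) n hn le_rfl
  exact (comap_measurable (fun ω : Tor => ω n)).mono h1 le_rfl

lemma coord_indep : iIndepFun (fun (n : ℕ) (ω : Tor) => ω n) P0 :=
  iIndepFun_infinitePi (P := fun _ => haar) (X := fun _ t => t) (fun _ => measurable_id)

lemma cS_indep {S T : Set ℕ} (h : Disjoint S T) : Indep (cS S) (cS T) P0 :=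
  indep_iSup_of_disjoint (m := fun n : ℕ => MeasurableSpace.comap (fun ω : Tor => ω n) inferInstance)
    (fun n => (measurable_pi_apply n).comap_le) coord_indep h

lemma mul_int {S T : Set ℕ} (h : Disjoint S T) {f g : Tor → ℝ} (hf : Measurable[cS S] f)
    (hg : Measurable[cS T] g) : ∫ ω, f ω * g ω ∂P0 = (∫ ω, f ω ∂P0) * ∫ ω, g ω ∂P0 := by
  have h1 : IndepFun f g P0 :=
    (IndepFun_iff_Indep f g P0).2 (indep_of_indep_of_le_left
      (indep_of_indep_of_le_right (cS_indep h) hg.comap_le) hf.comap_le)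
  exact h1.integral_fun_mul_eq_mul_integral (hf.mono (cS_le S) le_rfl).aestronglyMeasurable
    (hg.mono (cS_le T) le_rfl).aestronglyMeasurable

lemma intC {f : Tor → ℝ} (hf : Continuous f) : Integrable f P0 := by
  obtain ⟨C, hC⟩ := (isCompact_univ.image hf).isBounded.exists_norm_le
  exact Integrable.of_bound hf.aestronglyMeasurable C (Eventually.of_forall fun t => hC _ ⟨t, trivial, rfl⟩)

lemma int_coord {g : UnitAddCircle → ℝ} (hg : Continuous g) (n : ℕ) :
    ∫ ω : Tor, g (ω n) ∂P0 = ∫ t, g t ∂haar := by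
  have h2 : MeasurePreserving (Function.eval n) P0 haar :=
    measurePreserving_eval_infinitePi (fun _ => haar) n
  rw [← h2.map_eq, integral_map h2.measurable.aemeasurable hg.aestronglyMeasurable]

/-- weights and sums of a block -/
noncomputable def Wb (dd : ℕ → UnitAddCircle → ℝ) (B : Finset ℕ) (ω : Tor) : ℝ := ∏ n ∈ B, dd n (ω n)

noncomputable def Yb (ff : ℕ → UnitAddCircle → ℝ) (B : Finset ℕ) (ω : Tor) : ℝ := ∑ n ∈ B, ff n (ω n)

structure Blk (dd ff : ℕ → UnitAddCircle → ℝ) (v q : ℕ → ℝ) (B : Finset ℕ) : Prop where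
  cd : ∀ n ∈ B, Continuous (dd n)
  cf : ∀ n ∈ B, Continuous (ff n)
  nn : ∀ n ∈ B, ∀ t, 0 ≤ dd n t
  e0 : ∀ n ∈ B, ∫ t, dd n t ∂haar = 1
  e1 : ∀ n ∈ B, ∫ t, ff n t * dd n t ∂haar = 0
  e2 : ∀ n ∈ B, ∫ t, ff n t ^ 2 * dd n t ∂haar = v n
  e4 : ∀ n ∈ B, ∫ t, ff n t ^ 4 * dd n t ∂haar ≤ q n

variable {dd ff : ℕ → UnitAddCircle → ℝ} {v q : ℕ → ℝ}

lemma Wb_cont {B : Finset ℕ} (h : Blk dd ff v q B) : Continuous (Wb dd B) := by
  unfold Wb
  exact continuous_finsetProd _ fun n hn => (h.cd n hn).comp (continuous_apply n)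

lemma Yb_cont {B : Finset ℕ} (h : Blk dd ff v q B) : Continuous (Yb ff B) := by
  unfold Yb
  exact continuous_finsetSum _ fun n hn => (h.cf n hn).comp (continuous_apply n)

lemma Wb_meas {B : Finset ℕ} (h : Blk dd ff v q B) : Measurable[cS (B : Set ℕ)] (Wb dd B) := by
  unfold Wb
  refine Finset.measurable_fun_prod _ fun n hn => ?_
  exact (h.cd n hn).measurable.comp (cS_coord (Finset.mem_coe.2 hn))

lemma Yb_meas {B : Finset ℕ} (h : Blk dd ff v q B) : Measurable[cS (B : Set ℕ)] (Yb ff B) := by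
  unfold Yb
  refine Finset.measurable_fun_sum _ fun n hn => ?_
  exact (h.cf n hn).measurable.comp (cS_coord (Finset.mem_coe.2 hn))

lemma Wb_nonneg {B : Finset ℕ} (h : Blk dd ff v q B) (ω : Tor) : 0 ≤ Wb dd B ω :=
  Finset.prod_nonneg fun n hn => h.nn n hn _

lemma Blk.sub {B B' : Finset ℕ} (h : Blk dd ff v q B) (hs : B' ⊆ B) : Blk dd ff v q B' :=
  ⟨fun n hn => h.cd n (hs hn), fun n hn => h.cf n (hs hn), fun n hn => h.nn n (hs hn),
    fun n hn => h.e0 n (hs hn), fun n hn => h.e1 n (hs hn), fun n hn => h.e2 n (hs hn),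
    fun n hn => h.e4 n (hs hn)⟩

lemma one_more {B : Finset ℕ} {a : ℕ} (ha : a ∉ B) {G : Tor → ℝ}
    (hG : Measurable[cS (B : Set ℕ)] G) {g : UnitAddCircle → ℝ} (hg : Continuous g) :
    ∫ ω, G ω * g (ω a) ∂P0 = (∫ ω, G ω ∂P0) * ∫ t, g t ∂haar := by
  have hd : Disjoint (B : Set ℕ) ({a} : Set ℕ) := by
    rw [Set.disjoint_singleton_right]; exact fun h => ha (Finset.mem_coe.1 h)
  have h1 := mul_int hd hG (g := fun ω : Tor => g (ω a))
    (hg.measurable.comp (cS_coord (Set.mem_singleton a)))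
  rw [h1, int_coord hg]

theorem moments (B : Finset ℕ) (h : Blk dd ff v q B) :
    ∫ ω, Wb dd B ω ∂P0 = 1 ∧ ∫ ω, Yb ff B ω * Wb dd B ω ∂P0 = 0 ∧
      ∫ ω, Yb ff B ω ^ 2 * Wb dd B ω ∂P0 = ∑ n ∈ B, v n ∧
      ∫ ω, Yb ff B ω ^ 4 * Wb dd B ω ∂P0 ≤ 3 * (∑ n ∈ B, v n) ^ 2 + ∑ n ∈ B, q n := by
  induction B using Finset.induction_on with
  | empty => simp [Wb, Yb]
  | insert a B ha ih =>
    have hB : Blk dd ff v q B := h.sub (Finset.subset_insert _ _)
    obtain ⟨i0, i1, i2, i4⟩ := ih hB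
    have ham : a ∈ insert a B := Finset.mem_insert_self _ _
    have hcd := h.cd a ham
    have hcf := h.cf a ham
    have hW := Wb_cont hB
    have hY := Yb_cont hB
    have mW := Wb_meas hB
    have mY := Yb_meas hB
    have eW : ∀ ω, Wb dd (insert a B) ω = Wb dd B ω * dd a (ω a) := fun ω => by
      unfold Wb; rw [Finset.prod_insert ha, mul_comm]
    have eY : ∀ ω, Yb ff (insert a B) ω = Yb ff B ω + ff a (ω a) := fun ω => by
      unfold Yb; rw [Finset.sum_insert ha, add_comm]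
    have hca : Continuous fun ω : Tor => dd a (ω a) := hcd.comp (continuous_apply a)
    have hfa : Continuous fun ω : Tor => ff a (ω a) := hcf.comp (continuous_apply a)
    -- values
    have s0 := one_more ha mW hcd
    have s1 := one_more (G := fun ω => Yb ff B ω * Wb dd B ω) ha (mY.mul mW) hcd
    have s1' := one_more ha mW (g := fun t => ff a t * dd a t) (hcf.mul hcd)
    have s2 := one_more (G := fun ω => Yb ff B ω ^ 2 * Wb dd B ω) ha ((mY.pow_const 2).mul mW) hcd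
    have s2' := one_more (G := fun ω => Yb ff B ω * Wb dd B ω) ha (mY.mul mW)
      (g := fun t => ff a t * dd a t) (hcf.mul hcd)
    have s2'' := one_more ha mW (g := fun t => ff a t ^ 2 * dd a t) (by fun_prop)
    have s4 := one_more (G := fun ω => Yb ff B ω ^ 4 * Wb dd B ω) ha ((mY.pow_const 4).mul mW) hcd
    have s4a := one_more (G := fun ω => Yb ff B ω ^ 3 * Wb dd B ω) ha ((mY.pow_const 3).mul mW)
      (g := fun t => ff a t * dd a t) (hcf.mul hcd)
    have s4b := one_more (G := fun ω => Yb ff B ω ^ 2 * Wb dd B ω) ha ((mY.pow_const 2).mul mW)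
      (g := fun t => ff a t ^ 2 * dd a t) (by fun_prop)
    have s4c := one_more (G := fun ω => Yb ff B ω * Wb dd B ω) ha (mY.mul mW)
      (g := fun t => ff a t ^ 3 * dd a t) (by fun_prop)
    have s4d := one_more ha mW (g := fun t => ff a t ^ 4 * dd a t) (by fun_prop)
    rw [h.e0 a ham] at s0 s1 s2 s4
    rw [h.e1 a ham] at s1' s2' s4a
    rw [h.e2 a ham] at s2'' s4b
    rw [i1] at s1 s2' s4c
    rw [i0] at s0 s1' s2'' s4d
    rw [i2] at s2 s4b
    refine ⟨?_, ?_, ?_, ?_⟩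
    · simp_rw [eW]; rw [s0]; norm_num
    · simp_rw [eW, eY]
      have e : ∀ ω, (Yb ff B ω + ff a (ω a)) * (Wb dd B ω * dd a (ω a)) =
          Yb ff B ω * Wb dd B ω * dd a (ω a) + Wb dd B ω * (ff a (ω a) * dd a (ω a)) := fun ω => by ring
      simp_rw [e]
      rw [integral_add (intC (by fun_prop)) (intC (by fun_prop)), s1, s1']
      norm_num
    · simp_rw [eW, eY]
      have e : ∀ ω, (Yb ff B ω + ff a (ω a)) ^ 2 * (Wb dd B ω * dd a (ω a)) =
          Yb ff B ω ^ 2 * Wb dd B ω * dd a (ω a) +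
            2 * (Yb ff B ω * Wb dd B ω * (ff a (ω a) * dd a (ω a))) +
            Wb dd B ω * (ff a (ω a) ^ 2 * dd a (ω a)) := fun ω => by ring
      simp_rw [e]
      rw [integral_add (intC (by fun_prop)) (intC (by fun_prop)),
        integral_add (intC (by fun_prop)) (intC (by fun_prop)), integral_const_mul, s2, s2', s2'',
        Finset.sum_insert ha]
      ring
    · simp_rw [eW, eY]
      have e : ∀ ω, (Yb ff B ω + ff a (ω a)) ^ 4 * (Wb dd B ω * dd a (ω a)) =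
          Yb ff B ω ^ 4 * Wb dd B ω * dd a (ω a) +
            4 * (Yb ff B ω ^ 3 * Wb dd B ω * (ff a (ω a) * dd a (ω a))) +
            6 * (Yb ff B ω ^ 2 * Wb dd B ω * (ff a (ω a) ^ 2 * dd a (ω a))) +
            4 * (Yb ff B ω * Wb dd B ω * (ff a (ω a) ^ 3 * dd a (ω a))) +
            Wb dd B ω * (ff a (ω a) ^ 4 * dd a (ω a)) := fun ω => by ring
      simp_rw [e]
      rw [integral_add (intC (by fun_prop)) (intC (by fun_prop)),
        integral_add (intC (by fun_prop)) (intC (by fun_prop)),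
        integral_add (intC (by fun_prop)) (intC (by fun_prop)),
        integral_add (intC (by fun_prop)) (intC (by fun_prop)), integral_const_mul, integral_const_mul,
        integral_const_mul, s4, s4a, s4b, s4c, s4d, Finset.sum_insert ha, Finset.sum_insert ha]
      have h4 := h.e4 a ham
      have hv : 0 ≤ v a := by
        rw [← h.e2 a ham]
        exact integral_nonneg fun t => mul_nonneg (sq_nonneg _) (h.nn a ham t)
      nlinarith [sq_nonneg (v a)]

/-- anti-concentration -/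
theorem anti (B : Finset ℕ) (h : Blk dd ff v q B) (hv : 0 < ∑ n ∈ B, v n)
    (hq : ∑ n ∈ B, q n ≤ (∑ n ∈ B, v n) ^ 2) {θ : ℝ} (hθ : 0 ≤ θ) (hθ2 : 16 * θ ^ 2 ≤ ∑ n ∈ B, v n) :
    ∫ ω, (if Yb ff B ω ≤ θ then 1 else 0) * Wb dd B ω ∂P0 ≤ 35 / 36 := by
  obtain ⟨m0, m1, m2, m4⟩ := moments B h
  obtain ⟨σ2, hσ2⟩ : ∃ σ2 : ℝ, σ2 = ∑ n ∈ B, v n := ⟨_, rfl⟩
  rw [← hσ2] at hv hq hθ2 m2 m4
  obtain ⟨σ, hσ, hσp⟩ : ∃ σ : ℝ, σ ^ 2 = σ2 ∧ 0 < σ := ⟨Real.sqrt σ2, Real.sq_sqrt hv.le, Real.sqrt_pos.2 hv⟩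
  have hθσ : θ ≤ σ / 4 := by
    have : (4 * θ) ^ 2 ≤ σ ^ 2 := by rw [hσ]; nlinarith
    have := abs_le_of_sq_le_sq' this hσp.le
    linarith [this.2]
  have hW := Wb_cont h
  have hY := Yb_cont h
  -- pointwise inequality
  have key : ∀ ω, (if Yb ff B ω ≤ θ then (1 : ℝ) else 0) * Wb dd B ω ≤
      Wb dd B ω - (1 / 9) * (8 / 5 / σ * (Yb ff B ω * Wb dd B ω) + 1 / σ ^ 2 * (Yb ff B ω ^ 2 * Wb dd B ω) -
        1 / (16 * σ ^ 4) * (Yb ff B ω ^ 4 * Wb dd B ω) - 1 / 2 * Wb dd B ω) := by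
    intro ω
    obtain ⟨y, hy⟩ : ∃ y : ℝ, y = Yb ff B ω / σ := ⟨_, rfl⟩
    have hYy : Yb ff B ω = σ * y := by rw [hy]; field_simp
    have hw := Wb_nonneg h ω
    have e : Wb dd B ω - (1 / 9) * (8 / 5 / σ * (Yb ff B ω * Wb dd B ω) +
        1 / σ ^ 2 * (Yb ff B ω ^ 2 * Wb dd B ω) -
        1 / (16 * σ ^ 4) * (Yb ff B ω ^ 4 * Wb dd B ω) - 1 / 2 * Wb dd B ω) =
        (1 - (1 / 9) * (8 / 5 * y + y ^ 2 - y ^ 4 / 16 - 1 / 2)) * Wb dd B ω := by
      rw [hYy]; field_simp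
    rw [e]
    refine mul_le_mul_of_nonneg_right ?_ hw
    split_ifs with hc
    · have hy4 : y ≤ 1 / 4 := by
        rw [hYy] at hc
        have : σ * y ≤ σ * (1 / 4) := by linarith
        exact le_of_mul_le_mul_left this hσp
      have : 8 / 5 * y + y ^ 2 - y ^ 4 / 16 - 1 / 2 ≤ 0 := by
        rcases le_or_gt 0 y with h0 | h0
        · nlinarith [sq_nonneg y, sq_nonneg (y ^ 2)]
        · obtain ⟨x, hx⟩ : ∃ x : ℝ, x = -y := ⟨_, rfl⟩
          have hx0 : 0 < x := by rw [hx]; linarith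
          have h1 : 0 ≤ x ^ 3 / 16 - x + 8 / 5 := by
            nlinarith [mul_nonneg (sq_nonneg (x - 2.31)) (by linarith : (0 : ℝ) ≤ x + 4.62)]
          have hyx : y = -x := by rw [hx]; ring
          rw [hyx]
          nlinarith [mul_nonneg hx0.le h1]
      linarith
    · have : 8 / 5 * y + y ^ 2 - y ^ 4 / 16 - 1 / 2 ≤ 9 := by
        nlinarith [sq_nonneg (y ^ 2 / 4 - 2.6), sq_nonneg (y - 8 / 3)]
      linarith
  have hint : ∫ ω, (if Yb ff B ω ≤ θ then (1 : ℝ) else 0) * Wb dd B ω ∂P0 ≤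
      ∫ ω, (Wb dd B ω - (1 / 9) * (8 / 5 / σ * (Yb ff B ω * Wb dd B ω) +
        1 / σ ^ 2 * (Yb ff B ω ^ 2 * Wb dd B ω) -
        1 / (16 * σ ^ 4) * (Yb ff B ω ^ 4 * Wb dd B ω) - 1 / 2 * Wb dd B ω)) ∂P0 := by
    refine integral_mono_of_nonneg (Eventually.of_forall fun ω => ?_) (intC (by fun_prop))
      (Eventually.of_forall key)
    refine mul_nonneg ?_ (Wb_nonneg h ω)
    split_ifs <;> norm_num
  refine hint.trans ?_
  rw [integral_sub (intC hW) (intC (by fun_prop)), integral_const_mul,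
    integral_sub (intC (by fun_prop)) (intC (by fun_prop)),
    integral_sub (intC (by fun_prop)) (intC (by fun_prop)),
    integral_add (intC (by fun_prop)) (intC (by fun_prop)), integral_const_mul, integral_const_mul,
    integral_const_mul, integral_const_mul, m0, m1, m2]
  have h5 : 1 / (16 * σ ^ 4) * ∫ ω, Yb ff B ω ^ 4 * Wb dd B ω ∂P0 ≤ 1 / 4 := by
    have h6 : ∫ ω, Yb ff B ω ^ 4 * Wb dd B ω ∂P0 ≤ 4 * σ ^ 4 := by
      have : σ ^ 4 = σ2 ^ 2 := by rw [← hσ]; ring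
      rw [this]; linarith
    calc _ ≤ 1 / (16 * σ ^ 4) * (4 * σ ^ 4) := mul_le_mul_of_nonneg_left h6 (by positivity)
      _ = 1 / 4 := by field_simp; norm_num
  have h7 : 1 / σ ^ 2 * σ2 = 1 := by rw [← hσ]; field_simp
  rw [h7]
  linarith

end Pool.Agent.E8helper84.RM
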