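import Pool.Agent.E8helper84.RM.RN4

/-!
Blocks of primes.
-/

set_option autoImplicit false

namespace Pool.Agent.E8helper84.RM

open MeasureTheory Filter Topology Finset ProbabilityTheory
open scoped ComplexConjugate

/-- `p^(-1/2)` -/
noncomputable def rp (p : ℕ) : ℝ := (p : ℝ) ^ (-(1 / 2) : ℝ)

/-- `p^(-σ)`, `σ = 1 / log N` -/
noncomputable def wp (N p : ℕ) : ℝ := (p : ℝ) ^ (-(1 / Real.log N) : ℝ)

/-- `p^(-1/2-σ)`, `σ = 1 / log N` -/
noncomputable def rs (N p : ℕ) : ℝ := rp p * wp N p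

noncomputable def blk (M N : ℕ) : Finset ℕ := (Ioc M N).filter Nat.Prime

/-- `∏_{p ≤ N} (1 + 1/p)` -/
noncomputable def VV (N : ℕ) : ℝ := ∏ p ∈ (Icc 1 N).filter Nat.Prime, (1 + 1 / (p : ℝ))

lemma VV_pos (N : ℕ) : 0 < VV N := by
  unfold VV
  exact Finset.prod_pos fun p _ => by positivity

lemma rp_nonneg (p : ℕ) : 0 ≤ rp p := by unfold rp; positivity

lemma rp_sq (p : ℕ) : rp p ^ 2 = 1 / (p : ℝ) := by
  unfold rp
  rw [← Real.rpow_natCast, ← Real.rpow_mul (Nat.cast_nonneg p)]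
  norm_num
  rw [Real.rpow_neg_one]

lemma rp_cube (p : ℕ) : rp p ^ 3 = (p : ℝ) ^ (-(3 / 2) : ℝ) := by
  unfold rp
  rw [← Real.rpow_natCast, ← Real.rpow_mul (Nat.cast_nonneg p)]
  norm_num

lemma wp_nonneg (N p : ℕ) : 0 ≤ wp N p := by unfold wp; positivity

lemma log_ge_one {N : ℕ} (hN : 3 ≤ N) : 1 ≤ Real.log N := by
  rw [Real.le_log_iff_exp_le (by positivity)]
  have h1 := Real.exp_one_lt_d9
  have h2 : (3 : ℝ) ≤ N := by exact_mod_cast hN
  linarith

lemma wp_eq (N : ℕ) {p : ℕ} (hp : 0 < p) : wp N p = Real.exp (-(Real.log p / Real.log N)) := by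
  unfold wp
  rw [Real.rpow_def_of_pos (by exact_mod_cast hp)]
  congr 1; ring

lemma wp_le {N p : ℕ} (hN : 3 ≤ N) (hp : 0 < p) : wp N p ≤ 1 := by
  rw [wp_eq N hp, Real.exp_le_one_iff, neg_nonpos]
  have h1 := log_ge_one hN
  have h2 : 0 ≤ Real.log p := Real.log_natCast_nonneg p
  positivity

lemma wp_ge (N : ℕ) {p : ℕ} (hp : 0 < p) : 1 - Real.log p / Real.log N ≤ wp N p := by
  rw [wp_eq N hp]
  have := Real.add_one_le_exp (-(Real.log p / Real.log N))
  linarith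

lemma wp_sq {N p : ℕ} (hN : 3 ≤ N) (hp : 0 < p) (hpN : p ≤ N) : 1 / 8 ≤ wp N p ^ 2 := by
  have h1 := log_ge_one hN
  have h2 : Real.log p ≤ Real.log N := Real.log_le_log (by exact_mod_cast hp) (by exact_mod_cast hpN)
  have h3 : Real.log p / Real.log N ≤ 1 := by rw [div_le_one (by linarith)]; exact h2
  have h4 : Real.exp (-1) ≤ wp N p := by
    rw [wp_eq N hp]
    exact Real.exp_le_exp.2 (by linarith)
  have h5 : 1 / 2.7182818286 ≤ Real.exp (-1) := by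
    rw [Real.exp_neg, ← one_div]
    exact one_div_le_one_div_of_le (Real.exp_pos _) Real.exp_one_lt_d9.le
  have h6 : (0.36 : ℝ) ≤ wp N p := by
    refine le_trans ?_ (h5.trans h4)
    norm_num
  nlinarith

lemma rp_le {p : ℕ} (hp : 400 ≤ p) : rp p ≤ 1 / 20 := by
  by_contra hcon
  rw [not_le] at hcon
  have h1 := rp_sq p
  have h2 : (1 : ℝ) / p ≤ 1 / 400 := one_div_le_one_div_of_le (by norm_num) (by exact_mod_cast hp)
  nlinarith

lemma rs_nonneg (N p : ℕ) : 0 ≤ rs N p := mul_nonneg (rp_nonneg p) (wp_nonneg N p)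

lemma rs_le {N p : ℕ} (hN : 3 ≤ N) (hp : 0 < p) : rs N p ≤ rp p :=
  mul_le_of_le_one_right (rp_nonneg p) (wp_le hN hp)

lemma rs_sq {N p : ℕ} (hN : 3 ≤ N) (hp : 0 < p) (hpN : p ≤ N) : rp p ^ 2 / 8 ≤ rs N p ^ 2 := by
  unfold rs
  rw [mul_pow]
  have := wp_sq hN hp hpN
  nlinarith [sq_nonneg (rp p)]

/-- mean at a prime -/
lemma mean_ge {N p : ℕ} (hN : 3 ≤ N) (hp : 400 ≤ p) :
    2 * (1 / (p : ℝ)) - 2 * (1 / Real.log N) * (Real.log p / p) - 4 * (p : ℝ) ^ (-(3 / 2) : ℝ) ≤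
      mu1 (rp p) (rs N p) := by
  have hp0 : 0 < p := by omega
  have hr := rp_le hp
  have hr0 := rp_nonneg p
  have hs0 := rs_nonneg N p
  have hsr := rs_le hN hp0
  have hw0 := wp_nonneg N p
  have hw1 := wp_le hN hp0
  have hw2 := wp_ge N hp0
  have h1 := (abs_le.1 (mu1_eq (r := rp p) hs0 (by linarith : rs N p ≤ 1 / 2))).1
  rw [← rp_cube p]
  obtain ⟨r, hrr⟩ : ∃ r : ℝ, r = rp p := ⟨_, rfl⟩
  obtain ⟨w, hww⟩ : ∃ w : ℝ, w = wp N p := ⟨_, rfl⟩
  have e0 : rs N p = r * w := by rw [hrr, hww]; rfl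
  have e1 : 1 / (p : ℝ) = r ^ 2 := by rw [hrr, rp_sq]
  have e2 : Real.log p / p = Real.log p * r ^ 2 := by rw [← e1]; ring
  rw [e0, ← hrr] at h1
  rw [e2, e1, ← hrr, e0]
  rw [← hrr] at hr hr0
  rw [← hww] at hw0 hw1 hw2
  have h2 : 2 * r ^ 2 * w - 2 * r ^ 4 ≤ r * w * (2 * r / (1 + r ^ 2)) := by
    have h3 : 2 * r * (1 - r ^ 2) ≤ 2 * r / (1 + r ^ 2) := by
      rw [le_div_iff₀ (by positivity)]
      nlinarith [pow_nonneg hr0 5]
    have h4 : r * w * (2 * r * (1 - r ^ 2)) ≤ r * w * (2 * r / (1 + r ^ 2)) :=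
      mul_le_mul_of_nonneg_left h3 (by positivity)
    nlinarith [pow_nonneg hr0 4, mul_nonneg (pow_nonneg hr0 4) (sub_nonneg.2 hw1)]
  have h5 : 2 * (r * w) ^ 3 ≤ 2 * r ^ 3 := by
    rw [mul_pow]
    have : w ^ 3 ≤ 1 := pow_le_one₀ hw0 hw1
    nlinarith [pow_nonneg hr0 3]
  have h6 : r ^ 4 ≤ r ^ 3 := by
    have : r ^ 4 = r ^ 3 * r := by ring
    rw [this]
    nlinarith [pow_nonneg hr0 3]
  have h7 : 2 * r ^ 2 * (1 - Real.log p / Real.log N) ≤ 2 * r ^ 2 * w :=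
    mul_le_mul_of_nonneg_left hw2 (by positivity)
  have h8 : 2 * r ^ 2 * (1 - Real.log p / Real.log N) =
      2 * r ^ 2 - 2 * (1 / Real.log N) * (Real.log p * r ^ 2) := by ring
  linarith

lemma sum_S3 : ∃ S3 : ℝ, 0 ≤ S3 ∧ ∀ B : Finset ℕ, ∑ p ∈ B, (p : ℝ) ^ (-(3 / 2) : ℝ) ≤ S3 := by
  have hs : Summable fun n : ℕ => (n : ℝ) ^ (-(3 / 2) : ℝ) := Real.summable_nat_rpow.2 (by norm_num)
  exact ⟨∑' n : ℕ, (n : ℝ) ^ (-(3 / 2) : ℝ), tsum_nonneg fun n => by positivity,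
    fun B => hs.sum_le_tsum B fun n _ => by positivity⟩

lemma blk_sub (M N : ℕ) : blk M N ⊆ (Icc 1 N).filter Nat.Prime := by
  intro p hp
  unfold blk at hp
  rw [Finset.mem_filter, Finset.mem_Ioc] at hp
  rw [Finset.mem_filter, Finset.mem_Icc]
  exact ⟨⟨hp.2.one_lt.le, hp.1.2⟩, hp.2⟩

lemma split_primes {M N : ℕ} (h : M ≤ N) :
    (Icc 1 N).filter Nat.Prime = (Icc 1 M).filter Nat.Prime ∪ blk M N := by
  unfold blk
  ext p
  simp only [Finset.mem_filter, Finset.mem_Icc, Finset.mem_union, Finset.mem_Ioc]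
  constructor
  · rintro ⟨⟨h1, h2⟩, h3⟩
    rcases le_or_gt p M with h4 | h4
    · exact Or.inl ⟨⟨h1, h4⟩, h3⟩
    · exact Or.inr ⟨⟨h4, h2⟩, h3⟩
  · rintro (⟨⟨h1, h2⟩, h3⟩ | ⟨⟨h1, h2⟩, h3⟩)
    · exact ⟨⟨h1, by omega⟩, h3⟩
    · exact ⟨⟨by omega, h2⟩, h3⟩

lemma split_disj (M N : ℕ) : Disjoint ((Icc 1 M).filter Nat.Prime) (blk M N) := by
  unfold blk
  rw [Finset.disjoint_left]
  intro p h1 h2
  rw [Finset.mem_filter, Finset.mem_Icc] at h1
  rw [Finset.mem_filter, Finset.mem_Ioc] at h2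
  omega

lemma sum_inv_le (M : ℕ) : ∑ p ∈ (Icc 1 M).filter Nat.Prime, (1 : ℝ) / p ≤ M := by
  calc ∑ p ∈ (Icc 1 M).filter Nat.Prime, (1 : ℝ) / p ≤ ∑ p ∈ (Icc 1 M).filter Nat.Prime, (1 : ℝ) := by
        refine Finset.sum_le_sum fun p hp => ?_
        have h1 := (Finset.mem_filter.1 hp).2.one_lt
        have h2 : (1 : ℝ) ≤ p := by exact_mod_cast h1.le
        exact (div_le_one (by linarith)).2 h2
    _ = (((Icc 1 M).filter Nat.Prime).card : ℝ) := by simp
    _ ≤ M := by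
        have : ((Icc 1 M).filter Nat.Prime).card ≤ M := (Finset.card_filter_le _ _).trans (by simp)
        exact_mod_cast this

lemma log_VV_le {N : ℕ} (hN : 3 ≤ N) : Real.log (VV N * Real.log N) ≤
    ∑ p ∈ (Icc 1 N).filter Nat.Prime, (1 : ℝ) / p + Real.log (Real.log N) := by
  have h1 := log_ge_one hN
  rw [Real.log_mul (VV_pos N).ne' (by linarith)]
  have h2 : Real.log (VV N) ≤ ∑ p ∈ (Icc 1 N).filter Nat.Prime, (1 : ℝ) / p := by
    unfold VV
    rw [Real.log_prod (fun p _ => by positivity)]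
    refine Finset.sum_le_sum fun p _ => ?_
    have := Real.log_le_sub_one_of_pos (x := 1 + 1 / (p : ℝ)) (by positivity)
    linarith
  linarith

/-- the tilt of a block -/
noncomputable def Wp (B : Finset ℕ) (ω : Tor) : ℝ := ∏ p ∈ B, dl (rp p) (ω p)

/-- the block event -/
noncomputable def Eb (M N : ℕ) (θ : ℝ) (ω : Tor) : Prop :=
  ∑ p ∈ blk M N, Xl (rs N p) (ω p) ≤ θ + Real.log (VV N * Real.log N)

open scoped Classical in
theorem block : ∀ M : ℕ, 400 ≤ M → ∀ θ : ℝ, 0 ≤ θ → ∃ N : ℕ, M < N ∧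
    ∫ ω, (if Eb M N θ ω then (1 : ℝ) else 0) * Wp (blk M N) ω ∂P0 ≤ 35 / 36 := by
  intro M hM θ hθ
  obtain ⟨C1, hC1⟩ := Pool.Agent.Erdos456.Mert.mertens_inv
  obtain ⟨C0, hC0⟩ := Pool.Agent.Erdos456.Mert.mertens_log
  obtain ⟨S3, hS0, hS3⟩ := sum_S3
  have hC1n : 0 ≤ C1 := (abs_nonneg _).trans (hC1 3 le_rfl)
  have hC0n : 0 ≤ C0 := (abs_nonneg _).trans (hC0 3 (by norm_num))
  obtain ⟨Kc, hKc⟩ : ∃ Kc : ℝ, Kc = C1 + 2 * M + 2 * (1 + C0) + 4 * S3 := ⟨_, rfl⟩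
  have hKc0 : 0 ≤ Kc := by rw [hKc]; positivity
  obtain ⟨T, hT⟩ : ∃ T : ℝ, T = 16 * (θ + Kc) ^ 2 + 1296 * S3 + 1 := ⟨_, rfl⟩
  have hlim : Tendsto (fun N : ℕ => Real.log (Real.log N)) atTop atTop :=
    Real.tendsto_log_atTop.comp (Real.tendsto_log_atTop.comp tendsto_natCast_atTop_atTop)
  obtain ⟨N, hN1, hN2⟩ := ((hlim.eventually_ge_atTop (16 * T + C1 + M)).and
    (eventually_ge_atTop (M + 1))).exists
  refine ⟨N, by omega, ?_⟩
  have hN3 : 3 ≤ N := by omega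
  have hlog := log_ge_one hN3
  have a1 := abs_le.1 (hC1 N hN3)
  have a0 := abs_le.1 (hC0 N (by omega))
  have memb : ∀ p ∈ blk M N, p.Prime ∧ 400 ≤ p ∧ p ≤ N := by
    intro p hp
    unfold blk at hp
    rw [Finset.mem_filter, Finset.mem_Ioc] at hp
    exact ⟨hp.2, by omega, hp.1.2⟩
  -- block structure
  have hB : Blk (fun p => dl (rp p)) (fun p t => Xl (rs N p) t - mu1 (rp p) (rs N p))
      (fun p => ∫ t, (Xl (rs N p) t - mu1 (rp p) (rs N p)) ^ 2 * dl (rp p) t ∂haar)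
      (fun p => 1296 * rp p ^ 4) (blk M N) := by
    have cX : ∀ p ∈ blk M N, Continuous (Xl (rs N p)) := by
      intro p hp
      obtain ⟨h1, h2, h3⟩ := memb p hp
      have := rp_le h2
      have := rs_le hN3 h1.pos
      exact Xl_cont (rs_nonneg N p) (by linarith)
    refine ⟨fun p _ => dl_cont _, fun p hp => (cX p hp).sub continuous_const, fun p _ t => dl_nonneg _ _,
      fun p _ => int_dl _, fun p hp => ?_, fun p _ => rfl, fun p hp => ?_⟩
    · have h1 := cX p hp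
      have h2 := dl_cont (rp p)
      have e : ∀ t, (Xl (rs N p) t - mu1 (rp p) (rs N p)) * dl (rp p) t =
        Xl (rs N p) t * dl (rp p) t - mu1 (rp p) (rs N p) * dl (rp p) t := fun t => by ring
      simp_rw [e]
      rw [integral_sub (integrable_of_contR (by fun_prop)) (integrable_of_contR (by fun_prop)),
        integral_const_mul, int_dl]
      unfold mu1
      ring
    · obtain ⟨h1, h2, h3⟩ := memb p hp
      exact four1 (rs_nonneg N p) (rs_le hN3 h1.pos) (rp_le h2)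
  -- sums
  have hsplit := Finset.sum_union (split_disj M N) (f := fun p : ℕ => (1 : ℝ) / p)
  rw [← split_primes (by omega : M ≤ N)] at hsplit
  have hMsum := sum_inv_le M
  have hv : T ≤ ∑ p ∈ blk M N, ∫ t, (Xl (rs N p) t - mu1 (rp p) (rs N p)) ^ 2 * dl (rp p) t ∂haar := by
    calc T ≤ (1 / 16) * ∑ p ∈ blk M N, (1 : ℝ) / p := by linarith [a1.1]
      _ = ∑ p ∈ blk M N, rp p ^ 2 / 16 := by
          rw [Finset.mul_sum]
          refine Finset.sum_congr rfl fun p _ => ?_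
          rw [rp_sq]; ring
      _ ≤ _ := by
          refine Finset.sum_le_sum fun p hp => ?_
          obtain ⟨h1, h2, h3⟩ := memb p hp
          exact var1 (rs_nonneg N p) (rs_le hN3 h1.pos) (rp_le h2) (rs_sq hN3 h1.pos h3)
  have hT1 : 1 ≤ T := by rw [hT]; nlinarith [sq_nonneg (θ + Kc)]
  have hq : ∑ p ∈ blk M N, 1296 * rp p ^ 4 ≤ 1296 * S3 := by
    rw [← Finset.mul_sum]
    refine mul_le_mul_of_nonneg_left ?_ (by norm_num)
    refine le_trans (Finset.sum_le_sum fun p hp => ?_) (hS3 (blk M N))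
    obtain ⟨h1, h2, h3⟩ := memb p hp
    have h4 := rp_le h2
    have h5 := rp_nonneg p
    rw [← rp_cube]
    have : rp p ^ 4 = rp p ^ 3 * rp p := by ring
    rw [this]
    nlinarith [pow_nonneg h5 3]
  have hmean : Real.log (VV N * Real.log N) - Kc ≤ ∑ p ∈ blk M N, mu1 (rp p) (rs N p) := by
    have h1 : ∑ p ∈ blk M N, (2 * (1 / (p : ℝ)) - 2 * (1 / Real.log N) * (Real.log p / p) -
        4 * (p : ℝ) ^ (-(3 / 2) : ℝ)) ≤ ∑ p ∈ blk M N, mu1 (rp p) (rs N p) :=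
      Finset.sum_le_sum fun p hp => mean_ge hN3 (memb p hp).2.1
    rw [Finset.sum_sub_distrib, Finset.sum_sub_distrib, ← Finset.mul_sum, ← Finset.mul_sum,
      ← Finset.mul_sum] at h1
    have h2 := hS3 (blk M N)
    have h3 : ∑ p ∈ blk M N, Real.log p / p ≤ ∑ p ∈ (Icc 1 N).filter Nat.Prime, Real.log p / p :=
      Finset.sum_le_sum_of_subset_of_nonneg (blk_sub M N) fun p _ _ =>
        div_nonneg (Real.log_natCast_nonneg p) (Nat.cast_nonneg p)
    have h4 : 2 * (1 / Real.log N) * ∑ p ∈ blk M N, Real.log p / p ≤ 2 * (1 + C0) := by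
      have h5 : ∑ p ∈ blk M N, Real.log p / p ≤ (1 + C0) * Real.log N := by nlinarith [a0.2]
      have h6 : 2 * (1 / Real.log N) * ∑ p ∈ blk M N, Real.log p / p ≤
          2 * (1 / Real.log N) * ((1 + C0) * Real.log N) :=
        mul_le_mul_of_nonneg_left h5 (by positivity)
      have h7 : 2 * (1 / Real.log N) * ((1 + C0) * Real.log N) = 2 * (1 + C0) := by field_simp
      linarith
    have h8 := log_VV_le hN3
    have h9 := a1.1
    rw [hKc]
    linarith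
  have hmain := anti (blk M N) hB (by linarith) (by nlinarith) (θ := θ + Kc) (by linarith)
    (by nlinarith)
  refine le_trans ?_ hmain
  have hWc : Continuous (Wp (blk M N)) := Wb_cont hB
  refine integral_mono_of_nonneg (Eventually.of_forall fun ω => ?_) ?_ (Eventually.of_forall fun ω => ?_)
  · exact mul_nonneg (by split_ifs <;> norm_num) (Wb_nonneg hB ω)
  · have hm : MeasurableSet {ω : Tor | Yb (fun p t => Xl (rs N p) t - mu1 (rp p) (rs N p)) (blk M N) ω ≤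
        θ + Kc} := (isClosed_le (Yb_cont hB) continuous_const).measurableSet
    have e : (fun ω : Tor => (if Yb (fun p t => Xl (rs N p) t - mu1 (rp p) (rs N p)) (blk M N) ω ≤
        θ + Kc then (1 : ℝ) else 0) * Wb (fun p => dl (rp p)) (blk M N) ω) =
        Set.indicator {ω : Tor | Yb (fun p t => Xl (rs N p) t - mu1 (rp p) (rs N p)) (blk M N) ω ≤
        θ + Kc} (Wb (fun p => dl (rp p)) (blk M N)) := by
      funext ω
      by_cases h : Yb (fun p t => Xl (rs N p) t - mu1 (rp p) (rs N p)) (blk M N) ω ≤ θ + Kc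
      · rw [if_pos h, one_mul, Set.indicator_of_mem (by exact h)]
      · rw [if_neg h, zero_mul, Set.indicator_of_notMem (by exact h)]
    rw [e]
    exact (intC (Wb_cont hB)).indicator hm
  · refine mul_le_mul_of_nonneg_right ?_ (Wb_nonneg hB ω)
    by_cases h : Eb M N θ ω
    · have h2 : Yb (fun p t => Xl (rs N p) t - mu1 (rp p) (rs N p)) (blk M N) ω ≤ θ + Kc := by
        unfold Yb
        unfold Eb at h
        rw [Finset.sum_sub_distrib]
        linarith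
      rw [if_pos h, if_pos h2]
    · rw [if_neg h]; split_ifs <;> norm_num

end Pool.Agent.E8helper84.RM
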