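import Pool.Agent.E8helper84.RM.RN6

/-!
Rotations; the tilt formula.
-/

set_option autoImplicit false

namespace Pool.Agent.E8helper84.RM

open MeasureTheory Filter Topology Finset ProbabilityTheory
open scoped ComplexConjugate

/-- rotation by `-ξ log n` -/
noncomputable def rot (ξ : ℝ) (ω : Tor) : Tor := fun n => ω n + ((-(ξ * Real.log n) : ℝ) : UnitAddCircle)

lemma haar_shift (c : UnitAddCircle) : haar.map (fun t => t + c) = haar := by
  have : (AddCircle.haarAddCircle : Measure UnitAddCircle).map (fun t => t + c) =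
      (AddCircle.haarAddCircle : Measure UnitAddCircle) :=
    (measurePreserving_add_right (AddCircle.haarAddCircle : Measure UnitAddCircle) c).map_eq
  exact this

lemma rot_meas (ξ : ℝ) : Measurable (rot ξ) := by
  unfold rot
  exact measurable_pi_lambda _ fun n => (measurable_pi_apply n).add_const _

lemma rot_map (ξ : ℝ) : P0.map (rot ξ) = P0 := by
  have h := Measure.infinitePi_map_pi (μ := fun _ : ℕ => haar)
    (f := fun (n : ℕ) (t : UnitAddCircle) => t + ((-(ξ * Real.log n) : ℝ) : UnitAddCircle))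
    (fun n => measurable_id.add_const _)
  simp_rw [haar_shift] at h
  exact h

lemma rot_int (ξ : ℝ) {f : Tor → ℝ} (hf : Measurable f) :
    ∫ ω, f (rot ξ ω) ∂P0 = ∫ ω, f ω ∂P0 := by
  conv_rhs => rw [← rot_map ξ]
  rw [integral_map (rot_meas ξ).aemeasurable hf.aestronglyMeasurable]

lemma ec_shift (t : UnitAddCircle) (x : ℝ) :
    ec (t + ((x : ℝ) : UnitAddCircle)) = ec t * Complex.exp (((2 * Real.pi * x : ℝ) : ℂ) * Complex.I) := by
  unfold ec
  rw [AddCircle.toCircle_add, Circle.coe_mul, AddCircle.toCircle_apply_mk, Circle.coe_exp, div_one]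

lemma Fs_rot (ω : Tor) (N : ℕ) (a ξ : ℝ) :
    Fs (fun n => zt n ω) N ((a : ℂ) + (2 * Real.pi * ξ : ℝ) * Complex.I) =
      Fs (fun n => zt n (rot ξ ω)) N (a : ℂ) := by
  unfold Fs
  refine Finset.prod_congr rfl fun p _ => ?_
  unfold zt rot
  simp only
  rw [ec_shift, mul_assoc (ec (ω p))]
  unfold pw
  rw [← Complex.exp_add]
  congr 3
  push_cast
  ring

/-- value at the centre -/
lemma Fs_center (ω : Tor) (N : ℕ) :
    ‖Fs (fun n => zt n ω) N ((1 / 2 : ℝ) : ℂ)‖ ^ 2 = VV N * Wp (PP N) ω := by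
  unfold Fs VV Wp
  rw [norm_prod, ← Finset.prod_pow, ← Finset.prod_mul_distrib]
  refine Finset.prod_congr rfl fun p hp => ?_
  have hpp := (Finset.mem_filter.1 hp).2.pos
  have hp' : (0 : ℝ) < p := by exact_mod_cast hpp
  have e : pw p ((1 / 2 : ℝ) : ℂ) = ((rp p : ℝ) : ℂ) := by
    unfold pw rp
    rw [← Complex.ofReal_neg, ← Complex.ofReal_mul, ← Complex.ofReal_exp, Real.rpow_def_of_pos hp']
    congr 2
    ring
  rw [e]
  unfold dl
  rw [rp_sq]
  have : (1 : ℝ) + 1 / p ≠ 0 := by positivity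
  rw [mul_div_cancel₀ _ this]
  rfl

/-- the Plancherel formula -/
theorem Q_int (z : ℕ → ℂ) (N : ℕ) : Q N z =
    ∫ ξ : ℝ, kap ξ * ‖Fs z N (((1 / 2 : ℝ) : ℂ) + (2 * Real.pi * ξ : ℝ) * Complex.I)‖ ^ 2 := by
  have h1 : ((∫ ξ : ℝ, kap ξ * ‖Fs z N (((1 / 2 : ℝ) : ℂ) + (2 * Real.pi * ξ : ℝ) * Complex.I)‖ ^ 2 : ℝ) : ℂ) =
      ∑ m ∈ D N, ∑ n ∈ D N, (tw z m * conj (tw z n)) * (1 / ((max m n : ℕ) : ℂ)) := by
    rw [← integral_complex_ofReal]
    have e : ∀ ξ : ℝ, ((kap ξ * ‖Fs z N (((1 / 2 : ℝ) : ℂ) + (2 * Real.pi * ξ : ℝ) * Complex.I)‖ ^ 2 : ℝ) : ℂ) =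
        ∑ m ∈ D N, ∑ n ∈ D N, (tw z m * conj (tw z n)) * ((kap ξ : ℂ) * (En m ξ * conj (En n ξ))) := by
      intro ξ
      rw [Complex.ofReal_mul, Fs_sq, Finset.mul_sum]
      refine Finset.sum_congr rfl fun m _ => ?_
      rw [Finset.mul_sum]
      refine Finset.sum_congr rfl fun n _ => ?_
      ring
    simp_rw [e]
    have hi : ∀ m ∈ D N, ∀ n ∈ D N, Integrable fun ξ : ℝ =>
        (tw z m * conj (tw z n)) * ((kap ξ : ℂ) * (En m ξ * conj (En n ξ))) := fun m hm n hn =>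
      (pair_integrable (D_pos hm) (D_pos hn)).const_mul _
    rw [integral_finsetSum _ fun m hm => integrable_finsetSum _ fun n hn => hi m hm n hn]
    refine Finset.sum_congr rfl fun m hm => ?_
    rw [integral_finsetSum _ fun n hn => hi m hm n hn]
    refine Finset.sum_congr rfl fun n hn => ?_
    rw [integral_const_mul, pair_int (D_pos hm) (D_pos hn)]
  have h2 := congrArg Complex.re h1
  rw [Complex.ofReal_re] at h2
  rw [h2, Complex.re_sum]
  unfold Q
  refine Finset.sum_congr rfl fun m _ => ?_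
  rw [Complex.re_sum]
  refine Finset.sum_congr rfl fun n _ => ?_
  rw [mul_one_div, Complex.div_natCast_re]

/-- the square of the Euler product -/
noncomputable def Tx (N : ℕ) (ω : Tor) (ξ : ℝ) : ℝ :=
  ‖Fs (fun n => zt n ω) N (((1 / 2 : ℝ) : ℂ) + (2 * Real.pi * ξ : ℝ) * Complex.I)‖ ^ 2

lemma Tx_cont (N : ℕ) : Continuous (fun x : Tor × ℝ => Tx N x.1 x.2) := by
  unfold Tx Fs zt pw
  refine Continuous.pow (Continuous.norm (continuous_finsetProd _ fun p _ => ?_)) 2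
  refine continuous_const.sub (Continuous.mul ?_ ?_)
  · exact ec_cont.comp ((continuous_apply p).comp continuous_fst)
  · fun_prop

lemma Tx_nonneg (N : ℕ) (ω : Tor) (ξ : ℝ) : 0 ≤ Tx N ω ξ := by unfold Tx; positivity

lemma Tx_bound (N : ℕ) (ω : Tor) (ξ : ℝ) : Tx N ω ξ ≤ 4 ^ (PP N).card := by
  unfold Tx Fs
  rw [norm_prod, ← Finset.prod_pow, ← Finset.prod_const]
  refine Finset.prod_le_prod (fun p _ => by positivity) fun p hp => ?_
  have hpp := (Finset.mem_filter.1 hp).2.pos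
  have h1 : ‖zt p ω * pw p (((1 / 2 : ℝ) : ℂ) + (2 * Real.pi * ξ : ℝ) * Complex.I)‖ ≤ 1 := by
    rw [norm_mul, ← En_eq]
    have h2 : ‖zt p ω‖ = 1 := ec_norm _
    rw [h2, one_mul]
    exact norm_En_le hpp ξ
  have h3 : ‖1 - zt p ω * pw p (((1 / 2 : ℝ) : ℂ) + (2 * Real.pi * ξ : ℝ) * Complex.I)‖ ≤ 2 := by
    refine (norm_sub_le _ _).trans ?_
    rw [norm_one]
    linarith
  calc _ ≤ (2 : ℝ) ^ 2 := pow_le_pow_left₀ (norm_nonneg _) h3 2
    _ = 4 := by norm_num

/-- Fubini -/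
theorem fub {A : Set Tor} (N : ℕ) :
    ∫ ω in A, Q N (fun n => zt n ω) ∂P0 = ∫ ξ : ℝ, kap ξ * ∫ ω in A, Tx N ω ξ ∂P0 := by
  have e : ∀ ω : Tor, Q N (fun n => zt n ω) = ∫ ξ : ℝ, kap ξ * Tx N ω ξ := fun ω => Q_int _ N
  simp_rw [e]
  rw [integral_integral_swap (f := fun (ω : Tor) (ξ : ℝ) => kap ξ * Tx N ω ξ)]
  · simp_rw [integral_const_mul]
  · have hd : Integrable (fun x : Tor × ℝ => (4 : ℝ) ^ (PP N).card * kap x.2)
        ((P0.restrict A).prod volume) :=
      (integrable_const ((4 : ℝ) ^ (PP N).card)).mul_prod kap_int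
    refine hd.mono' ?_ (Eventually.of_forall fun x => ?_)
    · have h1 := Tx_cont N
      have h2 : Continuous fun x : Tor × ℝ => kap x.2 := kap_cont.comp continuous_snd
      exact (h2.mul h1).aestronglyMeasurable
    · rw [Real.norm_eq_abs]
      change |kap x.2 * Tx N x.1 x.2| ≤ _
      rw [abs_of_nonneg (mul_nonneg (kap_pos _).le (Tx_nonneg _ _ _)), mul_comm]
      exact mul_le_mul_of_nonneg_right (Tx_bound _ _ _) (kap_pos _).le

/-- the random values -/
lemma rndt : Rnd P0 zt := by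
  refine ⟨fun p _ => ?_, fun p _ ω => ?_, fun p _ => ?_, ?_⟩
  · exact ec_cont.measurable.comp (measurable_pi_apply p)
  · exact (ec_norm _).le
  · have h2 : MeasurePreserving (Function.eval p) P0 haar :=
      measurePreserving_eval_infinitePi (fun _ => haar) p
    have h3 : ∫ ω : Tor, ec (ω p) ∂P0 = ∫ t, ec t ∂haar := by
      rw [← h2.map_eq, integral_map h2.measurable.aemeasurable ec_cont.measurable.aestronglyMeasurable]
    have h4 := int_pow (n := 1) one_ne_zero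
    simp only [pow_one] at h4
    rw [h4] at h3
    exact h3
  · have h1 : iIndepFun (fun (i : ℕ) (ω : Tor) => ec (ω i)) P0 :=
      iIndepFun_infinitePi (P := fun _ => haar) (X := fun _ => ec) (fun _ => ec_cont.measurable)
    exact h1.precomp (g := fun p : Nat.Primes => (p : ℕ)) Subtype.coe_injective

lemma Vt (N : ℕ) : V P0 zt N = VV N := by
  unfold V VV
  refine Finset.prod_congr rfl fun p _ => ?_
  have : s2 P0 zt p = 1 := by
    unfold s2
    have e : ∀ ω : Tor, ‖zt p ω‖ ^ 2 = 1 := fun ω => by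
      have : ‖zt p ω‖ = 1 := ec_norm _
      rw [this]; norm_num
    simp_rw [e]
    simp
  rw [this]

noncomputable def Zt (N : ℕ) (ω : Tor) : ℝ := Zm P0 zt N ω

lemma Qt (N : ℕ) (ω : Tor) : Q N (fun n => zt n ω) = Zt N ω * VV N := by
  unfold Zt Zm
  rw [Vt, div_mul_cancel₀ _ (VV_pos N).ne']

/-- `K (9/8 + 2π²ξ²)` -/
noncomputable def Kx (K ξ : ℝ) : ℝ := K * (9 / 8 + 2 * Real.pi ^ 2 * ξ ^ 2)

lemma sub_event {K : ℝ} {N : ℕ} (hN : 3 ≤ N) {ω : Tor} (h : Zt N ω ≤ K) (ξ : ℝ) :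
    Bev (Kx K ξ) N (rot ξ ω) := by
  have hlog := log_ge_one hN
  have hV := VV_pos N
  unfold Bev
  rw [← Fs_rot]
  obtain ⟨σ, hσ⟩ : ∃ σ : ℝ, σ = 1 / Real.log N := ⟨_, rfl⟩
  have hσ0 : 0 < σ := by rw [hσ]; positivity
  have hσ1 : σ ≤ 1 := by rw [hσ, div_le_one (by linarith)]; exact hlog
  obtain ⟨s, hs⟩ : ∃ s : ℂ, s = ((1 / 2 + 1 / Real.log N : ℝ) : ℂ) + (2 * Real.pi * ξ : ℝ) * Complex.I :=
    ⟨_, rfl⟩
  have hre : s.re = 1 / 2 + σ := by
    rw [hs, hσ]
    generalize 1 / 2 + 1 / Real.log N = b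
    rw [Complex.add_re, Complex.ofReal_re, Complex.re_ofReal_mul, Complex.I_re, mul_zero, add_zero]
  have him : s.im = 2 * Real.pi * ξ := by
    rw [hs]
    generalize 1 / 2 + 1 / Real.log N = b
    rw [Complex.add_im, Complex.ofReal_im, Complex.im_ofReal_mul, Complex.I_im, mul_one, zero_add]
  have h1 := pairing (fun n => zt n ω) N hσ0 hre
  rw [← hs]
  refine h1.trans ?_
  have hn : ‖s‖ ^ 2 ≤ 9 / 4 + 4 * Real.pi ^ 2 * ξ ^ 2 := by
    rw [← Complex.normSq_eq_norm_sq, Complex.normSq_apply, hre, him]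
    nlinarith
  rw [Qt]
  have h2 : Zt N ω * VV N / (2 * σ) ≤ K * VV N * Real.log N / 2 := by
    have e : Zt N ω * VV N / (2 * σ) = Zt N ω * (VV N * Real.log N / 2) := by
      rw [hσ]; field_simp
    rw [e]
    calc Zt N ω * (VV N * Real.log N / 2) ≤ K * (VV N * Real.log N / 2) :=
          mul_le_mul_of_nonneg_right h (by positivity)
      _ = _ := by ring
  have h0 : 0 ≤ Zt N ω := Zm_nonneg _ _ _ _
  have hK : 0 ≤ K := h0.trans h
  calc ‖s‖ ^ 2 * (Zt N ω * VV N / (2 * σ)) ≤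
        (9 / 4 + 4 * Real.pi ^ 2 * ξ ^ 2) * (K * VV N * Real.log N / 2) :=
        mul_le_mul hn h2 (by positivity) (by positivity)
    _ = Kx K ξ * (VV N * Real.log N) := by unfold Kx; ring

/-- the exponent -/
noncomputable def gx (K : ℝ) (J : ℕ) (ξ : ℝ) : ℝ := (35 / 36) ^ (J - ⌈Kx K ξ⌉₊)

lemma gx_meas (K : ℝ) (J : ℕ) : Measurable (gx K J) := by
  unfold gx
  have h1 : Measurable fun ξ : ℝ => ⌈Kx K ξ⌉₊ := by
    refine Nat.measurable_ceil.comp ?_
    unfold Kx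
    fun_prop
  exact (measurable_from_nat (f := fun n : ℕ => ((35 : ℝ) / 36) ^ (J - n))).comp h1

lemma gx_nonneg (K : ℝ) (J : ℕ) (ξ : ℝ) : 0 ≤ gx K J ξ := by unfold gx; positivity

lemma gx_le (K : ℝ) (J : ℕ) (ξ : ℝ) : gx K J ξ ≤ 1 := by
  unfold gx
  exact pow_le_one₀ (by norm_num) (by norm_num)

lemma gx_lim (K : ℝ) : Tendsto (fun J : ℕ => ∫ ξ : ℝ, kap ξ * gx K J ξ) atTop (𝓝 0) := by
  have h := tendsto_integral_of_dominated_convergence (μ := (volume : Measure ℝ))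
    (F := fun (J : ℕ) (ξ : ℝ) => kap ξ * gx K J ξ) (f := fun _ => (0 : ℝ)) kap
    (fun J => (kap_cont.measurable.mul (gx_meas K J)).aestronglyMeasurable) kap_int
    (fun J => Eventually.of_forall fun ξ => ?_) (Eventually.of_forall fun ξ => ?_)
  · simpa using h
  · rw [Real.norm_eq_abs, abs_of_nonneg (mul_nonneg (kap_pos ξ).le (gx_nonneg K J ξ))]
    exact mul_le_of_le_one_right (kap_pos ξ).le (gx_le K J ξ)
  · have h1 : Tendsto (fun J : ℕ => gx K J ξ) atTop (𝓝 0) := by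
      unfold gx
      have h2 : Tendsto (fun n : ℕ => ((35 : ℝ) / 36) ^ n) atTop (𝓝 0) :=
        tendsto_pow_atTop_nhds_zero_of_lt_one (by norm_num) (by norm_num)
      exact h2.comp (tendsto_sub_atTop_nat _)
    have := h1.const_mul (kap ξ)
    rw [mul_zero] at this
    exact this

end Pool.Agent.E8helper84.RM
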