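import Pool.Agent.E8helper84.RM.RN7

/-!
The normalised mean squares tend to zero almost surely.
-/

set_option autoImplicit false

namespace Pool.Agent.E8helper84.RM

open MeasureTheory Filter Topology Finset ProbabilityTheory
open scoped ComplexConjugate

/-- the truncated event -/
def Aev (N : ℕ → ℕ) (K : ℝ) (J : ℕ) : Set Tor := {ω | ∀ i, i ≤ J → Zt (N i) ω ≤ K}

lemma Zt_meas (N : ℕ) : Measurable (Zt N) := by
  have h : Measurable[Fl zt N] (fun ω => Q N (fun k => zt k ω)) := meas_Q N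
  unfold Zt Zm
  exact (h.mono (Fl_le rndt N) le_rfl).div_const _

lemma Zt_int (N : ℕ) : Integrable (Zt N) P0 := by
  unfold Zt Zm
  exact (int_Q rndt N).div_const _

lemma Zt_nonneg (N : ℕ) (ω : Tor) : 0 ≤ Zt N ω := Zm_nonneg _ _ _ _

open scoped Classical in
lemma inner_bound {N : ℕ → ℕ} (h4 : ∀ j, 400 ≤ N j) (hs : ∀ j, N j < N (j + 1))
    (hb : ∀ j, ∫ ω, gb N j ω ∂P0 ≤ 35 / 36) {K : ℝ} (hK : 0 < K) (J : ℕ) (ξ : ℝ) :
    ∫ ω in Aev N K J, Tx (N J) ω ξ ∂P0 ≤ VV (N J) * gx K J ξ := by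
  have hV := VV_pos (N J)
  have hKx : 0 < Kx K ξ := by unfold Kx; positivity
  have hj : Real.log (Kx K ξ) ≤ ⌈Kx K ξ⌉₊ := by
    have h1 := Real.log_le_sub_one_of_pos hKx
    have h2 := Nat.le_ceil (Kx K ξ)
    linarith
  have hA : MeasurableSet (Aev N K J) := by
    have e : Aev N K J = ⋂ i ∈ Set.Iic J, {ω | Zt (N i) ω ≤ K} := by
      ext ω; simp [Aev]
    rw [e]
    exact MeasurableSet.biInter (Set.to_countable _) fun i _ => Zt_meas _ measurableSet_Iic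
  have hB : MeasurableSet {ω : Tor | ∀ i, i ≤ J → Bev (Kx K ξ) (N i) ω} := by
    have e : {ω : Tor | ∀ i, i ≤ J → Bev (Kx K ξ) (N i) ω} =
        ⋂ i ∈ Set.Iic J, {ω : Tor | Bev (Kx K ξ) (N i) ω} := by
      ext ω; simp
    rw [e]
    exact MeasurableSet.biInter (Set.to_countable _) fun i _ => (Bev_closed _).measurableSet
  obtain ⟨f, hf⟩ : ∃ f : Tor → ℝ, f = fun ω => (if ∀ i, i ≤ J → Bev (Kx K ξ) (N i) ω then (1 : ℝ) else 0) *
      Wp (PP (N J)) ω := ⟨_, rfl⟩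
  have hfe : f = Set.indicator {ω : Tor | ∀ i, i ≤ J → Bev (Kx K ξ) (N i) ω} (Wp (PP (N J))) := by
    rw [hf]
    funext ω
    by_cases h : ∀ i, i ≤ J → Bev (Kx K ξ) (N i) ω
    · rw [if_pos h, one_mul, Set.indicator_of_mem (by exact h)]
    · rw [if_neg h, zero_mul, Set.indicator_of_notMem (by exact h)]
  have hfm : Measurable f := by
    rw [hfe]; exact (Wp_cont _).measurable.indicator hB
  have hfi : Integrable f P0 := by
    rw [hfe]; exact (intC (Wp_cont _)).indicator hB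
  have hfn : ∀ ω, 0 ≤ f ω := fun ω => by
    rw [hf]
    exact mul_nonneg (by split_ifs <;> norm_num) (Wp_nonneg _ _)
  have hfi2 : Integrable (fun ω => f (rot ξ ω)) P0 := by
    have h1 : Integrable f (P0.map (rot ξ)) := by rw [rot_map]; exact hfi
    exact h1.comp_measurable (rot_meas ξ)
  have hT : ∀ ω, Tx (N J) ω ξ = VV (N J) * Wp (PP (N J)) (rot ξ ω) := fun ω => by
    unfold Tx
    rw [Fs_rot, Fs_center]
  have hTi : Integrable (fun ω => Tx (N J) ω ξ) P0 := by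
    simp_rw [hT]
    have h1 : Integrable (Wp (PP (N J))) (P0.map (rot ξ)) := by
      rw [rot_map]; exact intC (Wp_cont _)
    have h2 : Integrable (fun ω => Wp (PP (N J)) (rot ξ ω)) P0 := h1.comp_measurable (rot_meas ξ)
    exact h2.const_mul _
  calc ∫ ω in Aev N K J, Tx (N J) ω ξ ∂P0
      = ∫ ω, (Aev N K J).indicator (fun ω => Tx (N J) ω ξ) ω ∂P0 := (integral_indicator hA).symm
    _ ≤ ∫ ω, VV (N J) * f (rot ξ ω) ∂P0 := by
        refine integral_mono (hTi.indicator hA) (hfi2.const_mul _) fun ω => ?_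
        by_cases h : ω ∈ Aev N K J
        · rw [Set.indicator_of_mem h, hT, hf]
          have h2 : ∀ i, i ≤ J → Bev (Kx K ξ) (N i) (rot ξ ω) := fun i hi =>
            sub_event (by have := h4 i; omega) (h i hi) ξ
          simp only [if_pos h2]
          rw [one_mul]
        · rw [Set.indicator_of_notMem h]
          exact mul_nonneg hV.le (hfn _)
    _ = VV (N J) * ∫ ω, f ω ∂P0 := by rw [integral_const_mul, rot_int ξ hfm]
    _ ≤ VV (N J) * gx K J ξ := by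
        refine mul_le_mul_of_nonneg_left ?_ hV.le
        rw [hf]
        exact tilt_bound h4 hs hb hKx hj J

theorem tilt {N : ℕ → ℕ} (h4 : ∀ j, 400 ≤ N j) (hs : ∀ j, N j < N (j + 1))
    (hb : ∀ j, ∫ ω, gb N j ω ∂P0 ≤ 35 / 36) {K : ℝ} (hK : 0 < K) (J : ℕ) :
    ∫ ω in Aev N K J, Zt (N J) ω ∂P0 ≤ ∫ ξ : ℝ, kap ξ * gx K J ξ := by
  have hV := VV_pos (N J)
  have e : ∫ ω in Aev N K J, Zt (N J) ω ∂P0 =
      (1 / VV (N J)) * ∫ ω in Aev N K J, Q (N J) (fun n => zt n ω) ∂P0 := by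
    rw [← integral_const_mul]
    refine integral_congr_ae (Eventually.of_forall fun ω => ?_)
    simp only
    rw [Qt]
    field_simp
  rw [e, fub, ← integral_const_mul]
  refine integral_mono_of_nonneg (Eventually.of_forall fun ξ => ?_) ?_ (Eventually.of_forall fun ξ => ?_)
  · have h1 : 0 ≤ ∫ ω in Aev N K J, Tx (N J) ω ξ ∂P0 := integral_nonneg fun ω => Tx_nonneg _ _ _
    have h2 := kap_pos ξ
    simp only [Pi.zero_apply]
    positivity
  · refine kap_int.mono' (kap_cont.measurable.mul (gx_meas K J)).aestronglyMeasurable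
      (Eventually.of_forall fun ξ => ?_)
    rw [Real.norm_eq_abs, abs_of_nonneg (mul_nonneg (kap_pos ξ).le (gx_nonneg K J ξ))]
    exact mul_le_of_le_one_right (kap_pos ξ).le (gx_le K J ξ)
  · have h1 := inner_bound h4 hs hb hK J ξ
    have h2 := kap_pos ξ
    calc 1 / VV (N J) * (kap ξ * ∫ ω in Aev N K J, Tx (N J) ω ξ ∂P0)
        ≤ 1 / VV (N J) * (kap ξ * (VV (N J) * gx K J ξ)) := by gcongr
      _ = kap ξ * gx K J ξ := by field_simp

theorem Zt_zero : ∀ᵐ ω ∂P0, Tendsto (fun n => Zt n ω) atTop (𝓝 0) := by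
  obtain ⟨N, h4, hs, hb⟩ := seq_exists
  have hb' : ∀ j, ∫ ω, gb N j ω ∂P0 ≤ 35 / 36 := hb
  have hbdd : ∀ n, eLpNorm (Zm P0 zt n) 1 P0 ≤ ((1 : NNReal) : ENNReal) := by
    intro n
    rw [eLpNorm_one_eq_lintegral_enorm]
    have h9 := ofReal_integral_norm_eq_lintegral_enorm (Zt_int n)
    change ∫⁻ ω, ‖Zt n ω‖ₑ ∂P0 ≤ _
    rw [← h9]
    have e : ∫ ω, ‖Zt n ω‖ ∂P0 = 1 := by
      refine Eq.trans ?_ (int_Zm rndt n)
      refine integral_congr_ae (Eventually.of_forall fun ω => ?_)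
      simp only
      rw [Real.norm_eq_abs, abs_of_nonneg (Zt_nonneg n ω)]
      rfl
    rw [e]
    simp
  have hconv := (mart rndt).submartingale.ae_tendsto_limitProcess (R := 1) hbdd
  have hz : ∀ K : ℕ, ∀ᵐ ω ∂P0, (∀ i, Zt (N i) ω ≤ (K : ℝ) + 1) →
      liminf (fun J => ENNReal.ofReal (Zt (N J) ω)) atTop = 0 := by
    intro K
    have hA : MeasurableSet {ω : Tor | ∀ i, Zt (N i) ω ≤ (K : ℝ) + 1} := by
      have e : {ω : Tor | ∀ i, Zt (N i) ω ≤ (K : ℝ) + 1} = ⋂ i, {ω | Zt (N i) ω ≤ (K : ℝ) + 1} := by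
        ext ω; simp
      rw [e]
      exact MeasurableSet.iInter fun i => Zt_meas _ measurableSet_Iic
    have h1 : ∀ J, ∫⁻ ω in {ω : Tor | ∀ i, Zt (N i) ω ≤ (K : ℝ) + 1}, ENNReal.ofReal (Zt (N J) ω) ∂P0 ≤
        ENNReal.ofReal (∫ ξ : ℝ, kap ξ * gx ((K : ℝ) + 1) J ξ) := by
      intro J
      calc ∫⁻ ω in {ω : Tor | ∀ i, Zt (N i) ω ≤ (K : ℝ) + 1}, ENNReal.ofReal (Zt (N J) ω) ∂P0
          ≤ ∫⁻ ω in Aev N ((K : ℝ) + 1) J, ENNReal.ofReal (Zt (N J) ω) ∂P0 :=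
            lintegral_mono_set fun ω hω i _ => hω i
        _ = ENNReal.ofReal (∫ ω in Aev N ((K : ℝ) + 1) J, Zt (N J) ω ∂P0) :=
            (ofReal_integral_eq_lintegral_ofReal (Zt_int (N J)).integrableOn
              (Eventually.of_forall fun ω => Zt_nonneg _ _)).symm
        _ ≤ _ := ENNReal.ofReal_le_ofReal (tilt h4 hs hb' (by positivity) J)
    have h2 : Tendsto (fun J => ∫⁻ ω in {ω : Tor | ∀ i, Zt (N i) ω ≤ (K : ℝ) + 1},
        ENNReal.ofReal (Zt (N J) ω) ∂P0) atTop (𝓝 0) := by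
      have h3 := ENNReal.tendsto_ofReal (gx_lim ((K : ℝ) + 1))
      rw [ENNReal.ofReal_zero] at h3
      exact tendsto_of_tendsto_of_tendsto_of_le_of_le tendsto_const_nhds h3 (fun _ => bot_le) h1
    have h5 := lintegral_liminf_le (μ := P0.restrict {ω : Tor | ∀ i, Zt (N i) ω ≤ (K : ℝ) + 1})
      (f := fun J ω => ENNReal.ofReal (Zt (N J) ω)) (u := atTop)
      (fun J => (Zt_meas (N J)).ennreal_ofReal)
    rw [h2.liminf_eq] at h5
    have h6 : ∫⁻ ω in {ω : Tor | ∀ i, Zt (N i) ω ≤ (K : ℝ) + 1},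
        liminf (fun J => ENNReal.ofReal (Zt (N J) ω)) atTop ∂P0 = 0 := le_antisymm h5 bot_le
    rw [lintegral_eq_zero_iff] at h6
    · exact (ae_restrict_iff' hA).1 h6
    · exact Measurable.liminf fun J => (Zt_meas (N J)).ennreal_ofReal
  have hN : Tendsto N atTop atTop := (strictMono_nat_of_lt_succ hs).tendsto_atTop
  filter_upwards [hconv, ae_all_iff.2 hz] with ω h1 h2
  obtain ⟨L, hL⟩ : ∃ L : ℝ, L = (Flt rndt).limitProcess (Zm P0 zt) P0 ω := ⟨_, rfl⟩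
  rw [← hL] at h1
  have h1' : Tendsto (fun n => Zt n ω) atTop (𝓝 L) := h1
  obtain ⟨B, hB⟩ := h1'.bddAbove_range
  have h3 := h2 ⌈B⌉₊ (fun i => by
    have h5 : Zt (N i) ω ≤ B := hB ⟨N i, rfl⟩
    have h6 := Nat.le_ceil B
    linarith)
  have h5 : Tendsto (fun J => ENNReal.ofReal (Zt (N J) ω)) atTop (𝓝 (ENNReal.ofReal L)) :=
    ENNReal.tendsto_ofReal (h1'.comp hN)
  rw [h5.liminf_eq, ENNReal.ofReal_eq_zero] at h3
  have h6 : 0 ≤ L := ge_of_tendsto' h1' fun n => Zt_nonneg n ω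
  have h7 : L = 0 := le_antisymm h3 h6
  rw [h7] at h1'
  exact h1'

lemma I_nonneg (z : ℕ → ℂ) {x : ℝ} (hx : 1 ≤ x) : 0 ≤ I z x := by
  unfold I
  exact intervalIntegral.integral_nonneg hx fun u _ => by positivity

theorem I_zero : ∀ᵐ ω ∂P0, Tendsto (fun x : ℝ => I (fun n => zt n ω) x / Real.log x) atTop (𝓝 0) := by
  obtain ⟨C, hC, hp⟩ := prod_bound
  filter_upwards [Zt_zero] with ω h
  have h1 : Tendsto (fun x : ℝ => Zt ⌊x⌋₊ ω * C) atTop (𝓝 (0 * C)) :=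
    (h.comp tendsto_nat_floor_atTop).mul_const C
  rw [zero_mul] at h1
  refine squeeze_zero' ?_ ?_ h1
  · filter_upwards [eventually_ge_atTop (2 : ℝ)] with x hx
    exact div_nonneg (I_nonneg _ (by linarith)) (Real.log_nonneg (by linarith))
  · filter_upwards [eventually_ge_atTop (2 : ℝ)] with x hx
    have hlog : 0 < Real.log x := Real.log_pos (by linarith)
    rw [div_le_iff₀ hlog]
    have := I_le_Zm rndt hC hp hx ω
    have e : Zm P0 zt ⌊x⌋₊ ω * (C * Real.log x) = Zt ⌊x⌋₊ ω * C * Real.log x := by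
      unfold Zt; ring
    rw [← e]
    exact this

end Pool.Agent.E8helper84.RM
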