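import Pool.Agent.E8helper84.RM.RN8

/-!
Transfer to Dirichlet characters and shifts.
-/

set_option autoImplicit false

namespace Pool.Agent.E8helper84.RM

open MeasureTheory Filter Topology Finset ProbabilityTheory
open scoped ComplexConjugate

lemma tail {l δ : ℝ} (hl : 0 < l) (hδ : 0 < δ) :
    ∃ n₀ : ℕ, P0 {ω | ∃ k, n₀ ≤ k ∧ l ≤ Zt k ω} ≤ ENNReal.ofReal δ := by
  obtain ⟨E, hE⟩ : ∃ E : ℕ → Set Tor, E = fun n₀ => {ω | ∃ k, n₀ ≤ k ∧ l ≤ Zt k ω} := ⟨_, rfl⟩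
  have hm : ∀ n, MeasurableSet (E n) := by
    intro n
    have e : E n = ⋃ k ∈ Set.Ici n, {ω | l ≤ Zt k ω} := by
      rw [hE]; ext ω; simp
    rw [e]
    exact MeasurableSet.biUnion (Set.to_countable _) fun k _ => Zt_meas k measurableSet_Ici
  have hanti : Antitone E := by
    intro a b hab ω hω
    rw [hE] at hω ⊢
    obtain ⟨k, hk, h⟩ := hω
    exact ⟨k, hab.trans hk, h⟩
  have h1 := tendsto_measure_iInter_atTop (μ := P0) (s := E) (fun n => (hm n).nullMeasurableSet) hanti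
    ⟨0, measure_ne_top _ _⟩
  have h2 : P0 (⋂ n, E n) = 0 := by
    refine measure_mono_null ?_ (ae_iff.1 Zt_zero)
    intro ω hω hlim
    have hlim' : Tendsto (fun n => Zt n ω) atTop (𝓝 0) := hlim
    obtain ⟨n, hn⟩ := eventually_atTop.1 (hlim'.eventually (gt_mem_nhds hl))
    have h3 := Set.mem_iInter.1 hω n
    rw [hE] at h3
    obtain ⟨k, hk, h⟩ := h3
    exact absurd (hn k hk) (not_lt.2 h)
  rw [h2] at h1
  have h3 := (ENNReal.tendsto_nhds_zero.1 h1) (ENNReal.ofReal δ) (ENNReal.ofReal_pos.2 hδ)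
  obtain ⟨n, hn⟩ := h3.exists
  refine ⟨n, ?_⟩
  have : E n = {ω | ∃ k, n ≤ k ∧ l ≤ Zt k ω} := by rw [hE]
  rw [← this]
  exact hn

lemma Q_congr {k : ℕ} {z z' : ℕ → ℂ} (h : ∀ p ≤ k, p.Prime → z p = z' p) : Q k z = Q k z' := by
  have ht : ∀ n ∈ D k, tw z n = tw z' n := by
    intro n hn
    unfold tw
    congr 1
    exact Finset.prod_congr rfl fun p hp => h p (prime_le_of_D hn hp) (Nat.prime_of_mem_primeFactors hp)
  unfold Q
  refine Finset.sum_congr rfl fun m hm => Finset.sum_congr rfl fun n hn => ?_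
  rw [ht m hm, ht n hn]

/-- maximum of the normalised mean squares from `n₀` to `N` -/
noncomputable def Psj (n₀ N : ℕ) (θ : Sp N → UnitAddCircle) : ℝ :=
  (range (N + 1)).sup' nonempty_range_add_one fun k => if n₀ ≤ k then Q k (zf (Sp N) θ) / VV k else 0

lemma cont_Psj (n₀ N : ℕ) : Continuous (Psj n₀ N) := by
  unfold Psj
  refine Continuous.finset_sup'_apply _ fun k _ => ?_
  by_cases h : n₀ ≤ k
  · simp only [if_pos h]; exact (cont_Q _ k).div_const _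
  · simp only [if_neg h]; exact continuous_const

lemma tor_Psj (n₀ N : ℕ) {l δ : ℝ} (hl : 0 < l)
    (h : P0 {ω | ∃ k, n₀ ≤ k ∧ l ≤ Zt k ω} ≤ ENNReal.ofReal δ) :
    tor (Sp N) {θ | l ≤ Psj n₀ N θ} ≤ ENNReal.ofReal δ := by
  have h1 : P0.map (Sp N).restrict = tor (Sp N) := Measure.infinitePi_map_restrict (μ := fun _ : ℕ => haar)
  rw [← h1, Measure.map_apply (Finset.measurable_restrict _)
    ((isClosed_le continuous_const (cont_Psj n₀ N)).measurableSet)]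
  refine (measure_mono ?_).trans h
  intro ω hω
  have h2 : l ≤ Psj n₀ N ((Sp N).restrict ω) := hω
  unfold Psj at h2
  rw [Finset.le_sup'_iff] at h2
  obtain ⟨k, hk, h3⟩ := h2
  rw [Finset.mem_range] at hk
  by_cases hn : n₀ ≤ k
  · rw [if_pos hn] at h3
    refine ⟨k, hn, ?_⟩
    have e : Q k (zf (Sp N) ((Sp N).restrict ω)) = Q k (fun n => zt n ω) := by
      refine Q_congr fun p hp hpp => ?_
      have hm : p ∈ Sp N := by
        unfold Sp
        rw [Finset.mem_filter, Finset.mem_Icc]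
        exact ⟨⟨hpp.one_lt.le, by omega⟩, hpp⟩
      unfold zf zt ec
      rw [dif_pos hm]
      rfl
    rw [e, Qt, mul_div_assoc, div_self (VV_pos k).ne', mul_one] at h3
    exact h3
  · rw [if_neg hn] at h3
    linarith

/-- the cut-off -/
noncomputable def cutj (n₀ N : ℕ) (l : ℝ) : C(Sp N → UnitAddCircle, ℂ) where
  toFun θ := ((max 0 (min 1 (Psj n₀ N θ / l - 1)) : ℝ) : ℂ)
  continuous_toFun := by
    have := cont_Psj n₀ N
    fun_prop

lemma cutj_re (n₀ N : ℕ) (l : ℝ) (θ : Sp N → UnitAddCircle) :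
    cutj n₀ N l θ = (((cutj n₀ N l θ).re : ℝ) : ℂ) := by
  change (((max 0 (min 1 (Psj n₀ N θ / l - 1)) : ℝ) : ℂ)) =
    ((((max 0 (min 1 (Psj n₀ N θ / l - 1)) : ℝ) : ℂ)).re : ℂ)
  rw [Complex.ofReal_re]

lemma cutj_nonneg (n₀ N : ℕ) (l : ℝ) (θ : Sp N → UnitAddCircle) : 0 ≤ (cutj n₀ N l θ).re := by
  change 0 ≤ (((max 0 (min 1 (Psj n₀ N θ / l - 1)) : ℝ) : ℂ)).re
  rw [Complex.ofReal_re]
  exact le_max_left _ _

lemma cutj_ge {n₀ N : ℕ} {l : ℝ} (hl : 0 < l) {θ : Sp N → UnitAddCircle}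
    (h : 2 * l ≤ Psj n₀ N θ) : 1 ≤ (cutj n₀ N l θ).re := by
  change 1 ≤ (((max 0 (min 1 (Psj n₀ N θ / l - 1)) : ℝ) : ℂ)).re
  rw [Complex.ofReal_re]
  refine le_max_of_le_right (le_min le_rfl ?_)
  have : 2 ≤ Psj n₀ N θ / l := by rw [le_div_iff₀ hl]; exact h
  linarith

lemma int_cutj (n₀ N : ℕ) {l δ : ℝ} (hl : 0 < l) (hδ : 0 ≤ δ)
    (h : P0 {ω | ∃ k, n₀ ≤ k ∧ l ≤ Zt k ω} ≤ ENNReal.ofReal δ) :
    (∫ θ, cutj n₀ N l θ ∂(tor (Sp N))).re ≤ δ := by
  have e : ∫ θ, cutj n₀ N l θ ∂(tor (Sp N)) =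
      ((∫ θ, max 0 (min 1 (Psj n₀ N θ / l - 1)) ∂(tor (Sp N)) : ℝ) : ℂ) := by
    rw [← integral_complex_ofReal]
    rfl
  rw [e, Complex.ofReal_re]
  have hm : MeasurableSet {θ | l ≤ Psj n₀ N θ} :=
    (isClosed_le continuous_const (cont_Psj n₀ N)).measurableSet
  calc ∫ θ, max 0 (min 1 (Psj n₀ N θ / l - 1)) ∂(tor (Sp N))
      ≤ ∫ θ, Set.indicator {θ | l ≤ Psj n₀ N θ} (fun _ => (1 : ℝ)) θ ∂(tor (Sp N)) := by
        refine integral_mono_of_nonneg (Filter.Eventually.of_forall fun θ => le_max_left _ _) ?_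
          (Filter.Eventually.of_forall fun θ => ?_)
        · exact (integrable_const (1 : ℝ)).indicator hm
        · by_cases h : l ≤ Psj n₀ N θ
          · simp only [Set.indicator_of_mem (show θ ∈ {θ | l ≤ Psj n₀ N θ} from h)]
            exact max_le zero_le_one (min_le_left _ _)
          · simp only [Set.indicator_of_notMem (show θ ∉ {θ | l ≤ Psj n₀ N θ} from h)]
            refine max_le le_rfl ((min_le_right _ _).trans ?_)
            have : Psj n₀ N θ / l ≤ 1 := by rw [div_le_one hl]; exact (not_le.1 h).le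
            linarith
    _ = (tor (Sp N)).real {θ | l ≤ Psj n₀ N θ} := by
        rw [integral_indicator hm]; simp
    _ ≤ δ := by
        have := ENNReal.toReal_mono ENNReal.ofReal_ne_top (tor_Psj n₀ N hl h)
        rw [ENNReal.toReal_ofReal hδ] at this
        exact this

open scoped Classical in
lemma avgL_cutj {X : Type*} [Fintype X] {n₀ N : ℕ} (θ : X → (Sp N → UnitAddCircle)) {l : ℝ}
    (hl : 0 < l) : (((Finset.univ.filter fun x => 2 * l ≤ Psj n₀ N (θ x)).card : ℕ) : ℝ) ≤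
      (Fintype.card X : ℝ) * (avgL θ (cutj n₀ N l)).re := by
  rcases Nat.eq_zero_or_pos (Fintype.card X) with h | h
  · have h3 := Finset.card_le_univ (Finset.univ.filter fun x => 2 * l ≤ Psj n₀ N (θ x))
    rw [h] at h3
    rw [Nat.le_zero.1 h3, h]; simp
  · have h2 : (0 : ℝ) < Fintype.card X := by exact_mod_cast h
    have e : (avgL θ (cutj n₀ N l)).re = (1 / (Fintype.card X : ℝ)) * ∑ x, (cutj n₀ N l (θ x)).re := by
      rw [avgL_apply]
      have e1 : (1 / (Fintype.card X : ℂ)) = ((1 / (Fintype.card X : ℝ) : ℝ) : ℂ) := by push_cast; rfl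
      rw [e1, Complex.re_ofReal_mul, Complex.re_sum]
    rw [e, ← mul_assoc, mul_one_div_cancel h2.ne', one_mul]
    calc (((Finset.univ.filter fun x => 2 * l ≤ Psj n₀ N (θ x)).card : ℕ) : ℝ)
        = ∑ x ∈ Finset.univ.filter (fun x => 2 * l ≤ Psj n₀ N (θ x)), (1 : ℝ) := by simp
      _ ≤ ∑ x ∈ Finset.univ.filter (fun x => 2 * l ≤ Psj n₀ N (θ x)), (cutj n₀ N l (θ x)).re :=
          Finset.sum_le_sum fun x hx => cutj_ge hl (Finset.mem_filter.1 hx).2
      _ ≤ ∑ x, (cutj n₀ N l (θ x)).re :=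
          Finset.sum_le_sum_of_subset_of_nonneg (Finset.filter_subset _ _)
            fun x _ _ => cutj_nonneg _ _ _ _

/-- deterministic bound -/
lemma I_le_Psj {C : ℝ} (hp : ∀ N : ℕ, 2 ≤ N →
    ∏ p ∈ (Icc 1 N).filter Nat.Prime, (1 + 1 / (p : ℝ)) ≤ C * Real.log N) (hC : 0 < C) {n₀ N : ℕ} {x : ℝ}
    (hx : 2 ≤ x) (hx0 : (n₀ : ℝ) ≤ x) (hN : ⌊x⌋₊ ≤ N) (θ : Sp N → UnitAddCircle) :
    I (zf (Sp N) θ) x ≤ Psj n₀ N θ * (C * Real.log x) := by
  have hfl : 2 ≤ ⌊x⌋₊ := Nat.le_floor (by exact_mod_cast hx)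
  have hfl0 : n₀ ≤ ⌊x⌋₊ := Nat.le_floor hx0
  have h1 : I (zf (Sp N) θ) x ≤ Q ⌊x⌋₊ (zf (Sp N) θ) := I_le_Q _ (by linarith) (Nat.lt_floor_add_one x)
  have hVp := VV_pos ⌊x⌋₊
  have h2 : Q ⌊x⌋₊ (zf (Sp N) θ) = Q ⌊x⌋₊ (zf (Sp N) θ) / VV ⌊x⌋₊ * VV ⌊x⌋₊ := by
    rw [div_mul_cancel₀ _ hVp.ne']
  have h3 : Q ⌊x⌋₊ (zf (Sp N) θ) / VV ⌊x⌋₊ ≤ Psj n₀ N θ := by
    unfold Psj
    have := Finset.le_sup' (fun k => if n₀ ≤ k then Q k (zf (Sp N) θ) / VV k else 0)
      (Finset.mem_range.2 (by omega : ⌊x⌋₊ < N + 1))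
    simp only [if_pos hfl0] at this
    exact this
  have h4 : VV ⌊x⌋₊ ≤ C * Real.log x := by
    refine (hp _ hfl).trans ?_
    refine mul_le_mul_of_nonneg_left ?_ hC.le
    refine Real.log_le_log ?_ (Nat.floor_le (by linarith))
    have : (2 : ℝ) ≤ ((⌊x⌋₊ : ℕ) : ℝ) := by exact_mod_cast hfl
    linarith
  have h5 : 0 ≤ Psj n₀ N θ := (div_nonneg (Q_nonneg _ _) hVp.le).trans h3
  rw [h2] at h1
  exact h1.trans (mul_le_mul h3 h4 hVp.le h5)

open scoped Classical in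
theorem chars2 {ε : ℝ} (hε : 0 < ε) : ∃ x₀ : ℝ, 2 ≤ x₀ ∧ ∀ X : ℝ, ∀ᶠ q : ℕ in atTop,
    (∀ p : ℕ, p.Prime → (p : ℝ) ≤ X → ¬ p ∣ q) →
      (((Finset.univ.filter fun χ : DirichletCharacter ℂ q =>
        ∃ x : ℝ, x₀ ≤ x ∧ x ≤ X ∧ ε * Real.log x < If (fun n => χ n) x).card : ℕ) : ℝ) ≤
          ε * (q.totient : ℝ) := by
  obtain ⟨C, hC, hp⟩ := prod_bound
  obtain ⟨l, hl⟩ : ∃ l : ℝ, l = ε / (2 * C) := ⟨_, rfl⟩
  have hl0 : 0 < l := by rw [hl]; positivity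
  have hlC : 2 * l * C = ε := by rw [hl]; field_simp
  obtain ⟨n₀, hn₀⟩ := tail hl0 (half_pos hε)
  refine ⟨max 2 n₀, le_max_left _ _, fun X => ?_⟩
  obtain ⟨N, hN⟩ : ∃ N : ℕ, N = ⌊X⌋₊ := ⟨_, rfl⟩
  have hSp : ∀ p ∈ Sp N, p.Prime := fun p hp => (Finset.mem_filter.1 hp).2
  have h2 := chars_weyl hSp (cutj n₀ N l)
  have h3 : Tendsto (fun q : ℕ => (avgL (fun χ : DirichletCharacter ℂ q => thc (Sp N) χ)
      (cutj n₀ N l)).re) (atTop ⊓ 𝓟 {q | ∀ p ∈ Sp N, ¬ p ∣ q})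
      (𝓝 (∫ θ, cutj n₀ N l θ ∂(tor (Sp N))).re) := (Complex.continuous_re.tendsto _).comp h2
  have h4 : (∫ θ, cutj n₀ N l θ ∂(tor (Sp N))).re < ε :=
    (int_cutj n₀ N hl0 (half_pos hε).le hn₀).trans_lt (half_lt_self hε)
  have h5 := h3.eventually (gt_mem_nhds h4)
  rw [eventually_inf_principal] at h5
  filter_upwards [h5, eventually_gt_atTop 0] with q hq hq0 hcop
  have : NeZero q := ⟨by omega⟩
  have hcop' : ∀ p ∈ Sp N, ¬ p ∣ q := by
    intro p hpS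
    unfold Sp at hpS
    rw [Finset.mem_filter, Finset.mem_Icc, hN] at hpS
    refine hcop p hpS.2 ?_
    exact (Nat.le_floor_iff' (by have := hpS.2.pos; omega)).1 hpS.1.2
  have hSq : Sq N q = Sp N := by
    ext p
    rw [mem_Sq]
    constructor
    · rintro ⟨h6, h7, -⟩
      unfold Sp
      rw [Finset.mem_filter, Finset.mem_Icc]
      exact ⟨h6, h7⟩
    · intro h6
      have h7 := hcop' p h6
      unfold Sp at h6
      rw [Finset.mem_filter, Finset.mem_Icc] at h6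
      exact ⟨h6.1, h6.2, h7⟩
  have h6 := hq hcop'
  have h7 := avgL_cutj (n₀ := n₀) (fun χ : DirichletCharacter ℂ q => thc (Sp N) χ) hl0
  have hcard : (Fintype.card (DirichletCharacter ℂ q) : ℝ) = q.totient := by
    rw [← Nat.card_eq_fintype_card, DirichletCharacter.card_eq_totient_of_hasEnoughRootsOfUnity ℂ q]
  have h8 : (Finset.univ.filter fun χ : DirichletCharacter ℂ q =>
      ∃ x : ℝ, max 2 (n₀ : ℝ) ≤ x ∧ x ≤ X ∧ ε * Real.log x < If (fun n => χ n) x) ⊆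
      Finset.univ.filter fun χ : DirichletCharacter ℂ q => 2 * l ≤ Psj n₀ N (thc (Sp N) χ) := by
    intro χ hχ
    rw [Finset.mem_filter] at hχ ⊢
    refine ⟨Finset.mem_univ _, ?_⟩
    obtain ⟨-, x, hx2, hxX, hx⟩ := hχ
    have hx2' : 2 ≤ x := (le_max_left _ _).trans hx2
    have hxn : (n₀ : ℝ) ≤ x := (le_max_right _ _).trans hx2
    have hfl : ⌊x⌋₊ ≤ N := by rw [hN]; exact Nat.floor_le_floor hxX
    have e1 : If (fun n => χ n) x = I (zf (Sp N) (thc (Sp N) χ)) x :=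
      If_eq (fun n hn hs => by rw [← hSq]; exact chi_prod hn hs χ) (by linarith) hfl
    have e2 := I_le_Psj hp hC hx2' hxn hfl (thc (Sp N) χ)
    have hlog : 0 < Real.log x := Real.log_pos (by linarith)
    by_contra hcon
    rw [not_le] at hcon
    have e3 : Psj n₀ N (thc (Sp N) χ) * (C * Real.log x) ≤ 2 * l * (C * Real.log x) :=
      mul_le_mul_of_nonneg_right hcon.le (by positivity)
    have e4 : 2 * l * (C * Real.log x) = ε * Real.log x := by rw [← hlC]; ring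
    rw [e1] at hx
    linarith
  calc _ ≤ (((Finset.univ.filter fun χ : DirichletCharacter ℂ q =>
        2 * l ≤ Psj n₀ N (thc (Sp N) χ)).card : ℕ) : ℝ) := by exact_mod_cast Finset.card_le_card h8
    _ ≤ _ := h7
    _ ≤ (q.totient : ℝ) * ε := by
        rw [hcard]; exact mul_le_mul_of_nonneg_left h6.le (Nat.cast_nonneg _)
    _ = _ := by ring

theorem shifts2 {ε : ℝ} (hε : 0 < ε) : ∃ x₀ : ℝ, 2 ≤ x₀ ∧ ∀ X : ℝ, ∀ᶠ T : ℝ in atTop,
    volume {t : ℝ | 0 ≤ t ∧ t ≤ T ∧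
      ∃ x : ℝ, x₀ ≤ x ∧ x ≤ X ∧ ε * Real.log x < If (sh t) x} ≤ ENNReal.ofReal (ε * T) := by
  obtain ⟨C, hC, hp⟩ := prod_bound
  obtain ⟨l, hl⟩ : ∃ l : ℝ, l = ε / (2 * C) := ⟨_, rfl⟩
  have hl0 : 0 < l := by rw [hl]; positivity
  have hlC : 2 * l * C = ε := by rw [hl]; field_simp
  obtain ⟨n₀, hn₀⟩ := tail hl0 (half_pos hε)
  refine ⟨max 2 n₀, le_max_left _ _, fun X => ?_⟩
  obtain ⟨N, hN⟩ : ∃ N : ℕ, N = ⌊X⌋₊ := ⟨_, rfl⟩
  have hSp : ∀ p ∈ Sp N, p.Prime := fun p hp => (Finset.mem_filter.1 hp).2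
  have h2 := shifts_weyl hSp (cutj n₀ N l)
  have h3 : Tendsto (fun T : ℝ => (Lt (Sp N) T (cutj n₀ N l)).re) atTop
      (𝓝 (∫ θ, cutj n₀ N l θ ∂(tor (Sp N))).re) := (Complex.continuous_re.tendsto _).comp h2
  have h4 : (∫ θ, cutj n₀ N l θ ∂(tor (Sp N))).re < ε :=
    (int_cutj n₀ N hl0 (half_pos hε).le hn₀).trans_lt (half_lt_self hε)
  filter_upwards [h3.eventually (gt_mem_nhds h4), eventually_gt_atTop 0] with T hT hT0
  obtain ⟨B, hB⟩ : ∃ B : Set ℝ, B = {t | 2 * l ≤ Psj n₀ N (tht (Sp N) t)} := ⟨_, rfl⟩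
  have hBm : MeasurableSet B := by
    rw [hB]
    exact (isClosed_le continuous_const ((cont_Psj _ _).comp (cont_tht _))).measurableSet
  have hsub : {t : ℝ | 0 ≤ t ∧ t ≤ T ∧
      ∃ x : ℝ, max 2 (n₀ : ℝ) ≤ x ∧ x ≤ X ∧ ε * Real.log x < If (sh t) x} ⊆ B ∩ Set.Icc 0 T := by
    rintro t ⟨ht0, htT, x, hx2, hxX, hx⟩
    refine ⟨?_, ht0, htT⟩
    rw [hB]
    have hx2' : 2 ≤ x := (le_max_left _ _).trans hx2
    have hxn : (n₀ : ℝ) ≤ x := (le_max_right _ _).trans hx2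
    have hfl : ⌊x⌋₊ ≤ N := by rw [hN]; exact Nat.floor_le_floor hxX
    have e1 : If (sh t) x = I (zf (Sp N) (tht (Sp N) t)) x :=
      If_eq (fun n hn hs => sh_prod hn hs t) (by linarith) hfl
    have e2 := I_le_Psj hp hC hx2' hxn hfl (tht (Sp N) t)
    have hlog : 0 < Real.log x := Real.log_pos (by linarith)
    by_contra hcon
    have hcon' : Psj n₀ N (tht (Sp N) t) < 2 * l := not_le.1 hcon
    have e3 : Psj n₀ N (tht (Sp N) t) * (C * Real.log x) ≤ 2 * l * (C * Real.log x) :=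
      mul_le_mul_of_nonneg_right hcon'.le (by positivity)
    have e4 : 2 * l * (C * Real.log x) = ε * Real.log x := by rw [← hlC]; ring
    rw [e1] at hx
    linarith
  refine (measure_mono hsub).trans ?_
  have h5 : (volume (B ∩ Set.Icc 0 T)).toReal ≤ ∫ t in (0 : ℝ)..T, (cutj n₀ N l (tht (Sp N) t)).re := by
    have hci : Continuous fun t => (cutj n₀ N l (tht (Sp N) t)).re :=
      Complex.continuous_re.comp ((ContinuousMap.continuous _).comp (cont_tht _))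
    rw [intervalIntegral.integral_of_le hT0.le, ← integral_Icc_eq_integral_Ioc]
    calc (volume (B ∩ Set.Icc 0 T)).toReal = ∫ t in Set.Icc 0 T, B.indicator (fun _ => (1 : ℝ)) t := by
          rw [integral_indicator hBm]
          simp [Measure.real, Measure.restrict_apply hBm, Measure.restrict_restrict hBm]
      _ ≤ _ := by
          refine setIntegral_mono_on ?_ ?_ measurableSet_Icc fun t _ => ?_
          · exact (integrable_const (1 : ℝ)).indicator hBm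
          · exact hci.continuousOn.integrableOn_Icc
          · by_cases ht : t ∈ B
            · rw [Set.indicator_of_mem ht]
              rw [hB] at ht
              exact cutj_ge hl0 ht
            · rw [Set.indicator_of_notMem ht]
              exact cutj_nonneg _ _ _ _
  have h6 : ∫ t in (0 : ℝ)..T, (cutj n₀ N l (tht (Sp N) t)).re =
      T * (Lt (Sp N) T (cutj n₀ N l)).re := by
    rw [Lt_apply]
    have e1 : (1 / (T : ℂ)) = ((1 / T : ℝ) : ℂ) := by push_cast; rfl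
    have e2 : (∫ t in (0 : ℝ)..T, (cutj n₀ N l) (tht (Sp N) t)) =
        ((∫ t in (0 : ℝ)..T, (cutj n₀ N l (tht (Sp N) t)).re : ℝ) : ℂ) := by
      rw [← intervalIntegral.integral_ofReal]
      refine intervalIntegral.integral_congr fun t _ => ?_
      exact cutj_re _ _ _ _
    rw [e1, e2, Complex.re_ofReal_mul, Complex.ofReal_re]
    field_simp
  have h7 : (volume (B ∩ Set.Icc 0 T)).toReal ≤ ε * T := by
    refine h5.trans ?_
    rw [h6]
    calc T * (Lt (Sp N) T (cutj n₀ N l)).re ≤ T * ε := mul_le_mul_of_nonneg_left hT.le hT0.le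
      _ = ε * T := by ring
  refine (ENNReal.le_ofReal_iff_toReal_le ?_ (by positivity)).2 h7
  exact ((measure_mono Set.inter_subset_right).trans_lt (by simp)).ne

end Pool.Agent.E8helper84.RM
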