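import Pool.Agent.E8helper84.RM.RN9

/-!
General laws on the closed unit disc: one prime.
-/

set_option autoImplicit false

namespace Pool.Agent.E8helper84.RP

open MeasureTheory Filter Topology Finset ProbabilityTheory
open scoped ComplexConjugate

/-- the closed unit disc -/
abbrev Dc : Type := Metric.closedBall (0 : ℂ) 1

def zc (t : Dc) : ℂ := (t : ℂ)

lemma zc_cont : Continuous zc := continuous_subtype_val

lemma zc_norm (t : Dc) : ‖zc t‖ ≤ 1 := by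
  have := t.2
  rwa [Metric.mem_closedBall, dist_zero_right] at this

noncomputable def uc (t : Dc) : ℝ := (zc t).re

noncomputable def nc (t : Dc) : ℝ := ‖zc t‖ ^ 2

noncomputable def rc (t : Dc) : ℝ := ((zc t) ^ 2).re

lemma uc_cont : Continuous uc := Complex.continuous_re.comp zc_cont

lemma nc_cont : Continuous nc := zc_cont.norm.pow 2

lemma rc_cont : Continuous rc := Complex.continuous_re.comp (zc_cont.pow 2)

lemma nc_le (t : Dc) : nc t ≤ 1 := pow_le_one₀ (norm_nonneg _) (zc_norm t)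

lemma nc_nonneg (t : Dc) : 0 ≤ nc t := by unfold nc; positivity

lemma uc_abs (t : Dc) : |uc t| ≤ 1 := (Complex.abs_re_le_norm _).trans (zc_norm t)

lemma rc_abs (t : Dc) : |rc t| ≤ 1 := by
  refine (Complex.abs_re_le_norm _).trans ?_
  rw [norm_pow]
  exact pow_le_one₀ (norm_nonneg _) (zc_norm t)

lemma uc_sq (t : Dc) : uc t ^ 2 = (nc t + rc t) / 2 := by
  unfold uc nc rc
  rw [← Complex.normSq_eq_norm_sq, Complex.normSq_apply, pow_two (zc t), Complex.mul_re]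
  ring

/-- logarithm of the Euler factor -/
noncomputable def Xl (r : ℝ) (t : Dc) : ℝ := Real.log (‖1 - zc t * (r : ℂ)‖ ^ 2)

/-- the tilt -/
noncomputable def dl (s r : ℝ) (t : Dc) : ℝ := ‖1 - zc t * (r : ℂ)‖ ^ 2 / (1 + s * r ^ 2)

lemma nsq (r : ℝ) (t : Dc) : ‖1 - zc t * (r : ℂ)‖ ^ 2 = 1 + r ^ 2 * nc t - 2 * r * uc t := by
  unfold nc uc
  rw [← Complex.normSq_eq_norm_sq, Complex.normSq_apply, ← Complex.normSq_eq_norm_sq,
    Complex.normSq_apply]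
  simp only [Complex.sub_re, Complex.one_re, Complex.mul_re, Complex.ofReal_re, Complex.ofReal_im,
    mul_zero, sub_zero, Complex.sub_im, Complex.one_im, Complex.mul_im, zero_sub, add_zero, zero_add]
  ring

lemma one_sub_ge {r : ℝ} (h0 : 0 ≤ r) (h1 : r ≤ 1) (t : Dc) :
    (1 - r) ^ 2 ≤ ‖1 - zc t * (r : ℂ)‖ ^ 2 := by
  refine pow_le_pow_left₀ (by linarith) ?_ 2
  have h2 : ‖zc t * (r : ℂ)‖ ≤ r := by
    rw [norm_mul, Complex.norm_real, Real.norm_eq_abs, abs_of_nonneg h0]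
    exact mul_le_of_le_one_left h0 (zc_norm t)
  have h3 := norm_sub_norm_le (1 : ℂ) (zc t * (r : ℂ))
  rw [norm_one] at h3
  linarith

lemma nsq_pos {r : ℝ} (h0 : 0 ≤ r) (h1 : r < 1) (t : Dc) : 0 < ‖1 - zc t * (r : ℂ)‖ ^ 2 :=
  lt_of_lt_of_le (by have : 0 < 1 - r := by linarith
                     positivity) (one_sub_ge h0 h1.le t)

lemma Xl_cont {r : ℝ} (h0 : 0 ≤ r) (h1 : r < 1) : Continuous (Xl r) := by
  unfold Xl
  refine Continuous.log ?_ fun t => (nsq_pos h0 h1 t).ne'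
  exact ((continuous_const.sub (zc_cont.mul continuous_const)).norm.pow 2)

lemma dl_cont (s r : ℝ) : Continuous (dl s r) := by
  unfold dl
  exact ((continuous_const.sub (zc_cont.mul continuous_const)).norm.pow 2).div_const _

lemma dl_nonneg {s : ℝ} (hs : 0 ≤ s) (r : ℝ) (t : Dc) : 0 ≤ dl s r t := by unfold dl; positivity

lemma dl_eq (s r : ℝ) (t : Dc) : dl s r t = (1 + r ^ 2 * nc t - 2 * r * uc t) / (1 + s * r ^ 2) := by
  unfold dl; rw [nsq]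

lemma dl_ge {s r : ℝ} (hs0 : 0 ≤ s) (hs : s ≤ 1) (h0 : 0 ≤ r) (h1 : r ≤ 1 / 20) (t : Dc) :
    1 / 2 ≤ dl s r t := by
  rw [dl_eq, le_div_iff₀ (by positivity)]
  have h2 := nc_nonneg t
  have h3 := (abs_le.1 (uc_abs t)).2
  nlinarith [mul_nonneg (sq_nonneg r) h2, mul_nonneg h0 (sub_nonneg.2 h3), mul_nonneg hs0 (sq_nonneg r),
    mul_nonneg (sub_nonneg.2 hs) (sq_nonneg r), mul_nonneg h0 (sub_nonneg.2 h1)]

/-- Taylor expansion -/
lemma Xl_taylor {r : ℝ} (h0 : 0 ≤ r) (h1 : r ≤ 1 / 2) (t : Dc) :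
    |Xl r t + 2 * r * uc t + r ^ 2 * rc t| ≤ 2 * r ^ 3 := by
  obtain ⟨w, hw⟩ : ∃ w : ℂ, w = -(zc t * (r : ℂ)) := ⟨_, rfl⟩
  have hwn : ‖w‖ ≤ r := by
    rw [hw, norm_neg, norm_mul, Complex.norm_real, Real.norm_eq_abs, abs_of_nonneg h0]
    exact mul_le_of_le_one_left h0 (zc_norm t)
  have h := Complex.norm_log_sub_logTaylor_le 2 (z := w) (by linarith)
  have hT : Complex.logTaylor (2 + 1) w = w - w ^ 2 / 2 := by
    rw [Complex.logTaylor_succ, Complex.logTaylor_succ, Complex.logTaylor_succ, Complex.logTaylor_zero]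
    norm_num
    ring
  rw [hT] at h
  have h2 : ((2 : ℕ) + 1 : ℝ) = 3 := by norm_num
  have h3 : ‖w‖ ^ (2 + 1) * (1 - ‖w‖)⁻¹ / ((2 : ℕ) + 1) ≤ r ^ 3 := by
    rw [h2]
    have h4 : (1 - ‖w‖)⁻¹ ≤ 2 := by
      rw [inv_le_comm₀ (by linarith) (by norm_num)]; linarith
    have h5 : 0 ≤ ‖w‖ ^ 3 := by positivity
    have h6 : 0 ≤ (1 - ‖w‖)⁻¹ := inv_nonneg.2 (by linarith)
    have h7 : ‖w‖ ^ 3 ≤ r ^ 3 := pow_le_pow_left₀ (norm_nonneg _) hwn 3
    rw [div_le_iff₀ (by norm_num)]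
    have e : ‖w‖ ^ (2 + 1) = ‖w‖ ^ 3 := rfl
    rw [e]
    nlinarith
  have h7 : |(Complex.log (1 + w) - (w - w ^ 2 / 2)).re| ≤ r ^ 3 :=
    (Complex.abs_re_le_norm _).trans (h.trans h3)
  have e1 : (Complex.log (1 + w)).re = Real.log ‖1 + w‖ := Complex.log_re _
  have e2 : Xl r t = 2 * Real.log ‖1 + w‖ := by
    unfold Xl
    rw [Real.log_pow, hw, ← sub_eq_add_neg]
    norm_num
  have e3 : (w - w ^ 2 / 2).re = -(r * uc t) - r ^ 2 * rc t / 2 := by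
    rw [hw]
    have e4 : (-(zc t * (r : ℂ)) - (-(zc t * (r : ℂ))) ^ 2 / 2) =
        -(zc t * (r : ℂ)) - (((r ^ 2 / 2 : ℝ) : ℂ) * (zc t ^ 2)) := by
      push_cast; ring
    rw [e4, Complex.sub_re, Complex.neg_re, Complex.re_mul_ofReal, Complex.re_ofReal_mul]
    unfold uc rc
    ring
  rw [Complex.sub_re, e1, e3] at h7
  rw [e2, abs_le]
  rw [abs_le] at h7
  constructor <;> linarith [h7.1, h7.2]

lemma Xl_close {r : ℝ} (h0 : 0 ≤ r) (h1 : r ≤ 1 / 2) (t : Dc) :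
    |Xl r t + 2 * r * uc t| ≤ 2 * r ^ 2 := by
  have h := abs_le.1 (Xl_taylor h0 h1 t)
  have hx := abs_le.1 (rc_abs t)
  have h3 : 2 * r ^ 3 ≤ r ^ 2 := by nlinarith [sq_nonneg r]
  rw [abs_le]
  constructor
  · nlinarith [h.1, mul_nonneg (sq_nonneg r) (sub_nonneg.2 hx.2)]
  · nlinarith [h.2, mul_nonneg (sq_nonneg r) (by linarith [hx.1] : (0 : ℝ) ≤ 1 + rc t)]

lemma Xl_abs {r : ℝ} (h0 : 0 ≤ r) (h1 : r ≤ 1 / 2) (t : Dc) : |Xl r t| ≤ 3 * r := by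
  have h := abs_le.1 (Xl_close h0 h1 t)
  have hx := abs_le.1 (uc_abs t)
  rw [abs_le]
  constructor
  · nlinarith [h.1, mul_nonneg h0 (sub_nonneg.2 hx.2)]
  · nlinarith [h.2, mul_nonneg h0 (by linarith [hx.1] : (0 : ℝ) ≤ 1 + uc t)]

section law

variable {ν : Measure Dc} [IsProbabilityMeasure ν]

lemma integrable_of_cont {f : Dc → ℂ} (hf : Continuous f) : Integrable f ν := by
  obtain ⟨C, hC⟩ := (isCompact_univ.image hf).isBounded.exists_norm_le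
  exact Integrable.of_bound hf.aestronglyMeasurable C (Eventually.of_forall fun t => hC _ ⟨t, trivial, rfl⟩)

lemma ic {f : Dc → ℝ} (hf : Continuous f) : Integrable f ν := by
  obtain ⟨C, hC⟩ := (isCompact_univ.image hf).isBounded.exists_norm_le
  exact Integrable.of_bound hf.aestronglyMeasurable C (Eventually.of_forall fun t => hC _ ⟨t, trivial, rfl⟩)

noncomputable def s2c (ν : Measure Dc) : ℝ := ∫ t, nc t ∂ν

noncomputable def bc (ν : Measure Dc) : ℝ := ∫ t, rc t ∂ν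

lemma s2c_nonneg : 0 ≤ s2c ν := integral_nonneg fun t => nc_nonneg t

lemma ile {f g : Dc → ℝ} (hf : Continuous f) (hg : Continuous g) (h : ∀ t, f t ≤ g t) :
    ∫ t, f t ∂ν ≤ ∫ t, g t ∂ν := integral_mono (ic hf) (ic hg) h

lemma iabs {f : Dc → ℝ} {C : ℝ} (h : ∀ t, |f t| ≤ C) : |∫ t, f t ∂ν| ≤ C := by
  have := norm_integral_le_of_norm_le_const (μ := ν) (f := f) (C := C)
    (Eventually.of_forall fun t => h t)
  simpa using this

lemma s2c_le : s2c ν ≤ 1 := by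
  have := ile (ν := ν) nc_cont continuous_const nc_le
  unfold s2c
  simpa using this

lemma bc_abs : |bc ν| ≤ 1 := iabs rc_abs

lemma int_u (h : ∫ t, zc t ∂ν = 0) : ∫ t, uc t ∂ν = 0 := by
  have h1 := integral_re (integrable_of_cont (ν := ν) zc_cont)
  rw [h] at h1
  simpa [uc] using h1

lemma int_usq : ∫ t, uc t ^ 2 ∂ν = (s2c ν + bc ν) / 2 := by
  simp_rw [uc_sq]
  rw [integral_div, integral_add (ic nc_cont) (ic rc_cont)]
  rfl

lemma int_dl (h : ∫ t, zc t ∂ν = 0) (r : ℝ) : ∫ t, dl (s2c ν) r t ∂ν = 1 := by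
  have hn := nc_cont
  have hu := uc_cont
  have hs := s2c_nonneg (ν := ν)
  simp_rw [dl_eq]
  rw [integral_div, integral_sub (ic (by fun_prop)) (ic (by fun_prop)),
    integral_add (ic (by fun_prop)) (ic (by fun_prop)), integral_const_mul, integral_const_mul, int_u h]
  have e : ∫ t, nc t ∂ν = s2c ν := rfl
  rw [e]
  simp only [integral_const, probReal_univ, smul_eq_mul, mul_one, mul_zero, sub_zero]
  rw [mul_comm (r ^ 2)]
  exact div_self (by positivity)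

/-- mean under the tilt -/
noncomputable def mu1 (ν : Measure Dc) (r r' : ℝ) : ℝ := ∫ t, Xl r' t * dl (s2c ν) r t ∂ν

lemma int_weighted_le (h : ∫ t, zc t ∂ν = 0) {r : ℝ} {f : Dc → ℝ} {C : ℝ}
    (hf : ∀ t, |f t| ≤ C) : |∫ t, f t * dl (s2c ν) r t ∂ν| ≤ C := by
  have hd := dl_cont (s2c ν) r
  have h1 : ‖∫ t, f t * dl (s2c ν) r t ∂ν‖ ≤ ∫ t, C * dl (s2c ν) r t ∂ν := by
    refine norm_integral_le_of_norm_le ((ic hd).const_mul C)
      (Eventually.of_forall fun t => ?_)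
    rw [norm_mul, Real.norm_eq_abs, Real.norm_eq_abs, abs_of_nonneg (dl_nonneg s2c_nonneg r t)]
    exact mul_le_mul_of_nonneg_right (hf t) (dl_nonneg s2c_nonneg r t)
  rw [integral_const_mul, int_dl h, mul_one] at h1
  exact h1

lemma mu1_abs (h : ∫ t, zc t ∂ν = 0) {r r' : ℝ} (h0 : 0 ≤ r') (h1 : r' ≤ 1 / 2) :
    |mu1 ν r r'| ≤ 3 * r' := int_weighted_le h (Xl_abs h0 h1)

lemma mu1_eq (h : ∫ t, zc t ∂ν = 0) {r r' : ℝ} (h0 : 0 ≤ r') (hrr : r' ≤ r) (h1 : r ≤ 1 / 20) :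
    |mu1 ν r r' - (2 * r * r' * (s2c ν + bc ν) - r' ^ 2 * bc ν)| ≤ 8 * r ^ 3 := by
  have hr0 : 0 ≤ r := h0.trans hrr
  have hs0 := s2c_nonneg (ν := ν)
  have hs1 := s2c_le (ν := ν)
  have hb := abs_le.1 (bc_abs (ν := ν))
  have hn := nc_cont
  have hu := uc_cont
  have hrc := rc_cont
  have hX := Xl_cont h0 (by linarith : r' < 1)
  have hd := dl_cont (s2c ν) r
  obtain ⟨s, hs⟩ : ∃ s : ℝ, s = s2c ν := ⟨_, rfl⟩
  obtain ⟨b, hbb⟩ : ∃ b : ℝ, b = bc ν := ⟨_, rfl⟩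
  have hD : 0 < 1 + s * r ^ 2 := by rw [hs]; positivity
  obtain ⟨a1, ha1⟩ : ∃ a : ℝ, a = ∫ t, uc t * nc t ∂ν := ⟨_, rfl⟩
  obtain ⟨a2, ha2⟩ : ∃ a : ℝ, a = ∫ t, rc t * nc t ∂ν := ⟨_, rfl⟩
  obtain ⟨a3, ha3⟩ : ∃ a : ℝ, a = ∫ t, rc t * uc t ∂ν := ⟨_, rfl⟩
  have one : ∀ x y : ℝ, |x| ≤ 1 → |y| ≤ 1 → |x * y| ≤ 1 := fun x y hx hy => by
    rw [abs_mul]; exact mul_le_one₀ hx (abs_nonneg _) hy
  have hnabs : ∀ t, |nc t| ≤ 1 := fun t => by rw [abs_of_nonneg (nc_nonneg t)]; exact nc_le t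
  have b1 : |a1| ≤ 1 := by rw [ha1]; exact iabs fun t => one _ _ (uc_abs t) (hnabs t)
  have b2 : |a2| ≤ 1 := by rw [ha2]; exact iabs fun t => one _ _ (rc_abs t) (hnabs t)
  have b3 : |a3| ≤ 1 := by rw [ha3]; exact iabs fun t => one _ _ (rc_abs t) (uc_abs t)
  obtain ⟨R, hR⟩ : ∃ R : ℝ, R = 2 * r' * r ^ 2 * a1 + r' ^ 2 * r ^ 2 * a2 - 2 * r * r' ^ 2 * a3 := ⟨_, rfl⟩
  obtain ⟨N, hN⟩ : ∃ N : ℝ, N = 2 * r * r' * (s + b) - r' ^ 2 * b := ⟨_, rfl⟩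
  have eJ : ∫ t, (2 * r' * uc t + r' ^ 2 * rc t) * dl (s2c ν) r t ∂ν = (R - N) / (1 + s * r ^ 2) := by
    have e3 : ∀ t, (2 * r' * uc t + r' ^ 2 * rc t) * dl (s2c ν) r t =
        (2 * r' * uc t + 2 * r' * r ^ 2 * (uc t * nc t) - 4 * r * r' * uc t ^ 2 + r' ^ 2 * rc t +
          r' ^ 2 * r ^ 2 * (rc t * nc t) - 2 * r * r' ^ 2 * (rc t * uc t)) / (1 + s * r ^ 2) := by
      intro t
      rw [dl_eq, ← hs]
      field_simp
      ring
    simp_rw [e3]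
    rw [integral_div, integral_sub (ic (by fun_prop)) (ic (by fun_prop)),
      integral_add (ic (by fun_prop)) (ic (by fun_prop)),
      integral_add (ic (by fun_prop)) (ic (by fun_prop)),
      integral_sub (ic (by fun_prop)) (ic (by fun_prop)),
      integral_add (ic (by fun_prop)) (ic (by fun_prop)),
      integral_const_mul, integral_const_mul, integral_const_mul, integral_const_mul,
      integral_const_mul, integral_const_mul, int_u h, int_usq, ← ha1, ← ha2, ← ha3]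
    have e : ∫ t, rc t ∂ν = b := hbb.symm
    rw [e, ← hs, ← hbb, hR, hN]
    ring
  obtain ⟨E, hE⟩ : ∃ E : ℝ, E = ∫ t, (Xl r' t + 2 * r' * uc t + r' ^ 2 * rc t) * dl (s2c ν) r t ∂ν :=
    ⟨_, rfl⟩
  have bE : |E| ≤ 2 * r' ^ 3 := by rw [hE]; exact int_weighted_le h (Xl_taylor h0 (by linarith))
  have e1 : mu1 ν r r' = E - (R - N) / (1 + s * r ^ 2) := by
    rw [hE, ← eJ, ← integral_sub (ic (by fun_prop)) (ic (by fun_prop))]
    unfold mu1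
    refine integral_congr_ae (Eventually.of_forall fun t => ?_)
    simp only
    ring
  rw [e1, ← hs, ← hbb, ← hN]
  have hrr3 : r' ^ 3 ≤ r ^ 3 := by gcongr
  have bR : |R| ≤ 5 * r ^ 3 := by
    rw [hR]
    have c1 : |2 * r' * r ^ 2 * a1| ≤ 2 * r ^ 3 := by
      rw [abs_mul, abs_of_nonneg (by positivity : (0 : ℝ) ≤ 2 * r' * r ^ 2)]
      calc 2 * r' * r ^ 2 * |a1| ≤ 2 * r * r ^ 2 * 1 := by gcongr
        _ = 2 * r ^ 3 := by ring
    have c2 : |r' ^ 2 * r ^ 2 * a2| ≤ 1 * r ^ 3 := by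
      rw [abs_mul, abs_of_nonneg (by positivity : (0 : ℝ) ≤ r' ^ 2 * r ^ 2)]
      calc r' ^ 2 * r ^ 2 * |a2| ≤ r ^ 2 * r ^ 2 * 1 := by gcongr
        _ = r * r ^ 3 := by ring
        _ ≤ 1 * r ^ 3 := by
          have : r ≤ 1 := by linarith
          gcongr
    have c3 : |2 * r * r' ^ 2 * a3| ≤ 2 * r ^ 3 := by
      rw [abs_mul, abs_of_nonneg (by positivity : (0 : ℝ) ≤ 2 * r * r' ^ 2)]
      calc 2 * r * r' ^ 2 * |a3| ≤ 2 * r * r ^ 2 * 1 := by gcongr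
        _ = 2 * r ^ 3 := by ring
    rw [abs_le] at c1 c2 c3 ⊢
    constructor <;> linarith [c1.1, c1.2, c2.1, c2.2, c3.1, c3.2]
  rw [← hbb] at hb
  rw [← hs] at hs0 hs1
  have bN : |N| ≤ 5 * r ^ 2 := by
    have hsb : |s + b| ≤ 2 := by rw [abs_le]; constructor <;> linarith [hb.1, hb.2]
    have c1 : |2 * r * r' * (s + b)| ≤ 4 * r ^ 2 := by
      rw [abs_mul, abs_of_nonneg (by positivity : (0 : ℝ) ≤ 2 * r * r')]
      calc 2 * r * r' * |s + b| ≤ 2 * r * r * 2 := by gcongr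
        _ = 4 * r ^ 2 := by ring
    have c2 : |r' ^ 2 * b| ≤ 1 * r ^ 2 := by
      rw [abs_mul, abs_of_nonneg (by positivity : (0 : ℝ) ≤ r' ^ 2), mul_comm]
      have : |b| ≤ 1 := abs_le.2 hb
      gcongr
    rw [hN]
    rw [abs_le] at c1 c2 ⊢
    constructor <;> linarith [c1.1, c1.2, c2.1, c2.2]
  -- `N / D` against `N`
  have key : E - (R - N) / (1 + s * r ^ 2) - N =
      E - R / (1 + s * r ^ 2) - N * (s * r ^ 2 / (1 + s * r ^ 2)) := by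
    field_simp
    ring
  rw [key]
  have d1 : |R / (1 + s * r ^ 2)| ≤ 5 * r ^ 3 := by
    rw [abs_div, abs_of_pos hD]
    refine (div_le_self (abs_nonneg _) ?_).trans bR
    nlinarith [mul_nonneg hs0 (sq_nonneg r)]
  have d2 : |N * (s * r ^ 2 / (1 + s * r ^ 2))| ≤ r ^ 3 := by
    rw [abs_mul, abs_of_nonneg (by positivity : (0 : ℝ) ≤ s * r ^ 2 / (1 + s * r ^ 2))]
    have h3 : s * r ^ 2 / (1 + s * r ^ 2) ≤ r ^ 2 := by
      rw [div_le_iff₀ hD]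
      nlinarith [mul_nonneg hs0 (sq_nonneg r), mul_nonneg (sub_nonneg.2 hs1) (sq_nonneg r), sq_nonneg r,
        mul_nonneg (sq_nonneg r) (mul_nonneg hs0 (sq_nonneg r))]
    calc |N| * (s * r ^ 2 / (1 + s * r ^ 2)) ≤ 5 * r ^ 2 * r ^ 2 := by gcongr
      _ = 5 * r * r ^ 3 := by ring
      _ ≤ 1 * r ^ 3 := by
        have : 5 * r ≤ 1 := by linarith
        gcongr
      _ = r ^ 3 := one_mul _
  rw [abs_le] at d1 d2 bE ⊢
  constructor <;> linarith [d1.1, d1.2, d2.1, d2.2, bE.1, bE.2]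

/-- variance -/
lemma var1 (h : ∫ t, zc t ∂ν = 0) {r r' : ℝ} (h0 : 0 ≤ r') (hrr : r' ≤ r) (hr : r ≤ 1 / 20)
    (hlow : r ^ 2 / 8 ≤ r' ^ 2) :
    r ^ 2 * (1 + bc ν) / 16 - r ^ 2 * (1 - s2c ν) / 16 - 65 * r ^ 3 ≤
      ∫ t, (Xl r' t - mu1 ν r r') ^ 2 * dl (s2c ν) r t ∂ν := by
  have hXc := Xl_cont h0 (by linarith : r' < 1)
  have huc := uc_cont
  have hdc := dl_cont (s2c ν) r
  have hr0 : 0 ≤ r := h0.trans hrr
  have hs0 := s2c_nonneg (ν := ν)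
  have hs1 := s2c_le (ν := ν)
  have hb := abs_le.1 (bc_abs (ν := ν))
  have hmu : |mu1 ν r r'| ≤ 6 * r ^ 2 := by
    have h1 := abs_le.1 (mu1_eq h h0 hrr hr)
    have h3 : |2 * r * r' * (s2c ν + bc ν) - r' ^ 2 * bc ν| ≤ 5 * r ^ 2 := by
      have hsb : |s2c ν + bc ν| ≤ 2 := by rw [abs_le]; constructor <;> linarith [hb.1, hb.2]
      have c1 : |2 * r * r' * (s2c ν + bc ν)| ≤ 4 * r ^ 2 := by
        rw [abs_mul, abs_of_nonneg (by positivity : (0 : ℝ) ≤ 2 * r * r')]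
        calc 2 * r * r' * |s2c ν + bc ν| ≤ 2 * r * r * 2 := by gcongr
          _ = 4 * r ^ 2 := by ring
      have c2 : |r' ^ 2 * bc ν| ≤ 1 * r ^ 2 := by
        rw [abs_mul, abs_of_nonneg (by positivity : (0 : ℝ) ≤ r' ^ 2), mul_comm]
        have : |bc ν| ≤ 1 := abs_le.2 hb
        gcongr
      rw [abs_le] at c1 c2 ⊢
      constructor <;> linarith [c1.1, c1.2, c2.1, c2.2]
    have h5 : 8 * r ^ 3 ≤ r ^ 2 := by nlinarith [sq_nonneg r]
    rw [abs_le] at h3 ⊢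
    constructor <;> linarith [h1.1, h1.2, h3.1, h3.2]
  have key : ∀ t, r' ^ 2 * uc t ^ 2 - 64 * r ^ 4 * dl (s2c ν) r t ≤
      (Xl r' t - mu1 ν r r') ^ 2 * dl (s2c ν) r t := by
    intro t
    have h1 := Xl_close h0 (by linarith : r' ≤ 1 / 2) t
    have h2 : |Xl r' t + 2 * r' * uc t - mu1 ν r r'| ≤ 8 * r ^ 2 := by
      calc _ ≤ |Xl r' t + 2 * r' * uc t| + |mu1 ν r r'| := abs_sub _ _
        _ ≤ 2 * r' ^ 2 + 6 * r ^ 2 := add_le_add h1 hmu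
        _ ≤ 8 * r ^ 2 := by nlinarith [mul_self_le_mul_self h0 hrr]
    obtain ⟨E, hE⟩ : ∃ E : ℝ, E = Xl r' t + 2 * r' * uc t - mu1 ν r r' := ⟨_, rfl⟩
    rw [← hE] at h2
    have h3 : E ^ 2 ≤ 64 * r ^ 4 := by
      have := pow_le_pow_left₀ (abs_nonneg E) h2 2
      rw [sq_abs] at this
      calc E ^ 2 ≤ (8 * r ^ 2) ^ 2 := this
        _ = 64 * r ^ 4 := by ring
    have h4 : Xl r' t - mu1 ν r r' = E - 2 * r' * uc t := by rw [hE]; ring
    rw [h4]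
    have h5 : 2 * r' ^ 2 * uc t ^ 2 - 64 * r ^ 4 ≤ (E - 2 * r' * uc t) ^ 2 := by
      nlinarith [sq_nonneg (E - r' * uc t), sq_nonneg E, sq_nonneg (2 * E - 2 * r' * uc t)]
    have h6 := mul_le_mul_of_nonneg_right h5 (dl_nonneg (s := s2c ν) s2c_nonneg r t)
    have h7 := dl_ge hs0 hs1 hr0 hr t
    have h8 : r' ^ 2 * uc t ^ 2 ≤ 2 * r' ^ 2 * uc t ^ 2 * dl (s2c ν) r t := by
      nlinarith [mul_nonneg (sq_nonneg r') (sq_nonneg (uc t))]
    calc _ ≤ 2 * r' ^ 2 * uc t ^ 2 * dl (s2c ν) r t - 64 * r ^ 4 * dl (s2c ν) r t := by linarith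
      _ = (2 * r' ^ 2 * uc t ^ 2 - 64 * r ^ 4) * dl (s2c ν) r t := by ring
      _ ≤ _ := h6
  have h7 : ∫ t, (r' ^ 2 * uc t ^ 2 - 64 * r ^ 4 * dl (s2c ν) r t) ∂ν ≤
      ∫ t, (Xl r' t - mu1 ν r r') ^ 2 * dl (s2c ν) r t ∂ν :=
    ile (by fun_prop) (by fun_prop) key
  rw [integral_sub (ic (by fun_prop)) (ic (by fun_prop)),
    integral_const_mul, integral_const_mul, int_usq, int_dl h] at h7
  have h8 : 0 ≤ (s2c ν + bc ν) / 2 := by
    rw [← int_usq]; exact integral_nonneg fun t => sq_nonneg _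
  have h9 : r ^ 2 / 8 * ((s2c ν + bc ν) / 2) ≤ r' ^ 2 * ((s2c ν + bc ν) / 2) :=
    mul_le_mul_of_nonneg_right hlow h8
  have h11 : r ^ 4 ≤ r ^ 3 := by
    have : r ^ 4 = r ^ 3 * r := by ring
    rw [this]
    nlinarith [pow_nonneg hr0 3]
  nlinarith [pow_nonneg hr0 4, pow_nonneg hr0 3]

/-- fourth moment -/
lemma four1 (h : ∫ t, zc t ∂ν = 0) {r r' : ℝ} (h0 : 0 ≤ r') (hrr : r' ≤ r) (hr : r ≤ 1 / 20) :
    ∫ t, (Xl r' t - mu1 ν r r') ^ 4 * dl (s2c ν) r t ∂ν ≤ 1296 * r ^ 4 := by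
  refine (le_abs_self _).trans (int_weighted_le h fun t => ?_)
  have h1 : |Xl r' t - mu1 ν r r'| ≤ 6 * r := by
    calc _ ≤ |Xl r' t| + |mu1 ν r r'| := abs_sub _ _
      _ ≤ 3 * r' + 3 * r' := add_le_add (Xl_abs h0 (by linarith) t) (mu1_abs h h0 (by linarith))
      _ ≤ 6 * r := by linarith
  rw [abs_pow]
  calc |Xl r' t - mu1 ν r r'| ^ 4 ≤ (6 * r) ^ 4 := pow_le_pow_left₀ (abs_nonneg _) h1 4
    _ = 1296 * r ^ 4 := by ring

end law

end Pool.Agent.E8helper84.RP
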