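import Pool.Agent.E8helper84.RM.RP2

/-!
Blocks of primes, general laws.
-/

set_option autoImplicit false

namespace Pool.Agent.E8helper84.RP

open MeasureTheory Filter Topology Finset ProbabilityTheory
open scoped ComplexConjugate
open Pool.Agent.E8helper84.RM (rp wp rs blk VV VV_pos rp_nonneg rp_sq rp_cube wp_nonneg log_ge_one wp_eq
  wp_le wp_ge wp_sq rp_le rs_nonneg rs_le rs_sq sum_S3 blk_sub split_primes split_disj sum_inv_le
  log_VV_le rp_lt PP pw_real Fs)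

variable {ν : ℕ → Measure Dc} [∀ n, IsProbabilityMeasure (ν n)]

/-- the assumptions on the laws -/
structure Mod (ν : ℕ → Measure Dc) : Prop where
  mean : ∀ p : ℕ, p.Prime → ∫ t, zc t ∂(ν p) = 0
  s2 : ∃ c : ℝ, ∀ N : ℕ, ∑ p ∈ (Icc 1 N).filter Nat.Prime, (1 - s2c (ν p)) / p ≤ c
  sec : ∃ c : ℝ, ∀ N : ℕ, -c ≤ ∑ p ∈ (Icc 1 N).filter Nat.Prime, bc (ν p) / p

/-- mean at a prime -/
lemma mean_ge (h : Mod ν) {N p : ℕ} (hN : 3 ≤ N) (hpp : p.Prime) (hp : 400 ≤ p) :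
    2 * (1 / (p : ℝ)) + bc (ν p) / p - 2 * ((1 - s2c (ν p)) / p) -
      3 * (1 / Real.log N) * (Real.log p / p) -
      9 * (p : ℝ) ^ (-(3 / 2) : ℝ) ≤ mu1 (ν p) (rp p) (rs N p) := by
  have hp0 : 0 < p := by omega
  have hr := rp_le hp
  have hr0 := rp_nonneg p
  have hs0 := rs_nonneg N p
  have hsr := rs_le hN hp0
  have hw0 := wp_nonneg N p
  have hw1 := wp_le hN hp0
  have hw2 := wp_ge N hp0
  have h1 := (abs_le.1 (mu1_eq (h.mean p hpp) hs0 hsr hr)).1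
  have hs1 := s2c_le (ν := ν p)
  have hb := abs_le.1 (bc_abs (ν := ν p))
  rw [← rp_cube p]
  obtain ⟨r, hrr⟩ : ∃ r : ℝ, r = rp p := ⟨_, rfl⟩
  obtain ⟨w, hww⟩ : ∃ w : ℝ, w = wp N p := ⟨_, rfl⟩
  obtain ⟨s, hss⟩ : ∃ s : ℝ, s = s2c (ν p) := ⟨_, rfl⟩
  obtain ⟨b, hbb⟩ : ∃ b : ℝ, b = bc (ν p) := ⟨_, rfl⟩
  have e0 : rs N p = r * w := by rw [hrr, hww]; rfl
  have e1 : 1 / (p : ℝ) = r ^ 2 := by rw [hrr, rp_sq]
  have e2 : Real.log p / p = Real.log p * r ^ 2 := by rw [← e1]; ring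
  have e3 : bc (ν p) / p = b * r ^ 2 := by rw [← e1, hbb]; ring
  have e4 : (1 - s2c (ν p)) / p = (1 - s) * r ^ 2 := by rw [← e1, hss]; ring
  rw [e0, ← hrr, ← hss, ← hbb] at h1
  rw [e2, e3, e4, e1, ← hrr, e0]
  rw [← hrr] at hr hr0
  rw [← hww] at hw0 hw1 hw2
  rw [← hss] at hs1
  rw [← hbb] at hb
  obtain ⟨lam, hlam⟩ : ∃ lam : ℝ, lam = Real.log p / Real.log N := ⟨_, rfl⟩
  rw [← hlam] at hw2
  have h8 : 3 * (1 / Real.log N) * (Real.log p * r ^ 2) = 3 * lam * r ^ 2 := by rw [hlam]; ring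
  rw [h8]
  have h2 : 2 + b - 3 * lam - 2 * (1 - s) ≤ 2 * w * (s + b) - w ^ 2 * b := by
    have h3 : 2 * w - 2 * (1 - s) ≤ 2 * w * s := by
      nlinarith [mul_nonneg (sub_nonneg.2 hw1) (sub_nonneg.2 hs1)]
    have h4 : b - (1 - w) ≤ 2 * w * b - w ^ 2 * b := by
      nlinarith [mul_nonneg (sub_nonneg.2 hb.2) (sq_nonneg (1 - w)), mul_nonneg hw0 (sub_nonneg.2 hw1)]
    nlinarith
  have h5 : r ^ 2 * (2 + b - 3 * lam - 2 * (1 - s)) ≤ r ^ 2 * (2 * w * (s + b) - w ^ 2 * b) :=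
    mul_le_mul_of_nonneg_left h2 (sq_nonneg r)
  have h6 : 0 ≤ r ^ 3 := pow_nonneg hr0 3
  nlinarith

/-- the tilt of a block -/
noncomputable def Wp (ν : ℕ → Measure Dc) (B : Finset ℕ) (ω : Tor) : ℝ :=
  ∏ p ∈ B, dl (s2c (ν p)) (rp p) (ω p)

/-- the block event -/
noncomputable def Eb (M N : ℕ) (θ : ℝ) (ω : Tor) : Prop :=
  ∑ p ∈ blk M N, Xl (rs N p) (ω p) ≤ θ + Real.log (VV N * Real.log N)

open scoped Classical in
theorem block (hm : Mod ν) : ∀ M : ℕ, 400 ≤ M → ∀ θ : ℝ, 0 ≤ θ → ∃ N : ℕ, M < N ∧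
    ∫ ω, (if Eb M N θ ω then (1 : ℝ) else 0) * Wp ν (blk M N) ω ∂(Pn ν) ≤ 35 / 36 := by
  intro M hM θ hθ
  obtain ⟨C1, hC1⟩ := Pool.Agent.Erdos456.Mert.mertens_inv
  obtain ⟨C0, hC0⟩ := Pool.Agent.Erdos456.Mert.mertens_log
  obtain ⟨S3, hS0, hS3⟩ := sum_S3
  obtain ⟨c, hc⟩ := hm.sec
  have hc0 : 0 ≤ c := by
    have := hc 0
    simp at this
    exact this
  obtain ⟨c', hc'⟩ := hm.s2
  have hc0' : 0 ≤ c' := by
    have := hc' 0
    simp at this
    exact this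
  have hC1n : 0 ≤ C1 := (abs_nonneg _).trans (hC1 3 le_rfl)
  have hC0n : 0 ≤ C0 := (abs_nonneg _).trans (hC0 3 (by norm_num))
  obtain ⟨Kc, hKc⟩ : ∃ Kc : ℝ, Kc = C1 + c + 3 * M + 3 * (1 + C0) + 9 * S3 + 2 * c' := ⟨_, rfl⟩
  have hKc0 : 0 ≤ Kc := by rw [hKc]; positivity
  obtain ⟨T, hT⟩ : ∃ T : ℝ, T = 16 * (θ + Kc) ^ 2 + 1296 * S3 + 1 := ⟨_, rfl⟩
  have hlim : Tendsto (fun N : ℕ => Real.log (Real.log N)) atTop atTop :=
    Real.tendsto_log_atTop.comp (Real.tendsto_log_atTop.comp tendsto_natCast_atTop_atTop)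
  obtain ⟨N, hN1, hN2⟩ := ((hlim.eventually_ge_atTop (16 * T + 1040 * S3 + C1 + c + 2 * M + c')).and
    (eventually_ge_atTop (M + 1))).exists
  refine ⟨N, by omega, ?_⟩
  have hN3 : 3 ≤ N := by omega
  have hlog := log_ge_one hN3
  have a1 := abs_le.1 (hC1 N hN3)
  have a0 := abs_le.1 (hC0 N (by omega))
  have memb : ∀ p ∈ blk M N, p.Prime ∧ 400 ≤ p ∧ p ≤ N := by
    intro p hp
    unfold blk at hp
    rw [Finset.mem_filter, Finset.mem_Ioc] at hp
    exact ⟨hp.2, by omega, hp.1.2⟩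
  -- block structure
  have hB : Blk ν (fun p => dl (s2c (ν p)) (rp p)) (fun p t => Xl (rs N p) t - mu1 (ν p) (rp p) (rs N p))
      (fun p => ∫ t, (Xl (rs N p) t - mu1 (ν p) (rp p) (rs N p)) ^ 2 * dl (s2c (ν p)) (rp p) t ∂(ν p))
      (fun p => 1296 * rp p ^ 4) (blk M N) := by
    have cX : ∀ p ∈ blk M N, Continuous (Xl (rs N p)) := by
      intro p hp
      obtain ⟨h1, h2, h3⟩ := memb p hp
      have := rp_le h2
      have := rs_le hN3 h1.pos
      exact Xl_cont (rs_nonneg N p) (by linarith)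
    refine ⟨fun p _ => dl_cont _ _, fun p hp => (cX p hp).sub continuous_const,
      fun p _ t => dl_nonneg s2c_nonneg _ _,
      fun p hp => int_dl (hm.mean p (memb p hp).1) _, fun p hp => ?_, fun p _ => rfl, fun p hp => ?_⟩
    · have h1 := cX p hp
      have h2 := dl_cont (s2c (ν p)) (rp p)
      have e : ∀ t, (Xl (rs N p) t - mu1 (ν p) (rp p) (rs N p)) * dl (s2c (ν p)) (rp p) t =
        Xl (rs N p) t * dl (s2c (ν p)) (rp p) t - mu1 (ν p) (rp p) (rs N p) * dl (s2c (ν p)) (rp p) t :=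
        fun t => by ring
      simp_rw [e]
      rw [integral_sub (ic (by fun_prop)) (ic (by fun_prop)),
        integral_const_mul, int_dl (hm.mean p (memb p hp).1)]
      unfold mu1
      ring
    · obtain ⟨h1, h2, h3⟩ := memb p hp
      exact four1 (hm.mean p h1) (rs_nonneg N p) (rs_le hN3 h1.pos) (rp_le h2)
  -- sums
  have hsplit := Finset.sum_union (split_disj M N) (f := fun p : ℕ => (1 : ℝ) / p)
  rw [← split_primes (by omega : M ≤ N)] at hsplit
  have hsplit2 := Finset.sum_union (split_disj M N) (f := fun p : ℕ => bc (ν p) / (p : ℝ))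
  rw [← split_primes (by omega : M ≤ N)] at hsplit2
  have hMsum := sum_inv_le M
  have hMsum2 : ∑ p ∈ (Icc 1 M).filter Nat.Prime, bc (ν p) / (p : ℝ) ≤ M := by
    refine le_trans (Finset.sum_le_sum fun p _ => ?_) hMsum
    have := (abs_le.1 (bc_abs (ν := ν p))).2
    gcongr
  have hcN := hc N
  have hdef : ∑ p ∈ blk M N, (1 - s2c (ν p)) / (p : ℝ) ≤ c' := by
    refine (Finset.sum_le_sum_of_subset_of_nonneg (blk_sub M N) fun p _ _ => ?_).trans (hc' N)
    exact div_nonneg (sub_nonneg.2 s2c_le) (Nat.cast_nonneg p)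
  have hv : T ≤ ∑ p ∈ blk M N, ∫ t, (Xl (rs N p) t - mu1 (ν p) (rp p) (rs N p)) ^ 2 *
      dl (s2c (ν p)) (rp p) t ∂(ν p) := by
    have h3 := hS3 (blk M N)
    calc T ≤ (1 / 16) * (∑ p ∈ blk M N, (1 : ℝ) / p + ∑ p ∈ blk M N, bc (ν p) / (p : ℝ)) -
            (1 / 16) * ∑ p ∈ blk M N, (1 - s2c (ν p)) / (p : ℝ) -
            65 * ∑ p ∈ blk M N, (p : ℝ) ^ (-(3 / 2) : ℝ) := by linarith [a1.1]
      _ = ∑ p ∈ blk M N, (rp p ^ 2 * (1 + bc (ν p)) / 16 - rp p ^ 2 * (1 - s2c (ν p)) / 16 -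
            65 * rp p ^ 3) := by
          rw [← Finset.sum_add_distrib, Finset.mul_sum, Finset.mul_sum, Finset.mul_sum,
            ← Finset.sum_sub_distrib, ← Finset.sum_sub_distrib]
          refine Finset.sum_congr rfl fun p _ => ?_
          rw [rp_sq, rp_cube]; ring
      _ ≤ _ := by
          refine Finset.sum_le_sum fun p hp => ?_
          obtain ⟨h1, h2, h3⟩ := memb p hp
          exact var1 (hm.mean p h1) (rs_nonneg N p) (rs_le hN3 h1.pos) (rp_le h2) (rs_sq hN3 h1.pos h3)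
  have hT1 : 1 ≤ T := by rw [hT]; nlinarith [sq_nonneg (θ + Kc)]
  have hq : ∑ p ∈ blk M N, 1296 * rp p ^ 4 ≤ 1296 * S3 := by
    rw [← Finset.mul_sum]
    refine mul_le_mul_of_nonneg_left ?_ (by norm_num)
    refine le_trans (Finset.sum_le_sum fun p hp => ?_) (hS3 (blk M N))
    obtain ⟨h1, h2, h3⟩ := memb p hp
    have h4 := rp_le h2
    have h5 := rp_nonneg p
    rw [← rp_cube]
    have : rp p ^ 4 = rp p ^ 3 * rp p := by ring
    rw [this]
    nlinarith [pow_nonneg h5 3]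
  have hmean : Real.log (VV N * Real.log N) - Kc ≤ ∑ p ∈ blk M N, mu1 (ν p) (rp p) (rs N p) := by
    have h1 : ∑ p ∈ blk M N, (2 * (1 / (p : ℝ)) + bc (ν p) / p - 2 * ((1 - s2c (ν p)) / p) -
        3 * (1 / Real.log N) * (Real.log p / p) -
        9 * (p : ℝ) ^ (-(3 / 2) : ℝ)) ≤ ∑ p ∈ blk M N, mu1 (ν p) (rp p) (rs N p) :=
      Finset.sum_le_sum fun p hp => mean_ge hm hN3 (memb p hp).1 (memb p hp).2.1
    rw [Finset.sum_sub_distrib, Finset.sum_sub_distrib, Finset.sum_sub_distrib,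
      Finset.sum_add_distrib, ← Finset.mul_sum, ← Finset.mul_sum, ← Finset.mul_sum,
      ← Finset.mul_sum] at h1
    have h2 := hS3 (blk M N)
    have h3 : ∑ p ∈ blk M N, Real.log p / p ≤ ∑ p ∈ (Icc 1 N).filter Nat.Prime, Real.log p / p :=
      Finset.sum_le_sum_of_subset_of_nonneg (blk_sub M N) fun p _ _ =>
        div_nonneg (Real.log_natCast_nonneg p) (Nat.cast_nonneg p)
    have h4 : 3 * (1 / Real.log N) * ∑ p ∈ blk M N, Real.log p / p ≤ 3 * (1 + C0) := by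
      have h5 : ∑ p ∈ blk M N, Real.log p / p ≤ (1 + C0) * Real.log N := by nlinarith [a0.2]
      have h6 : 3 * (1 / Real.log N) * ∑ p ∈ blk M N, Real.log p / p ≤
          3 * (1 / Real.log N) * ((1 + C0) * Real.log N) :=
        mul_le_mul_of_nonneg_left h5 (by positivity)
      have h7 : 3 * (1 / Real.log N) * ((1 + C0) * Real.log N) = 3 * (1 + C0) := by field_simp
      linarith
    have h8 := log_VV_le hN3
    have h9 := a1.1
    rw [hKc]
    linarith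
  have hmain := anti (blk M N) hB (by linarith) (by nlinarith) (θ := θ + Kc) (by linarith)
    (by nlinarith)
  refine le_trans ?_ hmain
  have hWc : Continuous (Wp ν (blk M N)) := Wb_cont hB
  refine integral_mono_of_nonneg (Eventually.of_forall fun ω => ?_) ?_ (Eventually.of_forall fun ω => ?_)
  · exact mul_nonneg (by split_ifs <;> norm_num) (Wb_nonneg hB ω)
  · have hmm : MeasurableSet {ω : Tor | Yb (fun p t => Xl (rs N p) t - mu1 (ν p) (rp p) (rs N p))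
        (blk M N) ω ≤ θ + Kc} := (isClosed_le (Yb_cont hB) continuous_const).measurableSet
    have e : (fun ω : Tor => (if Yb (fun p t => Xl (rs N p) t - mu1 (ν p) (rp p) (rs N p)) (blk M N) ω ≤
        θ + Kc then (1 : ℝ) else 0) * Wb (fun p => dl (s2c (ν p)) (rp p)) (blk M N) ω) =
        Set.indicator {ω : Tor | Yb (fun p t => Xl (rs N p) t - mu1 (ν p) (rp p) (rs N p)) (blk M N) ω ≤
        θ + Kc} (Wb (fun p => dl (s2c (ν p)) (rp p)) (blk M N)) := by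
      funext ω
      by_cases h : Yb (fun p t => Xl (rs N p) t - mu1 (ν p) (rp p) (rs N p)) (blk M N) ω ≤ θ + Kc
      · rw [if_pos h, one_mul, Set.indicator_of_mem (by exact h)]
      · rw [if_neg h, zero_mul, Set.indicator_of_notMem (by exact h)]
    rw [e]
    exact (intC (Wb_cont hB)).indicator hmm
  · refine mul_le_mul_of_nonneg_right ?_ (Wb_nonneg hB ω)
    by_cases h : Eb M N θ ω
    · have h2 : Yb (fun p t => Xl (rs N p) t - mu1 (ν p) (rp p) (rs N p)) (blk M N) ω ≤ θ + Kc := by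
        unfold Yb
        unfold Eb at h
        rw [Finset.sum_sub_distrib]
        linarith
      rw [if_pos h, if_pos h2]
    · rw [if_neg h]; split_ifs <;> norm_num

end Pool.Agent.E8helper84.RP
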