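import Pool.Agent.E8helper84.RM.RP3

/-!
A sequence of scales along which the tilted law is singular with respect to the law.
-/

set_option autoImplicit false

namespace Pool.Agent.E8helper84.RP

open MeasureTheory Filter Topology Finset ProbabilityTheory
open scoped ComplexConjugate
open Pool.Agent.E8helper84.RM (rp wp rs blk VV VV_pos rp_nonneg rp_sq rp_cube wp_nonneg log_ge_one wp_eq
  wp_le wp_ge wp_sq rp_le rs_nonneg rs_le rs_sq sum_S3 blk_sub split_primes split_disj sum_inv_le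
  log_VV_le rp_lt PP pw_real Fs mono_N)

variable {ν : ℕ → Measure Dc} [∀ n, IsProbabilityMeasure (ν n)]

/-- the values -/
def zt (n : ℕ) (ω : Tor) : ℂ := zc (ω n)

/-- the event at one scale -/
def Bev (K : ℝ) (N : ℕ) (ω : Tor) : Prop :=
  ‖Fs (fun n => zt n ω) N ((1 / 2 + 1 / Real.log N : ℝ) : ℂ)‖ ^ 2 ≤ K * (VV N * Real.log N)

lemma Xl_ge {N p : ℕ} (hN : 3 ≤ N) (hp : p.Prime) (t : Dc) : -3 ≤ Xl (rs N p) t := by
  have h1 := rs_le hN hp.pos
  have h2 := rp_lt hp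
  have h0 := rs_nonneg N p
  have hpos := nsq_pos h0 (by linarith : rs N p < 1) t
  unfold Xl
  rw [Real.le_log_iff_exp_le hpos]
  have h3 : Real.exp (-3) ≤ 1 / 12 := by
    have h4 : (12 : ℝ) ≤ Real.exp 3 := by
      have h5 := Real.exp_one_gt_d9
      have h6 : Real.exp 3 = Real.exp 1 ^ 3 := by rw [← Real.exp_nat_mul]; norm_num
      rw [h6]
      calc (12 : ℝ) ≤ 2.7182818283 ^ 3 := by norm_num
        _ ≤ Real.exp 1 ^ 3 := pow_le_pow_left₀ (by norm_num) h5.le 3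
    rw [Real.exp_neg, ← one_div]
    exact one_div_le_one_div_of_le (by norm_num) h4
  have h7 : (29 / 100 : ℝ) ^ 2 ≤ (1 - rs N p) ^ 2 := pow_le_pow_left₀ (by norm_num) (by linarith) 2
  have h8 := one_sub_ge h0 (by linarith : rs N p ≤ 1) t
  norm_num at h7
  linarith

lemma Fs_prod {N : ℕ} (ω : Tor) :
    ‖Fs (fun n => zt n ω) N ((1 / 2 + 1 / Real.log N : ℝ) : ℂ)‖ ^ 2 =
      ∏ p ∈ PP N, ‖1 - zc (ω p) * ((rs N p : ℝ) : ℂ)‖ ^ 2 := by
  unfold Fs
  rw [norm_prod, ← Finset.prod_pow]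
  refine Finset.prod_congr rfl fun p hp => ?_
  rw [pw_real (Finset.mem_filter.1 hp).2.pos]
  rfl

lemma Fs_log {N : ℕ} (hN : 3 ≤ N) (ω : Tor) :
    Real.log (‖Fs (fun n => zt n ω) N ((1 / 2 + 1 / Real.log N : ℝ) : ℂ)‖ ^ 2) =
      ∑ p ∈ PP N, Xl (rs N p) (ω p) := by
  rw [Fs_prod, Real.log_prod]
  · rfl
  · intro p hp
    have hpp := (Finset.mem_filter.1 hp).2
    have h1 := rs_le hN hpp.pos
    have h2 := rp_lt hpp
    exact (nsq_pos (rs_nonneg N p) (by linarith) (ω p)).ne'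

lemma Fs_pos {N : ℕ} (hN : 3 ≤ N) (ω : Tor) :
    0 < ‖Fs (fun n => zt n ω) N ((1 / 2 + 1 / Real.log N : ℝ) : ℂ)‖ ^ 2 := by
  rw [Fs_prod]
  refine Finset.prod_pos fun p hp => ?_
  have hpp := (Finset.mem_filter.1 hp).2
  have h1 := rs_le hN hpp.pos
  have h2 := rp_lt hpp
  exact nsq_pos (rs_nonneg N p) (by linarith) (ω p)

lemma event {K : ℝ} (hK : 0 < K) {M N : ℕ} (hM : 400 ≤ M) (hMN : M < N) {c : ℝ} (hc : Real.log K ≤ c)
    {ω : Tor} (h : Bev K N ω) : Eb M N (c + 3 * M) ω := by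
  have hN3 : 3 ≤ N := by omega
  have hlog := log_ge_one hN3
  have hV := VV_pos N
  unfold Bev at h
  have h1 := Real.log_le_log (Fs_pos hN3 ω) h
  rw [Fs_log hN3, Real.log_mul hK.ne' (by positivity)] at h1
  have hsplit := Finset.sum_union (split_disj M N) (f := fun p : ℕ => Xl (rs N p) (ω p))
  rw [← split_primes hMN.le] at hsplit
  have h2 : -(3 * (M : ℝ)) ≤ ∑ p ∈ (Icc 1 M).filter Nat.Prime, Xl (rs N p) (ω p) := by
    have h3 : ∑ p ∈ (Icc 1 M).filter Nat.Prime, (-3 : ℝ) ≤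
        ∑ p ∈ (Icc 1 M).filter Nat.Prime, Xl (rs N p) (ω p) :=
      Finset.sum_le_sum fun p hp => Xl_ge hN3 (Finset.mem_filter.1 hp).2 _
    have h4 : ((((Icc 1 M).filter Nat.Prime).card : ℕ) : ℝ) ≤ M := by
      have : ((Icc 1 M).filter Nat.Prime).card ≤ M := (Finset.card_filter_le _ _).trans (by simp)
      exact_mod_cast this
    rw [Finset.sum_const, nsmul_eq_mul] at h3
    linarith
  unfold Eb
  linarith

open scoped Classical in
theorem seq_exists (hm : Mod ν) : ∃ N : ℕ → ℕ, (∀ j, 400 ≤ N j) ∧ (∀ j, N j < N (j + 1)) ∧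
    ∀ j : ℕ, ∫ ω, (if Eb (N j) (N (j + 1)) (j + 3 * N j) ω then (1 : ℝ) else 0) *
      Wp ν (blk (N j) (N (j + 1))) ω ∂(Pn ν) ≤ 35 / 36 := by
  have h := block hm
  choose! f hf using h
  obtain ⟨N, hN0, hN⟩ : ∃ N : ℕ → ℕ, N 0 = 400 ∧ ∀ j : ℕ, N (j + 1) = f (N j) (j + 3 * N j) :=
    ⟨fun j => Nat.rec 400 (fun j Nj => f Nj (j + 3 * Nj)) j, rfl, fun j => rfl⟩
  have h400 : ∀ j, 400 ≤ N j := by
    intro j
    induction j with
    | zero => rw [hN0]
    | succ j ih =>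
      rw [hN]
      exact ih.trans (hf (N j) ih (j + 3 * N j) (by positivity)).1.le
  refine ⟨N, h400, fun j => ?_, fun j => ?_⟩
  · rw [hN]
    exact (hf (N j) (h400 j) (j + 3 * N j) (by positivity)).1
  · rw [hN]
    exact (hf (N j) (h400 j) (j + 3 * N j) (by positivity)).2

lemma Eb_meas {M N : ℕ} (hM : 400 ≤ M) (hMN : M < N) (θ : ℝ) :
    MeasurableSet[cS ((blk M N : Finset ℕ) : Set ℕ)] {ω : Tor | Eb M N θ ω} := by
  have h : Measurable[cS ((blk M N : Finset ℕ) : Set ℕ)]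
      (fun ω : Tor => ∑ p ∈ blk M N, Xl (rs N p) (ω p)) := by
    refine Finset.measurable_fun_sum _ fun p hp => ?_
    have hp' : p.Prime := by
      unfold blk at hp
      exact (Finset.mem_filter.1 hp).2
    have h1 := rs_le (by omega : 3 ≤ N) hp'.pos
    have h2 := rp_lt hp'
    exact (Xl_cont (rs_nonneg N p) (by linarith)).measurable.comp (cS_coord (Finset.mem_coe.2 hp))
  exact h measurableSet_Iic

lemma Wp_cont (B : Finset ℕ) : Continuous (Wp ν B) := by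
  unfold Wp
  exact continuous_finsetProd _ fun n _ => (dl_cont _ _).comp (continuous_apply n)

lemma Wp_meas {B : Finset ℕ} {S : Set ℕ} (h : (B : Set ℕ) ⊆ S) : Measurable[cS S] (Wp ν B) := by
  unfold Wp
  refine Finset.measurable_fun_prod _ fun n hn => ?_
  exact (dl_cont _ _).measurable.comp (cS_coord (h (Finset.mem_coe.2 hn)))

lemma Wp_nonneg (B : Finset ℕ) (ω : Tor) : 0 ≤ Wp ν B ω := Finset.prod_nonneg fun n _ => dl_nonneg s2c_nonneg _ _

lemma int_Wp (hm : Mod ν) {B : Finset ℕ} (hpr : ∀ p ∈ B, p.Prime) : ∫ ω, Wp ν B ω ∂(Pn ν) = 1 := by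
  have hB : Blk ν (fun p => dl (s2c (ν p)) (rp p)) (fun _ _ => (0 : ℝ)) (fun _ => 0) (fun _ => 0) B := by
    refine ⟨fun p _ => dl_cont _ _, fun p _ => continuous_const, fun p _ t => dl_nonneg s2c_nonneg _ _,
      fun p hp => int_dl (hm.mean p (hpr p hp)) _, fun p _ => ?_, fun p _ => ?_, fun p _ => ?_⟩ <;> simp
  exact (moments B hB).1

lemma PP_prime (N : ℕ) : ∀ p ∈ PP N, p.Prime := fun _ hp => (Finset.mem_filter.1 hp).2

lemma blk_prime (M N : ℕ) : ∀ p ∈ blk M N, p.Prime := fun _ hp => by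
  unfold blk at hp
  exact (Finset.mem_filter.1 hp).2

lemma Wp_split {M N : ℕ} (h : M ≤ N) (ω : Tor) : Wp ν (PP N) ω = Wp ν (PP M) ω * Wp ν (blk M N) ω := by
  unfold Wp
  have := Finset.prod_union (split_disj M N) (f := fun p : ℕ => dl (s2c (ν p)) (rp p) (ω p))
  rw [← split_primes h] at this
  exact this

open scoped Classical in
/-- the factor at one scale -/
noncomputable def gb (ν : ℕ → Measure Dc) (N : ℕ → ℕ) (j : ℕ) (ω : Tor) : ℝ :=
  (if Eb (N j) (N (j + 1)) (j + 3 * N j) ω then (1 : ℝ) else 0) * Wp ν (blk (N j) (N (j + 1))) ω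

noncomputable def Gd (ν : ℕ → Measure Dc) (N : ℕ → ℕ) (j0 d : ℕ) (ω : Tor) : ℝ :=
  Wp ν (PP (N j0)) ω * ∏ i ∈ range d, gb ν N (j0 + i) ω

lemma gb_meas {N : ℕ → ℕ} (h4 : ∀ j, 400 ≤ N j) (hs : ∀ j, N j < N (j + 1)) (j : ℕ) :
    Measurable[cS ((blk (N j) (N (j + 1)) : Finset ℕ) : Set ℕ)] (gb ν N j) := by
  classical
  have h1 := Eb_meas (h4 j) (hs j) (j + 3 * N j)
  have h2 : Measurable[cS ((blk (N j) (N (j + 1)) : Finset ℕ) : Set ℕ)]
      (Set.indicator {ω : Tor | Eb (N j) (N (j + 1)) (j + 3 * N j) ω} (fun _ => (1 : ℝ))) :=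
    (@measurable_const _ _ _ (cS _) (1 : ℝ)).indicator h1
  have e : gb ν N j = fun ω => Set.indicator {ω : Tor | Eb (N j) (N (j + 1)) (j + 3 * N j) ω}
      (fun _ => (1 : ℝ)) ω * Wp ν (blk (N j) (N (j + 1))) ω := by
    funext ω
    unfold gb
    by_cases h : Eb (N j) (N (j + 1)) (j + 3 * N j) ω
    · rw [if_pos h, Set.indicator_of_mem (by exact h)]
    · rw [if_neg h, Set.indicator_of_notMem (by exact h)]
  rw [e]
  exact h2.mul (Wp_meas subset_rfl)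

lemma gb_nonneg (N : ℕ → ℕ) (j : ℕ) (ω : Tor) : 0 ≤ gb ν N j ω := by
  unfold gb
  exact mul_nonneg (by split_ifs <;> norm_num) (Wp_nonneg _ _)

lemma Gd_meas {N : ℕ → ℕ} (h4 : ∀ j, 400 ≤ N j) (hs : ∀ j, N j < N (j + 1)) (j0 d : ℕ) :
    Measurable[cS (Set.Iic (N (j0 + d)))] (Gd ν N j0 d) := by
  unfold Gd
  refine Measurable.mul (Wp_meas ?_) (Finset.measurable_fun_prod _ fun i hi => ?_)
  · intro p hp
    have := (Finset.mem_Icc.1 (Finset.mem_filter.1 (Finset.mem_coe.1 hp)).1).2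
    exact this.trans (mono_N hs (by omega))
  · refine (gb_meas h4 hs (j0 + i)).mono (cS_mono ?_) le_rfl
    intro p hp
    have hp' := Finset.mem_coe.1 hp
    unfold blk at hp'
    have := (Finset.mem_Ioc.1 (Finset.mem_filter.1 hp').1).2
    rw [Finset.mem_range] at hi
    exact this.trans (mono_N hs (by omega))

lemma Gd_nonneg (N : ℕ → ℕ) (j0 d : ℕ) (ω : Tor) : 0 ≤ Gd ν N j0 d ω :=
  mul_nonneg (Wp_nonneg _ _) (Finset.prod_nonneg fun _ _ => gb_nonneg _ _ _)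

lemma Gd_int (hm : Mod ν) {N : ℕ → ℕ} (h4 : ∀ j, 400 ≤ N j) (hs : ∀ j, N j < N (j + 1))
    (hb : ∀ j, ∫ ω, gb ν N j ω ∂(Pn ν) ≤ 35 / 36) (j0 d : ℕ) : ∫ ω, Gd ν N j0 d ω ∂(Pn ν) ≤ (35 / 36) ^ d := by
  induction d with
  | zero =>
    have : ∀ ω, Gd ν N j0 0 ω = Wp ν (PP (N j0)) ω := fun ω => by unfold Gd; simp
    simp_rw [this]
    rw [int_Wp hm (PP_prime _), pow_zero]
  | succ d ih =>
    have e : ∀ ω, Gd ν N j0 (d + 1) ω = Gd ν N j0 d ω * gb ν N (j0 + d) ω := fun ω => by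
      unfold Gd; rw [Finset.prod_range_succ]; ring
    simp_rw [e]
    have hd : Disjoint (Set.Iic (N (j0 + d)))
        ((blk (N (j0 + d)) (N (j0 + d + 1)) : Finset ℕ) : Set ℕ) := by
      rw [Set.disjoint_left]
      intro p hp hp2
      have hp' := Finset.mem_coe.1 hp2
      unfold blk at hp'
      have := (Finset.mem_Ioc.1 (Finset.mem_filter.1 hp').1).1
      have hp3 : p ≤ N (j0 + d) := hp
      omega
    rw [mul_int hd (Gd_meas h4 hs j0 d) (gb_meas h4 hs (j0 + d)), pow_succ]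
    exact mul_le_mul ih (hb _) (integral_nonneg fun ω => gb_nonneg _ _ _) (by positivity)

lemma Gd_eq {N : ℕ → ℕ} (h4 : ∀ j, 400 ≤ N j) (hs : ∀ j, N j < N (j + 1)) {K : ℝ} (hK : 0 < K)
    {j0 : ℕ} (hj : Real.log K ≤ j0) (d : ℕ) {ω : Tor} (h : ∀ i, i ≤ j0 + d → Bev K (N i) ω) :
    Wp ν (PP (N (j0 + d))) ω = Gd ν N j0 d ω := by
  induction d with
  | zero => unfold Gd; simp
  | succ d ih =>
    have e : Gd ν N j0 (d + 1) ω = Gd ν N j0 d ω * gb ν N (j0 + d) ω := by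
      unfold Gd; rw [Finset.prod_range_succ]; ring
    rw [e, ← ih fun i hi => h i (by omega), show j0 + (d + 1) = (j0 + d) + 1 from rfl,
      Wp_split (hs (j0 + d)).le]
    congr 1
    unfold gb
    have h1 : Eb (N (j0 + d)) (N (j0 + d + 1)) (((j0 + d : ℕ) : ℝ) + 3 * N (j0 + d)) ω := by
      refine event hK (h4 _) (hs _) (c := ((j0 + d : ℕ) : ℝ)) ?_ (h (j0 + d + 1) (by omega))
      refine hj.trans ?_
      exact_mod_cast Nat.le_add_right j0 d
    rw [if_pos h1, one_mul]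

lemma Bev_closed (K : ℝ) {N : ℕ} : IsClosed {ω : Tor | Bev K N ω} := by
  have e : {ω : Tor | Bev K N ω} = {ω : Tor | ∏ p ∈ PP N, ‖1 - zc (ω p) * ((rs N p : ℝ) : ℂ)‖ ^ 2 ≤
      K * (VV N * Real.log N)} := by
    ext ω
    change Bev K N ω ↔ _
    unfold Bev
    rw [Fs_prod]
    rfl
  rw [e]
  refine isClosed_le ?_ continuous_const
  refine continuous_finsetProd _ fun p _ => ?_
  exact ((continuous_const.sub ((zc_cont.comp (continuous_apply p)).mul continuous_const)).norm.pow 2)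

lemma Gd_le {N : ℕ → ℕ} (hs : ∀ j, N j < N (j + 1)) (j0 d : ℕ) (ω : Tor) :
    Gd ν N j0 d ω ≤ Wp ν (PP (N (j0 + d))) ω := by
  induction d with
  | zero => unfold Gd; simp
  | succ d ih =>
    have e : Gd ν N j0 (d + 1) ω = Gd ν N j0 d ω * gb ν N (j0 + d) ω := by
      unfold Gd; rw [Finset.prod_range_succ]; ring
    rw [e, show j0 + (d + 1) = (j0 + d) + 1 from rfl, Wp_split (hs (j0 + d)).le]
    refine mul_le_mul ih ?_ (gb_nonneg _ _ _) (Wp_nonneg _ _)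
    unfold gb
    split_ifs
    · rw [one_mul]
    · rw [zero_mul]; exact Wp_nonneg _ _

lemma Gd_integrable {N : ℕ → ℕ} (h4 : ∀ j, 400 ≤ N j) (hs : ∀ j, N j < N (j + 1)) (j0 d : ℕ) :
    Integrable (Gd ν N j0 d) (Pn ν) := by
  refine (intC (Wp_cont (ν := ν) (PP (N (j0 + d))))).mono'
    ((Gd_meas h4 hs j0 d).mono (cS_le _) le_rfl).aestronglyMeasurable
    (Eventually.of_forall fun ω => ?_)
  rw [Real.norm_eq_abs, abs_of_nonneg (Gd_nonneg _ _ _ _)]
  exact Gd_le hs j0 d ω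

open scoped Classical in
/-- the tilted law gives small mass to the event -/
theorem tilt_bound (hm : Mod ν) {N : ℕ → ℕ} (h4 : ∀ j, 400 ≤ N j) (hs : ∀ j, N j < N (j + 1))
    (hb : ∀ j, ∫ ω, gb ν N j ω ∂(Pn ν) ≤ 35 / 36) {K : ℝ} (hK : 0 < K)
    {j0 : ℕ} (hj : Real.log K ≤ j0) (d : ℕ) {n : ℕ} (hn : N (j0 + d) ≤ n) :
    ∫ ω, (if ∀ i, i ≤ j0 + d → Bev K (N i) ω then (1 : ℝ) else 0) * Wp ν (PP n) ω ∂(Pn ν) ≤
      (35 / 36) ^ d := by
  have hd : Disjoint (Set.Iic (N (j0 + d))) ((blk (N (j0 + d)) n : Finset ℕ) : Set ℕ) := by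
    rw [Set.disjoint_left]
    intro p hp hp2
    have hp' := Finset.mem_coe.1 hp2
    unfold blk at hp'
    have := (Finset.mem_Ioc.1 (Finset.mem_filter.1 hp').1).1
    have hp3 : p ≤ N (j0 + d) := hp
    omega
  have hmul := mul_int (ν := ν) hd (Gd_meas (ν := ν) h4 hs j0 d) (Wp_meas (ν := ν) (B := blk (N (j0 + d)) n)
    subset_rfl)
  rw [int_Wp hm (blk_prime _ _), mul_one] at hmul
  refine le_trans ?_ (hmul.le.trans (Gd_int hm h4 hs hb j0 d))
  refine integral_mono_of_nonneg (Eventually.of_forall fun ω => ?_) ?_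
    (Eventually.of_forall fun ω => ?_)
  · exact mul_nonneg (by split_ifs <;> norm_num) (Wp_nonneg _ _)
  · refine (intC (Wp_cont (ν := ν) (PP n))).mono'
      ((((Gd_meas (ν := ν) h4 hs j0 d).mono (cS_le _) le_rfl).mul (Wp_cont (ν := ν) _).measurable).aestronglyMeasurable)
      (Eventually.of_forall fun ω => ?_)
    rw [Real.norm_eq_abs, abs_of_nonneg (mul_nonneg (Gd_nonneg _ _ _ _) (Wp_nonneg _ _)),
      Wp_split hn]
    exact mul_le_mul_of_nonneg_right (Gd_le hs j0 d ω) (Wp_nonneg _ _)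
  · simp only
    rw [Wp_split hn]
    by_cases h : ∀ i, i ≤ j0 + d → Bev K (N i) ω
    · simp only [if_pos h]
      rw [one_mul, Gd_eq h4 hs hK hj d h]
    · simp only [if_neg h]
      rw [zero_mul]
      exact mul_nonneg (Gd_nonneg _ _ _ _) (Wp_nonneg _ _)

end Pool.Agent.E8helper84.RP
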