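import Pool.Agent.E8helper84.RM.RP4

/-!
Rotations; the normalised mean squares tend to zero almost surely, general laws.
-/

set_option autoImplicit false

namespace Pool.Agent.E8helper84.RP

open MeasureTheory Filter Topology Finset ProbabilityTheory
open scoped ComplexConjugate
open Pool.Agent.E8helper84.RM (rp wp rs blk VV VV_pos rp_nonneg rp_sq rp_cube wp_nonneg log_ge_one wp_eq
  wp_le wp_ge wp_sq rp_le rs_nonneg rs_le rs_sq sum_S3 blk_sub split_primes split_disj sum_inv_le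
  log_VV_le rp_lt PP pw_real Fs mono_N pw kap kap_pos kap_int kap_cont Q_int En_eq norm_En_le Q Zm V V_pos
  V_le Rnd mart int_Zm Zm_nonneg int_Q meas_Q Fl_le pairing Kx Flt s2 Q_nonneg)

/-- rotation of the disc -/
def rotd (u : Circle) (t : Dc) : Dc := ⟨(t : ℂ) * (u : ℂ), by
  have h1 := zc_norm t
  unfold zc at h1
  rw [Metric.mem_closedBall, dist_zero_right, norm_mul, Circle.norm_coe, mul_one]
  exact h1⟩

lemma zc_rotd (u : Circle) (t : Dc) : zc (rotd u t) = zc t * (u : ℂ) := rfl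

lemma rotd_cont (u : Circle) : Continuous (rotd u) := by
  unfold rotd
  exact Continuous.subtype_mk (continuous_subtype_val.mul continuous_const) _

/-- the angle -/
noncomputable def cx (ξ : ℝ) (n : ℕ) : Circle := Circle.exp (-(2 * Real.pi * ξ * Real.log n))

noncomputable def rot (ξ : ℝ) (ω : Tor) : Tor := fun n => rotd (cx ξ n) (ω n)

lemma rot_meas (ξ : ℝ) : Measurable (rot ξ) := by
  unfold rot
  exact measurable_pi_lambda _ fun n => (rotd_cont _).measurable.comp (measurable_pi_apply n)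

/-- rotated laws -/
noncomputable def nux (ν : ℕ → Measure Dc) (ξ : ℝ) (n : ℕ) : Measure Dc := (ν n).map (rotd (cx ξ n))

variable {ν : ℕ → Measure Dc} [∀ n, IsProbabilityMeasure (ν n)]

instance (ξ : ℝ) (n : ℕ) : IsProbabilityMeasure (nux ν ξ n) :=
  Measure.isProbabilityMeasure_map (rotd_cont _).measurable.aemeasurable

lemma rot_map (ξ : ℝ) : (Pn ν).map (rot ξ) = Pn (nux ν ξ) :=
  Measure.infinitePi_map_pi (μ := ν) (f := fun (n : ℕ) (t : Dc) => rotd (cx ξ n) t)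
    (fun n => (rotd_cont _).measurable)

lemma rot_int (ξ : ℝ) {f : Tor → ℝ} (hf : Measurable f) :
    ∫ ω, f (rot ξ ω) ∂(Pn ν) = ∫ ω, f ω ∂(Pn (nux ν ξ)) := by
  rw [← rot_map ξ, integral_map (rot_meas ξ).aemeasurable hf.aestronglyMeasurable]

lemma s2c_nux (ξ : ℝ) (n : ℕ) : s2c (nux ν ξ n) = s2c (ν n) := by
  unfold s2c nux
  rw [integral_map (rotd_cont _).measurable.aemeasurable nc_cont.measurable.aestronglyMeasurable]
  refine integral_congr_ae (Eventually.of_forall fun t => ?_)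
  simp only
  unfold nc
  rw [zc_rotd, norm_mul, Circle.norm_coe, mul_one]

lemma Fs_rot (ω : Tor) (N : ℕ) (a ξ : ℝ) :
    Fs (fun n => zt n ω) N ((a : ℂ) + (2 * Real.pi * ξ : ℝ) * Complex.I) =
      Fs (fun n => zt n (rot ξ ω)) N (a : ℂ) := by
  unfold Fs
  refine Finset.prod_congr rfl fun p _ => ?_
  unfold zt rot
  beta_reduce
  rw [zc_rotd, mul_assoc (zc (ω p))]
  unfold pw cx
  rw [Circle.coe_exp, ← Complex.exp_add]
  congr 3
  push_cast
  ring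

/-- value at the centre -/
lemma Fs_center (ω : Tor) (N : ℕ) :
    ‖Fs (fun n => zt n ω) N ((1 / 2 : ℝ) : ℂ)‖ ^ 2 =
      (∏ p ∈ PP N, (1 + s2c (ν p) / p)) * Wp ν (PP N) ω := by
  unfold Fs Wp
  rw [norm_prod, ← Finset.prod_pow, ← Finset.prod_mul_distrib]
  refine Finset.prod_congr rfl fun p hp => ?_
  have hpp := (Finset.mem_filter.1 hp).2.pos
  have hp' : (0 : ℝ) < p := by exact_mod_cast hpp
  have hs := s2c_nonneg (ν := ν p)
  have e : pw p ((1 / 2 : ℝ) : ℂ) = ((rp p : ℝ) : ℂ) := by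
    unfold pw rp
    rw [← Complex.ofReal_neg, ← Complex.ofReal_mul, ← Complex.ofReal_exp, Real.rpow_def_of_pos hp']
    congr 2
    ring
  rw [e]
  unfold dl
  rw [rp_sq, mul_one_div]
  have : 1 + s2c (ν p) / (p : ℝ) ≠ 0 := by positivity
  rw [mul_div_cancel₀ _ this]
  rfl

/-- the square of the Euler product -/
noncomputable def Tx (N : ℕ) (ω : Tor) (ξ : ℝ) : ℝ :=
  ‖Fs (fun n => zt n ω) N (((1 / 2 : ℝ) : ℂ) + (2 * Real.pi * ξ : ℝ) * Complex.I)‖ ^ 2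

lemma Tx_cont (N : ℕ) : Continuous (fun x : Tor × ℝ => Tx N x.1 x.2) := by
  unfold Tx Fs zt pw
  refine Continuous.pow (Continuous.norm (continuous_finsetProd _ fun p _ => ?_)) 2
  refine continuous_const.sub (Continuous.mul ?_ ?_)
  · exact zc_cont.comp ((continuous_apply p).comp continuous_fst)
  · fun_prop

lemma Tx_nonneg (N : ℕ) (ω : Tor) (ξ : ℝ) : 0 ≤ Tx N ω ξ := by unfold Tx; positivity

lemma Tx_bound (N : ℕ) (ω : Tor) (ξ : ℝ) : Tx N ω ξ ≤ 4 ^ (PP N).card := by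
  unfold Tx Fs
  rw [norm_prod, ← Finset.prod_pow, ← Finset.prod_const]
  refine Finset.prod_le_prod (fun p _ => by positivity) fun p hp => ?_
  have hpp := (Finset.mem_filter.1 hp).2.pos
  have h1 : ‖zt p ω * pw p (((1 / 2 : ℝ) : ℂ) + (2 * Real.pi * ξ : ℝ) * Complex.I)‖ ≤ 1 := by
    rw [norm_mul, ← En_eq]
    have h2 : ‖zt p ω‖ ≤ 1 := zc_norm _
    exact mul_le_one₀ h2 (norm_nonneg _) (norm_En_le hpp ξ)
  have h3 : ‖1 - zt p ω * pw p (((1 / 2 : ℝ) : ℂ) + (2 * Real.pi * ξ : ℝ) * Complex.I)‖ ≤ 2 := by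
    refine (norm_sub_le _ _).trans ?_
    rw [norm_one]
    linarith
  calc _ ≤ (2 : ℝ) ^ 2 := pow_le_pow_left₀ (norm_nonneg _) h3 2
    _ = 4 := by norm_num

lemma prodInt (A : Set Tor) (N : ℕ) : Integrable (fun x : Tor × ℝ => kap x.2 * Tx N x.1 x.2)
    (((Pn ν).restrict A).prod volume) := by
  have hd : Integrable (fun x : Tor × ℝ => (4 : ℝ) ^ (PP N).card * kap x.2)
      (((Pn ν).restrict A).prod volume) :=
    (integrable_const ((4 : ℝ) ^ (PP N).card)).mul_prod kap_int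
  refine hd.mono' ?_ (Eventually.of_forall fun x => ?_)
  · have h1 := Tx_cont N
    have h2 : Continuous fun x : Tor × ℝ => kap x.2 := kap_cont.comp continuous_snd
    exact (h2.mul h1).aestronglyMeasurable
  · rw [Real.norm_eq_abs]
    rw [abs_of_nonneg (mul_nonneg (kap_pos _).le (Tx_nonneg _ _ _)), mul_comm]
    exact mul_le_mul_of_nonneg_right (Tx_bound _ _ _) (kap_pos _).le

/-- Fubini -/
theorem fub (A : Set Tor) (N : ℕ) :
    ∫ ω in A, Q N (fun n => zt n ω) ∂(Pn ν) = ∫ ξ : ℝ, ∫ ω in A, kap ξ * Tx N ω ξ ∂(Pn ν) := by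
  have e : ∀ ω : Tor, Q N (fun n => zt n ω) = ∫ ξ : ℝ, kap ξ * Tx N ω ξ := fun ω => Q_int _ N
  simp_rw [e]
  exact integral_integral_swap (f := fun (ω : Tor) (ξ : ℝ) => kap ξ * Tx N ω ξ) (prodInt A N)

/-- the random values -/
lemma rndt (hmean : ∀ p : ℕ, p.Prime → ∫ t, zc t ∂(ν p) = 0) : Rnd (Pn ν) zt := by
  refine ⟨fun p _ => ?_, fun p _ ω => ?_, fun p hp => ?_, ?_⟩
  · exact zc_cont.measurable.comp (measurable_pi_apply p)
  · exact zc_norm _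
  · have h2 : MeasurePreserving (Function.eval p) (Pn ν) (ν p) :=
      measurePreserving_eval_infinitePi ν p
    have h3 : ∫ ω : Tor, zc (ω p) ∂(Pn ν) = ∫ t, zc t ∂(ν p) := by
      rw [← h2.map_eq, integral_map h2.measurable.aemeasurable zc_cont.measurable.aestronglyMeasurable]
    rw [hmean p hp] at h3
    exact h3
  · have h1 : iIndepFun (fun (i : ℕ) (ω : Tor) => zc (ω i)) (Pn ν) :=
      iIndepFun_infinitePi (P := ν) (X := fun _ => zc) (fun _ => zc_cont.measurable)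
    exact h1.precomp (g := fun p : Nat.Primes => (p : ℕ)) Subtype.coe_injective

lemma Vt (N : ℕ) : V (Pn ν) zt N = ∏ p ∈ PP N, (1 + s2c (ν p) / p) := by
  unfold V
  refine Finset.prod_congr rfl fun p _ => ?_
  have : s2 (Pn ν) zt p = s2c (ν p) := int_coord (ν := ν) nc_cont p
  rw [this]

noncomputable def Zt (ν : ℕ → Measure Dc) [∀ n, IsProbabilityMeasure (ν n)] (N : ℕ) (ω : Tor) : ℝ :=
  Zm (Pn ν) zt N ω

lemma Qt (N : ℕ) (ω : Tor) : Q N (fun n => zt n ω) = Zt ν N ω * V (Pn ν) zt N := by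
  unfold Zt Zm
  rw [div_mul_cancel₀ _ (V_pos _ _ _).ne']

lemma Zt_nonneg (N : ℕ) (ω : Tor) : 0 ≤ Zt ν N ω := Zm_nonneg _ _ _ _

lemma sub_event (hmean : ∀ p : ℕ, p.Prime → ∫ t, zc t ∂(ν p) = 0) {K : ℝ} {N : ℕ} (hN : 3 ≤ N)
    {ω : Tor} (h : Zt ν N ω ≤ K) (ξ : ℝ) : Bev (Kx K ξ) N (rot ξ ω) := by
  have hlog := log_ge_one hN
  have hV := VV_pos N
  unfold Bev
  rw [← Fs_rot]
  obtain ⟨σ, hσ⟩ : ∃ σ : ℝ, σ = 1 / Real.log N := ⟨_, rfl⟩
  have hσ0 : 0 < σ := by rw [hσ]; positivity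
  have hσ1 : σ ≤ 1 := by rw [hσ, div_le_one (by linarith)]; exact hlog
  obtain ⟨s, hs⟩ : ∃ s : ℂ, s = ((1 / 2 + 1 / Real.log N : ℝ) : ℂ) + (2 * Real.pi * ξ : ℝ) * Complex.I :=
    ⟨_, rfl⟩
  have hre : s.re = 1 / 2 + σ := by
    rw [hs, hσ]
    generalize 1 / 2 + 1 / Real.log N = b
    rw [Complex.add_re, Complex.ofReal_re, Complex.re_ofReal_mul, Complex.I_re, mul_zero, add_zero]
  have him : s.im = 2 * Real.pi * ξ := by
    rw [hs]
    generalize 1 / 2 + 1 / Real.log N = b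
    rw [Complex.add_im, Complex.ofReal_im, Complex.im_ofReal_mul, Complex.I_im, mul_one, zero_add]
  have h1 := pairing (fun n => zt n ω) N hσ0 hre
  rw [← hs]
  refine h1.trans ?_
  have hn : ‖s‖ ^ 2 ≤ 9 / 4 + 4 * Real.pi ^ 2 * ξ ^ 2 := by
    rw [← Complex.normSq_eq_norm_sq, Complex.normSq_apply, hre, him]
    nlinarith
  have h0 : 0 ≤ Zt ν N ω := Zt_nonneg _ _
  have hK : 0 ≤ K := h0.trans h
  have hQ : Q N (fun n => zt n ω) ≤ K * VV N := by
    rw [Qt (ν := ν)]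
    exact mul_le_mul h (V_le (rndt hmean) N) (V_pos _ _ _).le hK
  have h2 : Q N (fun n => zt n ω) / (2 * σ) ≤ K * VV N * Real.log N / 2 := by
    have e : Q N (fun n => zt n ω) / (2 * σ) = Q N (fun n => zt n ω) * (Real.log N / 2) := by
      rw [hσ]; field_simp
    rw [e]
    calc Q N (fun n => zt n ω) * (Real.log N / 2) ≤ K * VV N * (Real.log N / 2) :=
          mul_le_mul_of_nonneg_right hQ (by positivity)
      _ = _ := by ring
  have hQ0 := Q_nonneg N (fun n => zt n ω)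
  calc ‖s‖ ^ 2 * (Q N (fun n => zt n ω) / (2 * σ)) ≤
        (9 / 4 + 4 * Real.pi ^ 2 * ξ ^ 2) * (K * VV N * Real.log N / 2) :=
        mul_le_mul hn h2 (by positivity) (by positivity)
    _ = Kx K ξ * (VV N * Real.log N) := by unfold Kx; ring

/-- the truncated event -/
def Aev (ν : ℕ → Measure Dc) [∀ n, IsProbabilityMeasure (ν n)] (K : ℝ) (n : ℕ) : Set Tor :=
  {ω | ∀ i, i ≤ n → Zt ν i ω ≤ K}

lemma Zt_meas (hmean : ∀ p : ℕ, p.Prime → ∫ t, zc t ∂(ν p) = 0) (N : ℕ) : Measurable (Zt ν N) := by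
  have h : Measurable[Pool.Agent.E8helper84.RM.Fl zt N] (fun ω => Q N (fun k => zt k ω)) := meas_Q N
  unfold Zt Zm
  exact (h.mono (Fl_le (rndt hmean) N) le_rfl).div_const _

lemma Zt_int (hmean : ∀ p : ℕ, p.Prime → ∫ t, zc t ∂(ν p) = 0) (N : ℕ) :
    Integrable (Zt ν N) (Pn ν) := by
  unfold Zt Zm
  exact (int_Q (rndt hmean) N).div_const _

lemma Aev_meas (hmean : ∀ p : ℕ, p.Prime → ∫ t, zc t ∂(ν p) = 0) (K : ℝ) (n : ℕ) :
    MeasurableSet (Aev ν K n) := by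
  have e : Aev ν K n = ⋂ i ∈ Set.Iic n, {ω | Zt ν i ω ≤ K} := by
    ext ω; simp [Aev]
  rw [e]
  exact MeasurableSet.biInter (Set.to_countable _) fun i _ => Zt_meas hmean _ measurableSet_Iic

lemma Tx_eq (N : ℕ) (ω : Tor) (ξ : ℝ) :
    Tx N ω ξ = V (Pn ν) zt N * Wp (nux ν ξ) (PP N) (rot ξ ω) := by
  unfold Tx
  rw [Fs_rot, Fs_center (ν := nux ν ξ), Vt]
  simp_rw [s2c_nux]

lemma Wint (ξ : ℝ) (N : ℕ) : Integrable (fun ω => Wp (nux ν ξ) (PP N) (rot ξ ω)) (Pn ν) := by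
  have h1 : Integrable (Wp (nux ν ξ) (PP N)) ((Pn ν).map (rot ξ)) := by
    rw [rot_map]; exact intC (Wp_cont _)
  exact h1.comp_measurable (rot_meas ξ)

lemma Tx_total {ξ : ℝ} (hm : Mod (nux ν ξ)) (N : ℕ) (A : Set Tor) :
    ∫ ω in A, Tx N ω ξ ∂(Pn ν) ≤ V (Pn ν) zt N := by
  have hV := V_pos (Pn ν) zt N
  simp_rw [Tx_eq (ν := ν)]
  rw [integral_const_mul]
  have h1 : ∫ ω in A, Wp (nux ν ξ) (PP N) (rot ξ ω) ∂(Pn ν) ≤
      ∫ ω, Wp (nux ν ξ) (PP N) (rot ξ ω) ∂(Pn ν) :=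
    setIntegral_le_integral (Wint ξ N) (Eventually.of_forall fun ω => Wp_nonneg _ _)
  rw [rot_int ξ (Wp_cont _).measurable, int_Wp hm (PP_prime N)] at h1
  calc _ ≤ V (Pn ν) zt N * 1 := mul_le_mul_of_nonneg_left h1 hV.le
    _ = _ := mul_one _

open scoped Classical in
lemma inner_bound (hmean : ∀ p : ℕ, p.Prime → ∫ t, zc t ∂(ν p) = 0) {ξ : ℝ} (hm : Mod (nux ν ξ))
    {N : ℕ → ℕ} (h4 : ∀ j, 400 ≤ N j) (hs : ∀ j, N j < N (j + 1))
    (hb : ∀ j, ∫ ω, gb (nux ν ξ) N j ω ∂(Pn (nux ν ξ)) ≤ 35 / 36) {K : ℝ} (hK : 0 < K) (d : ℕ) {n : ℕ}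
    (hn : N (⌈Kx K ξ⌉₊ + d) ≤ n) :
    ∫ ω in Aev ν K n, Tx n ω ξ ∂(Pn ν) ≤ V (Pn ν) zt n * (35 / 36) ^ d := by
  have hV := V_pos (Pn ν) zt n
  have hKx : 0 < Kx K ξ := by unfold Kx; positivity
  have hj : Real.log (Kx K ξ) ≤ ⌈Kx K ξ⌉₊ := by
    have h1 := Real.log_le_sub_one_of_pos hKx
    have h2 := Nat.le_ceil (Kx K ξ)
    linarith
  obtain ⟨J, hJ⟩ : ∃ J : ℕ, J = ⌈Kx K ξ⌉₊ + d := ⟨_, rfl⟩
  have hA := Aev_meas hmean K n
  have hB : MeasurableSet {ω : Tor | ∀ i, i ≤ J → Bev (Kx K ξ) (N i) ω} := by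
    have e : {ω : Tor | ∀ i, i ≤ J → Bev (Kx K ξ) (N i) ω} =
        ⋂ i ∈ Set.Iic J, {ω : Tor | Bev (Kx K ξ) (N i) ω} := by
      ext ω; simp
    rw [e]
    exact MeasurableSet.biInter (Set.to_countable _) fun i _ => (Bev_closed _).measurableSet
  obtain ⟨f, hf⟩ : ∃ f : Tor → ℝ, f = fun ω => (if ∀ i, i ≤ J → Bev (Kx K ξ) (N i) ω then (1 : ℝ) else 0) *
      Wp (nux ν ξ) (PP n) ω := ⟨_, rfl⟩
  have hfe : f = Set.indicator {ω : Tor | ∀ i, i ≤ J → Bev (Kx K ξ) (N i) ω} (Wp (nux ν ξ) (PP n)) := by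
    rw [hf]
    funext ω
    by_cases h : ∀ i, i ≤ J → Bev (Kx K ξ) (N i) ω
    · rw [if_pos h, one_mul, Set.indicator_of_mem (by exact h)]
    · rw [if_neg h, zero_mul, Set.indicator_of_notMem (by exact h)]
  have hfm : Measurable f := by
    rw [hfe]; exact (Wp_cont _).measurable.indicator hB
  have hfi : Integrable f (Pn (nux ν ξ)) := by
    rw [hfe]; exact (intC (Wp_cont _)).indicator hB
  have hfn : ∀ ω, 0 ≤ f ω := fun ω => by
    rw [hf]
    exact mul_nonneg (by split_ifs <;> norm_num) (Wp_nonneg _ _)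
  have hfi2 : Integrable (fun ω => f (rot ξ ω)) (Pn ν) := by
    have h1 : Integrable f ((Pn ν).map (rot ξ)) := by rw [rot_map]; exact hfi
    exact h1.comp_measurable (rot_meas ξ)
  have hTi : Integrable (fun ω => Tx n ω ξ) (Pn ν) := by
    simp_rw [Tx_eq (ν := ν)]
    exact (Wint ξ n).const_mul _
  calc ∫ ω in Aev ν K n, Tx n ω ξ ∂(Pn ν)
      = ∫ ω, (Aev ν K n).indicator (fun ω => Tx n ω ξ) ω ∂(Pn ν) := (integral_indicator hA).symm
    _ ≤ ∫ ω, V (Pn ν) zt n * f (rot ξ ω) ∂(Pn ν) := by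
        refine integral_mono (hTi.indicator hA) (hfi2.const_mul _) fun ω => ?_
        by_cases h : ω ∈ Aev ν K n
        · rw [Set.indicator_of_mem h, Tx_eq (ν := ν), hf]
          have h2 : ∀ i, i ≤ J → Bev (Kx K ξ) (N i) (rot ξ ω) := fun i hi =>
            sub_event hmean (by have := h4 i; omega)
              (h (N i) ((mono_N hs (by omega : i ≤ ⌈Kx K ξ⌉₊ + d)).trans hn)) ξ
          simp only [if_pos h2]
          rw [one_mul]
        · rw [Set.indicator_of_notMem h]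
          exact mul_nonneg hV.le (hfn _)
    _ = V (Pn ν) zt n * ∫ ω, f ω ∂(Pn (nux ν ξ)) := by rw [integral_const_mul, rot_int ξ hfm]
    _ ≤ V (Pn ν) zt n * (35 / 36) ^ d := by
        refine mul_le_mul_of_nonneg_left ?_ hV.le
        rw [hf, hJ]
        exact tilt_bound hm h4 hs hb hKx hj d hn

/-- the mass on the truncated event -/
theorem tilt_lim (hmean : ∀ p : ℕ, p.Prime → ∫ t, zc t ∂(ν p) = 0)
    (hm : ∀ᵐ ξ : ℝ, Mod (nux ν ξ)) {K : ℝ} (hK : 0 < K) :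
    Tendsto (fun n : ℕ => ∫ ω in Aev ν K n, Zt ν n ω ∂(Pn ν)) atTop (𝓝 0) := by
  obtain ⟨F, hF⟩ : ∃ F : ℕ → ℝ → ℝ, F = fun n ξ =>
      (1 / V (Pn ν) zt n) * ∫ ω in Aev ν K n, kap ξ * Tx n ω ξ ∂(Pn ν) := ⟨_, rfl⟩
  have e : ∀ n, ∫ ω in Aev ν K n, Zt ν n ω ∂(Pn ν) = ∫ ξ : ℝ, F n ξ := by
    intro n
    have hV := V_pos (Pn ν) zt n
    have e : ∫ ω in Aev ν K n, Zt ν n ω ∂(Pn ν) =
        (1 / V (Pn ν) zt n) * ∫ ω in Aev ν K n, Q n (fun k => zt k ω) ∂(Pn ν) := by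
      rw [← integral_const_mul]
      refine integral_congr_ae (Eventually.of_forall fun ω => ?_)
      simp only
      rw [Qt (ν := ν)]
      field_simp
    rw [e, fub, ← integral_const_mul, hF]
  simp_rw [e]
  have hF0 : ∀ n ξ, 0 ≤ F n ξ := by
    intro n ξ
    rw [hF]
    have hV := V_pos (Pn ν) zt n
    have h1 : 0 ≤ ∫ ω in Aev ν K n, kap ξ * Tx n ω ξ ∂(Pn ν) :=
      integral_nonneg fun ω => mul_nonneg (kap_pos ξ).le (Tx_nonneg _ _ _)
    positivity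
  have h := tendsto_integral_of_dominated_convergence (μ := (volume : Measure ℝ))
    (F := F) (f := fun _ => (0 : ℝ)) kap (fun n => ?_) kap_int (fun n => ?_) ?_
  · simpa using h
  · rw [hF]
    have h1 := (prodInt (ν := ν) (Aev ν K n) n).integral_prod_right
    exact (h1.const_mul (1 / V (Pn ν) zt n)).aestronglyMeasurable
  · filter_upwards [hm] with ξ hξ
    rw [Real.norm_eq_abs, abs_of_nonneg (hF0 n ξ), hF]
    have hV := V_pos (Pn ν) zt n
    simp only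
    rw [integral_const_mul]
    have h1 := Tx_total hξ n (Aev ν K n)
    have h2 := kap_pos ξ
    calc 1 / V (Pn ν) zt n * (kap ξ * ∫ ω in Aev ν K n, Tx n ω ξ ∂(Pn ν))
        ≤ 1 / V (Pn ν) zt n * (kap ξ * V (Pn ν) zt n) := by gcongr
      _ = kap ξ := by field_simp
  · filter_upwards [hm] with ξ hξ
    obtain ⟨N, h4, hs, hb⟩ := seq_exists hξ
    have hb' : ∀ j, ∫ ω, gb (nux ν ξ) N j ω ∂(Pn (nux ν ξ)) ≤ 35 / 36 := hb
    have hpow : Tendsto (fun d : ℕ => kap ξ * ((35 : ℝ) / 36) ^ d) atTop (𝓝 0) := by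
      have h2 : Tendsto (fun n : ℕ => ((35 : ℝ) / 36) ^ n) atTop (𝓝 0) :=
        tendsto_pow_atTop_nhds_zero_of_lt_one (by norm_num) (by norm_num)
      have := h2.const_mul (kap ξ)
      rwa [mul_zero] at this
    rw [Metric.tendsto_atTop]
    intro ε hε
    obtain ⟨d, hd⟩ := (hpow.eventually (gt_mem_nhds hε)).exists
    refine ⟨N (⌈Kx K ξ⌉₊ + d), fun n hn => ?_⟩
    rw [dist_zero_right, Real.norm_eq_abs, abs_of_nonneg (hF0 n ξ), hF]
    have hV := V_pos (Pn ν) zt n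
    simp only
    rw [integral_const_mul]
    have h1 := inner_bound hmean hξ h4 hs hb' hK d hn
    have h2 := kap_pos ξ
    calc 1 / V (Pn ν) zt n * (kap ξ * ∫ ω in Aev ν K n, Tx n ω ξ ∂(Pn ν))
        ≤ 1 / V (Pn ν) zt n * (kap ξ * (V (Pn ν) zt n * (35 / 36) ^ d)) := by gcongr
      _ = kap ξ * (35 / 36) ^ d := by field_simp
      _ < ε := hd

theorem Zt_zero (hmean : ∀ p : ℕ, p.Prime → ∫ t, zc t ∂(ν p) = 0)
    (hm : ∀ᵐ ξ : ℝ, Mod (nux ν ξ)) : ∀ᵐ ω ∂(Pn ν), Tendsto (fun n => Zt ν n ω) atTop (𝓝 0) := by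
  have hbdd : ∀ n, eLpNorm (Zm (Pn ν) zt n) 1 (Pn ν) ≤ ((1 : NNReal) : ENNReal) := by
    intro n
    rw [eLpNorm_one_eq_lintegral_enorm]
    have h9 := ofReal_integral_norm_eq_lintegral_enorm (Zt_int hmean n)
    change ∫⁻ ω, ‖Zt ν n ω‖ₑ ∂(Pn ν) ≤ _
    rw [← h9]
    have e : ∫ ω, ‖Zt ν n ω‖ ∂(Pn ν) = 1 := by
      refine Eq.trans ?_ (int_Zm (rndt hmean) n)
      refine integral_congr_ae (Eventually.of_forall fun ω => ?_)
      simp only
      rw [Real.norm_eq_abs, abs_of_nonneg (Zt_nonneg n ω)]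
      rfl
    rw [e]
    simp
  have hconv := (mart (rndt hmean)).submartingale.ae_tendsto_limitProcess (R := 1) hbdd
  have hz : ∀ K : ℕ, ∀ᵐ ω ∂(Pn ν), (∀ i, Zt ν i ω ≤ (K : ℝ) + 1) →
      liminf (fun J => ENNReal.ofReal (Zt ν J ω)) atTop = 0 := by
    intro K
    have hA : MeasurableSet {ω : Tor | ∀ i, Zt ν i ω ≤ (K : ℝ) + 1} := by
      have e : {ω : Tor | ∀ i, Zt ν i ω ≤ (K : ℝ) + 1} = ⋂ i, {ω | Zt ν i ω ≤ (K : ℝ) + 1} := by
        ext ω; simp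
      rw [e]
      exact MeasurableSet.iInter fun i => Zt_meas hmean _ measurableSet_Iic
    have h1 : ∀ J, ∫⁻ ω in {ω : Tor | ∀ i, Zt ν i ω ≤ (K : ℝ) + 1}, ENNReal.ofReal (Zt ν J ω) ∂(Pn ν) ≤
        ENNReal.ofReal (∫ ω in Aev ν ((K : ℝ) + 1) J, Zt ν J ω ∂(Pn ν)) := by
      intro J
      calc ∫⁻ ω in {ω : Tor | ∀ i, Zt ν i ω ≤ (K : ℝ) + 1}, ENNReal.ofReal (Zt ν J ω) ∂(Pn ν)
          ≤ ∫⁻ ω in Aev ν ((K : ℝ) + 1) J, ENNReal.ofReal (Zt ν J ω) ∂(Pn ν) :=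
            lintegral_mono_set fun ω hω i _ => hω i
        _ = ENNReal.ofReal (∫ ω in Aev ν ((K : ℝ) + 1) J, Zt ν J ω ∂(Pn ν)) :=
            (ofReal_integral_eq_lintegral_ofReal (Zt_int hmean J).integrableOn
              (Eventually.of_forall fun ω => Zt_nonneg _ _)).symm
    have h2 : Tendsto (fun J => ∫⁻ ω in {ω : Tor | ∀ i, Zt ν i ω ≤ (K : ℝ) + 1},
        ENNReal.ofReal (Zt ν J ω) ∂(Pn ν)) atTop (𝓝 0) := by
      have h3 := ENNReal.tendsto_ofReal (tilt_lim hmean hm (K := (K : ℝ) + 1) (by positivity))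
      rw [ENNReal.ofReal_zero] at h3
      exact tendsto_of_tendsto_of_tendsto_of_le_of_le tendsto_const_nhds h3 (fun _ => bot_le) h1
    have h5 := lintegral_liminf_le (μ := (Pn ν).restrict {ω : Tor | ∀ i, Zt ν i ω ≤ (K : ℝ) + 1})
      (f := fun J ω => ENNReal.ofReal (Zt ν J ω)) (u := atTop)
      (fun J => (Zt_meas hmean J).ennreal_ofReal)
    rw [h2.liminf_eq] at h5
    have h6 : ∫⁻ ω in {ω : Tor | ∀ i, Zt ν i ω ≤ (K : ℝ) + 1},
        liminf (fun J => ENNReal.ofReal (Zt ν J ω)) atTop ∂(Pn ν) = 0 := le_antisymm h5 bot_le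
    rw [lintegral_eq_zero_iff] at h6
    · exact (ae_restrict_iff' hA).1 h6
    · exact Measurable.liminf fun J => (Zt_meas hmean J).ennreal_ofReal
  filter_upwards [hconv, ae_all_iff.2 hz] with ω h1 h2
  obtain ⟨L, hL⟩ : ∃ L : ℝ, L = (Flt (rndt hmean)).limitProcess (Zm (Pn ν) zt) (Pn ν) ω := ⟨_, rfl⟩
  rw [← hL] at h1
  have h1' : Tendsto (fun n => Zt ν n ω) atTop (𝓝 L) := h1
  obtain ⟨B, hB⟩ := h1'.bddAbove_range
  have h3 := h2 ⌈B⌉₊ (fun i => by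
    have h5 : Zt ν i ω ≤ B := hB ⟨i, rfl⟩
    have h6 := Nat.le_ceil B
    linarith)
  have h5 : Tendsto (fun J => ENNReal.ofReal (Zt ν J ω)) atTop (𝓝 (ENNReal.ofReal L)) :=
    ENNReal.tendsto_ofReal h1'
  rw [h5.liminf_eq, ENNReal.ofReal_eq_zero] at h3
  have h6 : 0 ≤ L := ge_of_tendsto' h1' fun n => Zt_nonneg n ω
  have h7 : L = 0 := le_antisymm h3 h6
  rw [h7] at h1'
  exact h1'

end Pool.Agent.E8helper84.RP
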