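import Pool.Agent.E8helper84.RM.RP5

/-!
`∑_{p ≤ N} cos(y log p) / p` is bounded for `y ≠ 0`.
-/

set_option autoImplicit false

namespace Pool.Agent.E8helper84.RP

open MeasureTheory Filter Topology Finset ProbabilityTheory
open scoped ComplexConjugate

lemma prime_two (p : Nat.Primes) : (2 : ℝ) ≤ ((p : ℕ) : ℝ) := by exact_mod_cast p.2.two_le

lemma norm_w (p : Nat.Primes) (s : ℂ) : ‖((p : ℕ) : ℂ) ^ (-s)‖ = ((p : ℕ) : ℝ) ^ (-s.re) := by
  have hp : (0 : ℝ) < ((p : ℕ) : ℝ) := by exact_mod_cast p.2.pos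
  have := Complex.norm_cpow_eq_rpow_re_of_pos hp (-s)
  rw [Complex.neg_re] at this
  rw [← this]
  norm_num

lemma norm_w_le {s : ℂ} (hs : 1 < s.re) (p : Nat.Primes) : ‖((p : ℕ) : ℂ) ^ (-s)‖ ≤ 1 / ((p : ℕ) : ℝ) := by
  rw [norm_w, one_div, ← Real.rpow_neg_one]
  have h2 := prime_two p
  exact Real.rpow_le_rpow_of_exponent_le (by linarith) (by linarith)

lemma sum_w {s : ℂ} (hs : 1 < s.re) : Summable fun p : Nat.Primes => ((p : ℕ) : ℂ) ^ (-s) := by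
  refine Summable.of_norm ?_
  simp_rw [norm_w]
  exact Nat.Primes.summable_rpow.2 (by linarith)

lemma sum_sq : Summable fun p : Nat.Primes => (((p : ℕ) : ℝ) ^ (-2 : ℝ)) :=
  Nat.Primes.summable_rpow.2 (by norm_num)

lemma err_le {s : ℂ} (hs : 1 < s.re) (p : Nat.Primes) :
    ‖-Complex.log (1 - ((p : ℕ) : ℂ) ^ (-s)) - ((p : ℕ) : ℂ) ^ (-s)‖ ≤ ((p : ℕ) : ℝ) ^ (-2 : ℝ) := by
  obtain ⟨w, hw⟩ : ∃ w : ℂ, w = -((p : ℕ) : ℂ) ^ (-s) := ⟨_, rfl⟩
  have h2 := prime_two p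
  have hn : ‖w‖ ≤ 1 / ((p : ℕ) : ℝ) := by rw [hw, norm_neg]; exact norm_w_le hs p
  have hh : 1 / ((p : ℕ) : ℝ) ≤ 1 / 2 := one_div_le_one_div_of_le (by norm_num) h2
  have h1 := Complex.norm_log_one_add_sub_self_le (z := w) (by linarith)
  have e : -Complex.log (1 - ((p : ℕ) : ℂ) ^ (-s)) - ((p : ℕ) : ℂ) ^ (-s) =
      -(Complex.log (1 + w) - w) := by rw [hw]; ring_nf
  rw [e, norm_neg]
  refine h1.trans ?_
  have h3 : (1 - ‖w‖)⁻¹ ≤ 2 := by
    rw [inv_le_comm₀ (by linarith) (by norm_num)]; linarith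
  have h4 : ‖w‖ ^ 2 ≤ (1 / ((p : ℕ) : ℝ)) ^ 2 := pow_le_pow_left₀ (norm_nonneg _) hn 2
  have h5 : ((p : ℕ) : ℝ) ^ (-2 : ℝ) = (1 / ((p : ℕ) : ℝ)) ^ 2 := by
    rw [Real.rpow_neg (by linarith), one_div, inv_pow]
    norm_num
  rw [h5]
  calc ‖w‖ ^ 2 * (1 - ‖w‖)⁻¹ / 2 ≤ ‖w‖ ^ 2 * 2 / 2 := by gcongr
    _ = ‖w‖ ^ 2 := by ring
    _ ≤ _ := h4

/-- the logarithm of `ζ` and the sum over primes -/
lemma log_zeta {s : ℂ} (hs : 1 < s.re) :
    |Real.log ‖riemannZeta s‖ - (∑' p : Nat.Primes, ((p : ℕ) : ℂ) ^ (-s)).re| ≤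
      ∑' p : Nat.Primes, (((p : ℕ) : ℝ) ^ (-2 : ℝ)) := by
  have hw := sum_w hs
  have herr : Summable fun p : Nat.Primes => (-Complex.log (1 - ((p : ℕ) : ℂ) ^ (-s)) -
      ((p : ℕ) : ℂ) ^ (-s)) := Summable.of_norm_bounded sum_sq (err_le hs)
  have hl : Summable fun p : Nat.Primes => -Complex.log (1 - ((p : ℕ) : ℂ) ^ (-s)) := by
    have := herr.add hw
    refine this.congr fun p => ?_
    ring
  have h1 := riemannZeta_eulerProduct_exp_log hs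
  have h2 : Real.log ‖riemannZeta s‖ =
      (∑' p : Nat.Primes, -Complex.log (1 - ((p : ℕ) : ℂ) ^ (-s))).re := by
    rw [← h1, Complex.norm_exp, Real.log_exp]
  rw [h2, ← Complex.sub_re, ← hl.tsum_sub hw]
  refine (Complex.abs_re_le_norm _).trans ?_
  exact tsum_of_norm_bounded sum_sq.hasSum (err_le hs)

lemma re_w (p : Nat.Primes) (σ y : ℝ) :
    (((p : ℕ) : ℂ) ^ (-(((1 + σ : ℝ) : ℂ) + (y : ℂ) * Complex.I))).re =
      ((p : ℕ) : ℝ) ^ (-(1 + σ) : ℝ) * Real.cos (y * Real.log (p : ℕ)) := by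
  have hp : (0 : ℝ) < ((p : ℕ) : ℝ) := by exact_mod_cast p.2.pos
  have hne : ((p : ℕ) : ℂ) ≠ 0 := by exact_mod_cast p.2.ne_zero
  rw [Complex.cpow_def_of_ne_zero hne, ← Complex.natCast_log, Real.rpow_def_of_pos hp]
  generalize Real.log (p : ℕ) = l
  have e : ((l : ℝ) : ℂ) * (-(((1 + σ : ℝ) : ℂ) + (y : ℂ) * Complex.I)) =
      ((l * -(1 + σ) : ℝ) : ℂ) + ((-(y * l) : ℝ) : ℂ) * Complex.I := by
    push_cast; ring
  rw [e, Complex.exp_re, Complex.add_re, Complex.add_im, Complex.ofReal_re, Complex.ofReal_im,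
    Complex.re_ofReal_mul, Complex.im_ofReal_mul, Complex.I_re, Complex.I_im]
  rw [mul_zero, add_zero, zero_add, mul_one, Real.cos_neg]

open Pool.Agent.E8helper84.RM (log_ge_one)

/-- finite sums -/
lemma fin_bound {C1 C0 : ℝ} (hC1 : ∀ N : ℕ, 3 ≤ N →
    |∑ p ∈ (Icc 1 N).filter Nat.Prime, (1 : ℝ) / p - Real.log (Real.log N)| ≤ C1)
    (hC0 : ∀ N : ℕ, 1 ≤ N → |∑ p ∈ (Icc 1 N).filter Nat.Prime, Real.log p / p - Real.log N| ≤ C0)
    {N : ℕ} (hN : 3 ≤ N) (y : ℝ) :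
    |∑ p ∈ (Icc 1 N).filter Nat.Prime, Real.cos (y * Real.log p) / p| ≤
      |Real.log ‖riemannZeta (((1 + 1 / Real.log N : ℝ) : ℂ) + (y : ℂ) * Complex.I)‖| +
      Real.log ‖riemannZeta (((1 + 1 / Real.log N : ℝ) : ℂ) + ((0 : ℝ) : ℂ) * Complex.I)‖ -
      Real.log (Real.log N) + C1 + 2 * (1 + C0) +
      2 * ∑' p : Nat.Primes, (((p : ℕ) : ℝ) ^ (-2 : ℝ)) := by
  have hlog := log_ge_one hN
  obtain ⟨σ, hσ⟩ : ∃ σ : ℝ, σ = 1 / Real.log N := ⟨_, rfl⟩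
  have hσ0 : 0 < σ := by rw [hσ]; positivity
  rw [← hσ]
  obtain ⟨T, hT⟩ : ∃ T : Finset Nat.Primes, T = (Icc 1 N).subtype Nat.Prime := ⟨_, rfl⟩
  have conv : ∀ f : ℕ → ℝ, ∑ p ∈ (Icc 1 N).filter Nat.Prime, f p = ∑ p ∈ T, f (p : ℕ) := by
    intro f
    rw [hT]
    exact (Finset.sum_subtype_eq_sum_filter f).symm
  have hs : ∀ y : ℝ, 1 < ((((1 + σ : ℝ) : ℂ) + (y : ℂ) * Complex.I)).re := by
    intro y
    rw [Complex.add_re, Complex.ofReal_re, Complex.re_ofReal_mul, Complex.I_re, mul_zero, add_zero]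
    linarith
  have hre : ∀ y : ℝ, (∑' p : Nat.Primes, ((p : ℕ) : ℂ) ^ (-(((1 + σ : ℝ) : ℂ) + (y : ℂ) * Complex.I))).re =
      ∑' p : Nat.Primes, ((p : ℕ) : ℝ) ^ (-(1 + σ) : ℝ) * Real.cos (y * Real.log (p : ℕ)) := by
    intro y
    rw [Complex.re_tsum (sum_w (hs y))]
    exact tsum_congr fun p => re_w p σ y
  have hG : ∀ y : ℝ, Summable fun p : Nat.Primes =>
      ((p : ℕ) : ℝ) ^ (-(1 + σ) : ℝ) * Real.cos (y * Real.log (p : ℕ)) := by
    intro y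
    refine Summable.of_norm_bounded (g := fun p : Nat.Primes => ((p : ℕ) : ℝ) ^ (-(1 + σ) : ℝ))
      (Nat.Primes.summable_rpow.2 (by linarith)) fun p => ?_
    rw [norm_mul, Real.norm_eq_abs, Real.norm_eq_abs, abs_of_nonneg (by positivity)]
    exact mul_le_of_le_one_right (by positivity) (Real.abs_cos_le_one _)
  have hP : Summable fun p : Nat.Primes => ((p : ℕ) : ℝ) ^ (-(1 + σ) : ℝ) :=
    Nat.Primes.summable_rpow.2 (by linarith)
  have z1 := abs_le.1 (log_zeta (hs y))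
  have z0 := abs_le.1 (log_zeta (hs 0))
  rw [hre] at z1 z0
  simp only [zero_mul, Real.cos_zero, mul_one] at z0
  obtain ⟨C2, hC2⟩ : ∃ C2 : ℝ, C2 = ∑' p : Nat.Primes, (((p : ℕ) : ℝ) ^ (-2 : ℝ)) := ⟨_, rfl⟩
  rw [← hC2] at z1 z0 ⊢
  -- splitting
  have s1 := (hG y).sum_add_tsum_compl (s := T)
  have s0 := hP.sum_add_tsum_compl (s := T)
  have htail : |∑' p : ((T : Set Nat.Primes)ᶜ : Set Nat.Primes),
      (((p : Nat.Primes) : ℕ) : ℝ) ^ (-(1 + σ) : ℝ) * Real.cos (y * Real.log ((p : Nat.Primes) : ℕ))| ≤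
      ∑' p : ((T : Set Nat.Primes)ᶜ : Set Nat.Primes), (((p : Nat.Primes) : ℕ) : ℝ) ^ (-(1 + σ) : ℝ) := by
    rw [← Real.norm_eq_abs]
    have hb : ∀ p : ((T : Set Nat.Primes)ᶜ : Set Nat.Primes),
        ‖(((p : Nat.Primes) : ℕ) : ℝ) ^ (-(1 + σ) : ℝ) * Real.cos (y * Real.log ((p : Nat.Primes) : ℕ))‖ ≤
        (((p : Nat.Primes) : ℕ) : ℝ) ^ (-(1 + σ) : ℝ) := by
      intro p
      rw [norm_mul, Real.norm_eq_abs, Real.norm_eq_abs, abs_of_nonneg (by positivity)]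
      exact mul_le_of_le_one_right (by positivity) (Real.abs_cos_le_one _)
    have hh : HasSum (fun p : ((T : Set Nat.Primes)ᶜ : Set Nat.Primes) =>
        (((p : Nat.Primes) : ℕ) : ℝ) ^ (-(1 + σ) : ℝ))
        (∑' p : ((T : Set Nat.Primes)ᶜ : Set Nat.Primes), (((p : Nat.Primes) : ℕ) : ℝ) ^ (-(1 + σ) : ℝ)) :=
      (hP.subtype _).hasSum
    exact tsum_of_norm_bounded hh hb
  -- pointwise comparison
  have hpt : ∀ p : Nat.Primes, 0 ≤ 1 / ((p : ℕ) : ℝ) - ((p : ℕ) : ℝ) ^ (-(1 + σ) : ℝ) ∧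
      1 / ((p : ℕ) : ℝ) - ((p : ℕ) : ℝ) ^ (-(1 + σ) : ℝ) ≤ σ * (Real.log (p : ℕ) / (p : ℕ)) := by
    intro p
    have hp : (0 : ℝ) < ((p : ℕ) : ℝ) := by exact_mod_cast p.2.pos
    have h2 := prime_two p
    have e : ((p : ℕ) : ℝ) ^ (-(1 + σ) : ℝ) = 1 / ((p : ℕ) : ℝ) * Real.exp (-(σ * Real.log (p : ℕ))) := by
      rw [show (-(1 + σ) : ℝ) = -1 + -σ by ring, Real.rpow_add hp, Real.rpow_neg_one,
        Real.rpow_def_of_pos hp, one_div]
      congr 2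
      ring
    have hl : 0 ≤ Real.log (p : ℕ) := Real.log_natCast_nonneg _
    rw [e]
    have h3 : Real.exp (-(σ * Real.log (p : ℕ))) ≤ 1 := by
      rw [Real.exp_le_one_iff]; nlinarith
    have h4 := Real.add_one_le_exp (-(σ * Real.log (p : ℕ)))
    have h5 : 0 < 1 / ((p : ℕ) : ℝ) := by positivity
    constructor
    · nlinarith
    · have e2 : σ * (Real.log (p : ℕ) / ((p : ℕ) : ℝ)) = 1 / ((p : ℕ) : ℝ) * (σ * Real.log (p : ℕ)) := by ring
      rw [e2]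
      nlinarith
  have hsum1 : ∑ p ∈ T, σ * (Real.log (p : ℕ) / ((p : ℕ) : ℝ)) ≤ 1 + C0 := by
    rw [← Finset.mul_sum, ← conv fun n => Real.log n / n]
    have a0 := (abs_le.1 (hC0 N (by omega))).2
    have h5 : ∑ p ∈ (Icc 1 N).filter Nat.Prime, Real.log p / p ≤ (1 + C0) * Real.log N := by
      have hC0n : 0 ≤ C0 := (abs_nonneg _).trans (hC0 3 (by norm_num))
      nlinarith
    have h6 : σ * ∑ p ∈ (Icc 1 N).filter Nat.Prime, Real.log p / p ≤ σ * ((1 + C0) * Real.log N) :=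
      mul_le_mul_of_nonneg_left h5 hσ0.le
    have h7 : σ * ((1 + C0) * Real.log N) = 1 + C0 := by rw [hσ]; field_simp
    linarith
  have hdiff : |∑ p ∈ T, Real.cos (y * Real.log (p : ℕ)) / ((p : ℕ) : ℝ) -
      ∑ p ∈ T, ((p : ℕ) : ℝ) ^ (-(1 + σ) : ℝ) * Real.cos (y * Real.log (p : ℕ))| ≤ 1 + C0 := by
    rw [← Finset.sum_sub_distrib]
    refine (Finset.abs_sum_le_sum_abs _ _).trans ((Finset.sum_le_sum fun p _ => ?_).trans hsum1)
    have e : Real.cos (y * Real.log (p : ℕ)) / ((p : ℕ) : ℝ) -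
        ((p : ℕ) : ℝ) ^ (-(1 + σ) : ℝ) * Real.cos (y * Real.log (p : ℕ)) =
        (1 / ((p : ℕ) : ℝ) - ((p : ℕ) : ℝ) ^ (-(1 + σ) : ℝ)) * Real.cos (y * Real.log (p : ℕ)) := by ring
    rw [e, abs_mul, abs_of_nonneg (hpt p).1]
    exact (mul_le_of_le_one_right (hpt p).1 (Real.abs_cos_le_one _)).trans (hpt p).2
  have hdiff0 : ∑ p ∈ T, 1 / ((p : ℕ) : ℝ) - ∑ p ∈ T, ((p : ℕ) : ℝ) ^ (-(1 + σ) : ℝ) ≤ 1 + C0 := by
    rw [← Finset.sum_sub_distrib]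
    exact (Finset.sum_le_sum fun p _ => (hpt p).2).trans hsum1
  have a1 := abs_le.1 (hC1 N hN)
  rw [conv fun n => (1 : ℝ) / n] at a1
  rw [conv fun n => Real.cos (y * Real.log n) / n]
  have hd := abs_le.1 hdiff
  have ht := abs_le.1 htail
  have habs1 := le_abs_self (Real.log ‖riemannZeta (((1 + σ : ℝ) : ℂ) + (y : ℂ) * Complex.I)‖)
  have habs2 := neg_abs_le (Real.log ‖riemannZeta (((1 + σ : ℝ) : ℂ) + (y : ℂ) * Complex.I)‖)
  rw [abs_le]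
  constructor
  · linarith [z1.1, z1.2, z0.1, z0.2, a1.1, a1.2, hd.1, hd.2, ht.1, ht.2]
  · linarith [z1.1, z1.2, z0.1, z0.2, a1.1, a1.2, hd.1, hd.2, ht.1, ht.2]

theorem cos_sum {y : ℝ} (hy : y ≠ 0) : ∃ c : ℝ, ∀ N : ℕ,
    |∑ p ∈ (Icc 1 N).filter Nat.Prime, Real.cos (y * Real.log p) / p| ≤ c := by
  obtain ⟨C1, hC1⟩ := Pool.Agent.Erdos456.Mert.mertens_inv
  obtain ⟨C0, hC0⟩ := Pool.Agent.Erdos456.Mert.mertens_log
  -- the limits
  have hσ : Tendsto (fun N : ℕ => 1 / Real.log N) atTop (𝓝[>] 0) := by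
    have h1 : Tendsto (fun N : ℕ => Real.log N) atTop atTop :=
      Real.tendsto_log_atTop.comp tendsto_natCast_atTop_atTop
    have h2 := tendsto_inv_atTop_nhdsGT_zero.comp h1
    refine h2.congr fun N => ?_
    simp
  have hζy : Tendsto (fun σ : ℝ => ‖riemannZeta (((1 + σ : ℝ) : ℂ) + (y : ℂ) * Complex.I)‖) (𝓝[>] 0)
      (𝓝 ‖riemannZeta (((1 : ℝ) : ℂ) + (y : ℂ) * Complex.I)‖) := by
    have hne : ((1 : ℝ) : ℂ) + (y : ℂ) * Complex.I ≠ 1 := by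
      intro h
      have := congrArg Complex.im h
      simp at this
      exact hy this
    have hc : ContinuousAt riemannZeta (((1 : ℝ) : ℂ) + (y : ℂ) * Complex.I) :=
      (differentiableAt_riemannZeta hne).continuousAt
    have h1 : Tendsto (fun σ : ℝ => ((1 + σ : ℝ) : ℂ) + (y : ℂ) * Complex.I) (𝓝[>] 0)
        (𝓝 (((1 : ℝ) : ℂ) + (y : ℂ) * Complex.I)) := by
      have h2 : Continuous fun σ : ℝ => ((1 + σ : ℝ) : ℂ) + (y : ℂ) * Complex.I := by fun_prop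
      have h3 := h2.tendsto 0
      simp only [add_zero] at h3
      exact h3.mono_left nhdsWithin_le_nhds
    exact (hc.tendsto.comp h1).norm
  have hpos : 0 < ‖riemannZeta (((1 : ℝ) : ℂ) + (y : ℂ) * Complex.I)‖ := by
    rw [norm_pos_iff]
    apply riemannZeta_ne_zero_of_one_le_re
    rw [Complex.add_re, Complex.ofReal_re, Complex.re_ofReal_mul, Complex.I_re]
    norm_num
  have hlogy : Tendsto (fun σ : ℝ => |Real.log ‖riemannZeta (((1 + σ : ℝ) : ℂ) + (y : ℂ) * Complex.I)‖|)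
      (𝓝[>] 0) (𝓝 |Real.log ‖riemannZeta (((1 : ℝ) : ℂ) + (y : ℂ) * Complex.I)‖|) :=
    ((Real.continuousAt_log hpos.ne').tendsto.comp hζy).abs
  have hζ0 : Tendsto (fun σ : ℝ => ‖((((1 + σ : ℝ) : ℂ) + ((0 : ℝ) : ℂ) * Complex.I) - 1) *
      riemannZeta (((1 + σ : ℝ) : ℂ) + ((0 : ℝ) : ℂ) * Complex.I)‖) (𝓝[>] 0) (𝓝 ‖(1 : ℂ)‖) := by
    have h1 : Tendsto (fun σ : ℝ => ((1 + σ : ℝ) : ℂ) + ((0 : ℝ) : ℂ) * Complex.I) (𝓝[>] 0) (𝓝[≠] 1) := by
      rw [tendsto_nhdsWithin_iff]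
      constructor
      · have h2 : Continuous fun σ : ℝ => ((1 + σ : ℝ) : ℂ) + ((0 : ℝ) : ℂ) * Complex.I := by fun_prop
        have h3 := h2.tendsto 0
        simp only [add_zero, Complex.ofReal_one, Complex.ofReal_zero, zero_mul] at h3
        exact h3.mono_left nhdsWithin_le_nhds |>.congr fun σ => by simp
      · filter_upwards [self_mem_nhdsWithin] with σ hσ
        have hσ' : 0 < σ := hσ
        simp only [Set.mem_compl_iff, Set.mem_singleton_iff]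
        intro h
        have := congrArg Complex.re h
        simp at this
        linarith
    exact (riemannZeta_residue_one.comp h1).norm
  have e1 := (hlogy.comp hσ).eventually (gt_mem_nhds (lt_add_one _))
  have e2 := (hζ0.comp hσ).eventually (gt_mem_nhds (by rw [norm_one]; norm_num : ‖(1 : ℂ)‖ < 2))
  obtain ⟨N0, hN0⟩ := eventually_atTop.1 ((e1.and e2).and (eventually_ge_atTop 3))
  obtain ⟨C2, hC2⟩ : ∃ C2 : ℝ, C2 = ∑' p : Nat.Primes, (((p : ℕ) : ℝ) ^ (-2 : ℝ)) := ⟨_, rfl⟩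
  refine ⟨max (N0 : ℝ) (|Real.log ‖riemannZeta (((1 : ℝ) : ℂ) + (y : ℂ) * Complex.I)‖| + 1 +
    Real.log 2 + C1 + 2 * (1 + C0) + 2 * C2), fun N => ?_⟩
  rcases Nat.lt_or_ge N N0 with hlt | hge
  · refine le_max_of_le_left ?_
    refine (Finset.abs_sum_le_sum_abs _ _).trans ?_
    have h1 : ∑ p ∈ (Icc 1 N).filter Nat.Prime, |Real.cos (y * Real.log p) / p| ≤
        ∑ p ∈ (Icc 1 N).filter Nat.Prime, (1 : ℝ) / p := by
      refine Finset.sum_le_sum fun p _ => ?_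
      rw [abs_div, abs_of_nonneg (Nat.cast_nonneg p : (0 : ℝ) ≤ p)]
      have := Real.abs_cos_le_one (y * Real.log p)
      gcongr
    refine h1.trans ((Pool.Agent.E8helper84.RM.sum_inv_le N).trans ?_)
    exact_mod_cast hlt.le
  · refine le_max_of_le_right ?_
    obtain ⟨⟨g1, g2⟩, g3⟩ := hN0 N hge
    simp only [Function.comp_apply] at g1 g2
    have hlog := log_ge_one g3
    have hmain := fin_bound hC1 hC0 g3 y
    rw [← hC2] at hmain
    have h5 : Real.log ‖riemannZeta (((1 + 1 / Real.log N : ℝ) : ℂ) + ((0 : ℝ) : ℂ) * Complex.I)‖ ≤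
        Real.log 2 + Real.log (Real.log N) := by
      obtain ⟨Z, hZ⟩ : ∃ Z : ℝ, Z = ‖riemannZeta (((1 + 1 / Real.log N : ℝ) : ℂ) +
        ((0 : ℝ) : ℂ) * Complex.I)‖ := ⟨_, rfl⟩
      rw [norm_mul, ← hZ] at g2
      have e3 : ‖((1 + 1 / Real.log N : ℝ) : ℂ) + ((0 : ℝ) : ℂ) * Complex.I - 1‖ = 1 / Real.log N := by
        have : ((1 + 1 / Real.log N : ℝ) : ℂ) + ((0 : ℝ) : ℂ) * Complex.I - 1 =
            ((1 / Real.log N : ℝ) : ℂ) := by push_cast; ring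
        rw [this, Complex.norm_real, Real.norm_eq_abs, abs_of_pos (by positivity)]
      rw [e3] at g2
      have h6 : Z ≤ 2 * Real.log N := by
        have : 1 / Real.log N * Z * Real.log N = Z := by field_simp
        nlinarith
      have hZ0 : 0 < Z := by
        rw [hZ, norm_pos_iff]
        apply riemannZeta_ne_zero_of_one_le_re
        rw [Complex.add_re, Complex.ofReal_re, Complex.re_ofReal_mul, Complex.I_re, mul_zero, add_zero]
        have : 0 < 1 / Real.log N := by positivity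
        linarith
      rw [← hZ, ← Real.log_mul (by norm_num) (by linarith)]
      exact Real.log_le_log hZ0 h6
    linarith

end Pool.Agent.E8helper84.RP
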