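import Pool.Agent.E8helper84.RM.RPs

/-!
General random twists: transfer to an arbitrary probability space.
-/

set_option autoImplicit false

namespace Pool.Agent.E8helper84.RP

open MeasureTheory Filter Topology Finset ProbabilityTheory
open scoped ComplexConjugate
open Pool.Agent.E8helper84.RM (Rnd prod_bound I_le_Zm Zm V I_nonneg Q tw)

section laws

variable {ν : ℕ → Measure Dc} [∀ n, IsProbabilityMeasure (ν n)]

/-- second moment -/
noncomputable def mm (ν : Measure Dc) : ℂ := ∫ t, (zc t) ^ 2 ∂ν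

lemma bc_nux (ξ : ℝ) (p : ℕ) : bc (nux ν ξ p) = (mm (ν p) * ((cx ξ p : Circle) : ℂ) ^ 2).re := by
  unfold bc nux mm
  rw [integral_map (rotd_cont _).measurable.aemeasurable rc_cont.measurable.aestronglyMeasurable,
    ← integral_mul_const]
  have e : ∀ t, rc (rotd (cx ξ p) t) = ((zc t) ^ 2 * ((cx ξ p : Circle) : ℂ) ^ 2).re := fun t => by
    unfold rc; rw [zc_rotd, mul_pow]
  simp_rw [e]
  have hc : Continuous fun t : Dc => (zc t) ^ 2 * ((cx ξ p : Circle) : ℂ) ^ 2 :=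
    (zc_cont.pow 2).mul continuous_const
  have h := Complex.reCLM.integral_comp_comm (integrable_of_cont (ν := ν p) hc)
  simpa using h

lemma mean_nux (ξ : ℝ) {p : ℕ} (h : ∫ t, zc t ∂(ν p) = 0) : ∫ t, zc t ∂(nux ν ξ p) = 0 := by
  unfold nux
  rw [integral_map (rotd_cont _).measurable.aemeasurable zc_cont.measurable.aestronglyMeasurable]
  simp_rw [zc_rotd]
  rw [integral_mul_const, h, zero_mul]

lemma cx_sq_re (ξ : ℝ) (p : ℕ) : (((cx ξ p : Circle) : ℂ) ^ 2).re = Real.cos (4 * Real.pi * ξ * Real.log p) := by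
  unfold cx
  rw [Circle.coe_exp, ← Complex.exp_nat_mul]
  have e : (((2 : ℕ) : ℂ) * (((-(2 * Real.pi * ξ * Real.log p) : ℝ) : ℂ) * Complex.I)) =
      ((-(4 * Real.pi * ξ * Real.log p) : ℝ) : ℂ) * Complex.I := by push_cast; ring
  rw [e, Complex.exp_ofReal_mul_I_re, Real.cos_neg]

lemma cx_sq_im (ξ : ℝ) (p : ℕ) : (((cx ξ p : Circle) : ℂ) ^ 2).im = -Real.sin (4 * Real.pi * ξ * Real.log p) := by
  unfold cx
  rw [Circle.coe_exp, ← Complex.exp_nat_mul]
  have e : (((2 : ℕ) : ℂ) * (((-(2 * Real.pi * ξ * Real.log p) : ℝ) : ℂ) * Complex.I)) =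
      ((-(4 * Real.pi * ξ * Real.log p) : ℝ) : ℂ) * Complex.I := by push_cast; ring
  rw [e, Complex.exp_ofReal_mul_I_im, Real.sin_neg]

theorem mod_of (hmean : ∀ p : ℕ, p.Prime → ∫ t, zc t ∂(ν p) = 0)
    {m : ℂ} {c1 c3 : ℝ} (hs2 : ∀ N : ℕ, ∑ p ∈ (Icc 1 N).filter Nat.Prime, (1 - s2c (ν p)) / p ≤ c3)
    (hsum : ∀ N : ℕ, ∑ p ∈ (Icc 1 N).filter Nat.Prime, ‖mm (ν p) - m‖ / p ≤ c1) {ξ : ℝ}
    (hξ : ξ ≠ 0) : Mod (nux ν ξ) := by
  refine ⟨fun p hp => mean_nux ξ (hmean p hp), ⟨c3, fun N => ?_⟩, ?_⟩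
  · simp_rw [s2c_nux]; exact hs2 N
  · have hy : 4 * Real.pi * ξ ≠ 0 := by
      have := Real.pi_pos
      positivity
    obtain ⟨c2, hc2⟩ := cos_sum hy
    obtain ⟨c4, hc4⟩ := sin_sum hy
    refine ⟨c1 + |m.re| * c2 + |m.im| * c4, fun N => ?_⟩
    have hpt : ∀ p ∈ (Icc 1 N).filter Nat.Prime,
        m.re * (Real.cos (4 * Real.pi * ξ * Real.log p) / p) +
          m.im * (Real.sin (4 * Real.pi * ξ * Real.log p) / p) - ‖mm (ν p) - m‖ / p ≤
          bc (nux ν ξ p) / p := by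
      intro p hp
      have hp0 : (0 : ℝ) < p := by exact_mod_cast (Finset.mem_filter.1 hp).2.pos
      rw [bc_nux]
      have e : mm (ν p) * ((cx ξ p : Circle) : ℂ) ^ 2 =
          (mm (ν p) - m) * ((cx ξ p : Circle) : ℂ) ^ 2 + m * ((cx ξ p : Circle) : ℂ) ^ 2 := by
        ring
      have h0 : (m * ((cx ξ p : Circle) : ℂ) ^ 2).re = m.re * Real.cos (4 * Real.pi * ξ * Real.log p) +
          m.im * Real.sin (4 * Real.pi * ξ * Real.log p) := by
        rw [Complex.mul_re, cx_sq_re, cx_sq_im]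
        ring
      rw [e, Complex.add_re, h0]
      have h1 : -‖mm (ν p) - m‖ ≤ ((mm (ν p) - m) * ((cx ξ p : Circle) : ℂ) ^ 2).re := by
        have h2 := (abs_le.1 (Complex.abs_re_le_norm ((mm (ν p) - m) * ((cx ξ p : Circle) : ℂ) ^ 2))).1
        rw [norm_mul, norm_pow, Circle.norm_coe, one_pow, mul_one] at h2
        exact h2
      rw [← mul_div_assoc, ← mul_div_assoc, ← add_div, ← sub_div]
      gcongr
      linarith
    refine le_trans ?_ (Finset.sum_le_sum hpt)
    rw [Finset.sum_sub_distrib, Finset.sum_add_distrib, ← Finset.mul_sum, ← Finset.mul_sum]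
    have h1 := hsum N
    have h2 := hc2 N
    have h2' := hc4 N
    have h3 : |m.re * ∑ p ∈ (Icc 1 N).filter Nat.Prime, Real.cos (4 * Real.pi * ξ * Real.log p) / p| ≤
        |m.re| * c2 := by
      rw [abs_mul]
      exact mul_le_mul_of_nonneg_left h2 (abs_nonneg _)
    have h3' : |m.im * ∑ p ∈ (Icc 1 N).filter Nat.Prime, Real.sin (4 * Real.pi * ξ * Real.log p) / p| ≤
        |m.im| * c4 := by
      rw [abs_mul]
      exact mul_le_mul_of_nonneg_left h2' (abs_nonneg _)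
    have h4 := (abs_le.1 h3).1
    have h4' := (abs_le.1 h3').1
    linarith

end laws

variable {Ω : Type} [MeasurableSpace Ω] {P : Measure Ω} {z : ℕ → Ω → ℂ}

/-- zero -/
def z0 : Dc := ⟨0, by simp⟩

open scoped Classical in
/-- the values at the primes as a point of the product -/
noncomputable def ph (hz : Rnd P z) (n : ℕ) (ω : Ω) : Dc :=
  if h : n.Prime then ⟨z n ω, by rw [Metric.mem_closedBall, dist_zero_right]; exact hz.bound n h ω⟩ else z0

lemma ph_prime (hz : Rnd P z) {n : ℕ} (h : n.Prime) (ω : Ω) : zc (ph hz n ω) = z n ω := by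
  unfold ph
  rw [dif_pos h]
  rfl

lemma ph_not (hz : Rnd P z) {n : ℕ} (h : ¬ n.Prime) (ω : Ω) : ph hz n ω = z0 := by
  unfold ph
  rw [dif_neg h]

lemma ph_meas (hz : Rnd P z) (n : ℕ) : Measurable (ph hz n) := by
  by_cases h : n.Prime
  · have e : ph hz n = fun ω => (⟨z n ω, by
        rw [Metric.mem_closedBall, dist_zero_right]; exact hz.bound n h ω⟩ : Dc) := by
      funext ω; unfold ph; rw [dif_pos h]
    rw [e]
    exact (hz.meas n h).subtype_mk
  · have e : ph hz n = fun _ => z0 := by funext ω; exact ph_not hz h ω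
    rw [e]
    exact measurable_const

lemma ph_indep [IsProbabilityMeasure P] (hz : Rnd P z) : iIndepFun (fun (n : ℕ) (ω : Ω) => ph hz n ω) P := by
  have h := hz.indep
  rw [iIndepFun_iff_measure_inter_preimage_eq_mul] at h ⊢
  intro S sets hS
  by_cases hall : ∀ n ∈ S, ¬ n.Prime → z0 ∈ sets n
  · have e0 : ∀ p : Nat.Primes, (fun ω => ph hz p ω) ⁻¹' sets p =
        (fun ω => z p ω) ⁻¹' (Subtype.val '' sets p) := by
      intro p
      ext ω
      simp only [Set.mem_preimage, Set.mem_image]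
      have hv : (ph hz p ω : ℂ) = z p ω := ph_prime hz p.2 ω
      constructor
      · intro h; exact ⟨_, h, hv⟩
      · rintro ⟨y, hy, hyz⟩
        have h5 : y = ph hz p ω := Subtype.ext (hyz.trans hv.symm)
        rw [← h5]; exact hy
    have e1 : (⋂ n ∈ S, (fun ω => ph hz n ω) ⁻¹' sets n) =
        ⋂ p ∈ S.subtype Nat.Prime, (fun ω => z (p : ℕ) ω) ⁻¹' (Subtype.val '' sets p) := by
      ext ω
      simp only [Set.mem_iInter, Finset.mem_subtype]
      constructor
      · intro h p hp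
        rw [← e0 p]
        exact h p hp
      · intro h n hn
        by_cases hp : n.Prime
        · have := h ⟨n, hp⟩ hn
          rw [← e0 ⟨n, hp⟩] at this
          exact this
        · rw [Set.mem_preimage, ph_not hz hp]; exact hall n hn hp
    rw [e1]
    have h6 := h (S.subtype Nat.Prime) (sets := fun p : Nat.Primes => Subtype.val '' sets p)
      (fun p hp => MeasurableSet.subtype_image Metric.isClosed_closedBall.measurableSet
        (hS p (Finset.mem_subtype.1 hp)))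
    refine h6.trans ?_
    have h7 : ∀ p ∈ S.subtype Nat.Prime, P ((fun ω => z (p : ℕ) ω) ⁻¹' (Subtype.val '' sets p)) =
        P ((fun ω => ph hz p ω) ⁻¹' sets p) := fun p _ => by rw [e0 p]
    refine (Finset.prod_congr rfl h7).trans ?_
    refine (Finset.prod_subtype_eq_prod_filter
      (fun n : ℕ => P ((fun ω => ph hz n ω) ⁻¹' sets n))).trans ?_
    rw [Finset.prod_filter]
    refine Finset.prod_congr rfl fun n hn => ?_
    by_cases hp : n.Prime
    · rw [if_pos hp]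
    · rw [if_neg hp]
      have e2 : (fun ω => ph hz n ω) ⁻¹' sets n = Set.univ := by
        ext ω
        simp only [Set.mem_preimage, Set.mem_univ, iff_true]
        rw [ph_not hz hp]; exact hall n hn hp
      rw [e2, measure_univ]
  · push Not at hall
    obtain ⟨n, hn, hp, h0⟩ := hall
    have e2 : (fun ω => ph hz n ω) ⁻¹' sets n = ∅ := by
      ext ω
      simp only [Set.mem_preimage, Set.mem_empty_iff_false, iff_false]
      rw [ph_not hz hp]; exact h0
    rw [Finset.prod_eq_zero hn (by rw [e2, measure_empty])]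
    refine measure_mono_null ?_ (measure_empty (μ := P))
    rw [← e2]
    exact Set.biInter_subset_of_mem hn

/-- the normalised martingale tends to zero almost surely -/
theorem Zm_zeroC [IsProbabilityMeasure P] (hz : Rnd P z) {m : ℂ} {c c3 : ℝ}
    (hs2 : ∀ N : ℕ, ∑ p ∈ (Icc 1 N).filter Nat.Prime, (1 - ∫ ω, ‖z p ω‖ ^ 2 ∂P) / p ≤ c3)
    (hsum : ∀ N : ℕ, ∑ p ∈ (Icc 1 N).filter Nat.Prime, ‖∫ ω, (z p ω) ^ 2 ∂P - m‖ / p ≤ c) :
    ∀ᵐ ω ∂P, Tendsto (fun n : ℕ => Zm P z n ω) atTop (𝓝 0) := by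
  obtain ⟨ν, hν⟩ : ∃ ν : ℕ → Measure Dc, ν = fun n => P.map (ph hz n) := ⟨_, rfl⟩
  have : ∀ n, IsProbabilityMeasure (ν n) := fun n => by
    rw [hν]; exact Measure.isProbabilityMeasure_map (ph_meas hz n).aemeasurable
  have hmap : P.map (fun ω n => ph hz n ω) = Pn ν := by
    have h1 := (iIndepFun_iff_map_fun_eq_infinitePi_map (P := P) (ph_meas hz)).1 (ph_indep hz)
    rw [h1]
    unfold Pn
    subst hν
    rfl
  have hint : ∀ p : ℕ, ∀ g : Dc → ℂ, Continuous g → ∫ t, g t ∂(ν p) = ∫ ω, g (ph hz p ω) ∂P := by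
    intro p g hg
    rw [hν]
    exact integral_map (ph_meas hz p).aemeasurable hg.measurable.aestronglyMeasurable
  have hmean : ∀ p : ℕ, p.Prime → ∫ t, zc t ∂(ν p) = 0 := by
    intro p hp
    rw [hint p _ zc_cont, ← hz.mean p hp]
    refine integral_congr_ae (Eventually.of_forall fun ω => ?_)
    exact ph_prime hz hp ω
  have hsc : ∀ p : ℕ, p.Prime → s2c (ν p) = ∫ ω, ‖z p ω‖ ^ 2 ∂P := by
    intro p hp
    unfold s2c
    rw [hν, integral_map (ph_meas hz p).aemeasurable nc_cont.measurable.aestronglyMeasurable]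
    refine integral_congr_ae (Eventually.of_forall fun ω => ?_)
    simp only
    unfold nc
    rw [ph_prime hz hp]
  have hs2' : ∀ N : ℕ, ∑ p ∈ (Icc 1 N).filter Nat.Prime, (1 - s2c (ν p)) / p ≤ c3 := by
    intro N
    refine le_trans (le_of_eq ?_) (hs2 N)
    refine Finset.sum_congr rfl fun p hp => ?_
    rw [hsc p (Finset.mem_filter.1 hp).2]
  have hmm : ∀ p : ℕ, p.Prime → mm (ν p) = ∫ ω, (z p ω) ^ 2 ∂P := by
    intro p hp
    unfold mm
    rw [hint p (fun t => (zc t) ^ 2) (zc_cont.pow 2)]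
    refine integral_congr_ae (Eventually.of_forall fun ω => ?_)
    simp only
    rw [ph_prime hz hp]
  have hsum' : ∀ N : ℕ, ∑ p ∈ (Icc 1 N).filter Nat.Prime, ‖mm (ν p) - m‖ / p ≤ c := by
    intro N
    refine le_trans (le_of_eq ?_) (hsum N)
    refine Finset.sum_congr rfl fun p hp => ?_
    rw [hmm p (Finset.mem_filter.1 hp).2]
  have hMod : ∀ᵐ ξ : ℝ, Mod (nux ν ξ) := by
    have h0 : ∀ᵐ ξ : ℝ, ξ ≠ 0 := by
      rw [ae_iff]
      simp
    filter_upwards [h0] with ξ hξ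
    exact mod_of hmean hs2' hsum' hξ
  have hZ := Zt_zero hmean hMod
  rw [← hmap] at hZ
  have hZ' := ae_of_ae_map (measurable_pi_lambda _ fun n => ph_meas hz n).aemeasurable hZ
  filter_upwards [hZ'] with ω h
  obtain ⟨η, hη⟩ : ∃ η : Tor, η = fun n => ph hz n ω := ⟨_, rfl⟩
  rw [← hη] at h
  refine h.congr fun n => ?_
  unfold Zt Zm
  have e1 : Q n (fun k => zt k η) = Q n (fun k => z k ω) := by
    have e : ∀ k, tw (fun n => zt n η) k = tw (fun n => z n ω) k := by
      intro k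
      unfold tw
      congr 1
      refine Finset.prod_congr rfl fun p hp => ?_
      rw [hη]
      exact ph_prime hz (Nat.prime_of_mem_primeFactors hp) ω
    unfold Q
    simp only [e]
  have e2 : V (Pn ν) zt n = V P z n := by
    rw [Vt]
    unfold V
    refine Finset.prod_congr rfl fun p hp => ?_
    rw [hsc p (Finset.mem_filter.1 hp).2]
    rfl
  rw [e1, e2]

theorem Zm_zero [IsProbabilityMeasure P] (hz : Rnd P z) {m c c3 : ℝ}
    (hs2 : ∀ N : ℕ, ∑ p ∈ (Icc 1 N).filter Nat.Prime, (1 - ∫ ω, ‖z p ω‖ ^ 2 ∂P) / p ≤ c3)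
    (hsum : ∀ N : ℕ, ∑ p ∈ (Icc 1 N).filter Nat.Prime, ‖∫ ω, (z p ω) ^ 2 ∂P - (m : ℂ)‖ / p ≤ c) :
    ∀ᵐ ω ∂P, Tendsto (fun n : ℕ => Zm P z n ω) atTop (𝓝 0) := Zm_zeroC hz hs2 hsum

theorem transfer [IsProbabilityMeasure P] (hz : Rnd P z) {m : ℂ} {c c3 : ℝ}
    (hs2 : ∀ N : ℕ, ∑ p ∈ (Icc 1 N).filter Nat.Prime, (1 - ∫ ω, ‖z p ω‖ ^ 2 ∂P) / p ≤ c3)
    (hsum : ∀ N : ℕ, ∑ p ∈ (Icc 1 N).filter Nat.Prime, ‖∫ ω, (z p ω) ^ 2 ∂P - m‖ / p ≤ c) :
    ∀ᵐ ω ∂P, Tendsto (fun x : ℝ => Pool.Agent.E8helper84.RM.I (fun n => z n ω) x / Real.log x)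
      atTop (𝓝 0) := by
  obtain ⟨C, hC, hp⟩ := prod_bound
  filter_upwards [Zm_zeroC hz hs2 hsum] with ω h
  have h1 : Tendsto (fun x : ℝ => Zm P z ⌊x⌋₊ ω * C) atTop (𝓝 (0 * C)) :=
    (h.comp tendsto_nat_floor_atTop).mul_const C
  rw [zero_mul] at h1
  refine squeeze_zero' ?_ ?_ h1
  · filter_upwards [eventually_ge_atTop (2 : ℝ)] with x hx
    exact div_nonneg (I_nonneg _ (by linarith)) (Real.log_nonneg (by linarith))
  · filter_upwards [eventually_ge_atTop (2 : ℝ)] with x hx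
    have hlog : 0 < Real.log x := Real.log_pos (by linarith)
    rw [div_le_iff₀ hlog]
    have h2 := I_le_Zm hz hC hp hx ω
    linarith [mul_assoc (Zm P z ⌊x⌋₊ ω) C (Real.log x)]

end Pool.Agent.E8helper84.RP
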