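import Pool.Agent.E8helper84.RM.RP7

/-!
Real characters, little-o.
-/

set_option autoImplicit false

namespace Pool.Agent.E8helper84.RP

open MeasureTheory Filter Topology Finset ProbabilityTheory
open scoped ComplexConjugate
open Pool.Agent.E8helper84.RM (Rnd prod_bound I_le_Zm Zm V I_nonneg Q tw P1 z1 rnd1 gp unif mkP mkP_coe
  mkP_self z1_prime om md md_pos Cy P1_Cy meas_Cy Cy_disj mem_Pf Pf tw_congr mult_prod rc_one rc_mul
  rc_prime sum_S3 meas_Q Fl_le Zm_nonneg If If_eq nzp Fl)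

lemma Zm_meas {Ω : Type} [MeasurableSpace Ω] {P : Measure Ω} {z : ℕ → Ω → ℂ} (hz : Rnd P z) (N : ℕ) :
    Measurable (Zm P z N) := by
  have h : Measurable[Fl z N] (fun ω => Q N (fun k => z k ω)) := meas_Q N
  unfold Zm
  exact (h.mono (Fl_le hz N) le_rfl).div_const _

lemma tail_small {Ω : Type} [MeasurableSpace Ω] {P : Measure Ω} [IsProbabilityMeasure P] {Z : ℕ → Ω → ℝ}
    (hm : ∀ n, Measurable (Z n)) (h : ∀ᵐ ω ∂P, Tendsto (fun n => Z n ω) atTop (𝓝 0)) {δ η : ℝ}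
    (hδ : 0 < δ) (hη : 0 < η) :
    ∃ n₀ : ℕ, ∀ N : ℕ, P {ω | ∃ k, n₀ ≤ k ∧ k ≤ N ∧ δ ≤ Z k ω} ≤ ENNReal.ofReal η := by
  obtain ⟨E, hE⟩ : ∃ E : ℕ → Set Ω, E = fun n => {ω | ∃ k, n ≤ k ∧ δ ≤ Z k ω} := ⟨_, rfl⟩
  have hEm : ∀ n, MeasurableSet (E n) := by
    intro n
    have e : E n = ⋃ k ∈ Set.Ici n, {ω | δ ≤ Z k ω} := by
      rw [hE]; ext ω; simp
    rw [e]
    exact MeasurableSet.biUnion (Set.to_countable _) fun k _ => hm k measurableSet_Ici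
  have hanti : Antitone E := by
    intro a b hab ω hω
    rw [hE] at hω ⊢
    obtain ⟨k, hk, h⟩ := hω
    exact ⟨k, hab.trans hk, h⟩
  have hlim := tendsto_measure_iInter_atTop (μ := P) (s := E) (fun n => (hEm n).nullMeasurableSet)
    hanti ⟨0, measure_ne_top _ _⟩
  have h0 : P (⋂ n, E n) = 0 := by
    refine measure_mono_null (t := {ω | ¬ Tendsto (fun n => Z n ω) atTop (𝓝 0)}) ?_ h
    intro ω hω hcon
    obtain ⟨n, hn⟩ := eventually_atTop.1 (hcon.eventually (gt_mem_nhds hδ))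
    have h6 := Set.mem_iInter.1 hω n
    rw [hE] at h6
    obtain ⟨k, hk, h5⟩ := h6
    exact absurd (hn k hk) (not_lt.2 h5)
  rw [h0] at hlim
  obtain ⟨n₀, hn₀⟩ := (hlim.eventually (gt_mem_nhds (ENNReal.ofReal_pos.2 hη))).exists
  refine ⟨n₀, fun N => (measure_mono ?_).trans hn₀.le⟩
  rintro ω ⟨k, hk, _, h5⟩
  rw [hE]
  exact ⟨k, hk, h5⟩

lemma gp_real (r : Nat.Primes) (a : ZMod (r : ℕ)) : (gp r a) ^ 2 = ((‖gp r a‖ ^ 2 : ℝ) : ℂ) := by
  unfold gp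
  split_ifs
  · simp
  · rcases jacobiSym.trichotomy ((ZMod.val a : ℕ) : ℤ) (r : ℕ) with h | h | h
    · rw [h]; simp
    · rw [h]; simp
    · rw [h]; simp

lemma gp_norm {r : Nat.Primes} (h2 : (r : ℕ) ≠ 2) {a : ZMod (r : ℕ)} (ha : a ≠ 0) : ‖gp r a‖ ^ 2 = 1 := by
  haveI : Fact (r : ℕ).Prime := ⟨r.2⟩
  have e : gp r a = ((quadraticChar (ZMod (r : ℕ)) a : ℤ) : ℂ) := by
    unfold gp
    rw [if_neg h2, ← jacobiSym.legendreSym.to_jacobiSym]
    unfold legendreSym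
    congr 2
    simp
  have h1 := quadraticChar_sq_one ha
  rw [e, ← norm_pow, ← Int.cast_pow, h1]
  simp

lemma sum_gp_sq (r : Nat.Primes) : ((r : ℕ) : ℝ) - 2 ≤ ∑ a : ZMod (r : ℕ), ‖gp r a‖ ^ 2 := by
  by_cases h2 : (r : ℕ) = 2
  · have h0 : (0 : ℝ) ≤ ∑ a : ZMod (r : ℕ), ‖gp r a‖ ^ 2 := Finset.sum_nonneg fun a _ => by positivity
    have h1 : ((r : ℕ) : ℝ) = 2 := by exact_mod_cast h2
    linarith
  · haveI : Fact (r : ℕ).Prime := ⟨r.2⟩
    have h3 : ∑ a : ZMod (r : ℕ), ((1 : ℝ) - if a = 0 then 1 else 0) ≤ ∑ a : ZMod (r : ℕ), ‖gp r a‖ ^ 2 := by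
      refine Finset.sum_le_sum fun a _ => ?_
      by_cases ha : a = 0
      · rw [if_pos ha]
        have : (0 : ℝ) ≤ ‖gp r a‖ ^ 2 := by positivity
        linarith
      · rw [if_neg ha, gp_norm h2 ha]; norm_num
    rw [Finset.sum_sub_distrib, Finset.sum_ite_eq' Finset.univ (0 : ZMod (r : ℕ)) (fun _ => (1 : ℝ)),
      if_pos (Finset.mem_univ _), Finset.sum_const, Finset.card_univ, ZMod.card, nsmul_eq_mul, mul_one] at h3
    linarith

lemma int_z1 (p : ℕ) (hp : p.Prime) : 1 - ∫ ω, ‖z1 p ω‖ ^ 2 ∂P1 ≤ 2 / (p : ℝ) := by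
  obtain ⟨r, hr⟩ : ∃ r : Nat.Primes, r = mkP p hp := ⟨_, rfl⟩
  have hX : Measurable (gp r) := measurable_of_countable _
  have e0 : ∀ ω, z1 p ω = gp r (ω r) := fun ω => by rw [z1_prime hp, hr]
  simp_rw [e0]
  have h2 : MeasurePreserving (Function.eval r) P1 (unif r) :=
    measurePreserving_eval_infinitePi unif r
  have h3 : ∫ ω, ‖gp r (ω r)‖ ^ 2 ∂P1 = ∫ a, ‖gp r a‖ ^ 2 ∂(unif r) := by
    rw [← h2.map_eq, integral_map h2.measurable.aemeasurable (hX.norm.pow_const 2).aestronglyMeasurable]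
  have h4 : ∫ a, ‖gp r a‖ ^ 2 ∂(unif r) = (1 / (p : ℝ)) * ∑ a : ZMod (r : ℕ), ‖gp r a‖ ^ 2 := by
    unfold unif
    rw [integral_smul_measure, integral_count, smul_eq_mul, ENNReal.toReal_inv, ENNReal.toReal_natCast,
      one_div]
    congr 2
    rw [hr, mkP_coe]
  have h5 := sum_gp_sq r
  have h6 : ((r : ℕ) : ℝ) = p := by rw [hr, mkP_coe]
  have hp0 : (0 : ℝ) < p := by exact_mod_cast hp.pos
  rw [h3, h4]
  rw [h6] at h5
  have h7 : 1 / (p : ℝ) * ((p : ℝ) - 2) ≤ 1 / (p : ℝ) * ∑ a : ZMod (r : ℕ), ‖gp r a‖ ^ 2 :=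
    mul_le_mul_of_nonneg_left h5 (by positivity)
  have h8 : 1 / (p : ℝ) * ((p : ℝ) - 2) = 1 - 2 / (p : ℝ) := by field_simp
  linarith

lemma int_z1_sq (p : ℕ) (hp : p.Prime) :
    ∫ ω, (z1 p ω) ^ 2 ∂P1 = ((∫ ω, ‖z1 p ω‖ ^ 2 ∂P1 : ℝ) : ℂ) := by
  have h := integral_ofReal (𝕜 := ℂ) (μ := P1) (f := fun ω => ‖z1 p ω‖ ^ 2)
  refine Eq.trans ?_ h
  refine integral_congr_ae (Eventually.of_forall fun ω => ?_)
  have h1 := gp_real (mkP p hp) (ω (mkP p hp))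
  have h2 := z1_prime hp ω
  rw [← h2] at h1
  exact h1

lemma int_z1_le (p : ℕ) (hp : p.Prime) : ∫ ω, ‖z1 p ω‖ ^ 2 ∂P1 ≤ 1 := by
  have h : ∀ ω, ‖z1 p ω‖ ^ 2 ≤ 1 := fun ω => pow_le_one₀ (norm_nonneg _) (rnd1.bound p hp ω)
  calc ∫ ω, ‖z1 p ω‖ ^ 2 ∂P1 ≤ ∫ _ω, (1 : ℝ) ∂P1 :=
        integral_mono_of_nonneg (Eventually.of_forall fun ω => by positivity) (integrable_const _)
          (Eventually.of_forall h)
    _ = 1 := by simp

theorem Z1_zero : ∀ᵐ ω ∂P1, Tendsto (fun n : ℕ => Zm P1 z1 n ω) atTop (𝓝 0) := by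
  obtain ⟨S3, hS0, hS3⟩ := sum_S3
  have hsq : ∀ N : ℕ, ∑ p ∈ (Icc 1 N).filter Nat.Prime, 2 / (p : ℝ) / p ≤ 2 * S3 := by
    intro N
    refine le_trans ?_ (mul_le_mul_of_nonneg_left (hS3 ((Icc 1 N).filter Nat.Prime)) (by norm_num))
    rw [Finset.mul_sum]
    refine Finset.sum_le_sum fun p hp => ?_
    have hp1 : (1 : ℝ) ≤ p := by exact_mod_cast (Finset.mem_filter.1 hp).2.one_lt.le
    have h1 : (p : ℝ) ^ (-2 : ℝ) ≤ (p : ℝ) ^ (-(3 / 2) : ℝ) :=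
      Real.rpow_le_rpow_of_exponent_le hp1 (by norm_num)
    have h2 : (p : ℝ) ^ (-2 : ℝ) = 1 / (p : ℝ) / p := by
      rw [Real.rpow_neg (by linarith)]
      have : (p : ℝ) ^ (2 : ℝ) = (p : ℝ) ^ 2 := by norm_num
      rw [this]
      field_simp
    have h3 : 2 / (p : ℝ) / p = 2 * (1 / (p : ℝ) / p) := by ring
    rw [h3, ← h2]
    linarith
  refine Zm_zero rnd1 (m := 1) (c := 2 * S3) (c3 := 2 * S3) (fun N => ?_) (fun N => ?_)
  · refine le_trans (Finset.sum_le_sum fun p hp => ?_) (hsq N)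
    have := int_z1 p (Finset.mem_filter.1 hp).2
    gcongr
  · refine le_trans (Finset.sum_le_sum fun p hp => ?_) (hsq N)
    have hpp := (Finset.mem_filter.1 hp).2
    have h1 := int_z1 p hpp
    have h2 := int_z1_le p hpp
    rw [int_z1_sq p hpp, ← Complex.ofReal_sub, Complex.norm_real, Real.norm_eq_abs, abs_sub_comm,
      abs_of_nonneg (by linarith)]
    gcongr

/-- the event -/
def Ew (n₀ N : ℕ) (δ : ℝ) : Set ((p : Nat.Primes) → ZMod (p : ℕ)) :=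
  {ω | ∃ k, n₀ ≤ k ∧ k ≤ N ∧ δ ≤ Zm P1 z1 k ω}

lemma Ew_congr {n₀ N : ℕ} {δ : ℝ} {ω ω' : (p : Nat.Primes) → ZMod (p : ℕ)}
    (h : ∀ p : Nat.Primes, (p : ℕ) ≤ N → ω p = ω' p) (hω : ω ∈ Ew n₀ N δ) : ω' ∈ Ew n₀ N δ := by
  obtain ⟨k, hk0, hk, hl⟩ := hω
  refine ⟨k, hk0, hk, ?_⟩
  have e : Zm P1 z1 k ω' = Zm P1 z1 k ω := by
    unfold Zm Q
    congr 1
    refine Finset.sum_congr rfl fun m hm => Finset.sum_congr rfl fun n hn => ?_
    rw [tw_congr hm (fun p hp => h p (hp.trans hk)), tw_congr hn (fun p hp => h p (hp.trans hk))]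
  rw [e]; exact hl

open scoped Classical in
lemma countw_block {n₀ N : ℕ} {δ η : ℝ} (hη : 0 < η) (hE : P1 (Ew n₀ N δ) ≤ ENNReal.ofReal η) :
    ((((range (md N)).filter fun d => om d ∈ Ew n₀ N δ).card : ℕ) : ℝ) ≤ η * (md N : ℝ) := by
  have h1 : ((((range (md N)).filter fun d => om d ∈ Ew n₀ N δ).card : ℕ) : ENNReal) *
      ((md N : ℕ) : ENNReal)⁻¹ ≤ ENNReal.ofReal η := by
    refine le_trans ?_ hE
    calc _ = ∑ d ∈ (range (md N)).filter (fun d => om d ∈ Ew n₀ N δ), P1 (Cy N d) := by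
          rw [Finset.sum_congr rfl fun d _ => P1_Cy N d]; simp
      _ = P1 (⋃ d ∈ (range (md N)).filter (fun d => om d ∈ Ew n₀ N δ), Cy N d) := by
          rw [measure_biUnion_finset]
          · intro d hd d' hd' hne
            have hd1 := Finset.mem_filter.1 (Finset.mem_coe.1 hd)
            have hd2 := Finset.mem_filter.1 (Finset.mem_coe.1 hd')
            exact Cy_disj (Finset.mem_range.1 hd1.1) (Finset.mem_range.1 hd2.1) hne
          · intro d _; exact meas_Cy N d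
      _ ≤ _ := by
          refine measure_mono (Set.iUnion₂_subset fun d hd => ?_)
          intro ω hω
          refine Ew_congr (ω := om d) (fun p hp => ?_) (Finset.mem_filter.1 hd).2
          exact (hω p (mem_Pf.2 hp)).symm
  have h2 := ENNReal.toReal_mono ENNReal.ofReal_ne_top h1
  rw [ENNReal.toReal_mul, ENNReal.toReal_natCast, ENNReal.toReal_inv, ENNReal.toReal_natCast,
    ENNReal.toReal_ofReal hη.le] at h2
  have hm : (0 : ℝ) < md N := by exact_mod_cast md_pos N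
  rwa [← div_eq_mul_inv, div_le_iff₀ hm] at h2

lemma Ew_period {n₀ N d : ℕ} {δ : ℝ} (h : om d ∈ Ew n₀ N δ) : om (d % md N) ∈ Ew n₀ N δ := by
  refine Ew_congr (fun p hp => ?_) h
  unfold om
  rw [ZMod.natCast_eq_natCast_iff]
  have h1 : d % md N ≡ d [MOD md N] := Nat.mod_modEq _ _
  exact (h1.of_dvd (Finset.dvd_prod_of_mem _ (mem_Pf.2 hp))).symm

open scoped Classical in
lemma countw_all {n₀ N : ℕ} {δ η : ℝ} (hη : 0 < η) (hE : P1 (Ew n₀ N δ) ≤ ENNReal.ofReal η) {Y : ℕ}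
    (hY : md N ≤ Y) :
    ((((Icc 1 Y).filter fun d => om d ∈ Ew n₀ N δ).card : ℕ) : ℝ) ≤ 2 * η * (Y : ℝ) := by
  have hm : 0 < md N := md_pos N
  have h1 : ((Icc 1 Y).filter fun d => om d ∈ Ew n₀ N δ).card ≤
      ((range (Y / md N + 1)) ×ˢ ((range (md N)).filter fun d => om d ∈ Ew n₀ N δ)).card := by
    refine Finset.card_le_card_of_injOn (fun d => (d / md N, d % md N)) ?_ ?_
    · intro d hd
      have hd1 := Finset.mem_filter.1 (Finset.mem_coe.1 hd)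
      rw [Finset.mem_Icc] at hd1
      rw [Finset.mem_coe, Finset.mem_product, Finset.mem_range, Finset.mem_filter, Finset.mem_range]
      refine ⟨?_, Nat.mod_lt _ hm, Ew_period hd1.2⟩
      have := Nat.div_le_div_right (c := md N) hd1.1.2
      simp only
      omega
    · intro d _ d' _ h
      simp only [Prod.mk.injEq] at h
      rw [← Nat.div_add_mod d (md N), ← Nat.div_add_mod d' (md N), h.1, h.2]
  rw [Finset.card_product, Finset.card_range] at h1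
  have h2 := countw_block hη hE
  have hmR : (0 : ℝ) < md N := by exact_mod_cast hm
  calc _ ≤ (((Y / md N + 1) * ((range (md N)).filter fun d => om d ∈ Ew n₀ N δ).card : ℕ) : ℝ) := by
        exact_mod_cast h1
    _ = ((Y / md N : ℕ) + 1 : ℝ) * ((((range (md N)).filter fun d => om d ∈ Ew n₀ N δ).card : ℕ) : ℝ) := by
        push_cast; rfl
    _ ≤ ((Y : ℝ) / md N + 1) * (η * (md N : ℝ)) := by
        have h3 : ((Y / md N : ℕ) : ℝ) ≤ (Y : ℝ) / md N := Nat.cast_div_le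
        gcongr
    _ = η * ((Y : ℝ) + md N) := by field_simp
    _ ≤ 2 * η * (Y : ℝ) := by
        have : (md N : ℝ) ≤ Y := by exact_mod_cast hY
        nlinarith

open scoped Classical in
theorem reals2 {ε : ℝ} (hε : 0 < ε) : ∃ x₀ : ℝ, 2 ≤ x₀ ∧ ∀ X : ℝ, ∀ᶠ Y : ℕ in atTop,
    ((((Icc 1 Y).filter fun d : ℕ => ∃ x : ℝ, x₀ ≤ x ∧ x ≤ X ∧
      ε * Real.log x < If (Pool.Agent.E8helper84.RM.rc d) x).card : ℕ) : ℝ) ≤ ε * (Y : ℝ) := by
  obtain ⟨C, hC, hp⟩ := prod_bound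
  obtain ⟨n₀, hn₀⟩ := tail_small (fun n => Zm_meas rnd1 n) Z1_zero (δ := ε / C) (η := ε / 2)
    (by positivity) (by positivity)
  refine ⟨max 2 n₀, le_max_left _ _, fun X => ?_⟩
  obtain ⟨N, hN⟩ : ∃ N : ℕ, N = ⌊X⌋₊ := ⟨_, rfl⟩
  filter_upwards [eventually_ge_atTop (md N)] with Y hY
  have hsub : ((Icc 1 Y).filter fun d : ℕ => ∃ x : ℝ, max 2 (n₀ : ℝ) ≤ x ∧ x ≤ X ∧
      ε * Real.log x < If (Pool.Agent.E8helper84.RM.rc d) x) ⊆
      (Icc 1 Y).filter fun d => om d ∈ Ew n₀ N (ε / C) := by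
    intro d hd
    obtain ⟨hd1, x, hx0, hxX, hx⟩ := Finset.mem_filter.1 hd
    have hx2 : 2 ≤ x := (le_max_left _ _).trans hx0
    rw [Finset.mem_filter]
    refine ⟨hd1, ?_⟩
    have hfl : ⌊x⌋₊ ≤ N := by rw [hN]; exact Nat.floor_le_floor hxX
    refine ⟨⌊x⌋₊, Nat.le_floor ((le_max_right _ _).trans hx0), hfl, ?_⟩
    have e1 : If (Pool.Agent.E8helper84.RM.rc d) x =
        Pool.Agent.E8helper84.RM.I (fun k => z1 k (om d)) x :=
      If_eq (N := ⌊x⌋₊) (fun n hn hs => by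
        rw [mult_prod (rc_one d) (fun m n _ => rc_mul d m n) hs]
        refine Finset.prod_congr rfl fun p hp => rc_prime d (Nat.prime_of_mem_primeFactors hp))
        (by linarith) le_rfl
    have e2 := I_le_Zm rnd1 hC hp hx2 (om d)
    have hlog : 0 < Real.log x := Real.log_pos (by linarith)
    by_contra hcon
    rw [not_le] at hcon
    have e3 : Zm P1 z1 ⌊x⌋₊ (om d) * (C * Real.log x) ≤ ε / C * (C * Real.log x) :=
      mul_le_mul_of_nonneg_right hcon.le (by positivity)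
    have e4 : ε / C * (C * Real.log x) = ε * Real.log x := by field_simp
    rw [e1] at hx
    linarith
  calc _ ≤ ((((Icc 1 Y).filter fun d => om d ∈ Ew n₀ N (ε / C)).card : ℕ) : ℝ) := by
        exact_mod_cast Finset.card_le_card hsub
    _ ≤ 2 * (ε / 2) * (Y : ℝ) := countw_all (by positivity) (hn₀ N) hY
    _ = ε * (Y : ℝ) := by ring

end Pool.Agent.E8helper84.RP
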