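import Pool.Agent.E8helper84.RM.RP6

/-!
`∑_{p ≤ N} sin(y log p) / p` is bounded for `y ≠ 0`.
-/

set_option autoImplicit false

namespace Pool.Agent.E8helper84.RP

open MeasureTheory Filter Topology Finset ProbabilityTheory
open scoped ComplexConjugate
open Pool.Agent.E8helper84.RM (log_ge_one)

lemma fin_g {C1 C0 : ℝ} (hC1 : ∀ N : ℕ, 3 ≤ N →
    |∑ p ∈ (Icc 1 N).filter Nat.Prime, (1 : ℝ) / p - Real.log (Real.log N)| ≤ C1)
    (hC0 : ∀ N : ℕ, 1 ≤ N → |∑ p ∈ (Icc 1 N).filter Nat.Prime, Real.log p / p - Real.log N| ≤ C0)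
    {N : ℕ} (hN : 3 ≤ N) (g : ℕ → ℝ) (hg : ∀ n, |g n| ≤ 1) :
    |∑ p ∈ (Icc 1 N).filter Nat.Prime, g p / p| ≤
      |∑' p : Nat.Primes, ((p : ℕ) : ℝ) ^ (-(1 + 1 / Real.log N) : ℝ) * g (p : ℕ)| +
      Real.log ‖riemannZeta (((1 + 1 / Real.log N : ℝ) : ℂ) + ((0 : ℝ) : ℂ) * Complex.I)‖ -
      Real.log (Real.log N) + C1 + 2 * (1 + C0) +
      2 * ∑' p : Nat.Primes, (((p : ℕ) : ℝ) ^ (-2 : ℝ)) := by
  have hlog := log_ge_one hN
  obtain ⟨σ, hσ⟩ : ∃ σ : ℝ, σ = 1 / Real.log N := ⟨_, rfl⟩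
  have hσ0 : 0 < σ := by rw [hσ]; positivity
  rw [← hσ]
  obtain ⟨T, hT⟩ : ∃ T : Finset Nat.Primes, T = (Icc 1 N).subtype Nat.Prime := ⟨_, rfl⟩
  have conv : ∀ f : ℕ → ℝ, ∑ p ∈ (Icc 1 N).filter Nat.Prime, f p = ∑ p ∈ T, f (p : ℕ) := by
    intro f
    rw [hT]
    exact (Finset.sum_subtype_eq_sum_filter f).symm
  have hs : ∀ y : ℝ, 1 < ((((1 + σ : ℝ) : ℂ) + (y : ℂ) * Complex.I)).re := by
    intro y
    rw [Complex.add_re, Complex.ofReal_re, Complex.re_ofReal_mul, Complex.I_re, mul_zero, add_zero]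
    linarith
  have hre : ∀ y : ℝ, (∑' p : Nat.Primes, ((p : ℕ) : ℂ) ^ (-(((1 + σ : ℝ) : ℂ) + (y : ℂ) * Complex.I))).re =
      ∑' p : Nat.Primes, ((p : ℕ) : ℝ) ^ (-(1 + σ) : ℝ) * Real.cos (y * Real.log (p : ℕ)) := by
    intro y
    rw [Complex.re_tsum (sum_w (hs y))]
    exact tsum_congr fun p => re_w p σ y
  have hG : Summable fun p : Nat.Primes =>
      ((p : ℕ) : ℝ) ^ (-(1 + σ) : ℝ) * g (p : ℕ) := by
    refine Summable.of_norm_bounded (g := fun p : Nat.Primes => ((p : ℕ) : ℝ) ^ (-(1 + σ) : ℝ))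
      (Nat.Primes.summable_rpow.2 (by linarith)) fun p => ?_
    rw [norm_mul, Real.norm_eq_abs, Real.norm_eq_abs, abs_of_nonneg (by positivity)]
    exact mul_le_of_le_one_right (by positivity) (hg _)
  have hP : Summable fun p : Nat.Primes => ((p : ℕ) : ℝ) ^ (-(1 + σ) : ℝ) :=
    Nat.Primes.summable_rpow.2 (by linarith)
  have z0 := abs_le.1 (log_zeta (hs 0))
  rw [hre] at z0
  simp only [zero_mul, Real.cos_zero, mul_one] at z0
  obtain ⟨C2, hC2⟩ : ∃ C2 : ℝ, C2 = ∑' p : Nat.Primes, (((p : ℕ) : ℝ) ^ (-2 : ℝ)) := ⟨_, rfl⟩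
  have hC20 : 0 ≤ C2 := by rw [hC2]; exact tsum_nonneg fun p => by positivity
  rw [← hC2] at z0 ⊢
  -- splitting
  have s1 := hG.sum_add_tsum_compl (s := T)
  have s0 := hP.sum_add_tsum_compl (s := T)
  have htail : |∑' p : ((T : Set Nat.Primes)ᶜ : Set Nat.Primes),
      (((p : Nat.Primes) : ℕ) : ℝ) ^ (-(1 + σ) : ℝ) * g ((p : Nat.Primes) : ℕ)| ≤
      ∑' p : ((T : Set Nat.Primes)ᶜ : Set Nat.Primes), (((p : Nat.Primes) : ℕ) : ℝ) ^ (-(1 + σ) : ℝ) := by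
    rw [← Real.norm_eq_abs]
    have hb : ∀ p : ((T : Set Nat.Primes)ᶜ : Set Nat.Primes),
        ‖(((p : Nat.Primes) : ℕ) : ℝ) ^ (-(1 + σ) : ℝ) * g ((p : Nat.Primes) : ℕ)‖ ≤
        (((p : Nat.Primes) : ℕ) : ℝ) ^ (-(1 + σ) : ℝ) := by
      intro p
      rw [norm_mul, Real.norm_eq_abs, Real.norm_eq_abs, abs_of_nonneg (by positivity)]
      exact mul_le_of_le_one_right (by positivity) (hg _)
    have hh : HasSum (fun p : ((T : Set Nat.Primes)ᶜ : Set Nat.Primes) =>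
        (((p : Nat.Primes) : ℕ) : ℝ) ^ (-(1 + σ) : ℝ))
        (∑' p : ((T : Set Nat.Primes)ᶜ : Set Nat.Primes), (((p : Nat.Primes) : ℕ) : ℝ) ^ (-(1 + σ) : ℝ)) :=
      (hP.subtype _).hasSum
    exact tsum_of_norm_bounded hh hb
  -- pointwise comparison
  have hpt : ∀ p : Nat.Primes, 0 ≤ 1 / ((p : ℕ) : ℝ) - ((p : ℕ) : ℝ) ^ (-(1 + σ) : ℝ) ∧
      1 / ((p : ℕ) : ℝ) - ((p : ℕ) : ℝ) ^ (-(1 + σ) : ℝ) ≤ σ * (Real.log (p : ℕ) / (p : ℕ)) := by
    intro p
    have hp : (0 : ℝ) < ((p : ℕ) : ℝ) := by exact_mod_cast p.2.pos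
    have h2 := prime_two p
    have e : ((p : ℕ) : ℝ) ^ (-(1 + σ) : ℝ) = 1 / ((p : ℕ) : ℝ) * Real.exp (-(σ * Real.log (p : ℕ))) := by
      rw [show (-(1 + σ) : ℝ) = -1 + -σ by ring, Real.rpow_add hp, Real.rpow_neg_one,
        Real.rpow_def_of_pos hp, one_div]
      congr 2
      ring
    have hl : 0 ≤ Real.log (p : ℕ) := Real.log_natCast_nonneg _
    rw [e]
    have h3 : Real.exp (-(σ * Real.log (p : ℕ))) ≤ 1 := by
      rw [Real.exp_le_one_iff]; nlinarith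
    have h4 := Real.add_one_le_exp (-(σ * Real.log (p : ℕ)))
    have h5 : 0 < 1 / ((p : ℕ) : ℝ) := by positivity
    constructor
    · nlinarith
    · have e2 : σ * (Real.log (p : ℕ) / ((p : ℕ) : ℝ)) = 1 / ((p : ℕ) : ℝ) * (σ * Real.log (p : ℕ)) := by ring
      rw [e2]
      nlinarith
  have hsum1 : ∑ p ∈ T, σ * (Real.log (p : ℕ) / ((p : ℕ) : ℝ)) ≤ 1 + C0 := by
    rw [← Finset.mul_sum, ← conv fun n => Real.log n / n]
    have a0 := (abs_le.1 (hC0 N (by omega))).2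
    have h5 : ∑ p ∈ (Icc 1 N).filter Nat.Prime, Real.log p / p ≤ (1 + C0) * Real.log N := by
      have hC0n : 0 ≤ C0 := (abs_nonneg _).trans (hC0 3 (by norm_num))
      nlinarith
    have h6 : σ * ∑ p ∈ (Icc 1 N).filter Nat.Prime, Real.log p / p ≤ σ * ((1 + C0) * Real.log N) :=
      mul_le_mul_of_nonneg_left h5 hσ0.le
    have h7 : σ * ((1 + C0) * Real.log N) = 1 + C0 := by rw [hσ]; field_simp
    linarith
  have hdiff : |∑ p ∈ T, g (p : ℕ) / ((p : ℕ) : ℝ) -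
      ∑ p ∈ T, ((p : ℕ) : ℝ) ^ (-(1 + σ) : ℝ) * g (p : ℕ)| ≤ 1 + C0 := by
    rw [← Finset.sum_sub_distrib]
    refine (Finset.abs_sum_le_sum_abs _ _).trans ((Finset.sum_le_sum fun p _ => ?_).trans hsum1)
    have e : g (p : ℕ) / ((p : ℕ) : ℝ) -
        ((p : ℕ) : ℝ) ^ (-(1 + σ) : ℝ) * g (p : ℕ) =
        (1 / ((p : ℕ) : ℝ) - ((p : ℕ) : ℝ) ^ (-(1 + σ) : ℝ)) * g (p : ℕ) := by ring
    rw [e, abs_mul, abs_of_nonneg (hpt p).1]
    exact (mul_le_of_le_one_right (hpt p).1 (hg _)).trans (hpt p).2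
  have hdiff0 : ∑ p ∈ T, 1 / ((p : ℕ) : ℝ) - ∑ p ∈ T, ((p : ℕ) : ℝ) ^ (-(1 + σ) : ℝ) ≤ 1 + C0 := by
    rw [← Finset.sum_sub_distrib]
    exact (Finset.sum_le_sum fun p _ => (hpt p).2).trans hsum1
  have a1 := abs_le.1 (hC1 N hN)
  rw [conv fun n => (1 : ℝ) / n] at a1
  rw [conv fun n => g n / n]
  have hd := abs_le.1 hdiff
  have ht := abs_le.1 htail
  have habs1 := le_abs_self (∑' p : Nat.Primes, ((p : ℕ) : ℝ) ^ (-(1 + σ) : ℝ) * g (p : ℕ))
  have habs2 := neg_abs_le (∑' p : Nat.Primes, ((p : ℕ) : ℝ) ^ (-(1 + σ) : ℝ) * g (p : ℕ))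
  rw [abs_le]
  constructor
  · linarith [z0.1, z0.2, a1.1, a1.2, hd.1, hd.2, ht.1, ht.2]
  · linarith [z0.1, z0.2, a1.1, a1.2, hd.1, hd.2, ht.1, ht.2]

lemma im_w (p : Nat.Primes) (σ y : ℝ) :
    (((p : ℕ) : ℂ) ^ (-(((1 + σ : ℝ) : ℂ) + (y : ℂ) * Complex.I))).im =
      -(((p : ℕ) : ℝ) ^ (-(1 + σ) : ℝ) * Real.sin (y * Real.log (p : ℕ))) := by
  have hp : (0 : ℝ) < ((p : ℕ) : ℝ) := by exact_mod_cast p.2.pos
  have hne : ((p : ℕ) : ℂ) ≠ 0 := by exact_mod_cast p.2.ne_zero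
  rw [Complex.cpow_def_of_ne_zero hne, ← Complex.natCast_log, Real.rpow_def_of_pos hp]
  generalize Real.log (p : ℕ) = l
  have e : ((l : ℝ) : ℂ) * (-(((1 + σ : ℝ) : ℂ) + (y : ℂ) * Complex.I)) =
      ((l * -(1 + σ) : ℝ) : ℂ) + ((-(y * l) : ℝ) : ℂ) * Complex.I := by
    push_cast; ring
  rw [e, Complex.exp_im, Complex.add_re, Complex.add_im, Complex.ofReal_re, Complex.ofReal_im,
    Complex.re_ofReal_mul, Complex.im_ofReal_mul, Complex.I_re, Complex.I_im]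
  rw [mul_zero, add_zero, zero_add, mul_one, Real.sin_neg]
  ring

noncomputable def Sy (y σ : ℝ) : ℂ := ((1 + σ : ℝ) : ℂ) + (y : ℂ) * Complex.I

lemma Sy_re (y σ : ℝ) : (Sy y σ).re = 1 + σ := by
  unfold Sy
  rw [Complex.add_re, Complex.ofReal_re, Complex.re_ofReal_mul, Complex.I_re, mul_zero, add_zero]

lemma Sy_im (y σ : ℝ) : (Sy y σ).im = y := by
  unfold Sy
  rw [Complex.add_im, Complex.ofReal_im, Complex.im_ofReal_mul, Complex.I_im, mul_one, zero_add]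

lemma Sy_cont (y : ℝ) : Continuous (Sy y) := by unfold Sy; fun_prop

noncomputable def Fy (y σ : ℝ) : ℂ := ∑' p : Nat.Primes, -Complex.log (1 - ((p : ℕ) : ℂ) ^ (-(Sy y σ)))

lemma w_half {s : ℂ} (hs : 1 < s.re) (p : Nat.Primes) : ‖((p : ℕ) : ℂ) ^ (-s)‖ ≤ 1 / 2 :=
  (norm_w_le hs p).trans (one_div_le_one_div_of_le (by norm_num) (prime_two p))

lemma Fy_contAt (y : ℝ) {x : ℝ} (hx : 0 < x) : ContinuousAt (Fy y) x := by
  have h1 : ContinuousOn (Fy y) (Set.Ioi (x / 2)) := by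
    unfold Fy
    refine continuousOn_tsum (u := fun p : Nat.Primes => 3 / 2 * ((p : ℕ) : ℝ) ^ (-(1 + x / 2) : ℝ))
      (fun p => ?_) ((Nat.Primes.summable_rpow.2 (by linarith)).mul_left _) (fun p σ hσ => ?_)
    · refine ContinuousOn.neg (ContinuousOn.clog ?_ fun σ hσ => ?_)
      · have hne : ((p : ℕ) : ℂ) ≠ 0 := by exact_mod_cast p.2.ne_zero
        have : Continuous fun σ => (1 : ℂ) - ((p : ℕ) : ℂ) ^ (-(Sy y σ)) :=
          continuous_const.sub ((Sy_cont y).neg.const_cpow (Or.inl hne))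
        exact this.continuousOn
      · have hσ' : x / 2 < σ := hσ
        have h2 := w_half (s := Sy y σ) (by rw [Sy_re]; linarith) p
        have h3 := Complex.abs_re_le_norm (((p : ℕ) : ℂ) ^ (-(Sy y σ)))
        have h4 := (abs_le.1 h3).2
        refine Or.inl ?_
        rw [Complex.sub_re, Complex.one_re]
        linarith
    · have hσ' : x / 2 < σ := hσ
      have h2 := w_half (s := Sy y σ) (by rw [Sy_re]; linarith) p
      rw [norm_neg, sub_eq_add_neg]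
      refine (Complex.norm_log_one_add_half_le_self (by rw [norm_neg]; exact h2)).trans ?_
      rw [norm_neg, norm_w, Sy_re]
      refine mul_le_mul_of_nonneg_left ?_ (by norm_num)
      have h5 := prime_two p
      exact Real.rpow_le_rpow_of_exponent_le (by linarith) (by linarith)
  exact h1.continuousAt (Ioi_mem_nhds (by linarith))

lemma Fy_exp (y : ℝ) {σ : ℝ} (hσ : 0 < σ) : Complex.exp (Fy y σ) = riemannZeta (Sy y σ) :=
  riemannZeta_eulerProduct_exp_log (by rw [Sy_re]; linarith)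

theorem arg_bounded {y : ℝ} (hy : y ≠ 0) : ∃ C σ₁ : ℝ, 0 < σ₁ ∧ ∀ σ, 0 < σ → σ < σ₁ →
    |(Fy y σ).im| ≤ C := by
  have hne1 : ∀ σ : ℝ, Sy y σ ≠ 1 := by
    intro σ h
    have := congrArg Complex.im h
    rw [Sy_im, Complex.one_im] at this
    exact hy this
  have hζc : Continuous fun σ => riemannZeta (Sy y σ) := by
    rw [continuous_iff_continuousAt]
    intro σ
    exact ((differentiableAt_riemannZeta (hne1 σ)).continuousAt).comp (Sy_cont y).continuousAt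
  obtain ⟨L, hL⟩ : ∃ L : ℂ, L = riemannZeta (Sy y 0) := ⟨_, rfl⟩
  have hL0 : L ≠ 0 := by
    rw [hL]
    apply riemannZeta_ne_zero_of_one_le_re
    rw [Sy_re]; norm_num
  have hK : Continuous fun σ => riemannZeta (Sy y σ) / L := hζc.div_const L
  have hK0 : Tendsto (fun σ => riemannZeta (Sy y σ) / L) (𝓝 0) (𝓝 1) := by
    have := hK.tendsto 0
    rw [← hL, div_self hL0] at this
    exact this
  obtain ⟨σ₁, hσ₁, hball⟩ := Metric.eventually_nhds_iff.1 (hK0.eventually (Metric.ball_mem_nhds 1 one_pos))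
  have hsl : ∀ σ ∈ Set.Ioo 0 σ₁, riemannZeta (Sy y σ) / L ∈ Complex.slitPlane := by
    intro σ hσ
    have h1 : riemannZeta (Sy y σ) / L ∈ Metric.ball (1 : ℂ) 1 := hball (by
      rw [Real.dist_eq, sub_zero, abs_of_pos hσ.1]; exact hσ.2)
    exact Complex.mem_slitPlane_of_norm_lt_one (z := riemannZeta (Sy y σ) / L - 1) (by
      rwa [Metric.mem_ball, dist_eq_norm] at h1) |> fun h => by simpa using h
  obtain ⟨H, hH⟩ : ∃ H : ℝ → ℂ, H = fun σ => Fy y σ - Complex.log (riemannZeta (Sy y σ) / L) := ⟨_, rfl⟩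
  have hHc : ContinuousOn H (Set.Ioo 0 σ₁) := by
    rw [hH]
    refine ContinuousOn.sub (fun σ hσ => (Fy_contAt y hσ.1).continuousWithinAt) ?_
    exact hK.continuousOn.clog hsl
  have hHe : ∀ σ ∈ Set.Ioo 0 σ₁, Complex.exp (H σ) = L := by
    intro σ hσ
    have h0 := Complex.slitPlane_ne_zero (hsl σ hσ)
    rw [hH]
    simp only
    rw [Complex.exp_sub, Fy_exp y hσ.1, Complex.exp_log h0]
    have h1 : riemannZeta (Sy y σ) ≠ 0 := fun h => h0 (by rw [h, zero_div])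
    field_simp
  obtain ⟨τ, hτ⟩ : ∃ τ : ℝ, τ = σ₁ / 2 := ⟨_, rfl⟩
  have hτm : τ ∈ Set.Ioo 0 σ₁ := by rw [hτ]; constructor <;> linarith
  obtain ⟨f, hf⟩ : ∃ f : ℝ → ℝ, f = fun σ => (H σ - H τ).im / (2 * Real.pi) := ⟨_, rfl⟩
  have hpi := Real.pi_pos
  have hfint : ∀ σ ∈ Set.Ioo 0 σ₁, ∃ n : ℤ, f σ = n := by
    intro σ hσ
    have h1 : Complex.exp (H σ - H τ) = 1 := by
      rw [Complex.exp_sub, hHe σ hσ, hHe τ hτm, div_self hL0]
    obtain ⟨n, hn⟩ := Complex.exp_eq_one_iff.1 h1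
    refine ⟨n, ?_⟩
    rw [hf]
    simp only
    rw [hn]
    have : ((n : ℂ) * (2 * Real.pi * Complex.I)).im = n * (2 * Real.pi) := by simp
    rw [this]
    field_simp
  have hfc : ContinuousOn f (Set.Ioo 0 σ₁) := by
    rw [hf]
    exact (Complex.continuous_im.comp_continuousOn (hHc.sub continuousOn_const)).div_const _
  have hfτ : f τ = 0 := by rw [hf]; simp
  have hzero : ∀ σ ∈ Set.Ioo 0 σ₁, f σ = 0 := by
    intro σ hσ
    obtain ⟨n, hn⟩ := hfint σ hσ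
    rcases lt_trichotomy n 0 with h | h | h
    · exfalso
      have h1 : (n : ℝ) ≤ -1 := by exact_mod_cast (by omega : n ≤ -1)
      obtain ⟨c, hc, hfc'⟩ := isPreconnected_Ioo.intermediate_value hσ hτm hfc
        (show (-(1 / 2) : ℝ) ∈ Set.Icc (f σ) (f τ) by rw [hn, hfτ]; constructor <;> linarith)
      obtain ⟨k, hk⟩ := hfint c hc
      rw [hk] at hfc'
      have : (2 * k : ℝ) = -1 := by linarith
      have : 2 * k = -1 := by exact_mod_cast this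
      omega
    · rw [hn, h]; simp
    · exfalso
      have h1 : (1 : ℝ) ≤ n := by exact_mod_cast (by omega : 1 ≤ n)
      obtain ⟨c, hc, hfc'⟩ := isPreconnected_Ioo.intermediate_value hτm hσ hfc
        (show ((1 / 2) : ℝ) ∈ Set.Icc (f τ) (f σ) by rw [hn, hfτ]; constructor <;> linarith)
      obtain ⟨k, hk⟩ := hfint c hc
      rw [hk] at hfc'
      have : (2 * k : ℝ) = 1 := by linarith
      have : 2 * k = 1 := by exact_mod_cast this
      omega
  refine ⟨Real.pi + |(H τ).im|, σ₁, hσ₁, fun σ h0 h1 => ?_⟩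
  have hz := hzero σ ⟨h0, h1⟩
  have h2 : (H σ).im = (H τ).im := by
    rw [hf] at hz
    simp only [div_eq_zero_iff, Complex.sub_im] at hz
    rcases hz with hz | hz
    · linarith
    · linarith
  have h3 : (Fy y σ).im = (Complex.log (riemannZeta (Sy y σ) / L)).im + (H τ).im := by
    rw [← h2, hH]
    simp only [Complex.sub_im]
    ring
  rw [h3]
  refine (abs_add_le _ _).trans (add_le_add ?_ le_rfl)
  rw [Complex.log_im]
  exact Complex.abs_arg_le_pi _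

theorem sin_sum {y : ℝ} (hy : y ≠ 0) : ∃ c : ℝ, ∀ N : ℕ,
    |∑ p ∈ (Icc 1 N).filter Nat.Prime, Real.sin (y * Real.log p) / p| ≤ c := by
  obtain ⟨C1, hC1⟩ := Pool.Agent.Erdos456.Mert.mertens_inv
  obtain ⟨C0, hC0⟩ := Pool.Agent.Erdos456.Mert.mertens_log
  obtain ⟨Ca, σ₁, hσ₁, hCa⟩ := arg_bounded hy
  obtain ⟨C2, hC2⟩ : ∃ C2 : ℝ, C2 = ∑' p : Nat.Primes, (((p : ℕ) : ℝ) ^ (-2 : ℝ)) := ⟨_, rfl⟩
  have hσ : Tendsto (fun N : ℕ => 1 / Real.log N) atTop (𝓝[>] 0) := by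
    have h1 : Tendsto (fun N : ℕ => Real.log N) atTop atTop :=
      Real.tendsto_log_atTop.comp tendsto_natCast_atTop_atTop
    have h2 := tendsto_inv_atTop_nhdsGT_zero.comp h1
    refine h2.congr fun N => ?_
    simp
  have hζ0 : Tendsto (fun σ : ℝ => ‖((((1 + σ : ℝ) : ℂ) + ((0 : ℝ) : ℂ) * Complex.I) - 1) *
      riemannZeta (((1 + σ : ℝ) : ℂ) + ((0 : ℝ) : ℂ) * Complex.I)‖) (𝓝[>] 0) (𝓝 ‖(1 : ℂ)‖) := by
    have h1 : Tendsto (fun σ : ℝ => ((1 + σ : ℝ) : ℂ) + ((0 : ℝ) : ℂ) * Complex.I) (𝓝[>] 0) (𝓝[≠] 1) := by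
      rw [tendsto_nhdsWithin_iff]
      constructor
      · have h2 : Continuous fun σ : ℝ => ((1 + σ : ℝ) : ℂ) + ((0 : ℝ) : ℂ) * Complex.I := by fun_prop
        have h3 := h2.tendsto 0
        simp only [add_zero, Complex.ofReal_one, Complex.ofReal_zero, zero_mul] at h3
        exact h3.mono_left nhdsWithin_le_nhds |>.congr fun σ => by simp
      · filter_upwards [self_mem_nhdsWithin] with σ hσ
        have hσ' : 0 < σ := hσ
        simp only [Set.mem_compl_iff, Set.mem_singleton_iff]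
        intro h
        have := congrArg Complex.re h
        simp at this
        linarith
    exact (riemannZeta_residue_one.comp h1).norm
  have e1 := hσ.eventually (Ioo_mem_nhdsGT hσ₁)
  have e2 := (hζ0.comp hσ).eventually (gt_mem_nhds (by rw [norm_one]; norm_num : ‖(1 : ℂ)‖ < 2))
  obtain ⟨N0, hN0⟩ := eventually_atTop.1 ((e1.and e2).and (eventually_ge_atTop 3))
  refine ⟨max (N0 : ℝ) (Ca + C2 + Real.log 2 + C1 + 2 * (1 + C0) + 2 * C2), fun N => ?_⟩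
  rcases Nat.lt_or_ge N N0 with hlt | hge
  · refine le_max_of_le_left ?_
    refine (Finset.abs_sum_le_sum_abs _ _).trans ?_
    have h1 : ∑ p ∈ (Icc 1 N).filter Nat.Prime, |Real.sin (y * Real.log p) / p| ≤
        ∑ p ∈ (Icc 1 N).filter Nat.Prime, (1 : ℝ) / p := by
      refine Finset.sum_le_sum fun p _ => ?_
      rw [abs_div, abs_of_nonneg (Nat.cast_nonneg p : (0 : ℝ) ≤ p)]
      have := Real.abs_sin_le_one (y * Real.log p)
      gcongr
    refine h1.trans ((Pool.Agent.E8helper84.RM.sum_inv_le N).trans ?_)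
    exact_mod_cast hlt.le
  · refine le_max_of_le_right ?_
    obtain ⟨⟨g1, g2⟩, g3⟩ := hN0 N hge
    simp only [Function.comp_apply] at g2
    have hlog := log_ge_one g3
    have hmain := fin_g hC1 hC0 g3 (fun n => Real.sin (y * Real.log n)) (fun n => Real.abs_sin_le_one _)
    rw [← hC2] at hmain
    obtain ⟨σ, hσd⟩ : ∃ σ : ℝ, σ = 1 / Real.log N := ⟨_, rfl⟩
    rw [← hσd] at hmain g1 g2
    have hsre : 1 < (Sy y σ).re := by rw [Sy_re]; linarith [g1.1]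
    have him : |∑' p : Nat.Primes, ((p : ℕ) : ℝ) ^ (-(1 + σ) : ℝ) * Real.sin (y * Real.log (p : ℕ))| ≤
        Ca + C2 := by
      have hw := sum_w hsre
      have herr : Summable fun p : Nat.Primes => (-Complex.log (1 - ((p : ℕ) : ℂ) ^ (-(Sy y σ))) -
          ((p : ℕ) : ℂ) ^ (-(Sy y σ))) := Summable.of_norm_bounded sum_sq (err_le hsre)
      have hl : Summable fun p : Nat.Primes => -Complex.log (1 - ((p : ℕ) : ℂ) ^ (-(Sy y σ))) := by
        have := herr.add hw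
        refine this.congr fun p => ?_
        ring
      have h5 : ‖Fy y σ - ∑' p : Nat.Primes, ((p : ℕ) : ℂ) ^ (-(Sy y σ))‖ ≤ C2 := by
        unfold Fy
        rw [← hl.tsum_sub hw, hC2]
        exact tsum_of_norm_bounded sum_sq.hasSum (err_le hsre)
      have h6 : (∑' p : Nat.Primes, ((p : ℕ) : ℂ) ^ (-(Sy y σ))).im =
          -∑' p : Nat.Primes, ((p : ℕ) : ℝ) ^ (-(1 + σ) : ℝ) * Real.sin (y * Real.log (p : ℕ)) := by
        rw [Complex.im_tsum hw, ← tsum_neg]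
        exact tsum_congr fun p => im_w p σ y
      have h7 := (Complex.abs_im_le_norm (Fy y σ - ∑' p : Nat.Primes, ((p : ℕ) : ℂ) ^ (-(Sy y σ)))).trans h5
      rw [Complex.sub_im, h6] at h7
      have h8 := hCa σ g1.1 g1.2
      rw [abs_le] at h7 h8 ⊢
      constructor <;> linarith [h7.1, h7.2, h8.1, h8.2]
    have h5 : Real.log ‖riemannZeta (((1 + σ : ℝ) : ℂ) + ((0 : ℝ) : ℂ) * Complex.I)‖ ≤
        Real.log 2 + Real.log (Real.log N) := by
      obtain ⟨Z, hZ⟩ : ∃ Z : ℝ, Z = ‖riemannZeta (((1 + σ : ℝ) : ℂ) +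
        ((0 : ℝ) : ℂ) * Complex.I)‖ := ⟨_, rfl⟩
      rw [norm_mul, ← hZ] at g2
      have e3 : ‖((1 + σ : ℝ) : ℂ) + ((0 : ℝ) : ℂ) * Complex.I - 1‖ = 1 / Real.log N := by
        have e4 : ((1 + σ : ℝ) : ℂ) + ((0 : ℝ) : ℂ) * Complex.I - 1 = ((σ : ℝ) : ℂ) := by
          push_cast; ring
        rw [e4, Complex.norm_real, Real.norm_eq_abs, abs_of_pos g1.1, hσd]
      rw [e3, one_div, ← div_eq_inv_mul, div_lt_iff₀ (by linarith)] at g2
      rw [← hZ, ← Real.log_mul (by norm_num) (by linarith)]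
      have hZpos : 0 < Z := by
        rw [hZ, norm_pos_iff]
        apply riemannZeta_ne_zero_of_one_le_re
        rw [Complex.add_re, Complex.ofReal_re, Complex.re_ofReal_mul, Complex.I_re]
        linarith [g1.1]
      exact Real.log_le_log hZpos g2.le
    linarith

end Pool.Agent.E8helper84.RP
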