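import Pool.Agent.E8helper84.RM.RP8

/-!
Uniformity in the set of primes.
-/

set_option autoImplicit false

namespace Pool.Agent.E8helper84.RQ

open MeasureTheory Filter Topology Finset ProbabilityTheory
open scoped ComplexConjugate
open Pool.Agent.E8helper84.RM (Rnd prod_bound I_le_Zm Zm V V_pos I_nonneg Q Q_nonneg tw P0 haar ec ec_cont
  ec_norm zt Tor rndt VV VV_pos Vt PP Flt Fl Fl_le meas_Q mart int_Q int_Zm Zm_nonneg maximal Q_congr s2
  s2_nonneg V_succ_prime V_succ_notprime int_pow s2_le)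

section restart

variable {Ω : Type*} [mΩ : MeasurableSpace Ω] {P : Measure Ω} [IsProbabilityMeasure P] {z : ℕ → Ω → ℂ}

/-- shifted filtration -/
noncomputable def Fsh (hz : Rnd P z) (M : ℕ) : Filtration ℕ mΩ where
  seq := fun j => Flt hz (M + j)
  mono' := fun i j h => (Flt hz).mono (Nat.add_le_add_left h M)
  le' := fun j => (Flt hz).le _

lemma mart_restart (hz : Rnd P z) (M : ℕ) {G : Set Ω} (hG : MeasurableSet[Flt hz M] G) :
    Martingale (fun j => G.indicator (Zm P z (M + j))) (Fsh hz M) P := by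
  refine ⟨fun j => ?_, fun i j hij => ?_⟩
  · exact ((mart hz).1 (M + j)).indicator ((Flt hz).mono (Nat.le_add_right M j) G hG)
  · have h1 : P[G.indicator (Zm P z (M + j)) | Flt hz (M + i)] =ᵐ[P]
        G.indicator (P[Zm P z (M + j) | Flt hz (M + i)]) :=
      condExp_indicator ((mart hz).integrable (M + j)) ((Flt hz).mono (Nat.le_add_right M i) G hG)
    refine h1.trans ?_
    filter_upwards [(mart hz).2 (M + i) (M + j) (Nat.add_le_add_left hij M)] with ω hω
    by_cases h : ω ∈ G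
    · rw [Set.indicator_of_mem h, Set.indicator_of_mem h, hω]
    · rw [Set.indicator_of_notMem h, Set.indicator_of_notMem h]

lemma restart (hz : Rnd P z) (M : ℕ) {a b : ℝ} (ha : 0 ≤ a) (hb : 0 < b) (n : ℕ) :
    P {ω | Zm P z M ω ≤ a ∧ ∃ j, j ≤ n ∧ b ≤ Zm P z (M + j) ω} ≤ ENNReal.ofReal (a / b) := by
  obtain ⟨ε, hε⟩ : ∃ ε : NNReal, (ε : ℝ) = b := ⟨⟨b, hb.le⟩, rfl⟩
  obtain ⟨G, hGd⟩ : ∃ G : Set Ω, G = {ω | Zm P z M ω ≤ a} := ⟨_, rfl⟩
  have hG : MeasurableSet[Flt hz M] G := by
    rw [hGd]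
    exact ((mart hz).1 M).measurable measurableSet_Iic
  have hG' : MeasurableSet G := (Flt hz).le M G hG
  have hmr := mart_restart hz M hG
  have hnn : ∀ j ω, 0 ≤ G.indicator (Zm P z (M + j)) ω := fun j ω =>
    Set.indicator_nonneg (fun ω _ => Zm_nonneg P z _ ω) ω
  have h1 := maximal_ineq (μ := P) (𝒢 := Fsh hz M) (f := fun j => G.indicator (Zm P z (M + j)))
    hmr.submartingale (fun N ω => hnn N ω) (ε := ε) n
  have hsub : {ω | Zm P z M ω ≤ a ∧ ∃ j, j ≤ n ∧ b ≤ Zm P z (M + j) ω} ⊆ {ω | (ε : ℝ) ≤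
      (range (n + 1)).sup' nonempty_range_add_one fun k => G.indicator (Zm P z (M + k)) ω} := by
    rintro ω ⟨h2, j, hj, h3⟩
    rw [Set.mem_ofPred_eq, Finset.le_sup'_iff, hε]
    refine ⟨j, by rw [Finset.mem_range]; omega, ?_⟩
    rw [Set.indicator_of_mem (by rw [hGd]; exact h2)]
    exact h3
  have h0 : ∫ ω, G.indicator (Zm P z (M + n)) ω ∂P ≤ a := by
    have h := hmr.setIntegral_eq (i := 0) (j := n) (Nat.zero_le n) (s := Set.univ) MeasurableSet.univ
    rw [setIntegral_univ, setIntegral_univ] at h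
    rw [← h, Nat.add_zero, integral_indicator hG']
    calc ∫ ω in G, Zm P z M ω ∂P ≤ ∫ _ω in G, a ∂P := by
          refine setIntegral_mono_on ((mart hz).integrable M).integrableOn (integrable_const a).integrableOn
            hG' fun ω hω => ?_
          rw [hGd] at hω
          exact hω
      _ = P.real G * a := by simp
      _ ≤ 1 * a := mul_le_mul_of_nonneg_right measureReal_le_one ha
      _ = a := one_mul a
  have h2 : ∫ ω in {ω | (ε : ℝ) ≤ (range (n + 1)).sup' nonempty_range_add_one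
      fun k => G.indicator (Zm P z (M + k)) ω}, G.indicator (Zm P z (M + n)) ω ∂P ≤ a :=
    (setIntegral_le_integral (hmr.integrable n) (Filter.Eventually.of_forall fun ω => hnn n ω)).trans h0
  have h3 := h1.trans (ENNReal.ofReal_le_ofReal h2)
  have h5 : (ε : ENNReal) = ENNReal.ofReal b := by
    rw [← hε, ENNReal.ofReal_coe_nnreal]
  rw [h5] at h3
  refine (measure_mono hsub).trans ?_
  rw [ENNReal.ofReal_div_of_pos hb,
    ENNReal.le_div_iff_mul_le (Or.inl (by simpa using hb)) (Or.inl ENNReal.ofReal_ne_top), mul_comm]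
  exact h3

end restart

/-- values on a set of primes -/
noncomputable def zs (s : ℕ → Bool) (n : ℕ) (ω : Tor) : ℂ := if s n = true then zt n ω else 0

lemma rnds (s : ℕ → Bool) : Rnd P0 (zs s) := by
  have hr := rndt
  have hg : ∀ n : ℕ, Measurable (fun w : ℂ => if s n = true then w else 0) := by
    intro n
    by_cases h : s n = true
    · simp only [h, if_true]; exact measurable_id
    · simp only [h]; exact measurable_const
  have e : ∀ n, zs s n = (fun w : ℂ => if s n = true then w else 0) ∘ (zt n) := fun n => rfl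
  refine ⟨fun p hp => ?_, fun p hp ω => ?_, fun p hp => ?_, ?_⟩
  · rw [e]; exact (hg p).comp (hr.meas p hp)
  · unfold zs
    split_ifs
    · exact hr.bound p hp ω
    · simp
  · unfold zs
    by_cases h : s p = true
    · simp only [h, if_true]; exact hr.mean p hp
    · simp [h]
  · exact hr.indep.comp (fun (p : Nat.Primes) (w : ℂ) => if s p = true then w else 0) fun p => hg p

lemma zs_sq_norm (s : ℕ → Bool) (p : ℕ) : ∫ ω, ‖zs s p ω‖ ^ 2 ∂P0 = if s p = true then 1 else 0 := by
  have e : ∀ ω : Tor, ‖zs s p ω‖ ^ 2 = if s p = true then 1 else 0 := by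
    intro ω
    unfold zs
    by_cases h : s p = true
    · simp only [h, if_true]
      have : ‖zt p ω‖ = 1 := ec_norm _
      rw [this]; norm_num
    · simp [h]
  simp_rw [e]
  simp

lemma zs_sq (s : ℕ → Bool) (p : ℕ) : ∫ ω, (zs s p ω) ^ 2 ∂P0 = 0 := by
  unfold zs
  by_cases h : s p = true
  · simp only [h, if_true]
    have h2 : MeasurePreserving (Function.eval p) P0 haar :=
      measurePreserving_eval_infinitePi (fun _ => haar) p
    have h3 : ∫ ω : Tor, (ec (ω p)) ^ 2 ∂P0 = ∫ t, (ec t) ^ 2 ∂haar := by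
      have hc : Continuous fun t : UnitAddCircle => (ec t) ^ 2 := ec_cont.pow 2
      rw [← h2.map_eq, integral_map h2.measurable.aemeasurable hc.measurable.aestronglyMeasurable]
    have h4 := int_pow (n := 2) two_ne_zero
    rw [h4] at h3
    exact h3
  · simp [h]

/-- the normalised mean square -/
noncomputable def R (s : ℕ → Bool) (k : ℕ) (ω : Tor) : ℝ := Q k (fun n => zs s n ω) / VV k

noncomputable def rho (s : ℕ → Bool) (k : ℕ) : ℝ := V P0 (zs s) k / VV k

lemma rho_pos (s : ℕ → Bool) (k : ℕ) : 0 < rho s k := div_pos (V_pos _ _ _) (VV_pos k)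

lemma R_eq (s : ℕ → Bool) (k : ℕ) (ω : Tor) : R s k ω = rho s k * Zm P0 (zs s) k ω := by
  unfold R rho Zm
  have := (V_pos P0 (zs s) k).ne'
  have := (VV_pos k).ne'
  field_simp

lemma s2_zt (k : ℕ) : s2 P0 zt k = 1 := by
  unfold s2
  have e : ∀ ω : Tor, ‖zt k ω‖ ^ 2 = 1 := fun ω => by
    have : ‖zt k ω‖ = 1 := ec_norm _
    rw [this]; norm_num
  simp_rw [e]
  simp

lemma rho_succ (s : ℕ → Bool) (k : ℕ) : rho s (k + 1) =
    rho s k * (if (k + 1).Prime then (if s (k + 1) = true then 1 else 1 / (1 + 1 / ((k + 1 : ℕ) : ℝ))) else 1) := by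
  unfold rho
  rw [← Vt, ← Vt]
  have h0 := (V_pos P0 (zs s) k).ne'
  have h1 := (V_pos P0 zt k).ne'
  by_cases h : (k + 1).Prime
  · rw [V_succ_prime P0 (zs s) h, V_succ_prime P0 zt h, s2_zt, if_pos h]
    have e : s2 P0 (zs s) (k + 1) = if s (k + 1) = true then 1 else 0 := zs_sq_norm s (k + 1)
    rw [e]
    have hk : (0 : ℝ) < ((k + 1 : ℕ) : ℝ) := by positivity
    by_cases hs : s (k + 1) = true
    · rw [if_pos hs, if_pos hs]
      have : (1 + 1 / ((k + 1 : ℕ) : ℝ)) ≠ 0 := by positivity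
      field_simp
    · rw [if_neg hs, if_neg hs]
      have : (1 + 1 / ((k + 1 : ℕ) : ℝ)) ≠ 0 := by positivity
      rw [zero_div, add_zero, mul_one]
      field_simp
  · rw [V_succ_notprime P0 (zs s) h, V_succ_notprime P0 zt h, if_neg h, mul_one]

lemma rho_zero (s : ℕ → Bool) : rho s 0 = 1 := by
  unfold rho VV V
  simp

lemma rho_anti (s : ℕ → Bool) : Antitone (rho s) := by
  refine antitone_nat_of_succ_le fun k => ?_
  rw [rho_succ]
  refine mul_le_of_le_one_right (rho_pos s k).le ?_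
  split_ifs
  · exact le_rfl
  · rw [div_le_one (by positivity)]
    have : (0 : ℝ) ≤ 1 / ((k + 1 : ℕ) : ℝ) := by positivity
    linarith
  · exact le_rfl

lemma rho_le_one (s : ℕ → Bool) (k : ℕ) : rho s k ≤ 1 := by
  rw [← rho_zero s]; exact rho_anti s (Nat.zero_le k)

/-- missing primes -/
noncomputable def mis (s : ℕ → Bool) (N : ℕ) : ℝ :=
  ∑ p ∈ (Icc 1 N).filter Nat.Prime, (1 - (if s p = true then 1 else 0)) / (p : ℝ)

lemma mis_succ (s : ℕ → Bool) (k : ℕ) : mis s (k + 1) = mis s k +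
    (if (k + 1).Prime then (1 - (if s (k + 1) = true then 1 else 0)) / ((k + 1 : ℕ) : ℝ) else 0) := by
  unfold mis
  rw [← Finset.insert_Icc_right_eq_Icc_add_one (by omega : 1 ≤ k + 1), Finset.filter_insert]
  by_cases h : (k + 1).Prime
  · rw [if_pos h, if_pos h, Finset.sum_insert (by simp), add_comm]
  · rw [if_neg h, if_neg h, add_zero]

lemma rho_le (s : ℕ → Bool) (k : ℕ) : rho s k ≤ Real.exp (-(1 / 2) * mis s k) := by
  induction k with
  | zero => rw [rho_zero]; unfold mis; simp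
  | succ k ih =>
    rw [rho_succ, mis_succ, mul_add, Real.exp_add]
    refine mul_le_mul ih ?_ ?_ (Real.exp_pos _).le
    · by_cases h : (k + 1).Prime
      · rw [if_pos h, if_pos h]
        by_cases hs : s (k + 1) = true
        · rw [if_pos hs, if_pos hs]; simp
        · rw [if_neg hs, if_neg hs]
          have hk : (1 : ℝ) ≤ ((k + 1 : ℕ) : ℝ) := by exact_mod_cast Nat.succ_le_succ (Nat.zero_le k)
          obtain ⟨u, hu⟩ : ∃ u : ℝ, u = 1 / ((k + 1 : ℕ) : ℝ) := ⟨_, rfl⟩
          have hu0 : 0 < u := by rw [hu]; positivity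
          have hu1 : u ≤ 1 := by rw [hu, div_le_one (by linarith)]; exact hk
          rw [sub_zero, ← hu, div_le_iff₀ (by linarith)]
          have h1 := Real.add_one_le_exp (-(1 / 2) * u)
          nlinarith
      · rw [if_neg h, if_neg h]; simp
    · split_ifs <;> positivity

lemma prob_zero (s : ℕ → Bool) {a η : ℝ} (ha : 0 < a) (hη : 0 < η) :
    ∃ M : ℕ, P0 {ω | a < R s M ω} ≤ ENNReal.ofReal η := by
  by_cases h : ∃ c : ℝ, ∀ N, mis s N ≤ c
  · obtain ⟨c, hc⟩ := h
    have hZ := Pool.Agent.E8helper84.RP.Zm_zero (rnds s) (m := 0) (c := 0) (c3 := c) (fun N => by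
        refine le_trans (le_of_eq ?_) (hc N)
        unfold mis
        refine Finset.sum_congr rfl fun p _ => ?_
        rw [zs_sq_norm]) (fun N => by
        refine le_of_eq (Finset.sum_eq_zero fun p _ => ?_)
        rw [zs_sq]; simp)
    obtain ⟨n₀, hn₀⟩ := Pool.Agent.E8helper84.RP.tail_small
      (fun n => Pool.Agent.E8helper84.RP.Zm_meas (rnds s) n) hZ ha hη
    refine ⟨n₀, (measure_mono ?_).trans (hn₀ n₀)⟩
    intro ω hω
    refine ⟨n₀, le_rfl, le_rfl, ?_⟩
    have h1 : a < R s n₀ ω := hω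
    rw [R_eq] at h1
    have h2 := Zm_nonneg P0 (zs s) n₀ ω
    have h3 := rho_le_one s n₀
    nlinarith
  · push Not at h
    obtain ⟨M, hM⟩ := h (-2 * Real.log (a * η))
    refine ⟨M, ?_⟩
    have h1 : rho s M ≤ a * η := by
      refine (rho_le s M).trans ?_
      rw [← Real.exp_log (mul_pos ha hη)]
      apply Real.exp_le_exp.2
      linarith
    have hr := rho_pos s M
    have h2 := maximal (rnds s) (l := a / rho s M) (by positivity) M
    refine (measure_mono ?_).trans (h2.trans (ENNReal.ofReal_le_ofReal ?_))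
    · intro ω hω
      refine ⟨M, le_rfl, ?_⟩
      have h3 : a < R s M ω := hω
      rw [R_eq] at h3
      rw [div_le_iff₀ hr]
      linarith
    · rw [one_div_div, div_le_iff₀ ha]
      linarith

lemma restart_R (s : ℕ → Bool) (M N : ℕ) {a b : ℝ} (ha : 0 < a) (hb : 0 < b) :
    P0 {ω | ∃ k, M ≤ k ∧ k ≤ N ∧ b ≤ R s k ω} ≤ P0 {ω | a < R s M ω} + ENNReal.ofReal (a / b) := by
  have hr := rho_pos s M
  have h1 := restart (rnds s) M (a := a / rho s M) (b := b / rho s M) (by positivity) (by positivity) N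
  have e : a / rho s M / (b / rho s M) = a / b := by field_simp
  rw [e] at h1
  refine le_trans (measure_mono ?_) ((measure_union_le _ _).trans (add_le_add le_rfl h1))
  rintro ω ⟨k, hMk, hkN, hb'⟩
  by_cases hc : a < R s M ω
  · exact Or.inl hc
  · right
    rw [not_lt, R_eq] at hc
    refine ⟨by rw [le_div_iff₀ hr]; linarith, k - M, by omega, ?_⟩
    rw [Nat.add_sub_cancel' hMk, div_le_iff₀ hr]
    rw [R_eq] at hb'
    have h2 := rho_anti s hMk
    have h3 := Zm_nonneg P0 (zs s) k ω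
    nlinarith

lemma R_congr {s s' : ℕ → Bool} {k : ℕ} (h : ∀ n ≤ k, s' n = s n) (ω : Tor) : R s' k ω = R s k ω := by
  unfold R
  congr 1
  refine Q_congr fun p hp _ => ?_
  unfold zs
  rw [h p hp]

theorem unif {b η : ℝ} (hb : 0 < b) (hη : 0 < η) : ∃ n₀ : ℕ, ∀ s : ℕ → Bool, ∀ N : ℕ,
    P0 {ω | ∃ k, n₀ ≤ k ∧ k ≤ N ∧ b ≤ R s k ω} ≤ ENNReal.ofReal η := by
  have h1 : ∀ s : ℕ → Bool, ∃ M : ℕ, P0 {ω | b * (η / 2) < R s M ω} ≤ ENNReal.ofReal (η / 2) :=
    fun s => prob_zero s (by positivity) (by positivity)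
  choose M hM using h1
  obtain ⟨t, -, ht⟩ := (isCompact_univ (X := ℕ → Bool)).elim_nhds_subcover
    (fun s => {s' | ∀ k ∈ range (M s + 1), s' k = s k}) (fun s _ => by
      refine (eventually_all_finset _).2 fun k _ => ?_
      have hc : Tendsto (fun s' : ℕ → Bool => s' k) (𝓝 s) (𝓝 (s k)) := (continuous_apply k).tendsto s
      exact hc.eventually (IsOpen.mem_nhds (isOpen_discrete {s k}) rfl))
  refine ⟨t.sup M, fun s' N => ?_⟩
  have h2 := ht (Set.mem_univ s')
  simp only [Set.mem_iUnion] at h2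
  obtain ⟨s, hst, hs⟩ := h2
  have hs' : ∀ k ≤ M s, s' k = s k := fun k hk => hs k (by rw [Finset.mem_range]; omega)
  have hle : M s ≤ t.sup M := Finset.le_sup hst
  calc P0 {ω | ∃ k, t.sup M ≤ k ∧ k ≤ N ∧ b ≤ R s' k ω}
      ≤ P0 {ω | ∃ k, M s ≤ k ∧ k ≤ N ∧ b ≤ R s' k ω} := by
        refine measure_mono ?_
        rintro ω ⟨k, hk, hk2, hk3⟩
        exact ⟨k, hle.trans hk, hk2, hk3⟩
    _ ≤ P0 {ω | b * (η / 2) < R s' (M s) ω} + ENNReal.ofReal (b * (η / 2) / b) :=
        restart_R s' (M s) N (by positivity) hb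
    _ = P0 {ω | b * (η / 2) < R s (M s) ω} + ENNReal.ofReal (η / 2) := by
        have e : b * (η / 2) / b = η / 2 := by field_simp
        rw [e]
        congr 2
        ext ω
        simp only [Set.mem_ofPred_eq]
        rw [R_congr hs']
    _ ≤ ENNReal.ofReal (η / 2) + ENNReal.ofReal (η / 2) := add_le_add (hM s) le_rfl
    _ = ENNReal.ofReal η := by
        rw [← ENNReal.ofReal_add (by positivity) (by positivity)]
        congr 1
        ring

end Pool.Agent.E8helper84.RQ
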