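import Pool.Agent.E8helper84.RM.RQ1

/-!
Characters modulo `q`, all `q`.
-/

set_option autoImplicit false

namespace Pool.Agent.E8helper84.RQ

open MeasureTheory Filter Topology Finset ProbabilityTheory
open scoped ComplexConjugate
open Pool.Agent.E8helper84.RM (prod_bound I_nonneg Q Q_nonneg tw P0 haar ec zt Tor VV VV_pos Q_congr tor
  zf cont_Q avgL avgL_apply thc chars_weyl Sq mem_Sq If If_eq chi_prod I_le_Q)

/-- maximum of the normalised mean squares from `n₀` to `N` -/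
noncomputable def Pj (S : Finset ℕ) (n₀ N : ℕ) (θ : S → UnitAddCircle) : ℝ :=
  (range (N + 1)).sup' nonempty_range_add_one fun k => if n₀ ≤ k then Q k (zf S θ) / VV k else 0

lemma cont_Pj (S : Finset ℕ) (n₀ N : ℕ) : Continuous (Pj S n₀ N) := by
  unfold Pj
  refine Continuous.finset_sup'_apply _ fun k _ => ?_
  by_cases h : n₀ ≤ k
  · simp only [if_pos h]; exact (cont_Q _ k).div_const _
  · simp only [if_neg h]; exact continuous_const

/-- indicator function -/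
def ind (S : Finset ℕ) (n : ℕ) : Bool := decide (n ∈ S)

lemma tor_Pj (S : Finset ℕ) (n₀ N : ℕ) {l δ : ℝ} (hl : 0 < l)
    (h : P0 {ω | ∃ k, n₀ ≤ k ∧ k ≤ N ∧ l ≤ R (ind S) k ω} ≤ ENNReal.ofReal δ) :
    tor S {θ | l ≤ Pj S n₀ N θ} ≤ ENNReal.ofReal δ := by
  have h1 : P0.map S.restrict = tor S := Measure.infinitePi_map_restrict (μ := fun _ : ℕ => haar)
  rw [← h1, Measure.map_apply (Finset.measurable_restrict _)
    ((isClosed_le continuous_const (cont_Pj S n₀ N)).measurableSet)]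
  refine (measure_mono ?_).trans h
  intro ω hω
  have h2 : l ≤ Pj S n₀ N (S.restrict ω) := hω
  unfold Pj at h2
  rw [Finset.le_sup'_iff] at h2
  obtain ⟨k, hk, h3⟩ := h2
  rw [Finset.mem_range] at hk
  by_cases hn : n₀ ≤ k
  · rw [if_pos hn] at h3
    refine ⟨k, hn, by omega, ?_⟩
    have e : Q k (zf S (S.restrict ω)) = Q k (fun n => zs (ind S) n ω) := by
      refine Q_congr fun p hp hpp => ?_
      unfold zf zs ind zt ec
      by_cases hm : p ∈ S
      · rw [dif_pos hm, if_pos (by simpa using hm)]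
        rfl
      · rw [dif_neg hm, if_neg (by simpa using hm)]
    rw [e] at h3
    exact h3
  · rw [if_neg hn] at h3
    linarith

/-- the cut-off -/
noncomputable def cj (S : Finset ℕ) (n₀ N : ℕ) (l : ℝ) : C(S → UnitAddCircle, ℂ) where
  toFun θ := ((max 0 (min 1 (Pj S n₀ N θ / l - 1)) : ℝ) : ℂ)
  continuous_toFun := by
    have := cont_Pj S n₀ N
    fun_prop

lemma cj_nonneg (S : Finset ℕ) (n₀ N : ℕ) (l : ℝ) (θ : S → UnitAddCircle) : 0 ≤ (cj S n₀ N l θ).re := by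
  change 0 ≤ (((max 0 (min 1 (Pj S n₀ N θ / l - 1)) : ℝ) : ℂ)).re
  rw [Complex.ofReal_re]
  exact le_max_left _ _

lemma cj_ge {S : Finset ℕ} {n₀ N : ℕ} {l : ℝ} (hl : 0 < l) {θ : S → UnitAddCircle}
    (h : 2 * l ≤ Pj S n₀ N θ) : 1 ≤ (cj S n₀ N l θ).re := by
  change 1 ≤ (((max 0 (min 1 (Pj S n₀ N θ / l - 1)) : ℝ) : ℂ)).re
  rw [Complex.ofReal_re]
  refine le_max_of_le_right (le_min le_rfl ?_)
  have : 2 ≤ Pj S n₀ N θ / l := by rw [le_div_iff₀ hl]; exact h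
  linarith

lemma int_cj (S : Finset ℕ) (n₀ N : ℕ) {l δ : ℝ} (hl : 0 < l) (hδ : 0 ≤ δ)
    (h : P0 {ω | ∃ k, n₀ ≤ k ∧ k ≤ N ∧ l ≤ R (ind S) k ω} ≤ ENNReal.ofReal δ) :
    (∫ θ, cj S n₀ N l θ ∂(tor S)).re ≤ δ := by
  have e : ∫ θ, cj S n₀ N l θ ∂(tor S) =
      ((∫ θ, max 0 (min 1 (Pj S n₀ N θ / l - 1)) ∂(tor S) : ℝ) : ℂ) := by
    rw [← integral_complex_ofReal]
    rfl
  rw [e, Complex.ofReal_re]
  have hm : MeasurableSet {θ | l ≤ Pj S n₀ N θ} :=
    (isClosed_le continuous_const (cont_Pj S n₀ N)).measurableSet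
  calc ∫ θ, max 0 (min 1 (Pj S n₀ N θ / l - 1)) ∂(tor S)
      ≤ ∫ θ, Set.indicator {θ | l ≤ Pj S n₀ N θ} (fun _ => (1 : ℝ)) θ ∂(tor S) := by
        refine integral_mono_of_nonneg (Filter.Eventually.of_forall fun θ => le_max_left _ _) ?_
          (Filter.Eventually.of_forall fun θ => ?_)
        · exact (integrable_const (1 : ℝ)).indicator hm
        · by_cases h : l ≤ Pj S n₀ N θ
          · simp only [Set.indicator_of_mem (show θ ∈ {θ | l ≤ Pj S n₀ N θ} from h)]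
            exact max_le zero_le_one (min_le_left _ _)
          · simp only [Set.indicator_of_notMem (show θ ∉ {θ | l ≤ Pj S n₀ N θ} from h)]
            refine max_le le_rfl ((min_le_right _ _).trans ?_)
            have : Pj S n₀ N θ / l ≤ 1 := by rw [div_le_one hl]; exact (not_le.1 h).le
            linarith
    _ = (tor S).real {θ | l ≤ Pj S n₀ N θ} := by
        rw [integral_indicator hm]; simp
    _ ≤ δ := by
        have := ENNReal.toReal_mono ENNReal.ofReal_ne_top (tor_Pj S n₀ N hl h)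
        rw [ENNReal.toReal_ofReal hδ] at this
        exact this

open scoped Classical in
lemma avgL_cj {X : Type*} [Fintype X] {S : Finset ℕ} {n₀ N : ℕ} (θ : X → (S → UnitAddCircle)) {l : ℝ}
    (hl : 0 < l) : (((Finset.univ.filter fun x => 2 * l ≤ Pj S n₀ N (θ x)).card : ℕ) : ℝ) ≤
      (Fintype.card X : ℝ) * (avgL θ (cj S n₀ N l)).re := by
  rcases Nat.eq_zero_or_pos (Fintype.card X) with h | h
  · have h3 := Finset.card_le_univ (Finset.univ.filter fun x => 2 * l ≤ Pj S n₀ N (θ x))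
    rw [h] at h3
    rw [Nat.le_zero.1 h3, h]; simp
  · have h2 : (0 : ℝ) < Fintype.card X := by exact_mod_cast h
    have e : (avgL θ (cj S n₀ N l)).re = (1 / (Fintype.card X : ℝ)) * ∑ x, (cj S n₀ N l (θ x)).re := by
      rw [avgL_apply]
      have e1 : (1 / (Fintype.card X : ℂ)) = ((1 / (Fintype.card X : ℝ) : ℝ) : ℂ) := by push_cast; rfl
      rw [e1, Complex.re_ofReal_mul, Complex.re_sum]
    rw [e, ← mul_assoc, mul_one_div_cancel h2.ne', one_mul]
    calc (((Finset.univ.filter fun x => 2 * l ≤ Pj S n₀ N (θ x)).card : ℕ) : ℝ)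
        = ∑ x ∈ Finset.univ.filter (fun x => 2 * l ≤ Pj S n₀ N (θ x)), (1 : ℝ) := by simp
      _ ≤ ∑ x ∈ Finset.univ.filter (fun x => 2 * l ≤ Pj S n₀ N (θ x)), (cj S n₀ N l (θ x)).re :=
          Finset.sum_le_sum fun x hx => cj_ge hl (Finset.mem_filter.1 hx).2
      _ ≤ ∑ x, (cj S n₀ N l (θ x)).re :=
          Finset.sum_le_sum_of_subset_of_nonneg (Finset.filter_subset _ _)
            fun x _ _ => cj_nonneg _ _ _ _ _

/-- deterministic bound -/
lemma I_le_Pj {C : ℝ} (hp : ∀ N : ℕ, 2 ≤ N →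
    ∏ p ∈ (Icc 1 N).filter Nat.Prime, (1 + 1 / (p : ℝ)) ≤ C * Real.log N) (hC : 0 < C) (S : Finset ℕ)
    {n₀ N : ℕ} {x : ℝ} (hx : 2 ≤ x) (hx0 : (n₀ : ℝ) ≤ x) (hN : ⌊x⌋₊ ≤ N) (θ : S → UnitAddCircle) :
    Pool.Agent.E8helper84.RM.I (zf S θ) x ≤ Pj S n₀ N θ * (C * Real.log x) := by
  have hfl : 2 ≤ ⌊x⌋₊ := Nat.le_floor (by exact_mod_cast hx)
  have hfl0 : n₀ ≤ ⌊x⌋₊ := Nat.le_floor hx0
  have h1 : Pool.Agent.E8helper84.RM.I (zf S θ) x ≤ Q ⌊x⌋₊ (zf S θ) :=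
    I_le_Q _ (by linarith) (Nat.lt_floor_add_one x)
  have hVp := VV_pos ⌊x⌋₊
  have h2 : Q ⌊x⌋₊ (zf S θ) = Q ⌊x⌋₊ (zf S θ) / VV ⌊x⌋₊ * VV ⌊x⌋₊ := by
    rw [div_mul_cancel₀ _ hVp.ne']
  have h3 : Q ⌊x⌋₊ (zf S θ) / VV ⌊x⌋₊ ≤ Pj S n₀ N θ := by
    unfold Pj
    have := Finset.le_sup' (fun k => if n₀ ≤ k then Q k (zf S θ) / VV k else 0)
      (Finset.mem_range.2 (by omega : ⌊x⌋₊ < N + 1))
    simp only [if_pos hfl0] at this
    exact this
  have h4 : VV ⌊x⌋₊ ≤ C * Real.log x := by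
    refine (hp _ hfl).trans ?_
    refine mul_le_mul_of_nonneg_left ?_ hC.le
    refine Real.log_le_log ?_ (Nat.floor_le (by linarith))
    have : (2 : ℝ) ≤ ((⌊x⌋₊ : ℕ) : ℝ) := by exact_mod_cast hfl
    linarith
  have h5 : 0 ≤ Pj S n₀ N θ := (div_nonneg (Q_nonneg _ _) hVp.le).trans h3
  rw [h2] at h1
  exact h1.trans (mul_le_mul h3 h4 hVp.le h5)

open scoped Classical in
theorem chars3 {ε : ℝ} (hε : 0 < ε) : ∃ x₀ : ℝ, 2 ≤ x₀ ∧ ∀ X : ℝ, ∀ᶠ q : ℕ in atTop,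
      (((Finset.univ.filter fun χ : DirichletCharacter ℂ q =>
        ∃ x : ℝ, x₀ ≤ x ∧ x ≤ X ∧ ε * Real.log x < If (fun n => χ n) x).card : ℕ) : ℝ) ≤
          ε * (q.totient : ℝ) := by
  obtain ⟨C, hC, hp⟩ := prod_bound
  obtain ⟨l, hl⟩ : ∃ l : ℝ, l = ε / (2 * C) := ⟨_, rfl⟩
  have hl0 : 0 < l := by rw [hl]; positivity
  have hlC : 2 * l * C = ε := by rw [hl]; field_simp
  obtain ⟨n₀, hn₀⟩ := unif hl0 (half_pos hε)
  refine ⟨max 2 n₀, le_max_left _ _, fun X => ?_⟩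
  obtain ⟨N, hN⟩ : ∃ N : ℕ, N = ⌊X⌋₊ := ⟨_, rfl⟩
  have h1 : ∀ S ∈ ((Icc 1 N).filter Nat.Prime).powerset, ∀ᶠ q : ℕ in atTop, (∀ p ∈ S, ¬ p ∣ q) →
      (avgL (fun χ : DirichletCharacter ℂ q => thc S χ) (cj S n₀ N l)).re ≤ ε := by
    intro S hS
    rw [Finset.mem_powerset] at hS
    have hSp : ∀ p ∈ S, p.Prime := fun p hp => (Finset.mem_filter.1 (hS hp)).2
    have h2 := chars_weyl hSp (cj S n₀ N l)
    have h3 : Tendsto (fun q : ℕ => (avgL (fun χ : DirichletCharacter ℂ q => thc S χ)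
        (cj S n₀ N l)).re) (atTop ⊓ 𝓟 {q | ∀ p ∈ S, ¬ p ∣ q})
        (𝓝 (∫ θ, cj S n₀ N l θ ∂(tor S)).re) := (Complex.continuous_re.tendsto _).comp h2
    have h4 : (∫ θ, cj S n₀ N l θ ∂(tor S)).re < ε :=
      (int_cj S n₀ N hl0 (half_pos hε).le (hn₀ (ind S) N)).trans_lt (half_lt_self hε)
    have h5 := h3.eventually (gt_mem_nhds h4)
    rw [eventually_inf_principal] at h5
    filter_upwards [h5] with q hq hh
    exact (hq hh).le
  have h2 := (Filter.eventually_all_finset _).2 h1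
  filter_upwards [h2, eventually_gt_atTop 0] with q hq hq0
  have : NeZero q := ⟨by omega⟩
  obtain ⟨S, hS⟩ : ∃ S, S = Sq N q := ⟨_, rfl⟩
  have h3 := hq S (by
    rw [Finset.mem_powerset, hS]; exact Finset.filter_subset _ _) (fun p hp => by
      rw [hS] at hp; exact (mem_Sq.1 hp).2.2)
  have h4 := avgL_cj (n₀ := n₀) (N := N) (fun χ : DirichletCharacter ℂ q => thc S χ) hl0
  have hcard : (Fintype.card (DirichletCharacter ℂ q) : ℝ) = q.totient := by
    rw [← Nat.card_eq_fintype_card, DirichletCharacter.card_eq_totient_of_hasEnoughRootsOfUnity ℂ q]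
  have h5 : (Finset.univ.filter fun χ : DirichletCharacter ℂ q =>
      ∃ x : ℝ, max 2 (n₀ : ℝ) ≤ x ∧ x ≤ X ∧ ε * Real.log x < If (fun n => χ n) x) ⊆
      Finset.univ.filter fun χ : DirichletCharacter ℂ q => 2 * l ≤ Pj S n₀ N (thc S χ) := by
    intro χ hχ
    rw [Finset.mem_filter] at hχ ⊢
    refine ⟨Finset.mem_univ _, ?_⟩
    obtain ⟨-, x, hx2, hxX, hx⟩ := hχ
    have hx2' : 2 ≤ x := (le_max_left _ _).trans hx2
    have hxn : (n₀ : ℝ) ≤ x := (le_max_right _ _).trans hx2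
    have hfl : ⌊x⌋₊ ≤ N := by rw [hN]; exact Nat.floor_le_floor hxX
    have e1 : If (fun n => χ n) x = Pool.Agent.E8helper84.RM.I (zf S (thc S χ)) x :=
      If_eq (fun n hn hs => by rw [hS]; exact chi_prod hn hs χ) (by linarith) hfl
    have e2 := I_le_Pj hp hC S hx2' hxn hfl (thc S χ)
    have hlog : 0 < Real.log x := Real.log_pos (by linarith)
    by_contra hcon
    rw [not_le] at hcon
    have e3 : Pj S n₀ N (thc S χ) * (C * Real.log x) ≤ 2 * l * (C * Real.log x) :=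
      mul_le_mul_of_nonneg_right hcon.le (by positivity)
    have e4 : 2 * l * (C * Real.log x) = ε * Real.log x := by rw [← hlC]; ring
    rw [e1] at hx
    linarith
  calc _ ≤ (((Finset.univ.filter fun χ : DirichletCharacter ℂ q =>
        2 * l ≤ Pj S n₀ N (thc S χ)).card : ℕ) : ℝ) := by exact_mod_cast Finset.card_le_card h5
    _ ≤ _ := h4
    _ ≤ (q.totient : ℝ) * ε := by
        rw [hcard]; exact mul_le_mul_of_nonneg_left h3 (Nat.cast_nonneg _)
    _ = _ := by ring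

end Pool.Agent.E8helper84.RQ
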